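import Pool.Agent.T9h27.Z.Gmw
import Pool.Agent.Y773.IQ.Good

/-!
# The L-functions of all primitive ray class characters satisfy `GoodW`, uniformly (helper27)
-/

set_option autoImplicit false
set_option linter.unusedSectionVars false

open NumberField Complex Filter Topology MeasureTheory
open scoped ComplexConjugate

namespace Pool.Agent.T9h27.Z

open Pool.Agent.Y773 (TPos LI VM cc FEd)
open Pool.Agent.Y767 (eq_of_LI)
open Pool.Agent.Y773.G (IsPrimChar)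
open H370 (mult DD)

section

variable (K : Type) [Field K] [NumberField K]

/-- the complex conjugate character -/
noncomputable def cjc (ψ : Ideal (𝓞 K) →*₀ ℂ) : Ideal (𝓞 K) →*₀ ℂ where
  toFun 𝔞 := conj (ψ 𝔞)
  map_zero' := by simp only [map_zero]
  map_one' := by simp only [map_one]
  map_mul' x y := by simp only [map_mul]

lemma cjc_apply (ψ : Ideal (𝓞 K) →*₀ ℂ) (𝔞 : Ideal (𝓞 K)) : cjc K ψ 𝔞 = conj (ψ 𝔞) := rfl

lemma cjc_prim {𝔣 : Ideal (𝓞 K)} {ψ : Ideal (𝓞 K) →*₀ ℂ} (h : IsPrimChar K 𝔣 ψ) :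
    IsPrimChar K 𝔣 (cjc K ψ) where
  ne_bot := h.ne_bot
  supp 𝔞 ha := by
    rw [cjc_apply, map_ne_zero]
    exact h.supp 𝔞 ha
  ray x h0 h1 h2 := by
    rw [cjc_apply, h.ray x h0 h1 h2, map_one]
  prim 𝔤 h1 h2 := by
    obtain ⟨x, x1, x2, x3, x4⟩ := h.prim 𝔤 h1 h2
    refine ⟨x, x1, x2, x3, ?_⟩
    rw [cjc_apply]
    intro h5
    apply x4
    have h6 := congrArg conj h5
    rwa [Complex.conj_conj, map_one] at h6

lemma LI_cjc (ψ : Ideal (𝓞 K) →*₀ ℂ) {s : ℂ} (hs : 1 < s.re) :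
    LI (cjc K ψ) s = conj (LI ψ (conj s)) := by
  unfold LI
  rw [Complex.conj_tsum]
  refine tsum_congr fun 𝔞 => ?_
  rw [cjc_apply, map_mul]
  congr 1
  have hne : -s ≠ 0 := by
    intro h
    rw [neg_eq_zero] at h
    rw [h] at hs
    simp at hs
    linarith
  have hne' : -conj s ≠ 0 := by
    intro h
    rw [neg_eq_zero] at h
    apply hne
    have := congrArg conj h
    rw [Complex.conj_conj, map_zero] at this
    rw [this, neg_zero]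
  rcases Nat.eq_zero_or_pos (Ideal.absNorm 𝔞) with h0 | h0
  · rw [h0, Nat.cast_zero, Complex.zero_cpow hne, Complex.zero_cpow hne', map_zero]
  · have h1 : (0 : ℝ) < (Ideal.absNorm 𝔞 : ℝ) := by exact_mod_cast h0
    have h2 := Pool.Agent.W820.TW.conj_real_cpow h1 (-conj s)
    rw [map_neg, Complex.conj_conj] at h2
    rw [← Complex.ofReal_natCast, h2]

lemma deriv_conj' {F : ℂ → ℂ} (hF : Differentiable ℂ F) (s : ℂ) :
    deriv (fun z => conj (F (conj z))) s = conj (deriv F (conj s)) := by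
  have h1 : HasDerivAt (fun z => conj (F (conj z))) (conj (deriv F (conj s))) s := by
    have h2 := (hF (conj s)).hasDerivAt
    have h3 := h2.conj_conj
    rw [Complex.conj_conj] at h3
    exact h3
  exact h1.deriv

theorem goodW : ∃ A : ℝ, 1 ≤ A ∧ ∀ (𝔣 : Ideal (𝓞 K)) (ψ : Ideal (𝓞 K) →*₀ ℂ), 𝔣 ≠ ⊤ →
    IsPrimChar K 𝔣 ψ → ∀ F : ℂ → ℂ, Differentiable ℂ F → (∀ s : ℂ, 1 < s.re → F s = LI ψ s) →
    GoodW (Module.finrank ℚ K) A ((Ideal.absNorm 𝔣 : ℝ) ^ (1 / (Module.finrank ℚ K : ℝ)))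
      F (fun m => cc ψ m * (ArithmeticFunction.vonMangoldt m : ℂ)) := by
  have hSig := Pool.Agent.Y772.G.t_sig
  have hE := Pool.Agent.Y773.G.t_ent
  obtain ⟨A₀, hA₀, hD⟩ := Pool.Agent.Y772.DK.t_dirK K
  obtain ⟨A₁, hA₁, hG⟩ := Pool.Agent.Y773.IQ.good K
  have hn1 : (1 : ℝ) ≤ (Module.finrank ℚ K : ℝ) := by
    exact_mod_cast Module.finrank_pos (R := ℚ) (M := K)
  obtain ⟨C₂, hC₂, hgh⟩ := W388.LV.good_height_D (Module.finrank ℚ K : ℝ) A₁ hn1 hA₁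
  obtain ⟨C₃, hC₃, hleft⟩ := left_line
  have hdN : (1 : ℝ) ≤ (Ideal.absNorm (differentIdeal ℤ (𝓞 K)) : ℝ) := by
    have : Ideal.absNorm (differentIdeal ℤ (𝓞 K)) ≠ 0 := by
      rw [Ne, Ideal.absNorm_eq_zero_iff]
      exact differentIdeal_ne_bot
    exact_mod_cast Nat.one_le_iff_ne_zero.mpr this
  obtain ⟨n, hn⟩ : ∃ n : ℝ, n = (Module.finrank ℚ K : ℝ) := ⟨_, rfl⟩
  obtain ⟨Nd, hNd⟩ : ∃ Nd : ℝ, Nd = (Ideal.absNorm (differentIdeal ℤ (𝓞 K)) : ℝ) := ⟨_, rfl⟩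
  rw [← hNd] at hdN
  rw [← hn] at hn1 hG hgh ⊢
  have hn0 : 0 < n := by linarith
  obtain ⟨A, hA⟩ : ∃ A : ℝ, A = A₁ + C₂ + (Real.log Nd + n * C₃ + A₁) + n := ⟨_, rfl⟩
  have hlN : 0 ≤ Real.log Nd := Real.log_nonneg hdN
  have hnC : 0 ≤ n * C₃ := by positivity
  refine ⟨A, by linarith, fun 𝔣 ψ htop h F hF hFL => ?_⟩
  have hq1 : (1 : ℝ) ≤ (Ideal.absNorm 𝔣 : ℝ) := by
    have : Ideal.absNorm 𝔣 ≠ 0 := by
      rw [Ne, Ideal.absNorm_eq_zero_iff]; exact h.ne_bot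
    exact_mod_cast Nat.one_le_iff_ne_zero.mpr this
  obtain ⟨Q, hQ⟩ : ∃ Q : ℝ, Q = (Ideal.absNorm 𝔣 : ℝ) ^ (1 / n) := ⟨_, rfl⟩
  have hQ1 : 1 ≤ Q := by rw [hQ]; exact Real.one_le_rpow hq1 (by positivity)
  have hcard : (Fintype.card (K →+* ℂ) : ℝ) = n := by rw [Pool.Agent.Y773.G.card_emb, hn]
  have hQn : Q ^ Fintype.card (K →+* ℂ) = (Ideal.absNorm 𝔣 : ℝ) := by
    rw [← Real.rpow_natCast, hcard, hQ, ← Real.rpow_mul (by linarith),
      one_div_mul_cancel hn0.ne', Real.rpow_one]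
  have hψ1 : ∀ 𝔞, ‖ψ 𝔞‖ ≤ 1 := h.norm_le_one hSig
  obtain ⟨d1, d2, d3, d4, d5, d6, d7, -, d8, d9, -⟩ := hD ψ hψ1
  obtain ⟨e, he⟩ := h.isModChar hSig htop
  obtain ⟨F', hFE, hFL'⟩ := Pool.Agent.Y773.G.fe_prim h he
  have hFF : F' = F := eq_of_LI hFE.diff hF fun s hs => by rw [hFL' s hs, hFL s hs]
  rw [hFF] at hFE
  have hRe : ((Ideal.absNorm 𝔣 * Ideal.absNorm (differentIdeal ℤ (𝓞 K)) : ℕ) : ℝ) =
      Nd * Q ^ Fintype.card (K →+* ℂ) := by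
    rw [hQn, hNd]; push_cast; ring
  rw [hRe] at hFE
  have hRp : 0 < Nd * Q ^ Fintype.card (K →+* ℂ) := by positivity
  have hnz : ∀ s : ℂ, 1 ≤ s.re → F s ≠ 0 := by
    intro s h1
    rcases lt_or_eq_of_le h1 with h3 | h3
    · rw [hFL _ h3]
      exact d3 _ h3
    · exact Pool.Agent.Y772.G.nv_prim hE h htop h3.symm (hF.analyticAt s) hFL
  have hld : ∀ s : ℂ, 1 < s.re → deriv F s / F s = - ∑' m : ℕ,
      (cc ψ m * (ArithmeticFunction.vonMangoldt m : ℂ)) * (m : ℂ) ^ (-s) := by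
    intro s h1
    have h5 : deriv F s = deriv (LI ψ) s := by
      refine Filter.EventuallyEq.deriv_eq ?_
      have h6 : {z : ℂ | 1 < z.re} ∈ 𝓝 s :=
        (isOpen_lt continuous_const Complex.continuous_re).mem_nhds h1
      filter_upwards [h6] with z hz
      exact hFL z hz
    rw [h5, hFL _ h1, d4 _ h1]
  -- the two half planes
  obtain ⟨F₁, hF₁, hF₁L, hG₁⟩ := hG 𝔣 ψ htop h
  have hF₁F : F₁ = F := eq_of_LI hF₁ hF fun s hs => by rw [hF₁L s hs, hFL s hs]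
  rw [hF₁F, ← hQ] at hG₁
  obtain ⟨F₂, hF₂, hF₂L, hG₂⟩ := hG 𝔣 (cjc K ψ) htop (cjc_prim K h)
  rw [← hQ] at hG₂
  have hFc : Differentiable ℂ fun z => conj (F (conj z)) := by
    intro s
    exact (hF (conj s)).hasDerivAt.conj_conj.differentiableAt.congr_of_eventuallyEq
      (by
        have : conj (conj s) = s := Complex.conj_conj s
        exact Eventually.of_forall fun z => rfl) |> fun h => by
        rw [Complex.conj_conj] at h
        exact h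
  have hF₂F : F₂ = fun z => conj (F (conj z)) := eq_of_LI hF₂ hFc fun s hs => by
    rw [hF₂L s hs, LI_cjc K ψ hs, hFL (conj s) (by simpa using hs)]
  have hcoef := hG₁.coef
  have hmono : W388.LV.CoefE A (fun m => cc ψ m * (ArithmeticFunction.vonMangoldt m : ℂ)) :=
    ⟨hcoef.h1, hcoef.sm, hcoef.le.trans (by rw [hA]; linarith)⟩
  have hB : ∀ y : ℝ, ‖deriv F (⟨7 / 4, y⟩ : ℂ) / F (⟨7 / 4, y⟩ : ℂ)‖ ≤ A₁ := by
    intro y
    rw [hld _ (by norm_num), norm_neg]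
    exact hcoef.norm_DD y
  have hconj : ∀ σ U : ℝ, conj (⟨σ, U⟩ : ℂ) = (⟨σ, -U⟩ : ℂ) := fun σ U => rfl
  refine ⟨hF, hnz, fun s h1 h2 h3 => left_ne hFE hRp hnz h1 h2 h3, ?_,
    fun s h1 h2 => order_symm hFE hRp h1 h2, hmono, hld, ?_, ?_, ?_⟩
  · have h1 := mult_zero_le hFE hRp hnz
    have h2 : (mult F 0 : ℝ) ≤ (Fintype.card (K →+* ℂ) : ℝ) := by exact_mod_cast h1
    rw [hcard] at h2
    rw [hA]
    linarith
  · intro y
    have h1 := hleft (K →+* ℂ) Nd Q A₁ (Pool.Agent.Y773.G.ex e) F hdN hQ1 hFE hnz hB y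
    rw [hcard] at h1
    rw [← hQ, hA]
    linarith
  · intro T hT
    obtain ⟨U, hU, hg⟩ := hgh Q F _ hQ1 hG₁ T hT
    rw [← hQ]
    refine ⟨U, hU, fun σ hσ => ⟨(hg σ hσ).1, (hg σ hσ).2.trans ?_⟩⟩
    refine mul_le_mul_of_nonneg_right ?_ (sq_nonneg _)
    rw [hA]
    linarith
  · intro T hT
    obtain ⟨U, hU, hg⟩ := hgh Q F₂ _ hQ1 hG₂ T hT
    rw [← hQ]
    refine ⟨U, hU, fun σ hσ => ?_⟩
    obtain ⟨g1, g2⟩ := hg σ hσ
    rw [hF₂F] at g1 g2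
    rw [deriv_conj' hF] at g2
    have hk := hconj σ U
    simp only at g1 g2
    rw [hk] at g1 g2
    rw [← map_div₀, RCLike.norm_conj] at g2
    refine ⟨fun h0 => g1 (by rw [h0, map_zero]), g2.trans ?_⟩
    refine mul_le_mul_of_nonneg_right ?_ (sq_nonneg _)
    rw [hA]
    linarith

end

end Pool.Agent.T9h27.Z
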