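import Pool.Agent.T9h27.Z.Win

/-!
# The members with a simple critical zero near a given height (helper27)
-/

set_option autoImplicit false

open MeasureTheory Complex Filter Topology Set
open scoped ComplexConjugate

namespace Pool.Agent.T9h27.Z

open H385 (Rw zz)
open H370 (mult zset NN Ns Nd)

lemma ns_le_nn {F : ℂ → ℂ} {T1 T2 : ℝ} (hfin : (zset F T1 T2).Finite) :
    (Ns F T1 T2 : ℝ) ≤ (NN F T1 T2 : ℝ) := by
  classical
  have hfin2 : {s : ℂ | s ∈ zset F T1 T2 ∧ s.re = 1 / 2 ∧ mult F s = 1}.Finite :=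
    hfin.subset fun s hs => hs.1
  have h1 : Ns F T1 T2 ≤ NN F T1 T2 := by
    unfold Ns NN
    rw [finsum_mem_eq_finite_toFinset_sum _ hfin, Set.ncard_eq_toFinset_card _ hfin2,
      Finset.card_eq_sum_ones]
    have h2 : hfin2.toFinset ⊆ hfin.toFinset := by
      intro s hs
      rw [Set.Finite.mem_toFinset] at hs ⊢
      exact hs.1
    refine le_trans (Finset.sum_le_sum fun s hs => ?_)
      (Finset.sum_le_sum_of_subset_of_nonneg h2 fun _ _ _ => Nat.zero_le _)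
    rw [Set.Finite.mem_toFinset] at hs
    exact hs.2.2.ge
  exact_mod_cast h1

section

variable {J : Type} {ι : J → Type} {S : (j : J) → Finset (ι j)} {F : (j : J) → ι j → ℂ → ℂ}
  {a : (j : J) → ι j → ℕ → ℂ} {Q : (j : J) → ι j → ℝ} {X : J → ℝ} {q : J → ℕ} {c : ℕ → ℂ}
  {d A l₂ D θ : ℝ}

open Classical in
/-- **at every height a large proportion of the family has a simple critical zero close to
that height** -/
theorem pos_prop (hc : W388.SelE c) (h : FD S F a Q X q c d A l₂ D θ) {l : ℝ} (hl : 1 / 2 ≤ l)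
    (hl2 : l < l₂) (hl21 : l₂ ≤ 1) (hD : 0 ≤ D) {γ : ℝ} (h0 : 0 < γ) (hπ : γ < Real.pi) {p : ℝ}
    (hp0 : 0 ≤ p)
    (hp : Rw γ 0 / l + 2 * l * D * (∫ α in (0 : ℝ)..1, α * Rw γ α) < 2 - p) :
    ∃ B η X0 : ℝ, 0 < B ∧ 0 < η ∧ 1 ≤ X0 ∧ ∀ j, X0 ≤ X j → ∀ t : ℝ,
      |t| ≤ (X j) ^ η → p * (S j).card ≤
        ((S j).filter fun i => 0 < Ns (F j i) t (t + B / Real.log (X j))).card := by
  obtain ⟨κ, hκ1, hκ2⟩ := exists_between hp
  have hκ3 : 0 < 3 - κ := by linarith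
  obtain ⟨δ, hδ⟩ : ∃ δ : ℝ, δ = (2 - κ - p) / (3 - κ) := ⟨_, rfl⟩
  have hδ0 : 0 < δ := by
    rw [hδ]
    exact div_pos (by linarith) hκ3
  have hδ1 : δ * (3 - κ) = 2 - κ - p := by
    rw [hδ]
    field_simp
  obtain ⟨B, η, X1, hB, hη, hX1, hwin⟩ := win hc h hl hl2 hl21 hD h0 hπ hκ1 hδ0
  have hpi := Real.pi_pos
  refine ⟨B, η, max X1 (Real.exp B), by linarith, hη, le_max_of_le_left hX1,
    fun j hj t ht => ?_⟩
  have k1 : X1 ≤ X j := (le_max_left _ _).trans hj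
  have k3 : Real.exp B ≤ X j := (le_max_right _ _).trans hj
  have hX := h.hX j
  have hR : B ≤ Real.log (X j) := by
    rw [Real.le_log_iff_exp_le (by linarith)]
    exact k3
  obtain ⟨R, hRd⟩ : ∃ R : ℝ, R = Real.log (X j) := ⟨_, rfl⟩
  have hwin' := hwin j k1 t (t + B / Real.log (X j))
  rw [← hRd] at hwin' hR ⊢
  have hR0 : 0 < R := by linarith
  have hr1 : B / R ≤ 1 := by rw [div_le_one hR0]; exact hR
  have e1 : t + B / R - t = B / R := by ring
  have e2 : B / R * R = B := by field_simp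
  have hXη : 1 ≤ (X j) ^ η := Real.one_le_rpow hX hη.le
  obtain ⟨w1, w2, -, w4⟩ := hwin' ht (by rw [e1, e2]) (by rw [e1]; linarith)
  rw [e1, e2] at w4
  rw [Finset.sum_sub_distrib, ← Finset.mul_sum] at w2
  have hcard : (0 : ℝ) ≤ (S j).card := Nat.cast_nonneg _
  obtain ⟨m, hm⟩ : ∃ m : ℝ, m = B / (2 * Real.pi) := ⟨_, rfl⟩
  rw [← hm] at w4
  have hm0 : 0 < m := by rw [hm]; positivity
  -- the number of all zeros
  have hNN : (1 - δ) * m * (S j).card ≤ ∑ i ∈ S j, (NN (F j i) t (t + B / R) : ℝ) := by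
    have h1 : ∑ i ∈ S j, (m - |(NN (F j i) t (t + B / R) : ℝ) - m|) ≤
        ∑ i ∈ S j, (NN (F j i) t (t + B / R) : ℝ) := by
      refine Finset.sum_le_sum fun i _ => ?_
      have := (abs_le.mp (le_refl |(NN (F j i) t (t + B / R) : ℝ) - m|)).1
      linarith
    rw [Finset.sum_sub_distrib, Finset.sum_const, nsmul_eq_mul] at h1
    linarith
  obtain ⟨G, hG⟩ : ∃ G : Finset (ι j), G = (S j).filter fun i => 0 < Ns (F j i) t (t + B / R) :=
    ⟨_, rfl⟩
  rw [← hG]
  have hGs : G ⊆ S j := by rw [hG]; exact Finset.filter_subset _ _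
  have hGsum : ∑ i ∈ S j, (Ns (F j i) t (t + B / R) : ℝ) =
      ∑ i ∈ G, (Ns (F j i) t (t + B / R) : ℝ) := by
    symm
    refine Finset.sum_subset hGs fun i hi hn => ?_
    rw [hG, Finset.mem_filter, not_and, not_lt, Nat.le_zero] at hn
    rw [hn hi, Nat.cast_zero]
  have hup : ∑ i ∈ G, (Ns (F j i) t (t + B / R) : ℝ) ≤ G.card * m + δ * m * (S j).card := by
    have h1 : ∑ i ∈ G, (Ns (F j i) t (t + B / R) : ℝ) ≤
        ∑ i ∈ G, (m + |(NN (F j i) t (t + B / R) : ℝ) - m|) := by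
      refine Finset.sum_le_sum fun i hi => ?_
      have h2 := ns_le_nn (w1 i (hGs hi))
      have := le_abs_self ((NN (F j i) t (t + B / R) : ℝ) - m)
      linarith
    refine h1.trans ?_
    rw [Finset.sum_add_distrib, Finset.sum_const, nsmul_eq_mul]
    refine add_le_add le_rfl (le_trans ?_ w4)
    exact Finset.sum_le_sum_of_subset_of_nonneg hGs fun _ _ _ => abs_nonneg _
  rw [← hGsum] at hup
  have h3 := mul_le_mul_of_nonneg_left hNN (by linarith : 0 ≤ 2 - κ)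
  have h4 : (p * (S j).card) * m ≤ G.card * m := by
    have e3 : (2 - κ) * ((1 - δ) * m * (S j).card) - δ * m * (S j).card =
        (2 - κ - δ * (3 - κ)) * (m * (S j).card) := by ring
    rw [hδ1] at e3
    have e4 : (2 - κ - (2 - κ - p)) * (m * (S j).card) = (p * (S j).card) * m := by ring
    rw [e4] at e3
    linarith
  exact le_of_mul_le_mul_right h4 hm0

end

end Pool.Agent.T9h27.Z
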