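import Pool.Agent.T9h27.Z.Cell
import Pool.Agent.H385R2.PerChi

/-!
# The exceptional members of the family (helper27)
-/

set_option autoImplicit false

open Complex Set
open H385 (zz)
open H385.PerChi (zz_re zz_im)

namespace Pool.Agent.T9h27.Z

lemma zz_im_abs (z : ℂ) : |(zz z).im| = dl z := by
  rw [zz_im, abs_neg]
  rfl

lemma om_nonneg {b : ℝ} (hb : 0 ≤ b) (T1 T2 x : ℝ) (p : ℕ) : 0 ≤ om b T1 T2 x p := by
  unfold om
  positivity

lemma inv_le_one' {b : ℝ} (hb : 0 ≤ b) (x : ℝ) : (1 + b * |x|)⁻¹ ≤ 1 := by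
  refine inv_le_one_of_one_le₀ ?_
  have : 0 ≤ b * |x| := by positivity
  linarith

lemma om_le {b : ℝ} (hb : 0 ≤ b) (T1 T2 x : ℝ) : om b T1 T2 x 6 ≤ om b T1 T2 x 2 := by
  unfold om
  refine add_le_add ?_ ?_
  · exact pow_le_pow_of_le_one (by positivity) (inv_le_one' hb _) (by norm_num)
  · exact pow_le_pow_of_le_one (by positivity) (inv_le_one' hb _) (by norm_num)

lemma cz_outz {b T1 T2 : ℝ} (hb : 1 ≤ b) (hT : T1 ≤ T2) {z : ℂ} (hz : dl z ≤ 1 / 2)
    (h : ¬ (T1 < z.im ∧ z.im ≤ T2)) :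
    ‖cz b T1 T2 (zz z)‖ ≤ 440000 * Real.exp (8 * b * dl z) * om b T1 T2 z.im 6 := by
  have hz' : |(zz z).im| ≤ 1 / 2 := by rw [zz_im_abs]; exact hz
  have hb0 : 0 ≤ b := by linarith
  rw [← zz_im_abs]
  by_cases h1 : z.im ≤ T1
  · have h2 := cz_out hb hT hz' (a := |z.im - T1|) (abs_nonneg _) (by
      intro τ hτ
      rw [zz_re, abs_sub_comm z.im, abs_of_nonneg (by linarith)]
      have := hτ.1
      rw [abs_of_nonneg (by linarith)]
      linarith)
    refine h2.trans (mul_le_mul_of_nonneg_left ?_ (by positivity))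
    unfold om
    have : 0 ≤ (1 + b * |z.im - T2|)⁻¹ ^ 6 := by positivity
    linarith
  · have h3 : T2 < z.im := by
      push Not at h h1
      exact h h1
    have h2 := cz_out hb hT hz' (a := |z.im - T2|) (abs_nonneg _) (by
      intro τ hτ
      rw [zz_re, abs_of_nonneg (by linarith)]
      have := hτ.2
      rw [abs_sub_comm, abs_of_nonneg (by linarith)]
      linarith)
    refine h2.trans (mul_le_mul_of_nonneg_left ?_ (by positivity))
    unfold om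
    have : 0 ≤ (1 + b * |z.im - T1|)⁻¹ ^ 6 := by positivity
    linarith

lemma cz_inz {b T1 T2 : ℝ} (hb : 1 ≤ b) (hT : T1 ≤ T2) {z : ℂ} (hz : dl z ≤ 1 / 2)
    (h : T1 < z.im ∧ z.im ≤ T2) :
    ‖1 - cz b T1 T2 (zz z)‖ ≤ 440000 * Real.exp (8 * b * dl z) * om b T1 T2 z.im 6 := by
  have hz' : |(zz z).im| ≤ 1 / 2 := by rw [zz_im_abs]; exact hz
  have hb0 : 0 ≤ b := by linarith
  obtain ⟨h1, h2⟩ := h
  rw [← zz_im_abs]
  have h3 := cz_in hb hT hz' (a := min |z.im - T1| |z.im - T2|)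
    (le_min (abs_nonneg _) (abs_nonneg _)) (by
      intro τ hτ
      rw [zz_re]
      rw [mem_Ioc, not_and_or] at hτ
      push Not at hτ
      rcases hτ with h4 | h4
      · refine (min_le_left _ _).trans ?_
        rw [abs_of_nonneg (by linarith), abs_sub_comm, abs_of_nonneg (by linarith)]
        linarith
      · refine (min_le_right _ _).trans ?_
        rw [abs_sub_comm, abs_of_nonneg (by linarith), abs_of_nonneg (by linarith)]
        linarith)
  refine h3.trans (mul_le_mul_of_nonneg_left ?_ (by positivity))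
  unfold om
  rcases le_total |z.im - T1| |z.im - T2| with h4 | h4
  · rw [min_eq_left h4]
    have : 0 ≤ (1 + b * |z.im - T2|)⁻¹ ^ 6 := by positivity
    linarith
  · rw [min_eq_right h4]
    have : 0 ≤ (1 + b * |z.im - T1|)⁻¹ ^ 6 := by positivity
    linarith

lemma radd {x y p : ℝ} (hx : 0 ≤ x) (hy : 0 ≤ y) (hp : 0 ≤ p) (hp1 : p ≤ 1) :
    (x + y) ^ p ≤ x ^ p + y ^ p := by
  have h := NNReal.rpow_add_le_add_rpow (⟨x, hx⟩ : NNReal) ⟨y, hy⟩ hp hp1
  exact_mod_cast h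

lemma rsum {κ : Type} (S : Finset κ) (f : κ → ℝ) (hf : ∀ k ∈ S, 0 ≤ f k) {p : ℝ} (hp : 0 < p)
    (hp1 : p ≤ 1) : (∑ k ∈ S, f k) ^ p ≤ ∑ k ∈ S, f k ^ p := by
  classical
  induction S using Finset.induction_on with
  | empty =>
    rw [Finset.sum_empty, Finset.sum_empty, Real.zero_rpow hp.ne']
  | insert k S hk ih =>
    rw [Finset.sum_insert hk, Finset.sum_insert hk]
    have h1 : ∀ j ∈ S, 0 ≤ f j := fun j hj => hf j (Finset.mem_insert_of_mem hj)
    refine (radd (hf k (Finset.mem_insert_self _ _)) (Finset.sum_nonneg h1) hp.le hp1).trans ?_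
    linarith [ih h1]

section

variable {ι : Type} {s : Finset ι} {Z : ι → Finset ℂ} {m : ι → ℂ → ℕ} {R : ℝ}

open Classical in
/-- the two error sums -/
theorem out_in (hR : 0 < R) {g A : ℝ} (hA : 0 ≤ A) (hC : HC s Z m R g A) {T1 T2 : ℝ}
    (hT : T1 ≤ T2) {ε : ℝ} (hε : 0 < ε) (hb : 1 ≤ ε * R) (hg : 8 * ε ≤ g)
    (hZ : ∀ i ∈ s, ∀ z ∈ Z i, dl z ≤ 1 / 2) :
    ∑ i ∈ s, ∑ z ∈ (Z i).filter (fun z => ¬ (T1 < z.im ∧ z.im ≤ T2)),
      (m i z : ℝ) * ‖cz (ε * R) T1 T2 (zz z)‖ ≤ 440000 * A * (8 + 4 / ε) * s.card ∧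
    ∑ i ∈ s, ∑ z ∈ (Z i).filter (fun z => T1 < z.im ∧ z.im ≤ T2),
      (m i z : ℝ) * ‖1 - cz (ε * R) T1 T2 (zz z)‖ ≤ 440000 * A * (8 + 4 / ε) * s.card := by
  have h1 := cell_om hR hA hC T1 T2 hε
  have hb0 : 0 ≤ ε * R := by positivity
  have h2 : 440000 * ∑ i ∈ s, ∑ z ∈ Z i, (m i z : ℝ) * Real.exp (g * R * dl z) *
      om (ε * R) T1 T2 z.im 2 ≤ 440000 * A * (8 + 4 / ε) * s.card := by
    have := mul_le_mul_of_nonneg_left h1 (by norm_num : (0 : ℝ) ≤ 440000)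
    refine this.trans (le_of_eq ?_)
    ring
  have key : ∀ (i : ι) (z : ℂ) (w : ℝ),
      w ≤ 440000 * Real.exp (8 * (ε * R) * dl z) * om (ε * R) T1 T2 z.im 6 →
      (m i z : ℝ) * w ≤ 440000 * ((m i z : ℝ) * Real.exp (g * R * dl z) *
        om (ε * R) T1 T2 z.im 2) := by
    intro i z w hw
    have e1 : Real.exp (8 * (ε * R) * dl z) ≤ Real.exp (g * R * dl z) := by
      refine Real.exp_le_exp.mpr (mul_le_mul_of_nonneg_right ?_ (dl_nonneg z))
      have := mul_le_mul_of_nonneg_right hg hR.le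
      linarith
    have e2 := om_le hb0 T1 T2 z.im
    have e3 := om_nonneg hb0 T1 T2 z.im 6
    have e4 : w ≤ 440000 * Real.exp (g * R * dl z) * om (ε * R) T1 T2 z.im 2 := by
      refine hw.trans ?_
      gcongr
    calc (m i z : ℝ) * w ≤ (m i z : ℝ) * (440000 * Real.exp (g * R * dl z) *
          om (ε * R) T1 T2 z.im 2) := mul_le_mul_of_nonneg_left e4 (Nat.cast_nonneg _)
      _ = _ := by ring
  have hnn : ∀ (i : ι) (z : ℂ), 0 ≤ 440000 * ((m i z : ℝ) * Real.exp (g * R * dl z) *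
        om (ε * R) T1 T2 z.im 2) := by
    intro i z
    have := om_nonneg hb0 T1 T2 z.im 2
    positivity
  constructor
  · refine le_trans ?_ h2
    rw [Finset.mul_sum]
    refine Finset.sum_le_sum fun i hi => ?_
    rw [Finset.mul_sum]
    refine (Finset.sum_le_sum fun z hz => ?_).trans
      (Finset.sum_le_sum_of_subset_of_nonneg (Finset.filter_subset _ _) fun z _ _ => hnn i z)
    obtain ⟨z1, z2⟩ := Finset.mem_filter.mp hz
    exact key i z _ (cz_outz hb hT (hZ i hi z z1) z2)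
  · refine le_trans ?_ h2
    rw [Finset.mul_sum]
    refine Finset.sum_le_sum fun i hi => ?_
    rw [Finset.mul_sum]
    refine (Finset.sum_le_sum fun z hz => ?_).trans
      (Finset.sum_le_sum_of_subset_of_nonneg (Finset.filter_subset _ _) fun z _ _ => hnn i z)
    obtain ⟨z1, z2⟩ := Finset.mem_filter.mp hz
    exact key i z _ (cz_inz hb hT (hZ i hi z z1) z2)

/-- the exceptional quantity -/
noncomputable def T0s (b T1 T2 Λ : ℝ) (Zi : Finset ℂ) (mi : ℂ → ℕ) : ℝ :=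
  open Classical in ∑ z ∈ Zi.filter (fun z => ¬ (T1 < z.im ∧ z.im ≤ T2)),
    (mi z : ℝ) * ‖cz b T1 T2 (zz z)‖ * Real.exp (Λ * dl z)

lemma T0s_nonneg (b T1 T2 Λ : ℝ) (Zi : Finset ℂ) (mi : ℂ → ℕ) : 0 ≤ T0s b T1 T2 Λ Zi mi :=
  Finset.sum_nonneg fun z _ => by positivity

open Classical in
/-- **few members are exceptional** -/
theorem bad_card (hR : 0 < R) {g A : ℝ} (hA : 0 ≤ A) (hC : HC s Z m R g A) {T1 T2 : ℝ}
    (hT : T1 ≤ T2) {ε : ℝ} (hε : 0 < ε) (hb : 1 ≤ ε * R) {Λ : ℝ} (hΛ : 0 < Λ) (hg : 1 / 3 ≤ g)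
    (hg1 : g * R ≤ Λ + 8 * (ε * R)) (hΛR : Λ + 8 * (ε * R) ≤ R)
    (hZ : ∀ i ∈ s, ∀ z ∈ Z i, dl z ≤ 1 / 2) {M₀ : ℝ} (hM : 1 ≤ M₀) :
    ((s.filter fun i => M₀ < T0s (ε * R) T1 T2 Λ (Z i) (m i)).card : ℝ) ≤
      440000 * A * (8 + 4 / ε) * M₀ ^ (-(1 / 3) : ℝ) * s.card := by
  have hb0 : 0 ≤ ε * R := by positivity
  obtain ⟨y, hy⟩ : ∃ y : ℝ, y = Λ + 8 * (ε * R) := ⟨_, rfl⟩
  have hy0 : 0 < y := by rw [hy]; positivity
  obtain ⟨θ, hθ⟩ : ∃ θ : ℝ, θ = g * R / y := ⟨_, rfl⟩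
  rw [← hy] at hg1 hΛR
  have hθ1 : θ ≤ 1 := by
    rw [hθ, div_le_one hy0]
    exact hg1
  have hθ3 : 1 / 3 ≤ θ := by
    rw [hθ, le_div_iff₀ hy0]
    calc 1 / 3 * y ≤ g * y := mul_le_mul_of_nonneg_right hg hy0.le
      _ ≤ g * R := mul_le_mul_of_nonneg_left hΛR (by linarith)
  have hθ0 : 0 < θ := by linarith
  have hθy : θ * y = g * R := by
    rw [hθ]
    field_simp
  have hM0 : 0 < M₀ := by linarith
  -- the power of each term
  have hterm : ∀ i ∈ s, (T0s (ε * R) T1 T2 Λ (Z i) (m i)) ^ θ ≤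
      ∑ z ∈ Z i, 440000 * ((m i z : ℝ) * Real.exp (g * R * dl z) *
        om (ε * R) T1 T2 z.im 2) := by
    intro i hi
    unfold T0s
    refine (rsum _ _ (fun z _ => by positivity) hθ0 hθ1).trans ?_
    refine (Finset.sum_le_sum fun z hz => ?_).trans
      (Finset.sum_le_sum_of_subset_of_nonneg (Finset.filter_subset _ _) fun z _ _ => by
        have := om_nonneg hb0 T1 T2 z.im 2
        positivity)
    obtain ⟨z1, z2⟩ := Finset.mem_filter.mp hz
    have h1 := cz_outz hb hT (hZ i hi z z1) z2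
    have ho := om_nonneg hb0 T1 T2 z.im 6
    have h2 : (m i z : ℝ) * ‖cz (ε * R) T1 T2 (zz z)‖ * Real.exp (Λ * dl z) ≤
        (m i z : ℝ) * 440000 * Real.exp (y * dl z) * om (ε * R) T1 T2 z.im 6 := by
      have e1 : Real.exp (y * dl z) = Real.exp (8 * (ε * R) * dl z) * Real.exp (Λ * dl z) := by
        rw [← Real.exp_add, hy]
        congr 1
        ring
      rw [e1]
      calc _ ≤ (m i z : ℝ) * (440000 * Real.exp (8 * (ε * R) * dl z) *
            om (ε * R) T1 T2 z.im 6) * Real.exp (Λ * dl z) := by gcongr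
        _ = _ := by ring
    refine (Real.rpow_le_rpow (by positivity) h2 hθ0.le).trans ?_
    rw [Real.mul_rpow (by positivity) ho, Real.mul_rpow (by positivity) (Real.exp_pos _).le,
      Real.mul_rpow (Nat.cast_nonneg _) (by norm_num)]
    have k1 : (m i z : ℝ) ^ θ ≤ (m i z : ℝ) := by
      rcases Nat.eq_zero_or_pos (m i z) with h | h
      · rw [h, Nat.cast_zero, Real.zero_rpow hθ0.ne']
      · have h' : (1 : ℝ) ≤ (m i z : ℝ) := by exact_mod_cast h
        calc (m i z : ℝ) ^ θ ≤ (m i z : ℝ) ^ (1 : ℝ) := Real.rpow_le_rpow_of_exponent_le h' hθ1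
          _ = _ := Real.rpow_one _
    have k2 : (440000 : ℝ) ^ θ ≤ 440000 := by
      calc (440000 : ℝ) ^ θ ≤ (440000 : ℝ) ^ (1 : ℝ) :=
            Real.rpow_le_rpow_of_exponent_le (by norm_num) hθ1
        _ = _ := Real.rpow_one _
    have k3 : Real.exp (y * dl z) ^ θ = Real.exp (g * R * dl z) := by
      rw [← Real.exp_mul, ← hθy]
      congr 1
      ring
    have k4 : om (ε * R) T1 T2 z.im 6 ^ θ ≤ om (ε * R) T1 T2 z.im 2 := by
      unfold om
      have k5 : ∀ x : ℝ, 0 ≤ x → x ≤ 1 → (x ^ 6) ^ θ ≤ x ^ 2 := by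
        intro x hx hx1
        rw [← Real.rpow_natCast x 6, ← Real.rpow_mul hx, ← Real.rpow_natCast x 2]
        rcases hx.eq_or_lt with h | h
        · rw [← h, Real.zero_rpow (by push_cast; positivity), Real.zero_rpow (by norm_num)]
        · refine Real.rpow_le_rpow_of_exponent_ge h hx1 ?_
          push_cast
          linarith
      refine (radd (by positivity) (by positivity) hθ0.le hθ1).trans (add_le_add ?_ ?_)
      · exact k5 _ (by positivity) (inv_le_one' hb0 _)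
      · exact k5 _ (by positivity) (inv_le_one' hb0 _)
    rw [k3]
    have k6 : (0 : ℝ) ≤ (m i z : ℝ) ^ θ := by positivity
    have k7 : (0 : ℝ) ≤ om (ε * R) T1 T2 z.im 6 ^ θ := Real.rpow_nonneg ho _
    calc (m i z : ℝ) ^ θ * (440000 : ℝ) ^ θ * Real.exp (g * R * dl z) *
          om (ε * R) T1 T2 z.im 6 ^ θ ≤ (m i z : ℝ) * 440000 * Real.exp (g * R * dl z) *
          om (ε * R) T1 T2 z.im 2 := by gcongr
      _ = _ := by ring
  have hsum : ∑ i ∈ s, (T0s (ε * R) T1 T2 Λ (Z i) (m i)) ^ θ ≤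
      440000 * A * (8 + 4 / ε) * s.card := by
    refine (Finset.sum_le_sum hterm).trans ?_
    have h1 := mul_le_mul_of_nonneg_left (cell_om hR hA hC T1 T2 hε)
      (by norm_num : (0 : ℝ) ≤ 440000)
    simp_rw [← Finset.mul_sum]
    refine h1.trans (le_of_eq ?_)
    ring
  have hcnt : ((s.filter fun i => M₀ < T0s (ε * R) T1 T2 Λ (Z i) (m i)).card : ℝ) * M₀ ^ θ ≤
      ∑ i ∈ s, (T0s (ε * R) T1 T2 Λ (Z i) (m i)) ^ θ := by
    rw [← nsmul_eq_mul, ← Finset.sum_const]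
    refine (Finset.sum_le_sum fun i hi => ?_).trans
      (Finset.sum_le_sum_of_subset_of_nonneg (Finset.filter_subset _ _)
        fun i _ _ => Real.rpow_nonneg (T0s_nonneg _ _ _ _ _ _) _)
    exact Real.rpow_le_rpow hM0.le (Finset.mem_filter.mp hi).2.le hθ0.le
  have hfin := hcnt.trans hsum
  have hMθ : M₀ ^ (1 / 3 : ℝ) ≤ M₀ ^ θ := Real.rpow_le_rpow_of_exponent_le hM hθ3
  have hM3 : 0 < M₀ ^ (1 / 3 : ℝ) := Real.rpow_pos_of_pos hM0 _
  have h9 : ((s.filter fun i => M₀ < T0s (ε * R) T1 T2 Λ (Z i) (m i)).card : ℝ) *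
      M₀ ^ (1 / 3 : ℝ) ≤ 440000 * A * (8 + 4 / ε) * s.card :=
    (mul_le_mul_of_nonneg_left hMθ (Nat.cast_nonneg _)).trans hfin
  rw [Real.rpow_neg hM0.le]
  rw [← le_div_iff₀ hM3] at h9
  refine h9.trans (le_of_eq ?_)
  ring

end

end Pool.Agent.T9h27.Z
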