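import Pool.Agent.T9h27.Z.Cell

/-!
# Zeros of the exceptional members (helper27)
-/

set_option autoImplicit false

open Complex Set

namespace Pool.Agent.T9h27.Z

open Classical in
/-- a window is covered by cells -/
lemma win_cover (Zi : Finset ℂ) (f : ℂ → ℝ) (hf : ∀ z, 0 ≤ f z) {R T1 T2 H : ℝ} (hR : 0 < R)
    (hH : T2 - T1 ≤ H / R) :
    ∑ z ∈ Zi.filter (fun z => T1 < z.im ∧ z.im ≤ T2), f z ≤
      ∑ k ∈ Finset.range ⌈H⌉₊, ∑ z ∈ Zi.filter (fun z => T1 + (k : ℝ) / R < z.im ∧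
        z.im ≤ T1 + (k : ℝ) / R + 1 / R), f z := by
  have hmaps : ∀ z ∈ Zi.filter (fun z => T1 < z.im ∧ z.im ≤ T2),
      (ix T1 R z - 1).toNat ∈ Finset.range ⌈H⌉₊ := by
    intro z hz
    obtain ⟨-, z1, z2⟩ := Finset.mem_filter.mp hz
    rw [Finset.mem_range]
    have h1 : 0 < (z.im - T1) * R := mul_pos (by linarith) hR
    have h2 : (z.im - T1) * R ≤ H := by
      have : z.im - T1 ≤ H / R := by linarith
      rwa [le_div_iff₀ hR] at this
    have h3 : 1 ≤ ix T1 R z := by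
      unfold ix
      exact Int.one_le_ceil_iff.mpr h1
    have h4 : ix T1 R z ≤ (⌈H⌉₊ : ℤ) := by
      unfold ix
      rw [Int.ceil_le]
      refine h2.trans ?_
      exact_mod_cast Nat.le_ceil H
    omega
  rw [← Finset.sum_fiberwise_of_maps_to hmaps]
  refine Finset.sum_le_sum fun k _ => ?_
  refine Finset.sum_le_sum_of_subset_of_nonneg ?_ fun z _ _ => hf z
  intro z hz
  obtain ⟨hz1, hz2⟩ := Finset.mem_filter.mp hz
  obtain ⟨hz3, z1, z2⟩ := Finset.mem_filter.mp hz1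
  rw [Finset.mem_filter]
  have h1 : 0 < (z.im - T1) * R := mul_pos (by linarith) hR
  have h3 : 1 ≤ ix T1 R z := by
    unfold ix
    exact Int.one_le_ceil_iff.mpr h1
  have h5 : ix T1 R z = (k : ℤ) + 1 := by omega
  have h6 := ix_cell hR h5
  push_cast at h6
  rw [add_sub_cancel_right] at h6
  exact ⟨hz3, h6⟩

section

variable {ι : Type} {s : Finset ι} {Z : ι → Finset ℂ} {m : ι → ℂ → ℕ} {R : ℝ}

open Classical in
/-- **few zeros belong to the exceptional members** -/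
theorem bad_count (hR : 0 < R) {g A : ℝ} (hg : 0 ≤ g) (hA : 0 ≤ A) (hC : HC s Z m R g A)
    {T1 T2 H : ℝ}
    (hH0 : 0 < H) (hH : T2 - T1 ≤ H / R) {ρ Cρ : ℝ} (hM : HM s Z m R ρ Cρ) {t β : ℝ}
    (ht : 0 < t) (B : Finset ι) (hBs : B ⊆ s) (hB : (B.card : ℝ) ≤ β * s.card) :
    ∑ i ∈ B, ∑ z ∈ (Z i).filter (fun z => T1 < z.im ∧ z.im ≤ T2), (m i z : ℝ) ≤
      s.card * ⌈H⌉₊ * (t * β + Cρ / t + A * Real.exp (-(g * ρ))) := by
  obtain ⟨K, hK⟩ : ∃ K : ℕ, K = ⌈H⌉₊ := ⟨_, rfl⟩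
  have hK0 : 0 < K := by rw [hK]; exact Nat.ceil_pos.mpr hH0
  have hK0' : (0 : ℝ) < K := by exact_mod_cast hK0
  rw [← hK]
  obtain ⟨x, hx⟩ : ∃ x : ι → ℕ → ℝ, ∀ i k, x i k = ∑ z ∈ (Z i).filter (fun z =>
    T1 + (k : ℝ) / R < z.im ∧ z.im ≤ T1 + (k : ℝ) / R + 1 / R ∧ dl z ≤ ρ / R), (m i z : ℝ) :=
    ⟨_, fun _ _ => rfl⟩
  obtain ⟨y, hy⟩ : ∃ y : ι → ℕ → ℝ, ∀ i k, y i k = ∑ z ∈ (Z i).filter (fun z =>
    T1 + (k : ℝ) / R < z.im ∧ z.im ≤ T1 + (k : ℝ) / R + 1 / R),
      (m i z : ℝ) * Real.exp (g * R * dl z) := ⟨_, fun _ _ => rfl⟩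
  have hy0 : ∀ i k, 0 ≤ y i k := fun i k => by rw [hy]; positivity
  have h1 : ∀ i, ∑ z ∈ (Z i).filter (fun z => T1 < z.im ∧ z.im ≤ T2), (m i z : ℝ) ≤
      ∑ k ∈ Finset.range K, (x i k + Real.exp (-(g * ρ)) * y i k) := by
    intro i
    have h2 := win_cover (Z i) (fun z => (m i z : ℝ)) (fun z => Nat.cast_nonneg _) hR hH
    rw [← hK] at h2
    refine h2.trans (Finset.sum_le_sum fun k _ => ?_)
    rw [← Finset.sum_filter_add_sum_filter_not _ (fun z => dl z ≤ ρ / R)]
    refine add_le_add (le_of_eq ?_) ?_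
    · rw [hx, Finset.filter_filter]
      refine Finset.sum_congr ?_ fun _ _ => rfl
      ext z
      simp only [Finset.mem_filter]
      tauto
    · rw [hy, Finset.mul_sum]
      refine (Finset.sum_le_sum fun z hz => ?_).trans
        (Finset.sum_le_sum_of_subset_of_nonneg (Finset.filter_subset _ _) fun z _ _ => by
          positivity)
      have h3 := (Finset.mem_filter.mp hz).2
      push Not at h3
      rw [div_lt_iff₀ hR] at h3
      have h4 : 1 ≤ Real.exp (-(g * ρ)) * Real.exp (g * R * dl z) := by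
        rw [← Real.exp_add]
        refine Real.one_le_exp ?_
        have := mul_le_mul_of_nonneg_left h3.le hg
        linarith
      calc (m i z : ℝ) = (m i z : ℝ) * 1 := (mul_one _).symm
        _ ≤ (m i z : ℝ) * (Real.exp (-(g * ρ)) * Real.exp (g * R * dl z)) :=
          mul_le_mul_of_nonneg_left h4 (Nat.cast_nonneg _)
        _ = _ := by ring
  refine (Finset.sum_le_sum fun i _ => h1 i).trans ?_
  rw [Finset.sum_comm]
  have h2 : ∀ k ∈ Finset.range K, ∑ i ∈ B, (x i k + Real.exp (-(g * ρ)) * y i k) ≤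
      s.card * (t * β + Cρ / t + A * Real.exp (-(g * ρ))) := by
    intro k _
    rw [Finset.sum_add_distrib, ← Finset.mul_sum]
    have h3 : ∑ i ∈ B, x i k ≤ s.card * (t * β + Cρ / t) := by
      have h4 : ∀ i ∈ B, x i k ≤ t + x i k ^ 2 / t := by
        intro i _
        have h5 : 0 ≤ (x i k - t) ^ 2 := sq_nonneg _
        have h6 : t + x i k ^ 2 / t - x i k = ((x i k - t) ^ 2 + x i k * t) / t := by
          field_simp
          ring
        have h7 : 0 ≤ x i k := by rw [hx]; positivity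
        have h8 : 0 ≤ ((x i k - t) ^ 2 + x i k * t) / t := by positivity
        linarith
      refine (Finset.sum_le_sum h4).trans ?_
      rw [Finset.sum_add_distrib, Finset.sum_const, nsmul_eq_mul, ← Finset.sum_div]
      have h5 : ∑ i ∈ B, x i k ^ 2 ≤ Cρ * s.card := by
        refine (Finset.sum_le_sum_of_subset_of_nonneg hBs fun i _ _ => sq_nonneg _).trans ?_
        have h6 := hM (T1 + (k : ℝ) / R)
        simp only [hx]
        exact h6
      have h6 := div_le_div_of_nonneg_right h5 ht.le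
      have h7 := mul_le_mul_of_nonneg_right hB ht.le
      calc (B.card : ℝ) * t + (∑ i ∈ B, x i k ^ 2) / t ≤ β * s.card * t + Cρ * s.card / t :=
            add_le_add h7 h6
        _ = _ := by ring
    have h4 : ∑ i ∈ B, y i k ≤ A * s.card := by
      refine (Finset.sum_le_sum_of_subset_of_nonneg hBs fun i _ _ => hy0 i k).trans ?_
      have h6 := hC (T1 + (k : ℝ) / R)
      simp only [hy]
      exact h6
    have h5 := mul_le_mul_of_nonneg_left h4 (Real.exp_pos (-(g * ρ))).le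
    calc _ ≤ (s.card : ℝ) * (t * β + Cρ / t) + Real.exp (-(g * ρ)) * (A * s.card) :=
          add_le_add h3 h5
      _ = _ := by ring
  refine (Finset.sum_le_sum h2).trans (le_of_eq ?_)
  rw [Finset.sum_const, Finset.card_range, nsmul_eq_mul]
  ring

end

end Pool.Agent.T9h27.Z
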