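import Pool.Agent.T9h27.Z.Cw

/-!
# The transform of a window (helper27)
-/

set_option autoImplicit false

open MeasureTheory Complex Filter Topology Set

namespace Pool.Agent.T9h27.Z

/-- the transform of the window `(T1, T2]` -/
noncomputable def ww (T1 T2 v : ℝ) : ℂ := ∫ τ in T1..T2, cexp (I * v * τ)

lemma ww_cont (T1 T2 : ℝ) : Continuous (ww T1 T2) := by
  have h : Continuous fun v : ℝ => ∫ τ in T1..T2, cexp (I * v * τ) :=
    intervalIntegral.continuous_parametric_intervalIntegral_of_continuous'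
      (f := fun (v : ℝ) (τ : ℝ) => cexp (I * v * τ)) (by fun_prop) _ _
  exact h

lemma norm_cexp_real (v τ : ℝ) : ‖cexp (I * v * τ)‖ = 1 := by
  rw [Complex.norm_exp]
  simp

lemma ww_le {T1 T2 : ℝ} (hT : T1 ≤ T2) (v : ℝ) : ‖ww T1 T2 v‖ ≤ T2 - T1 := by
  unfold ww
  have h := intervalIntegral.norm_integral_le_of_norm_le_const (a := T1) (b := T2) (C := 1)
    (f := fun τ : ℝ => cexp (I * v * τ)) (fun τ _ => (norm_cexp_real v τ).le)
  rwa [one_mul, abs_of_nonneg (by linarith)] at h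

lemma ww_inv (T1 T2 v : ℝ) : |v| * ‖ww T1 T2 v‖ ≤ 2 := by
  by_cases hv : v = 0
  · rw [hv, abs_zero, zero_mul]
    norm_num
  · have hv' : (I * v : ℂ) ≠ 0 := mul_ne_zero I_ne_zero (by exact_mod_cast hv)
    unfold ww
    rw [integral_exp_mul_complex hv', norm_div]
    have h1 : ‖(I * v : ℂ)‖ = |v| := by
      rw [norm_mul, norm_I, one_mul, Complex.norm_real, Real.norm_eq_abs]
    have h2 := norm_sub_le (cexp (I * v * T2)) (cexp (I * v * T1))
    rw [norm_cexp_real, norm_cexp_real] at h2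
    rw [h1, mul_div_cancel₀ _ (abs_ne_zero.mpr hv)]
    linarith

lemma ww_neg (T1 T2 v : ℝ) : ww T1 T2 (-v) = (starRingEnd ℂ) (ww T1 T2 v) := by
  unfold ww
  have h1 : (starRingEnd ℂ) (∫ τ in T1..T2, cexp (I * v * τ)) =
      ∫ τ in T1..T2, (starRingEnd ℂ) (cexp (I * v * τ)) := by
    rw [intervalIntegral, intervalIntegral, map_sub, integral_conj, integral_conj]
  rw [h1]
  refine intervalIntegral.integral_congr fun τ _ => ?_
  rw [← Complex.exp_conj]
  congr 1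
  simp

lemma ww_norm_neg (T1 T2 v : ℝ) : ‖ww T1 T2 (-v)‖ = ‖ww T1 T2 v‖ := by
  rw [ww_neg, RCLike.norm_conj]

lemma gauss_ft {δ : ℝ} (hδ : 0 < δ) (x : ℝ) :
    ∫ v : ℝ, cexp (I * v * x) * ((Real.exp (-δ * v ^ 2) : ℝ) : ℂ) =
      ((Real.sqrt (Real.pi / δ) * Real.exp (-x ^ 2 / (4 * δ)) : ℝ) : ℂ) := by
  have h := fourierIntegral_gaussian (b := δ) (by simpa using hδ) x
  have e1 : ∀ v : ℝ, cexp (I * v * x) * ((Real.exp (-δ * v ^ 2) : ℝ) : ℂ) =
      cexp (I * x * v) * cexp (-δ * v ^ 2) := by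
    intro v
    rw [Complex.ofReal_exp]
    congr 2
    · ring
    · push_cast
      ring
  simp_rw [e1]
  rw [h]
  push_cast
  congr 1
  have h2 : ((Real.pi : ℂ) / δ) ^ (1 / 2 : ℂ) = (Real.sqrt (Real.pi / δ) : ℂ) := by
    rw [Real.sqrt_eq_rpow, Complex.ofReal_cpow (by positivity)]
    push_cast
    norm_num
  rw [h2]

lemma ww_reg {T1 T2 : ℝ} (hT : T1 ≤ T2) {δ : ℝ} (hδ : 0 < δ) :
    Integrable (fun v : ℝ => ‖ww T1 T2 v‖ ^ 2 * Real.exp (-δ * v ^ 2)) ∧
    ∫ v : ℝ, ‖ww T1 T2 v‖ ^ 2 * Real.exp (-δ * v ^ 2) ≤ 2 * Real.pi * (T2 - T1) := by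
  have hg : Integrable fun v : ℝ => Real.exp (-δ * v ^ 2) := integrable_exp_neg_mul_sq hδ
  have hI : Integrable (fun v : ℝ => ‖ww T1 T2 v‖ ^ 2 * Real.exp (-δ * v ^ 2)) := by
    refine Integrable.mono' (hg.const_mul ((T2 - T1) ^ 2)) ?_ (Eventually.of_forall fun v => ?_)
    · have := ww_cont T1 T2
      exact (by fun_prop : Continuous fun v : ℝ =>
        ‖ww T1 T2 v‖ ^ 2 * Real.exp (-δ * v ^ 2)).aestronglyMeasurable
    · rw [Real.norm_of_nonneg (by positivity)]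
      exact mul_le_mul_of_nonneg_right (pow_le_pow_left₀ (norm_nonneg _) (ww_le hT v) 2)
        (Real.exp_pos _).le
  refine ⟨hI, ?_⟩
  obtain ⟨m, hm⟩ : ∃ m : Measure ℝ, m = volume.restrict (Ioc T1 T2) := ⟨_, rfl⟩
  have hmf : IsFiniteMeasure m := by rw [hm]; infer_instance
  -- the product formula
  have h1 : ∀ v : ℝ, (((‖ww T1 T2 v‖ ^ 2 * Real.exp (-δ * v ^ 2) : ℝ)) : ℂ) =
      ∫ p : ℝ × ℝ, cexp (I * v * ((p.1 - p.2 : ℝ) : ℂ)) * ((Real.exp (-δ * v ^ 2) : ℝ) : ℂ)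
        ∂(m.prod m) := by
    intro v
    rw [integral_mul_const]
    push_cast
    congr 1
    have e1 : ∀ p : ℝ × ℝ, cexp (I * v * ((p.1 : ℂ) - (p.2 : ℂ))) =
        cexp (I * v * p.1) * cexp (I * ((-v : ℝ) : ℂ) * p.2) := by
      intro p
      rw [← Complex.exp_add]
      congr 1
      push_cast
      ring
    simp_rw [e1]
    rw [integral_prod_mul (fun x : ℝ => cexp (I * v * x))
      (fun x : ℝ => cexp (I * ((-v : ℝ) : ℂ) * x))]
    have e2 : ∫ x : ℝ, cexp (I * v * x) ∂m = ww T1 T2 v := by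
      rw [hm]
      unfold ww
      rw [intervalIntegral.integral_of_le hT]
    have e3 : ∫ x : ℝ, cexp (I * ((-v : ℝ) : ℂ) * x) ∂m = ww T1 T2 (-v) := by
      rw [hm]
      unfold ww
      rw [intervalIntegral.integral_of_le hT]
    rw [e2, e3, ww_neg, Complex.mul_conj, Complex.normSq_eq_norm_sq]
    push_cast
    rfl
  have h2 : ((∫ v : ℝ, ‖ww T1 T2 v‖ ^ 2 * Real.exp (-δ * v ^ 2) : ℝ) : ℂ) =
      ((∫ p : ℝ × ℝ, Real.sqrt (Real.pi / δ) * Real.exp (-(p.1 - p.2) ^ 2 / (4 * δ))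
        ∂(m.prod m) : ℝ) : ℂ) := by
    rw [← integral_complex_ofReal]
    simp_rw [h1]
    rw [integral_integral_swap]
    · simp_rw [gauss_ft hδ]
      rw [integral_complex_ofReal]
    · refine Integrable.mono' (g := fun q : ℝ × (ℝ × ℝ) => Real.exp (-δ * q.1 ^ 2) * 1)
        (hg.mul_prod (integrable_const (1 : ℝ))) ?_ (Eventually.of_forall fun q => ?_)
      · exact (by fun_prop : Continuous (Function.uncurry fun (v : ℝ) (p : ℝ × ℝ) =>
          cexp (I * v * ((p.1 - p.2 : ℝ) : ℂ)) *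
            ((Real.exp (-δ * v ^ 2) : ℝ) : ℂ))).aestronglyMeasurable
      · simp only [Function.uncurry]
        rw [norm_mul, norm_cexp_real, Complex.norm_real, Real.norm_of_nonneg (Real.exp_pos _).le]
        linarith
  have h3 : ∫ v : ℝ, ‖ww T1 T2 v‖ ^ 2 * Real.exp (-δ * v ^ 2) =
      ∫ p : ℝ × ℝ, Real.sqrt (Real.pi / δ) * Real.exp (-(p.1 - p.2) ^ 2 / (4 * δ))
        ∂(m.prod m) := by exact_mod_cast h2
  rw [h3]
  have hgi : Integrable fun x : ℝ => Real.exp (-x ^ 2 / (4 * δ)) := by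
    refine (integrable_exp_neg_mul_sq (b := 1 / (4 * δ)) (by positivity)).congr
      (Eventually.of_forall fun x => ?_)
    simp only
    congr 1
    ring
  have hgv : ∫ x : ℝ, Real.exp (-x ^ 2 / (4 * δ)) = Real.sqrt (4 * Real.pi * δ) := by
    have h5 := integral_gaussian (1 / (4 * δ))
    have e1 : (fun x : ℝ => Real.exp (-x ^ 2 / (4 * δ))) =
        fun x : ℝ => Real.exp (-(1 / (4 * δ)) * x ^ 2) := by
      ext x
      congr 1
      ring
    rw [e1, h5]
    congr 1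
    field_simp
  have hpi : Integrable (fun p : ℝ × ℝ => Real.sqrt (Real.pi / δ) *
      Real.exp (-(p.1 - p.2) ^ 2 / (4 * δ))) (m.prod m) := by
    refine Integrable.mono' (integrable_const (Real.sqrt (Real.pi / δ))) ?_
      (Eventually.of_forall fun p => ?_)
    · exact (by fun_prop : Continuous fun p : ℝ × ℝ => Real.sqrt (Real.pi / δ) *
        Real.exp (-(p.1 - p.2) ^ 2 / (4 * δ))).aestronglyMeasurable
    · rw [Real.norm_of_nonneg (by positivity)]
      have : Real.exp (-(p.1 - p.2) ^ 2 / (4 * δ)) ≤ 1 := by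
        refine Real.exp_le_one_iff.mpr ?_
        rw [neg_div]
        have : 0 ≤ (p.1 - p.2) ^ 2 / (4 * δ) := by positivity
        linarith
      calc _ ≤ Real.sqrt (Real.pi / δ) * 1 := mul_le_mul_of_nonneg_left this (Real.sqrt_nonneg _)
        _ = _ := mul_one _
  rw [integral_prod _ hpi]
  have h6 : ∀ x : ℝ, ∫ y, Real.sqrt (Real.pi / δ) * Real.exp (-(x - y) ^ 2 / (4 * δ)) ∂m ≤
      2 * Real.pi := by
    intro x
    have h7 : Integrable fun y : ℝ => Real.exp (-(x - y) ^ 2 / (4 * δ)) := hgi.comp_sub_left x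
    rw [integral_const_mul, hm]
    have h8 : ∫ y in Ioc T1 T2, Real.exp (-(x - y) ^ 2 / (4 * δ)) ≤
        ∫ y : ℝ, Real.exp (-(x - y) ^ 2 / (4 * δ)) :=
      setIntegral_le_integral h7 (Eventually.of_forall fun y => (Real.exp_pos _).le)
    have h10 := integral_sub_left_eq_self (fun y : ℝ => Real.exp (-y ^ 2 / (4 * δ))) volume x
    rw [h10, hgv] at h8
    have h9 : Real.sqrt (Real.pi / δ) * Real.sqrt (4 * Real.pi * δ) = 2 * Real.pi := by
      rw [← Real.sqrt_mul (by positivity)]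
      have : Real.pi / δ * (4 * Real.pi * δ) = (2 * Real.pi) ^ 2 := by field_simp; ring
      rw [this, Real.sqrt_sq (by positivity)]
    rw [← h9]
    exact mul_le_mul_of_nonneg_left h8 (Real.sqrt_nonneg _)
  calc _ ≤ ∫ _ : ℝ, 2 * Real.pi ∂m := integral_mono hpi.integral_prod_left (integrable_const _) h6
    _ = _ := by
      rw [integral_const, hm, measureReal_restrict_apply_univ, measureReal_def, Real.volume_Ioc,
        ENNReal.toReal_ofReal (by linarith), smul_eq_mul]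
      ring

lemma ww_sq {T1 T2 : ℝ} (hT : T1 ≤ T2) {U : ℝ} (hU : 0 ≤ U) :
    ∫ v in (-U)..U, ‖ww T1 T2 v‖ ^ 2 ≤ 2 * Real.pi * (T2 - T1) := by
  have hc := ww_cont T1 T2
  have h1 : ∀ᶠ δ : ℝ in 𝓝[>] 0, ∫ v in (-U)..U, ‖ww T1 T2 v‖ ^ 2 ≤
      Real.exp (δ * U ^ 2) * (2 * Real.pi * (T2 - T1)) := by
    filter_upwards [self_mem_nhdsWithin] with δ hδ
    have hδ' : 0 < δ := hδ
    obtain ⟨i1, i2⟩ := ww_reg hT hδ'
    have h2 : ∫ v in (-U)..U, ‖ww T1 T2 v‖ ^ 2 ≤
        ∫ v in (-U)..U, Real.exp (δ * U ^ 2) * (‖ww T1 T2 v‖ ^ 2 * Real.exp (-δ * v ^ 2)) := by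
      refine intervalIntegral.integral_mono_on (by linarith)
        ((by fun_prop : Continuous fun v : ℝ => ‖ww T1 T2 v‖ ^ 2).intervalIntegrable _ _)
        ((by fun_prop : Continuous fun v : ℝ => Real.exp (δ * U ^ 2) *
          (‖ww T1 T2 v‖ ^ 2 * Real.exp (-δ * v ^ 2))).intervalIntegrable _ _) ?_
      intro v hv
      have h3 : v ^ 2 ≤ U ^ 2 := by
        rw [sq_le_sq, abs_of_nonneg hU]
        exact abs_le.mpr hv
      have h4 : 1 ≤ Real.exp (δ * U ^ 2) * Real.exp (-δ * v ^ 2) := by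
        rw [← Real.exp_add]
        refine Real.one_le_exp ?_
        nlinarith
      calc ‖ww T1 T2 v‖ ^ 2 = ‖ww T1 T2 v‖ ^ 2 * 1 := (mul_one _).symm
        _ ≤ ‖ww T1 T2 v‖ ^ 2 * (Real.exp (δ * U ^ 2) * Real.exp (-δ * v ^ 2)) :=
          mul_le_mul_of_nonneg_left h4 (by positivity)
        _ = _ := by ring
    refine h2.trans ?_
    rw [intervalIntegral.integral_const_mul, intervalIntegral.integral_of_le (by linarith)]
    refine mul_le_mul_of_nonneg_left (le_trans ?_ i2) (Real.exp_pos _).le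
    exact setIntegral_le_integral i1 (Eventually.of_forall fun v => by positivity)
  have h2 : Tendsto (fun δ : ℝ => Real.exp (δ * U ^ 2) * (2 * Real.pi * (T2 - T1))) (𝓝[>] 0)
      (𝓝 (2 * Real.pi * (T2 - T1))) := by
    have h3 : Tendsto (fun δ : ℝ => Real.exp (δ * U ^ 2) * (2 * Real.pi * (T2 - T1))) (𝓝 0)
        (𝓝 (Real.exp (0 * U ^ 2) * (2 * Real.pi * (T2 - T1)))) :=
      (by fun_prop : Continuous fun δ : ℝ =>
        Real.exp (δ * U ^ 2) * (2 * Real.pi * (T2 - T1))).tendsto 0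
    rw [zero_mul, Real.exp_zero, one_mul] at h3
    exact h3.mono_left nhdsWithin_le_nhds
  exact ge_of_tendsto h2 h1

lemma ww_sq_half {T1 T2 : ℝ} (hT : T1 ≤ T2) {U : ℝ} (hU : 0 ≤ U) :
    ∫ v in (0 : ℝ)..U, ‖ww T1 T2 v‖ ^ 2 ≤ Real.pi * (T2 - T1) := by
  have hc := ww_cont T1 T2
  have h1 := ww_sq hT hU
  have hi : ∀ a b : ℝ, IntervalIntegrable (fun v : ℝ => ‖ww T1 T2 v‖ ^ 2) volume a b := fun a b =>
    (by fun_prop : Continuous fun v : ℝ => ‖ww T1 T2 v‖ ^ 2).intervalIntegrable _ _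
  rw [← intervalIntegral.integral_add_adjacent_intervals (hi (-U) 0) (hi 0 U)] at h1
  have h2 := intervalIntegral.integral_comp_neg (a := (0 : ℝ)) (b := U)
    (fun v : ℝ => ‖ww T1 T2 v‖ ^ 2)
  rw [neg_zero] at h2
  rw [← h2] at h1
  simp_rw [ww_norm_neg] at h1
  linarith

lemma ww_sq_shift {T1 T2 : ℝ} (hT : T1 ≤ T2) {a b : ℝ} (hab : a ≤ b) (x : ℝ) :
    ∫ u in a..b, ‖ww T1 T2 (u - x)‖ ^ 2 ≤ 2 * Real.pi * (T2 - T1) := by
  have hc := ww_cont T1 T2
  rw [intervalIntegral.integral_comp_sub_right (fun v : ℝ => ‖ww T1 T2 v‖ ^ 2)]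
  obtain ⟨U, hU⟩ : ∃ U : ℝ, U = |a - x| + |b - x| := ⟨_, rfl⟩
  have h0 : 0 ≤ U := by rw [hU]; positivity
  refine le_trans ?_ (ww_sq hT h0)
  refine intervalIntegral.integral_mono_interval ?_ (by linarith) ?_ ?_ ?_
  · have := neg_abs_le (a - x)
    have := abs_nonneg (b - x)
    linarith
  · have := le_abs_self (b - x)
    have := abs_nonneg (a - x)
    linarith
  · exact Eventually.of_forall fun v => by positivity
  · exact (by fun_prop : Continuous fun v : ℝ => ‖ww T1 T2 v‖ ^ 2).intervalIntegrable _ _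

/-! ### the smoothed transform -/

/-- `Kq b v / Kq b 0` -/
noncomputable def qq (b v : ℝ) : ℝ := Kq b v / Kq b 0

lemma Kq0_pos {b : ℝ} (hb : 1 ≤ b) : 0 < Kq b 0 := by
  have h := Kq_pos hb
  have hs : 0 < Real.sqrt Real.pi := Real.sqrt_pos.mpr Real.pi_pos
  exact (pos_iff_pos_of_mul_pos h).mp hs

lemma qq_nonneg {b : ℝ} (hb : 1 ≤ b) (v : ℝ) : 0 ≤ qq b v :=
  div_nonneg (Kq_nonneg b v) (Kq0_pos hb).le

lemma qq_le {b : ℝ} (hb : 1 ≤ b) (v : ℝ) : qq b v ≤ 1 := by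
  unfold qq
  rw [div_le_one (Kq0_pos hb)]
  exact Kq_le b v

lemma qq_zero {b : ℝ} (hb : 1 ≤ b) : qq b 0 = 1 := by
  unfold qq
  exact div_self (Kq0_pos hb).ne'

lemma qq_tail {b : ℝ} (hb : 1 ≤ b) {v : ℝ} (hv : 8 * b ≤ |v|) :
    qq b v ≤ 800 * b * Real.exp (-(|v| - 8 * b) ^ 2 / 4) := by
  unfold qq
  have hb0 : 0 < b := by linarith
  have h1 : Kq b v ≤ Real.exp (-(|v| - 8 * b) ^ 2 / 4) := by
    unfold Kq
    have h2 : ∫ σ, Real.exp (-(v + b * σ) ^ 2 / 4) ∂mu 8 ≤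
        ∫ _ : ℝ, Real.exp (-(|v| - 8 * b) ^ 2 / 4) ∂mu 8 := by
      refine integral_mono_ae ?_ (integrable_const _) ?_
      · refine Integrable.mono' (integrable_const (1 : ℝ)) ?_ (Eventually.of_forall fun σ => ?_)
        · exact (by fun_prop : Continuous fun σ : ℝ =>
            Real.exp (-(v + b * σ) ^ 2 / 4)).aestronglyMeasurable
        · rw [Real.norm_of_nonneg (Real.exp_pos _).le]
          refine Real.exp_le_one_iff.mpr ?_
          have := sq_nonneg (v + b * σ)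
          linarith
      · have h8 := mu_supp 8
        push_cast at h8
        filter_upwards [h8] with σ hσ
        refine Real.exp_le_exp.mpr ?_
        have h3 : |v| - 8 * b ≤ |v + b * σ| := by
          have h4 : |b * σ| ≤ 8 * b := by
            rw [abs_mul, abs_of_pos hb0]
            have := mul_le_mul_of_nonneg_left hσ hb0.le
            linarith
          have h5 := abs_sub_abs_le_abs_sub v (-(b * σ))
          rw [abs_neg, sub_neg_eq_add] at h5
          linarith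
        have h4 := pow_le_pow_left₀ (by linarith) h3 2
        rw [sq_abs] at h4
        linarith
    simpa using h2
  have hk := Kq0_pos hb
  have hlow := Kq_low hb
  have hs2 : Real.sqrt Real.pi ≤ 2 := by
    rw [Real.sqrt_le_left (by norm_num)]
    linarith [Real.pi_lt_d2]
  have h2 : 1 / (800 * b) ≤ Kq b 0 := by
    have h3 : Real.sqrt Real.pi * Kq b 0 ≤ 2 * Kq b 0 := mul_le_mul_of_nonneg_right hs2 hk.le
    have h4 : 1 / (800 * b) * 2 = 1 / (400 * b) := by field_simp; norm_num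
    linarith
  rw [div_le_iff₀ hk]
  refine h1.trans ?_
  have h3 : 1 ≤ 800 * b * Kq b 0 := by
    rw [div_le_iff₀ (by positivity)] at h2
    linarith
  calc Real.exp (-(|v| - 8 * b) ^ 2 / 4) = 1 * Real.exp (-(|v| - 8 * b) ^ 2 / 4) := (one_mul _).symm
    _ ≤ (800 * b * Kq b 0) * Real.exp (-(|v| - 8 * b) ^ 2 / 4) :=
      mul_le_mul_of_nonneg_right h3 (Real.exp_pos _).le
    _ = _ := by ring

lemma qq_cont {b : ℝ} : Continuous (qq b) := by
  unfold qq
  refine Continuous.div_const ?_ _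
  unfold Kq
  refine continuous_of_dominated (bound := fun _ => (1 : ℝ)) ?_ ?_ (integrable_const _) ?_
  · intro v
    exact (by fun_prop : Continuous fun σ : ℝ =>
      Real.exp (-(v + b * σ) ^ 2 / 4)).aestronglyMeasurable
  · intro v
    refine Eventually.of_forall fun σ => ?_
    rw [Real.norm_of_nonneg (Real.exp_pos _).le]
    refine Real.exp_le_one_iff.mpr ?_
    have := sq_nonneg (v + b * σ)
    linarith
  · exact Eventually.of_forall fun σ => by fun_prop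

/-- the smoothed transform of the window -/
noncomputable def WW (b T1 T2 v : ℝ) : ℂ := ww T1 T2 v * (qq b v : ℂ)

lemma WW_cont {b T1 T2 : ℝ} : Continuous (WW b T1 T2) := by
  unfold WW
  have h1 := ww_cont T1 T2
  have h2 := qq_cont (b := b)
  fun_prop

lemma WW_norm {b : ℝ} (hb : 1 ≤ b) (T1 T2 v : ℝ) : ‖WW b T1 T2 v‖ = ‖ww T1 T2 v‖ * qq b v := by
  unfold WW
  rw [norm_mul, Complex.norm_real, Real.norm_of_nonneg (qq_nonneg hb v)]

lemma WW_le_ww {b : ℝ} (hb : 1 ≤ b) (T1 T2 v : ℝ) : ‖WW b T1 T2 v‖ ≤ ‖ww T1 T2 v‖ := by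
  rw [WW_norm hb]
  calc _ ≤ ‖ww T1 T2 v‖ * 1 := mul_le_mul_of_nonneg_left (qq_le hb v) (norm_nonneg _)
    _ = _ := mul_one _

lemma WW_zero {b : ℝ} (hb : 1 ≤ b) (T1 T2 : ℝ) : WW b T1 T2 0 = ((T2 - T1 : ℝ) : ℂ) := by
  unfold WW ww
  rw [qq_zero hb]
  simp

end Pool.Agent.T9h27.Z
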