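import Pool.Agent.T9h27.Z.Cut
import Pool.Agent.T9h27.Z.Ww
import Pool.Agent.H385R2.Defs

/-!
# The zero sum as a superposition of Gaussian zero sums (helper27)
-/

set_option autoImplicit false

open MeasureTheory Complex Filter Topology Set
open H385 (zz)

namespace Pool.Agent.T9h27.Z

lemma mu_ae (n : ℕ) : ∀ᵐ σ : ℝ ∂mu n, σ ∈ Icc (-(n : ℝ)) n := by
  filter_upwards [mu_supp n] with σ hσ
  exact abs_le.mp hσ

lemma mu_int {n : ℕ} {f : ℝ → ℂ} (hf : Continuous f) : Integrable f (mu n) := by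
  obtain ⟨C, hC⟩ := (isCompact_Icc (a := -(n : ℝ)) (b := n)).exists_bound_of_continuousOn
    hf.continuousOn
  refine Integrable.mono' (integrable_const C) hf.aestronglyMeasurable ?_
  filter_upwards [mu_ae n] with σ hσ
  exact hC σ hσ

lemma mu_cont {n : ℕ} {f : ℝ → ℝ → ℂ} (hf : Continuous (Function.uncurry f)) :
    Continuous fun τ => ∫ σ, f τ σ ∂mu n := by
  have h1 : (mu n).restrict (Icc (-(n : ℝ)) n) = mu n :=
    Measure.restrict_eq_self_of_ae_mem (mu_ae n)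
  have h2 := continuous_parametric_integral_of_continuous (μ := mu n) hf
    (isCompact_Icc (a := -(n : ℝ)) (b := n))
  rwa [h1] at h2

/-- the Gaussian zero sum -/
noncomputable def AA (Zf : Finset ℂ) (m : ℂ → ℕ) (v τ : ℝ) : ℂ :=
  ∑ s ∈ Zf, (m s : ℂ) * (cexp (I * v * zz s) * cexp (-(zz s - τ) ^ 2))

lemma AA_cont (Zf : Finset ℂ) (m : ℂ → ℕ) : Continuous (Function.uncurry (AA Zf m)) := by
  unfold AA
  simp only [Function.uncurry_def]
  fun_prop

/-- the cut-off zero sum -/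
noncomputable def SS (Zf : Finset ℂ) (m : ℂ → ℕ) (c : ℂ → ℂ) (u : ℝ) : ℂ :=
  ∑ s ∈ Zf, (m s : ℂ) * c (zz s) * cexp (I * u * zz s)

/-- the constant -/
noncomputable def K0 (b : ℝ) : ℝ := Real.sqrt Real.pi * Kq b 0

/-- the superposition -/
noncomputable def Spp (b T1 T2 u : ℝ) (f : ℝ → ℝ → ℂ) : ℂ :=
  ((K0 b : ℝ) : ℂ)⁻¹ * ∫ τ in T1..T2, ∫ σ : ℝ, cexp (-(I * b * σ * τ)) * f (u + b * σ) τ ∂mu 8

lemma Spp_ker (b u : ℝ) {f : ℝ → ℝ → ℂ} (hf : Continuous (Function.uncurry f)) :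
    Continuous (Function.uncurry fun τ σ : ℝ => cexp (-(I * b * σ * τ)) * f (u + b * σ) τ) := by
  have h1 : Continuous fun p : ℝ × ℝ => Function.uncurry f (u + b * p.2, p.1) :=
    hf.comp (by fun_prop)
  have h2 : Continuous fun p : ℝ × ℝ => cexp (-(I * b * p.2 * p.1)) := by fun_prop
  exact h2.mul h1

lemma Spp_sub {b T1 T2 u : ℝ} {f g : ℝ → ℝ → ℂ} (hf : Continuous (Function.uncurry f))
    (hg : Continuous (Function.uncurry g)) :
    Spp b T1 T2 u (fun v τ => f v τ - g v τ) = Spp b T1 T2 u f - Spp b T1 T2 u g := by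
  unfold Spp
  rw [← mul_sub]
  congr 1
  have kf := Spp_ker b u hf
  have kg := Spp_ker b u hg
  rw [← intervalIntegral.integral_sub ((mu_cont kf).intervalIntegrable _ _)
    ((mu_cont kg).intervalIntegrable _ _)]
  refine intervalIntegral.integral_congr fun τ _ => ?_
  have k1 : Continuous fun σ : ℝ => cexp (-(I * b * σ * τ)) * f (u + b * σ) τ :=
    kf.comp (by fun_prop : Continuous fun σ : ℝ => (τ, σ))
  have k2 : Continuous fun σ : ℝ => cexp (-(I * b * σ * τ)) * g (u + b * σ) τ :=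
    kg.comp (by fun_prop : Continuous fun σ : ℝ => (τ, σ))
  simp only
  rw [← integral_sub (mu_int k1) (mu_int k2)]
  refine integral_congr_ae (Eventually.of_forall fun σ => ?_)
  simp only
  ring

lemma Spp_sum {ι : Type} {b T1 T2 u : ℝ} (S : Finset ι) {f : ι → ℝ → ℝ → ℂ} (a : ι → ℂ)
    (hf : ∀ i, Continuous (Function.uncurry (f i))) :
    Spp b T1 T2 u (fun v τ => ∑ i ∈ S, a i * f i v τ) = ∑ i ∈ S, a i * Spp b T1 T2 u (f i) := by
  unfold Spp
  have e1 : ∀ i ∈ S, a i * (((K0 b : ℝ) : ℂ)⁻¹ * ∫ τ in T1..T2, ∫ σ : ℝ,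
      cexp (-(I * b * σ * τ)) * f i (u + b * σ) τ ∂mu 8) =
      ((K0 b : ℝ) : ℂ)⁻¹ * ∫ τ in T1..T2, a i * ∫ σ : ℝ,
      cexp (-(I * b * σ * τ)) * f i (u + b * σ) τ ∂mu 8 := by
    intro i _
    rw [intervalIntegral.integral_const_mul]
    ring
  rw [Finset.sum_congr rfl e1, ← Finset.mul_sum]
  congr 1
  rw [← intervalIntegral.integral_finsetSum]
  · refine intervalIntegral.integral_congr fun τ _ => ?_
    simp only
    have e2 : ∀ i ∈ S, a i * ∫ σ : ℝ, cexp (-(I * b * σ * τ)) * f i (u + b * σ) τ ∂mu 8 =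
        ∫ σ : ℝ, a i * (cexp (-(I * b * σ * τ)) * f i (u + b * σ) τ) ∂mu 8 := by
      intro i _
      rw [integral_const_mul]
    rw [Finset.sum_congr rfl e2, ← integral_finsetSum]
    · refine integral_congr_ae (Eventually.of_forall fun σ => ?_)
      simp only
      rw [Finset.mul_sum]
      refine Finset.sum_congr rfl fun i _ => ?_
      ring
    · intro i _
      have k1 : Continuous fun σ : ℝ => cexp (-(I * b * σ * τ)) * f i (u + b * σ) τ :=
        (Spp_ker b u (hf i)).comp (by fun_prop : Continuous fun σ : ℝ => (τ, σ))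
      exact (mu_int k1).const_mul _
  · intro i _
    exact ((mu_cont (Spp_ker b u (hf i))).const_mul (a i)).intervalIntegrable _ _

/-- the value on an exponential -/
lemma Spp_exp {b T1 T2 u x : ℝ} (hb : 1 ≤ b) :
    Spp b T1 T2 u (fun v τ => cexp (I * ((v + x : ℝ) : ℂ) * τ) *
      ((Real.exp (-(v + x) ^ 2 / 4) : ℝ) : ℂ)) =
      ((Real.sqrt Real.pi : ℝ) : ℂ)⁻¹ * WW b T1 T2 (u + x) := by
  unfold Spp
  have hk := Kq0_pos hb
  have hs : 0 < Real.sqrt Real.pi := Real.sqrt_pos.mpr Real.pi_pos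
  have h1 : ∀ τ : ℝ, ∫ σ : ℝ, cexp (-(I * b * σ * τ)) * (cexp (I * ((u + b * σ + x : ℝ) : ℂ) * τ) *
      ((Real.exp (-(u + b * σ + x) ^ 2 / 4) : ℝ) : ℂ)) ∂mu 8 =
      cexp (I * ((u + x : ℝ) : ℂ) * τ) * ((Kq b (u + x) : ℝ) : ℂ) := by
    intro τ
    unfold Kq
    rw [← integral_complex_ofReal, ← integral_const_mul]
    refine integral_congr_ae (Eventually.of_forall fun σ => ?_)
    simp only
    rw [← mul_assoc, ← Complex.exp_add]
    congr 2
    · push_cast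
      ring
    · congr 2
      ring
  simp_rw [h1]
  rw [intervalIntegral.integral_mul_const]
  unfold WW K0 qq ww
  have hk' : ((Kq b 0 : ℝ) : ℂ) ≠ 0 := by exact_mod_cast hk.ne'
  have hs' : ((Real.sqrt Real.pi : ℝ) : ℂ) ≠ 0 := by exact_mod_cast hs.ne'
  push_cast
  field_simp

/-- the value on the Gaussian zero sum -/
lemma Spp_AA {b T1 T2 u : ℝ} (Zf : Finset ℂ) (m : ℂ → ℕ) :
    Spp b T1 T2 u (AA Zf m) = SS Zf m (cz b T1 T2) u := by
  unfold AA
  rw [Spp_sum Zf (f := fun s v τ => cexp (I * v * zz s) * cexp (-(zz s - τ) ^ 2))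
    (fun s => (m s : ℂ)) (fun s => by simp only [Function.uncurry_def]; fun_prop)]
  unfold SS
  refine Finset.sum_congr rfl fun s _ => ?_
  rw [mul_assoc]
  congr 1
  unfold Spp cz K0
  rw [mul_assoc]
  congr 1
  rw [← intervalIntegral.integral_mul_const]
  refine intervalIntegral.integral_congr fun τ _ => ?_
  simp only
  rw [GG_sup, ← integral_mul_const]
  refine integral_congr_ae (Eventually.of_forall fun σ => ?_)
  simp only
  have e1 : cexp (-(I * b * σ * τ)) * cexp (I * ((u + b * σ : ℝ) : ℂ) * zz s) =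
      cexp (I * (b * (zz s - τ)) * σ) * cexp (I * u * zz s) := by
    rw [← Complex.exp_add, ← Complex.exp_add]
    congr 1
    push_cast
    ring
  linear_combination cexp (-(zz s - τ) ^ 2) * e1

/-- the error -/
lemma Spp_err {b T1 T2 u E0 : ℝ} (hb : 1 ≤ b) (hT : T1 ≤ T2) (hE : 0 ≤ E0) {f : ℝ → ℝ → ℂ}
    (h : ∀ v τ : ℝ, |v - u| ≤ 8 * b → τ ∈ Icc T1 T2 →
      ‖f v τ‖ ≤ E0 * (Real.exp (-|v| / 4) + 1 / b)) :
    ‖Spp b T1 T2 u f‖ ≤ 2000 * E0 * (T2 - T1) := by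
  have hb0 : 0 < b := by linarith
  have hk : 0 < K0 b := Kq_pos hb
  have h1 : (K0 b)⁻¹ ≤ 400 * b := by
    have := inv_anti₀ (by positivity) (Kq_low hb)
    rwa [one_div, inv_inv] at this
  unfold Spp
  rw [norm_mul, norm_inv, Complex.norm_real, Real.norm_of_nonneg hk.le]
  have hint : Integrable (fun σ : ℝ => Real.exp (-|u + b * σ| / 4)) (mu 8) := by
    refine Integrable.mono' (integrable_const (1 : ℝ)) ?_ (Eventually.of_forall fun σ => ?_)
    · exact (by fun_prop : Continuous fun σ : ℝ =>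
        Real.exp (-|u + b * σ| / 4)).aestronglyMeasurable
    · rw [Real.norm_of_nonneg (Real.exp_pos _).le]
      refine Real.exp_le_one_iff.mpr ?_
      have := abs_nonneg (u + b * σ)
      linarith
  have h2 : ∀ τ ∈ uIoc T1 T2, ‖∫ σ : ℝ, cexp (-(I * b * σ * τ)) * f (u + b * σ) τ ∂mu 8‖ ≤
      5 * E0 / b := by
    intro τ hτ
    rw [uIoc_of_le hT] at hτ
    have h3 : ‖∫ σ : ℝ, cexp (-(I * b * σ * τ)) * f (u + b * σ) τ ∂mu 8‖ ≤
        ∫ σ : ℝ, E0 * (Real.exp (-|u + b * σ| / 4) + 1 / b) ∂mu 8 := by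
      refine norm_integral_le_of_norm_le ((hint.add (integrable_const _)).const_mul _) ?_
      have h8 := mu_supp 8
      push_cast at h8
      filter_upwards [h8] with σ hσ
      have e1 : ‖cexp (-(I * b * σ * τ))‖ = 1 := by
        rw [Complex.norm_exp]
        simp
      rw [norm_mul, e1, one_mul]
      refine h _ _ ?_ (Ioc_subset_Icc_self hτ)
      rw [add_sub_cancel_left, abs_mul, abs_of_pos hb0]
      have := mul_le_mul_of_nonneg_left hσ hb0.le
      linarith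
    refine h3.trans ?_
    rw [integral_const_mul, integral_add hint (integrable_const _)]
    have h4 := mu_dens 7 hb0 u
    have h5 : ∫ _ : ℝ, 1 / b ∂mu 8 = 1 / b := by simp
    rw [h5]
    have h6 : E0 * (∫ σ : ℝ, Real.exp (-|u + b * σ| / 4) ∂mu 8 + 1 / b) ≤ E0 * (4 / b + 1 / b) :=
      mul_le_mul_of_nonneg_left (by linarith) hE
    refine h6.trans (le_of_eq ?_)
    ring
  have h3 := intervalIntegral.norm_integral_le_of_norm_le_const h2
  rw [abs_of_nonneg (by linarith : 0 ≤ T2 - T1)] at h3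
  calc (K0 b)⁻¹ * _ ≤ (400 * b) * (5 * E0 / b * (T2 - T1)) := by
        refine mul_le_mul h1 h3 (norm_nonneg _) (by positivity)
    _ = _ := by field_simp; ring

/-- the arithmetic side of the Gaussian explicit formula -/
noncomputable def DDa (L : ℝ) (N : Finset ℕ) (a : ℕ → ℂ) (v τ : ℝ) : ℂ :=
  ((1 / (2 * Real.sqrt Real.pi) : ℝ) : ℂ) *
    ((L : ℂ) * (cexp (I * (v : ℂ) * τ) * ((Real.exp (-v ^ 2 / 4) : ℝ) : ℂ)) -
      (∑ n ∈ N, a n * (Real.sqrt n : ℂ)⁻¹ * (cexp (I * ((v - Real.log n : ℝ) : ℂ) * τ) *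
        ((Real.exp (-(v - Real.log n) ^ 2 / 4) : ℝ) : ℂ))) -
      ∑ n ∈ N, (starRingEnd ℂ) (a n) * (Real.sqrt n : ℂ)⁻¹ *
        (cexp (I * ((v + Real.log n : ℝ) : ℂ) * τ) *
        ((Real.exp (-(v + Real.log n) ^ 2 / 4) : ℝ) : ℂ)))

lemma DDa_cont (L : ℝ) (N : Finset ℕ) (a : ℕ → ℂ) : Continuous (Function.uncurry (DDa L N a)) := by
  unfold DDa
  simp only [Function.uncurry_def]
  fun_prop

/-- the arithmetic side -/
noncomputable def AR (b T1 T2 L : ℝ) (N : Finset ℕ) (a : ℕ → ℂ) (u : ℝ) : ℂ :=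
  (L : ℂ) * WW b T1 T2 u - (∑ n ∈ N, a n * (Real.sqrt n : ℂ)⁻¹ * WW b T1 T2 (u - Real.log n)) -
    ∑ n ∈ N, (starRingEnd ℂ) (a n) * (Real.sqrt n : ℂ)⁻¹ * WW b T1 T2 (u + Real.log n)

lemma Spp_DDa {b T1 T2 u L : ℝ} (hb : 1 ≤ b) (N : Finset ℕ) (a : ℕ → ℂ) :
    Spp b T1 T2 u (DDa L N a) = ((1 / (2 * Real.pi) : ℝ) : ℂ) * AR b T1 T2 L N a u := by
  have hs : 0 < Real.sqrt Real.pi := Real.sqrt_pos.mpr Real.pi_pos
  obtain ⟨k, hk⟩ : ∃ k : ℂ, k = ((1 / (2 * Real.sqrt Real.pi) : ℝ) : ℂ) := ⟨_, rfl⟩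
  obtain ⟨e, he⟩ : ∃ e : ℝ → ℝ → ℝ → ℂ, ∀ x v τ, e x v τ = cexp (I * ((v + x : ℝ) : ℂ) * τ) *
      ((Real.exp (-(v + x) ^ 2 / 4) : ℝ) : ℂ) := ⟨_, fun _ _ _ => rfl⟩
  have hec : ∀ x, Continuous (Function.uncurry (e x)) := by
    intro x
    have : e x = fun v τ : ℝ => cexp (I * ((v + x : ℝ) : ℂ) * τ) *
      ((Real.exp (-(v + x) ^ 2 / 4) : ℝ) : ℂ) := by
      funext v τ
      exact he x v τ
    rw [this]
    simp only [Function.uncurry_def]
    fun_prop
  have hev : ∀ x, Spp b T1 T2 u (e x) = ((Real.sqrt Real.pi : ℝ) : ℂ)⁻¹ * WW b T1 T2 (u + x) := by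
    intro x
    rw [← Spp_exp hb]
    congr 1
    funext v τ
    exact he x v τ
  have h1 : DDa L N a = fun v τ => (∑ i ∈ ({()} : Finset Unit), (k * L) * e 0 v τ) -
      (∑ n ∈ N, (k * (a n * (Real.sqrt n : ℂ)⁻¹)) * e (-Real.log n) v τ) -
      (∑ n ∈ N, (k * ((starRingEnd ℂ) (a n) * (Real.sqrt n : ℂ)⁻¹)) * e (Real.log n) v τ) := by
    funext v τ
    unfold DDa
    rw [← hk, Finset.sum_singleton, mul_sub, mul_sub, Finset.mul_sum, Finset.mul_sum]
    congr 1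
    · congr 1
      · rw [he, add_zero]
        ring
      · refine Finset.sum_congr rfl fun n _ => ?_
        rw [he, ← sub_eq_add_neg]
        ring
    · refine Finset.sum_congr rfl fun n _ => ?_
      rw [he]
      ring
  have c1 : Continuous (Function.uncurry fun v τ : ℝ => ∑ i ∈ ({()} : Finset Unit),
      (k * L) * e 0 v τ) := by
    simp only [Finset.sum_singleton]
    exact (hec 0).const_mul _
  have c2 : ∀ (g : ℕ → ℂ) (y : ℕ → ℝ), Continuous (Function.uncurry fun v τ : ℝ =>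
      ∑ n ∈ N, g n * e (y n) v τ) := by
    intro g y
    have : (Function.uncurry fun v τ : ℝ => ∑ n ∈ N, g n * e (y n) v τ) =
        fun p : ℝ × ℝ => ∑ n ∈ N, g n * Function.uncurry (e (y n)) p := by
      funext p
      rfl
    rw [this]
    exact continuous_finsetSum _ fun n _ => (hec _).const_mul _
  rw [h1, Spp_sub (f := fun v τ => (∑ i ∈ ({()} : Finset Unit), (k * L) * e 0 v τ) -
      (∑ n ∈ N, (k * (a n * (Real.sqrt n : ℂ)⁻¹)) * e (-Real.log n) v τ)) (c1.sub (c2 _ _))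
      (c2 _ _), Spp_sub c1 (c2 _ _), Spp_sum _ _ (fun _ => hec 0), Spp_sum _ _ (fun _ => hec _),
      Spp_sum _ _ (fun _ => hec _)]
  simp_rw [hev]
  unfold AR
  rw [Finset.sum_singleton, add_zero, mul_sub, mul_sub, Finset.mul_sum, Finset.mul_sum]
  have hkk : k * ((Real.sqrt Real.pi : ℝ) : ℂ)⁻¹ = ((1 / (2 * Real.pi) : ℝ) : ℂ) := by
    rw [hk, ← Complex.ofReal_inv, ← Complex.ofReal_mul]
    congr 1
    have := Real.mul_self_sqrt Real.pi_pos.le
    have h2 : 2 * Real.pi = 2 * Real.sqrt Real.pi * Real.sqrt Real.pi := by rw [mul_assoc, this]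
    rw [h2]
    field_simp
  rw [← hkk]
  congr 1
  · congr 1
    · ring
    · refine Finset.sum_congr rfl fun n _ => ?_
      rw [← sub_eq_add_neg]
      ring
  · refine Finset.sum_congr rfl fun n _ => ?_
    ring

/-- **the explicit formula for the cut-off zero sum** -/
theorem sup_formula {b T1 T2 u E0 L : ℝ} (hb : 1 ≤ b) (hT : T1 ≤ T2) (hE : 0 ≤ E0)
    (Zf : Finset ℂ) (m : ℂ → ℕ) (N : Finset ℕ) (a : ℕ → ℂ)
    (h : ∀ v τ : ℝ, |v - u| ≤ 8 * b → τ ∈ Icc T1 T2 →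
      ‖AA Zf m v τ - DDa L N a v τ‖ ≤ E0 * (Real.exp (-|v| / 4) + 1 / b)) :
    ‖SS Zf m (cz b T1 T2) u - ((1 / (2 * Real.pi) : ℝ) : ℂ) * AR b T1 T2 L N a u‖ ≤
      2000 * E0 * (T2 - T1) := by
  rw [← Spp_AA, ← Spp_DDa hb, ← Spp_sub (AA_cont Zf m) (DDa_cont L N a)]
  exact Spp_err hb hT hE h

end Pool.Agent.T9h27.Z
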