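import Pool.Agent.H385R2.PerChi

/-!
# The trace inequality without the Gaussian factor (helper27)
-/

set_option autoImplicit false

open Complex Filter Topology Set MeasureTheory
open scoped BigOperators ComplexConjugate
open H385
open H370 (mult)

namespace Pool.Agent.T9h27.Z

noncomputable def kz (γ Λ : ℝ) (z : ℂ) (x : ℝ) : ℂ :=
  (Real.sqrt (gw γ x) : ℂ) * cexp (I * z * (Λ * x))

noncomputable def mz : Measure ℝ := volume.restrict (Set.Ioc (-1 / 2 : ℝ) (1 / 2))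

lemma kz_cont (γ Λ : ℝ) (z : ℂ) : Continuous (kz γ Λ z) := by
  unfold kz
  have := WinAux.cont γ
  fun_prop

lemma kz_memLp (γ Λ : ℝ) (z : ℂ) : MemLp (kz γ Λ z) 2 mz := by
  rw [memLp_two_iff_integrable_sq_norm (kz_cont γ Λ z).aestronglyMeasurable]
  have hc : Continuous (fun x : ℝ => ‖kz γ Λ z x‖ ^ 2) := by
    have := kz_cont γ Λ z
    fun_prop
  exact hc.integrableOn_Ioc

lemma kz_inner (γ : ℝ) (h0 : 0 < γ) (hπ : γ < Real.pi) (Λ : ℝ) (z w : ℂ) :
    ∫ x, (starRingEnd ℂ) (kz γ Λ z x) * kz γ Λ w x ∂mz = kapw γ (Λ * (w - (starRingEnd ℂ) z)) := by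
  unfold kapw mz
  rw [intervalIntegral.integral_of_le (by norm_num)]
  apply setIntegral_congr_fun measurableSet_Ioc
  intro x hx
  simp only [kz, map_mul, Complex.conj_ofReal, ← Complex.exp_conj, Complex.conj_I]
  have h1 := gw_nonneg γ h0 hπ x hx.1.le hx.2
  have e1 : (gw γ x : ℂ) = (Real.sqrt (gw γ x) : ℂ) * (Real.sqrt (gw γ x) : ℂ) := by
    rw [← Complex.ofReal_mul, Real.mul_self_sqrt h1]
  have e : cexp (-I * (starRingEnd ℂ) z * (Λ * x)) * cexp (I * w * (Λ * x)) =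
      cexp (I * (Λ * (w - (starRingEnd ℂ) z)) * x) := by
    rw [← Complex.exp_add]
    congr 1
    ring
  rw [e1]
  linear_combination ((Real.sqrt (gw γ x) : ℂ) * (Real.sqrt (gw γ x) : ℂ)) * e

theorem gram_z (γ : ℝ) (h0 : 0 < γ) (hπ : γ < Real.pi) (Λ : ℝ) :
    ∃ (E : Type) (_ : NormedAddCommGroup E) (_ : InnerProductSpace ℂ E)
    (k : ℂ → E), ∀ z w, inner ℂ (k z) (k w) = kapw γ (Λ * (w - (starRingEnd ℂ) z)) := by
  refine ⟨Lp ℂ 2 mz, inferInstance, inferInstance,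
    fun z => (kz_memLp γ Λ z).toLp _, fun z w => ?_⟩
  rw [L2.inner_def, ← kz_inner γ h0 hπ]
  apply integral_congr_ae
  filter_upwards [(kz_memLp γ Λ z).coeFn_toLp, (kz_memLp γ Λ w).coeFn_toLp] with p h1 h2
  rw [h1, h2, RCLike.inner_apply, mul_comm]

section

variable (Z : Finset ℂ) (hZ : ∀ z ∈ Z, (starRingEnd ℂ) z ∈ Z) (a : ℂ → ℂ)
    (hac : ∀ z ∈ Z, a ((starRingEnd ℂ) z) = (starRingEnd ℂ) (a z))

/-- mean square of the weighted zero sum -/
noncomputable def SQ (u : ℝ) : ℝ := ‖∑ z ∈ Z, a z * cexp (I * u * z)‖ ^ 2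

lemma SQ_cont : Continuous (fun u : ℝ => SQ Z a u) := by
  unfold SQ
  fun_prop

include hZ hac in
lemma SQ_eq (u : ℝ) : ((SQ Z a u : ℝ) : ℂ) =
    ∑ z ∈ Z, ∑ w ∈ Z, a z * a w * cexp (I * u * (z - w)) := by
  unfold SQ
  rw [← Complex.normSq_eq_norm_sq, ← Complex.mul_conj, map_sum, Finset.sum_mul_sum]
  refine Finset.sum_congr rfl fun s _ => ?_
  have h2 : ∀ s' ∈ Z, a s * cexp (I * u * s) * (starRingEnd ℂ) (a s' * cexp (I * u * s')) =
      (fun w => a s * a w * cexp (I * u * (s - w))) (conj s') := by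
    intro s' hs'
    simp only
    rw [hac s' hs', map_mul, ← Complex.exp_conj]
    have e1 : conj (I * u * s') = -(I * u * conj s') := by simp
    have : cexp (I * u * (s - conj s')) =
        cexp (I * u * s) * cexp (-(I * u * conj s')) := by
      rw [← Complex.exp_add]; congr 1; ring
    rw [this, e1]
    ring
  rw [Finset.sum_congr rfl h2]
  exact Quad.sum_conj Z hZ (fun w => a s * a w * cexp (I * u * (s - w)))

include hZ hac in
lemma SQ_even (u : ℝ) : SQ Z a (-u) = SQ Z a u := by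
  apply Complex.ofReal_injective
  rw [SQ_eq Z hZ a hac, SQ_eq Z hZ a hac, Finset.sum_comm]
  refine Finset.sum_congr rfl fun s _ => Finset.sum_congr rfl fun s' _ => ?_
  have e1 : I * ((-u : ℝ) : ℂ) * (s' - s) = I * u * (s - s') := by push_cast; ring
  rw [e1]; ring

end

theorem quad_z (γ Λ : ℝ) (h0 : 0 < γ) (hπ : γ < Real.pi) (hΛ : 0 < Λ)
    (Z : Finset ℂ) (hZ : ∀ z ∈ Z, (starRingEnd ℂ) z ∈ Z) (a : ℂ → ℂ)
    (hac : ∀ z ∈ Z, a ((starRingEnd ℂ) z) = (starRingEnd ℂ) (a z)) :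
    (∑ z ∈ Z, ∑ w ∈ Z, a z * a w * (kapw γ (Λ * (z - w))) ^ 2).re =
      (2 / Λ) * ∫ u in (0 : ℝ)..Λ, Rw γ (u / Λ) * SQ Z a u := by
  have hcont := PerChi.Rw_cont γ h0 hπ
  have hev := Rw_even γ
  have h1 : ∀ s s' : ℂ, (kapw γ (Λ * (s - s'))) ^ 2 = ∫ α in (-1 : ℝ)..1, (Rw γ α : ℂ) *
      cexp (I * ((Λ * α : ℝ) : ℂ) * (s - s')) := by
    intro s s'
    rw [kapw_sq γ h0 hπ]
    refine intervalIntegral.integral_congr fun α _ => ?_
    congr 2
    push_cast; ring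
  have h2 : ∑ s ∈ Z, ∑ s' ∈ Z, a s * a s' * (kapw γ (Λ * (s - s'))) ^ 2 =
      ∫ α in (-1 : ℝ)..1, ((Rw γ α * SQ Z a (Λ * α) : ℝ) : ℂ) := by
    have h3 : ∀ α : ℝ, ((Rw γ α * SQ Z a (Λ * α) : ℝ) : ℂ) =
        ∑ s ∈ Z, ∑ s' ∈ Z, a s * a s' * ((Rw γ α : ℂ) *
      cexp (I * ((Λ * α : ℝ) : ℂ) * (s - s'))) := by
      intro α
      rw [Complex.ofReal_mul, SQ_eq Z hZ a hac, Finset.mul_sum]
      refine Finset.sum_congr rfl fun s _ => ?_
      rw [Finset.mul_sum]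
      refine Finset.sum_congr rfl fun s' _ => ?_
      ring
    simp_rw [h3]
    have hc : ∀ s s' : ℂ, Continuous fun α : ℝ => a s * a s' * ((Rw γ α : ℂ) *
      cexp (I * ((Λ * α : ℝ) : ℂ) * (s - s'))) := by
      intro s s'
      have := hcont
      fun_prop
    rw [intervalIntegral.integral_finsetSum]
    swap
    · intro s _
      exact (continuous_finsetSum _ fun s' _ => hc s s').intervalIntegrable _ _
    refine Finset.sum_congr rfl fun s _ => ?_
    rw [intervalIntegral.integral_finsetSum]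
    swap
    · intro s' _
      exact (hc s s').intervalIntegrable _ _
    refine Finset.sum_congr rfl fun s' _ => ?_
    rw [h1, intervalIntegral.integral_const_mul]
  rw [h2, intervalIntegral.integral_ofReal, Complex.ofReal_re]
  set G : ℝ → ℝ := fun α => Rw γ α * SQ Z a (Λ * α) with hG
  have hGc : Continuous G := hcont.mul ((SQ_cont Z a).comp (by fun_prop))
  have hGe : ∀ α, G (-α) = G α := by
    intro α
    simp only [hG]
    rw [hev, mul_neg, SQ_even Z hZ a hac]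
  have h4 : ∫ α in (-1 : ℝ)..1, G α = 2 * ∫ α in (0 : ℝ)..1, G α := by
    rw [← intervalIntegral.integral_add_adjacent_intervals (b := 0)
      (hGc.intervalIntegrable _ _) (hGc.intervalIntegrable _ _)]
    have h5 : ∫ α in (-1 : ℝ)..0, G α = ∫ α in (0 : ℝ)..1, G α := by
      have := intervalIntegral.integral_comp_neg (a := (0 : ℝ)) (b := 1) G
      simp_rw [hGe] at this
      rw [neg_zero] at this
      exact this.symm
    rw [h5]; ring
  have h6 : ∫ α in (0 : ℝ)..1, G α = Λ⁻¹ * ∫ u in (0 : ℝ)..Λ, Rw γ (u / Λ) * SQ Z a u := by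
    have h7 := intervalIntegral.integral_comp_mul_left (a := (0 : ℝ)) (b := 1)
      (fun u => Rw γ (u / Λ) * SQ Z a u) (c := Λ) hΛ.ne'
    rw [mul_zero, mul_one, smul_eq_mul] at h7
    rw [← h7]
    refine intervalIntegral.integral_congr fun α _ => ?_
    show Rw γ α * SQ Z a (Λ * α) = Rw γ (Λ * α / Λ) * SQ Z a (Λ * α)
    rw [mul_div_cancel_left₀ _ hΛ.ne']
  rw [h4, h6]
  ring

/-- **the trace inequality** -/
theorem trace_z (γ Λ : ℝ) (h0 : 0 < γ) (hπ : γ < Real.pi) (hΛ : 0 < Λ) (F : ℂ → ℂ)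
    (Zf : Finset ℂ) (hZs : ∀ s ∈ Zf, 1 - conj s ∈ Zf)
    (hm : ∀ s ∈ Zf, mult F (1 - conj s) = mult F s) (c : ℂ → ℂ)
    (hc : ∀ z, c (conj z) = conj (c z))
    (hcr : ∀ x : ℝ, 0 ≤ (c (x : ℂ)).re ∧ (c (x : ℂ)).re ≤ 1) :
    ∑ s ∈ Zf, (4 * (mult F s : ℝ) * (c (zz s)).re - PerChi.kk F s) ≤
      (2 / Λ) * (∫ u in (0 : ℝ)..Λ, Rw γ (u / Λ) *
        ‖∑ s ∈ Zf, (mult F s : ℂ) * c (zz s) * cexp (I * u * zz s)‖ ^ 2) := by
  classical
  set Z := Zf.image zz with hZdef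
  have hinj : Set.InjOn zz (Zf : Set ℂ) := fun s _ s' _ h => PerChi.zz_inj h
  obtain ⟨a, ha⟩ : ∃ a : ℂ → ℂ, ∀ z, a z = (mult F (1 / 2 + I * z) : ℂ) * c z := ⟨_, fun _ => rfl⟩
  have haz : ∀ s, a (zz s) = (mult F s : ℂ) * c (zz s) := by
    intro s
    rw [ha, PerChi.zz_spec]
  have hZ : ∀ z ∈ Z, (starRingEnd ℂ) z ∈ Z := by
    intro z hz
    obtain ⟨s, hs, rfl⟩ := Finset.mem_image.mp hz
    rw [← PerChi.zz_refl]
    exact Finset.mem_image_of_mem _ (hZs s hs)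
  have hac : ∀ z ∈ Z, a ((starRingEnd ℂ) z) = (starRingEnd ℂ) (a z) := by
    intro z hz
    obtain ⟨s, hs, rfl⟩ := Finset.mem_image.mp hz
    rw [← PerChi.zz_refl, haz, haz, map_mul, Complex.conj_natCast, ← hc, PerChi.zz_refl, hm s hs]
  obtain ⟨E, i1, i2, k, hk⟩ := gram_z γ h0 hπ Λ
  set S := Z.filter (fun z => z.im = 0 ∧ mult F (1 / 2 + I * z) = 1) with hS
  have hSZ : S ⊆ Z := Finset.filter_subset _ _
  have hSr : ∀ z ∈ S, z.im = 0 ∧ 0 ≤ (a z).re ∧ (a z).re ≤ 1 := by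
    intro z hz
    obtain ⟨hz1, hz2, hz3⟩ := Finset.mem_filter.mp hz
    have hzr : z = ((z.re : ℝ) : ℂ) := by
      apply Complex.ext
      · simp
      · simp [hz2]
    have h4 := hcr z.re
    rw [← hzr] at h4
    refine ⟨hz2, ?_⟩
    rw [ha, hz3, Nat.cast_one, one_mul]
    exact h4
  have hev : ∀ z, kapw γ (Λ * (-z)) = kapw γ (Λ * z) := by
    intro z
    rw [mul_neg, kapw_even]
  have hk0 : kapw γ (Λ * 0) = 1 := by rw [mul_zero, kapw_zero γ h0 hπ]
  have hmain := trace_w (fun z => kapw γ (Λ * z)) k hk hev hk0 Z hZ a hac S hSZ hSr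
  rw [quad_z γ Λ h0 hπ hΛ Z hZ a hac] at hmain
  have hBB : ∀ u : ℝ, SQ Z a u =
      ‖∑ s ∈ Zf, (mult F s : ℂ) * c (zz s) * cexp (I * u * zz s)‖ ^ 2 := by
    intro u
    unfold SQ
    rw [hZdef, Finset.sum_image hinj]
    congr 2
    refine Finset.sum_congr rfl fun s _ => ?_
    rw [haz]
  simp_rw [hBB] at hmain
  refine le_trans (le_of_eq ?_) hmain
  -- compute the left hand side
  have c1 : (∑ z ∈ Z, a z).re = ∑ s ∈ Zf, (mult F s : ℝ) * (c (zz s)).re := by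
    rw [hZdef, Finset.sum_image hinj, Complex.re_sum]
    refine Finset.sum_congr rfl fun s _ => ?_
    rw [haz, ← Complex.ofReal_natCast, Complex.re_ofReal_mul]
  have him0 : ∀ s, (zz s).im = 0 ↔ s.re = 1 / 2 := by
    intro s; rw [PerChi.zz_im]; constructor <;> intro h <;> linarith
  have c2 : (S.card : ℝ) = ∑ s ∈ Zf, if (s.re = 1 / 2 ∧ mult F s = 1) then 1 else 0 := by
    rw [hS, Finset.card_filter, Nat.cast_sum, hZdef, Finset.sum_image hinj]
    refine Finset.sum_congr rfl fun s _ => ?_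
    simp only [him0, PerChi.zz_spec, Nat.cast_ite, Nat.cast_one, Nat.cast_zero]
  have c3 : (((Z \ S).filter (fun z => z.im = 0)).card : ℝ) =
      ∑ s ∈ Zf, if (s.re = 1 / 2 ∧ mult F s ≠ 1) then 1 else 0 := by
    have : (Z \ S).filter (fun z => z.im = 0) =
        Z.filter (fun z => z.im = 0 ∧ mult F (1 / 2 + I * z) ≠ 1) := by
      ext z
      simp only [hS, Finset.mem_filter, Finset.mem_sdiff]
      tauto
    rw [this, Finset.card_filter, Nat.cast_sum, hZdef, Finset.sum_image hinj]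
    refine Finset.sum_congr rfl fun s _ => ?_
    simp only [him0, PerChi.zz_spec, Nat.cast_ite, Nat.cast_one, Nat.cast_zero]
  have c4 : 2 * ((Z.filter (fun z => 0 < z.im)).card : ℝ) =
      ∑ s ∈ Zf, if s.re = 1 / 2 then 0 else 1 := by
    have e1 : (Z.filter (fun z => z.im < 0)).card = (Z.filter (fun z => 0 < z.im)).card := by
      refine Finset.card_nbij' (fun z => (starRingEnd ℂ) z) (fun z => (starRingEnd ℂ) z) ?_ ?_ ?_ ?_
      · intro z hz
        simp only [Finset.coe_filter, Set.mem_ofPred_eq] at hz ⊢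
        refine ⟨hZ z hz.1, ?_⟩
        rw [Complex.conj_im]; linarith [hz.2]
      · intro z hz
        simp only [Finset.coe_filter, Set.mem_ofPred_eq] at hz ⊢
        refine ⟨hZ z hz.1, ?_⟩
        rw [Complex.conj_im]; linarith [hz.2]
      · intro z _; simp
      · intro z _; simp
    have e2 : (Z.filter (fun z => ¬ z.im = 0)).card =
        (Z.filter (fun z => z.im < 0)).card + (Z.filter (fun z => 0 < z.im)).card := by
      rw [← Finset.card_union_of_disjoint]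
      · congr 1
        ext z
        simp only [Finset.mem_filter, Finset.mem_union]
        constructor
        · rintro ⟨h1, h2⟩
          rcases lt_or_gt_of_ne h2 with h | h
          · exact Or.inl ⟨h1, h⟩
          · exact Or.inr ⟨h1, h⟩
        · rintro (⟨h1, h2⟩ | ⟨h1, h2⟩)
          · exact ⟨h1, ne_of_lt h2⟩
          · exact ⟨h1, ne_of_gt h2⟩
      · rw [Finset.disjoint_filter]
        intro z _ h1 h2
        linarith
    have e3 : 2 * ((Z.filter (fun z => 0 < z.im)).card : ℝ) =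
        ((Z.filter (fun z => ¬ z.im = 0)).card : ℝ) := by
      rw [e2, e1]; push_cast; ring
    rw [e3, Finset.card_filter, Nat.cast_sum, hZdef, Finset.sum_image hinj]
    refine Finset.sum_congr rfl fun s _ => ?_
    simp only [him0, Nat.cast_ite, Nat.cast_one, Nat.cast_zero, ite_not]
  have c5 : ∑ s ∈ Zf, (4 * (mult F s : ℝ) * (c (zz s)).re - PerChi.kk F s) =
      4 * (∑ s ∈ Zf, (mult F s : ℝ) * (c (zz s)).re) -
      3 * (∑ s ∈ Zf, if (s.re = 1 / 2 ∧ mult F s = 1) then (1 : ℝ) else 0) -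
      (4 * (∑ s ∈ Zf, if (s.re = 1 / 2 ∧ mult F s ≠ 1) then (1 : ℝ) else 0) +
        2 * (∑ s ∈ Zf, if s.re = 1 / 2 then (0 : ℝ) else 1)) := by
    rw [Finset.mul_sum, Finset.mul_sum, Finset.mul_sum, Finset.mul_sum, ← Finset.sum_sub_distrib,
      ← Finset.sum_add_distrib, ← Finset.sum_sub_distrib]
    refine Finset.sum_congr rfl fun s _ => ?_
    unfold PerChi.kk
    by_cases h1 : s.re = 1 / 2
    · by_cases h2 : mult F s = 1
      · rw [if_pos h1, if_pos h2, if_pos ⟨h1, h2⟩, if_neg (fun h => h.2 h2), if_pos h1]; ring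
      · rw [if_pos h1, if_neg h2, if_neg (fun h => h2 h.2), if_pos ⟨h1, h2⟩, if_pos h1]; ring
    · rw [if_neg h1, if_neg (fun h => h1 h.1), if_neg (fun h => h1 h.1), if_neg h1]; ring
  rw [c5, c1, c2, c3, ← c4]
  ring

/-- the weighted version -/
theorem trace_w' (γ Λ : ℝ) (h0 : 0 < γ) (hπ : γ < Real.pi) (hΛ : 0 < Λ) (F : ℂ → ℂ)
    (Zf : Finset ℂ) (hZs : ∀ s ∈ Zf, 1 - conj s ∈ Zf)
    (hm : ∀ s ∈ Zf, mult F (1 - conj s) = mult F s) (c : ℂ → ℂ)
    (hc : ∀ z, c (conj z) = conj (c z))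
    (hcr : ∀ x : ℝ, 0 ≤ (c (x : ℂ)).re ∧ (c (x : ℂ)).re ≤ 1) (w : ℂ → ℝ)
    (hw : ∀ s ∈ Zf, w s ≤ 4 * (mult F s : ℝ) - PerChi.kk F s) :
    ∑ s ∈ Zf, w s ≤
      (2 / Λ) * (∫ u in (0 : ℝ)..Λ, Rw γ (u / Λ) *
        ‖∑ s ∈ Zf, (mult F s : ℂ) * c (zz s) * cexp (I * u * zz s)‖ ^ 2) +
      4 * ∑ s ∈ Zf, (mult F s : ℝ) * ‖1 - c (zz s)‖ := by
  have h1 := trace_z γ Λ h0 hπ hΛ F Zf hZs hm c hc hcr
  refine le_trans ?_ (add_le_add h1 le_rfl)
  rw [Finset.mul_sum, ← Finset.sum_add_distrib]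
  refine Finset.sum_le_sum fun s hs => ?_
  have h2 := hw s hs
  have h3 : 1 - (c (zz s)).re ≤ ‖1 - c (zz s)‖ := by
    have := Complex.re_le_norm (1 - c (zz s))
    simpa using this
  have h4 := mul_le_mul_of_nonneg_left h3 (Nat.cast_nonneg (α := ℝ) (mult F s))
  linarith

end Pool.Agent.T9h27.Z
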