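import Pool.Agent.T9h27.Z.Msa
import Pool.Agent.T9h27.Z.Sup
import Pool.Agent.T9h27.Z.Tr
import Pool.Agent.T9h27.Z.Bad
import Pool.Agent.T9h27.Z.Cov

/-!
# The upper bound (helper27)
-/

set_option autoImplicit false

open MeasureTheory Complex Filter Topology Set
open scoped ComplexConjugate
open H385 (Rw zz)
open H385.PerChi (Rw_cont)
open H370 (mult)

namespace Pool.Agent.T9h27.Z

lemma SS_cont (Zf : Finset ℂ) (m : ℂ → ℕ) (c : ℂ → ℂ) : Continuous (SS Zf m c) := by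
  unfold SS
  fun_prop

/-- the part of the arithmetic side not prime to `q` -/
noncomputable def NCs (M q : ℕ) (a : ℕ → ℂ) : ℝ :=
  ∑ n ∈ Finset.Icc 1 M, (if Nat.Coprime n q then 0 else ‖a n‖ * (Real.sqrt n)⁻¹)

lemma AR_cop {b : ℝ} (hb : 1 ≤ b) {T1 T2 : ℝ} (hT : T1 ≤ T2) (L : ℝ) (M q : ℕ) (a : ℕ → ℂ)
    (u : ℝ) : ‖AR b T1 T2 L (Finset.Icc 1 M) a u - ((L : ℂ) * WW b T1 T2 u -
      Pc b T1 T2 M q a u - Pm b T1 T2 M q a u)‖ ≤ 2 * (T2 - T1) * NCs M q a := by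
  have h0 : ∀ v, ‖WW b T1 T2 v‖ ≤ T2 - T1 := fun v =>
    (WW_le_ww hb T1 T2 v).trans (ww_le hT v)
  have key : ∀ (x : ℕ → ℂ) (y : ℕ → ℝ), (∀ n, ‖x n‖ ≤ ‖a n‖) →
      ‖∑ n ∈ Finset.Icc 1 M, (if Nat.Coprime n q then 0 else x n) * (Real.sqrt n : ℂ)⁻¹ *
        WW b T1 T2 (y n)‖ ≤ (T2 - T1) * NCs M q a := by
    intro x y hx
    unfold NCs
    rw [Finset.mul_sum]
    refine norm_sum_le_of_le _ fun n _ => ?_
    split_ifs with h
    · simp
    · rw [norm_mul, norm_mul, norm_inv, Complex.norm_real, Real.norm_of_nonneg (Real.sqrt_nonneg _)]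
      have h1 := h0 (y n)
      have h2 := hx n
      calc ‖x n‖ * (Real.sqrt n)⁻¹ * ‖WW b T1 T2 (y n)‖ ≤
          ‖a n‖ * (Real.sqrt n)⁻¹ * (T2 - T1) := by gcongr
        _ = _ := by ring
  have h1 := key a (fun n => u - Real.log n) fun n => le_rfl
  have h2 := key (fun n => conj (a n)) (fun n => u + Real.log n) fun n => by
    rw [RCLike.norm_conj]
  have e1 : AR b T1 T2 L (Finset.Icc 1 M) a u - ((L : ℂ) * WW b T1 T2 u -
      Pc b T1 T2 M q a u - Pm b T1 T2 M q a u) =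
      -(∑ n ∈ Finset.Icc 1 M, (if Nat.Coprime n q then 0 else a n) * (Real.sqrt n : ℂ)⁻¹ *
        WW b T1 T2 (u - Real.log n)) -
      ∑ n ∈ Finset.Icc 1 M, (if Nat.Coprime n q then 0 else conj (a n)) * (Real.sqrt n : ℂ)⁻¹ *
        WW b T1 T2 (u + Real.log n) := by
    unfold AR Pc Pm
    have s1 : ∑ n ∈ Finset.Icc 1 M, a n * (Real.sqrt n : ℂ)⁻¹ * WW b T1 T2 (u - Real.log n) =
        ∑ n ∈ Finset.Icc 1 M, (if Nat.Coprime n q then a n else 0) * (Real.sqrt n : ℂ)⁻¹ *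
          WW b T1 T2 (u - Real.log n) +
        ∑ n ∈ Finset.Icc 1 M, (if Nat.Coprime n q then 0 else a n) * (Real.sqrt n : ℂ)⁻¹ *
          WW b T1 T2 (u - Real.log n) := by
      rw [← Finset.sum_add_distrib]
      refine Finset.sum_congr rfl fun n _ => ?_
      split_ifs <;> ring
    have s2 : ∑ n ∈ Finset.Icc 1 M, conj (a n) * (Real.sqrt n : ℂ)⁻¹ *
          WW b T1 T2 (u + Real.log n) =
        ∑ n ∈ Finset.Icc 1 M, conj (if Nat.Coprime n q then a n else 0) *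
          (Real.sqrt n : ℂ)⁻¹ * WW b T1 T2 (u + Real.log n) +
        ∑ n ∈ Finset.Icc 1 M, (if Nat.Coprime n q then 0 else conj (a n)) * (Real.sqrt n : ℂ)⁻¹ *
          WW b T1 T2 (u + Real.log n) := by
      rw [← Finset.sum_add_distrib]
      refine Finset.sum_congr rfl fun n _ => ?_
      split_ifs
      · ring
      · rw [map_zero]
        ring
    rw [s1, s2]
    ring
  rw [e1]
  refine (norm_sub_le _ _).trans ?_
  rw [norm_neg]
  linarith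

section

variable {ι : Type} {s : Finset ι} {F : ι → ℂ → ℂ} {Z : ι → Finset ℂ} {a : ι → ℕ → ℂ} {M q : ℕ}

/-- the explicit formula in the form used below -/
lemma form {R y l₁ E0 NC Λ : ℝ} (hy : 0 < y) (hy1 : y ≤ 1) (hb : 1 ≤ y * R) (hE : 0 ≤ E0)
    {T1 T2 : ℝ} (hT : T1 ≤ T2) (Lc : ι → ℝ) (hΛ : Λ + 8 * (y * R) ≤ l₁ * R)
    (hEF : ∀ i ∈ s, ∀ v τ : ℝ, |v| ≤ l₁ * R → τ ∈ Icc T1 T2 →
      ‖AA (Z i) (mult (F i)) v τ - DDa (Lc i) (Finset.Icc 1 M) (a i) v τ‖ ≤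
        E0 * (Real.exp (-|v| / 4) + 1 / R))
    (hNC : ∀ i ∈ s, NCs M q (a i) ≤ NC) :
    ∀ i ∈ s, ∀ u ∈ Icc 0 Λ, ‖SS (Z i) (mult (F i)) (cz (y * R) T1 T2) u -
      ((1 / (2 * Real.pi) : ℝ) : ℂ) * ((Lc i : ℂ) * WW (y * R) T1 T2 u -
        Pc (y * R) T1 T2 M q (a i) u - Pm (y * R) T1 T2 M q (a i) u)‖ ≤
      (T2 - T1) * (2000 * E0 + NC) := by
  intro i hi u hu
  have hR : 0 < R := by
    by_contra h
    push Not at h
    have := mul_nonpos_of_nonneg_of_nonpos hy.le h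
    linarith
  have h1 := sup_formula (u := u) (L := Lc i) (E0 := E0) hb hT hE (Z i) (mult (F i))
    (Finset.Icc 1 M) (a i) (by
    intro v τ hv hτ
    refine (hEF i hi v τ ?_ hτ).trans ?_
    · have h2 := abs_sub_abs_le_abs_sub v u
      have h3 : |u| = u := abs_of_nonneg hu.1
      have h4 := hu.2
      linarith
    · refine mul_le_mul_of_nonneg_left ?_ hE
      have : 1 / R ≤ 1 / (y * R) := by
        refine div_le_div_of_nonneg_left zero_le_one (by linarith) ?_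
        nlinarith
      linarith)
  have h2 := AR_cop hb hT (Lc i) M q (a i) u
  obtain ⟨X, hX⟩ : ∃ X : ℂ, X = (Lc i : ℂ) * WW (y * R) T1 T2 u -
        Pc (y * R) T1 T2 M q (a i) u - Pm (y * R) T1 T2 M q (a i) u := ⟨_, rfl⟩
  obtain ⟨Y, hY⟩ : ∃ Y : ℂ, Y = AR (y * R) T1 T2 (Lc i) (Finset.Icc 1 M) (a i) u := ⟨_, rfl⟩
  rw [← hX, ← hY] at h2
  rw [← hY] at h1
  rw [← hX]
  have e1 : SS (Z i) (mult (F i)) (cz (y * R) T1 T2) u - ((1 / (2 * Real.pi) : ℝ) : ℂ) * X =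
      (SS (Z i) (mult (F i)) (cz (y * R) T1 T2) u - ((1 / (2 * Real.pi) : ℝ) : ℂ) * Y) +
        ((1 / (2 * Real.pi) : ℝ) : ℂ) * (Y - X) := by ring
  rw [e1]
  have h3 : ‖((1 / (2 * Real.pi) : ℝ) : ℂ) * (Y - X)‖ ≤ (T2 - T1) * NC := by
    rw [norm_mul, Complex.norm_real, Real.norm_of_nonneg (by positivity)]
    have h4 : 1 / (2 * Real.pi) ≤ 1 / 2 := by
      refine div_le_div_of_nonneg_left zero_le_one (by norm_num) ?_
      linarith [Real.pi_gt_three]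
    have h5 := hNC i hi
    have h6 : 0 ≤ T2 - T1 := by linarith
    calc 1 / (2 * Real.pi) * ‖Y - X‖ ≤ 1 / 2 * (2 * (T2 - T1) * NCs M q (a i)) :=
          mul_le_mul h4 h2 (norm_nonneg _) (by norm_num)
      _ = (T2 - T1) * NCs M q (a i) := by ring
      _ ≤ _ := mul_le_mul_of_nonneg_left h5 h6
  refine (norm_add_le _ _).trans ((add_le_add h1 h3).trans (le_of_eq ?_))
  ring

/-- the mean square, normalised -/
lemma ms_norm {R y l δ η H : ℝ} (hR : 0 < R) (hy : 0 < y) (hyl : y ≤ l) (hb : 1 ≤ y * R)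
    (hδ : 0 < δ) (hη : 0 ≤ η)
    {T1 T2 : ℝ} (hT : T1 ≤ T2) (hH : T2 - T1 = H / R) {γ : ℝ} (h0 : 0 < γ) (hπ : γ < Real.pi)
    (Lc : ι → ℝ) (hL : ∀ i ∈ s, 0 ≤ Lc i ∧ Lc i ≤ (1 + η) * R) {E1 X3 X4 X5 D : ℝ} (hE1 : 0 ≤ E1)
    (hf : ∀ i ∈ s, ∀ u ∈ Icc 0 (l * R), ‖SS (Z i) (mult (F i)) (cz (y * R) T1 T2) u -
      ((1 / (2 * Real.pi) : ℝ) : ℂ) * ((Lc i : ℂ) * WW (y * R) T1 T2 u -
        Pc (y * R) T1 T2 M q (a i) u - Pm (y * R) T1 T2 M q (a i) u)‖ ≤ E1)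
    (hJ3 : ∫ u in (0 : ℝ)..(l * R), Rw γ (u / (l * R)) *
      ∑ i ∈ s, ‖Pc (y * R) T1 T2 M q (a i) u‖ ^ 2 ≤
        D * s.card * (2 * Real.pi * (T2 - T1)) * (X3 * R ^ 2))
    (hJ4 : ∫ u in (0 : ℝ)..(y * R), ∑ i ∈ s, ‖Pc (y * R) T1 T2 M q (a i) u‖ ^ 2 ≤
        D * s.card * (2 * Real.pi * (T2 - T1)) * (X4 * R ^ 2))
    (hJ5 : ∫ u in (0 : ℝ)..(l * R), ∑ i ∈ s, ‖Pm (y * R) T1 T2 M q (a i) u‖ ^ 2 ≤
        D * s.card * (2 * Real.pi * (T2 - T1)) * (X5 * R ^ 2)) :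
    (2 / (l * R)) * ∫ u in (0 : ℝ)..(l * R), Rw γ (u / (l * R)) *
      ∑ i ∈ s, ‖SS (Z i) (mult (F i)) (cz (y * R) T1 T2) u‖ ^ 2 ≤
      s.card * (H / (2 * Real.pi) * ((1 + δ) ^ 2 * (1 + η) ^ 2 * Rw γ 0 / l +
          (1 + δ) ^ 2 * (2 * D / l) * X3 + (1 + δ) * (1 + 1 / δ) * (2 / l) * Rw γ 0 * D * X4 +
          (1 + 1 / δ) * (4 / l) * Rw γ 0 * D * X5) +
        (1 + δ) * (1 + 1 / δ) * (1 + η) ^ 2 * Rw γ 0 * 2 / (Real.pi ^ 2 * l * y) +
        4 * (1 + 1 / δ) * Rw γ 0 * E1 ^ 2) := by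
  have hpi := Real.pi_pos
  have hl : 0 < l := by linarith
  have hR0 := H385.Rw_nonneg γ h0 hπ 0
  have h1 := ms_all (s := s) (a := a) (M := M) (q := q) hb hT (U := y * R) (Λ := l * R)
    (by positivity) (mul_le_mul_of_nonneg_right hyl hR.le) h0 hπ hδ Lc hE1
    (fun i u => SS (Z i) (mult (F i)) (cz (y * R) T1 T2) u) (fun i _ => SS_cont _ _ _) hf hJ3 hJ4
    hJ5
  refine h1.trans ?_
  have hLL : ∑ i ∈ s, Lc i ^ 2 ≤ s.card * ((1 + η) ^ 2 * R ^ 2) := by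
    rw [← nsmul_eq_mul, ← Finset.sum_const]
    refine Finset.sum_le_sum fun i hi => ?_
    obtain ⟨k1, k2⟩ := hL i hi
    have := pow_le_pow_left₀ k1 k2 2
    rwa [mul_pow] at this
  obtain ⟨LL, hLLd⟩ : ∃ x : ℝ, x = ∑ i ∈ s, Lc i ^ 2 := ⟨_, rfl⟩
  rw [← hLLd] at hLL ⊢
  have hℓ : 0 ≤ H / R := by rw [← hH]; linarith
  have h2 : (2 / (l * R)) * ((1 + δ) / (4 * Real.pi ^ 2) *
        ((1 + δ) * (LL * (Rw γ 0 * (Real.pi * (T2 - T1)))) +
          (1 + 1 / δ) * (LL * (Rw γ 0 * (4 / (y * R)))) +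
          (1 + 1 / δ) * (Rw γ 0 * (D * s.card * (2 * Real.pi * (T2 - T1)) * (X4 * R ^ 2))) +
          (1 + δ) * (D * s.card * (2 * Real.pi * (T2 - T1)) * (X3 * R ^ 2))) +
        (1 + 1 / δ) * (2 * E1 ^ 2 * s.card * (Rw γ 0 * (l * R)) +
          1 / (2 * Real.pi ^ 2) * (Rw γ 0 * (D * s.card * (2 * Real.pi * (T2 - T1)) *
            (X5 * R ^ 2))))) ≤
      (2 / (l * R)) * ((1 + δ) / (4 * Real.pi ^ 2) *
        ((1 + δ) * ((s.card * ((1 + η) ^ 2 * R ^ 2)) * (Rw γ 0 * (Real.pi * (H / R)))) +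
          (1 + 1 / δ) * ((s.card * ((1 + η) ^ 2 * R ^ 2)) * (Rw γ 0 * (4 / (y * R)))) +
          (1 + 1 / δ) * (Rw γ 0 * (D * s.card * (2 * Real.pi * (H / R)) * (X4 * R ^ 2))) +
          (1 + δ) * (D * s.card * (2 * Real.pi * (H / R)) * (X3 * R ^ 2))) +
        (1 + 1 / δ) * (2 * E1 ^ 2 * s.card * (Rw γ 0 * (l * R)) +
          1 / (2 * Real.pi ^ 2) * (Rw γ 0 * (D * s.card * (2 * Real.pi * (H / R)) *
            (X5 * R ^ 2))))) := by
    rw [hH]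
    gcongr
  refine h2.trans (le_of_eq ?_)
  field_simp
  ring

open Classical in
/-- **the upper bound** -/
theorem up_bound {R y l δ H g A : ℝ} (hR : 0 < R) (hy : 0 < y) (hyl : y ≤ l) (hb : 1 ≤ y * R)
    (hl : l + 8 * y ≤ 1) (hg3 : 1 / 3 ≤ g) (hgl : g ≤ l) (h8g : 8 * y ≤ g)
    (hδ : 0 < δ) (hA : 0 ≤ A) (hC : HC s Z (fun i => mult (F i)) R g A)
    {ρ Cρ : ℝ} (hM : HM s Z (fun i => mult (F i)) R ρ Cρ) {t M₀ : ℝ} (ht : 0 < t) (hM₀ : 1 ≤ M₀)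
    {T1 T2 : ℝ} (hT : T1 ≤ T2) (hH0 : 0 < H) (hH : T2 - T1 = H / R) {γ : ℝ} (h0 : 0 < γ)
    (hπ : γ < Real.pi)
    (hZ : ∀ i ∈ s, ∀ z ∈ Z i, dl z ≤ 1 / 2 ∧ 1 - conj z ∈ Z i ∧
      mult (F i) (1 - conj z) = mult (F i) z)
    (w : ι → ℂ → ℝ) (hw : ∀ i ∈ s, ∀ z ∈ Z i, w i z ≤ 4 * (mult (F i) z : ℝ) -
      H385.PerChi.kk (F i) z ∧ w i z ≤ 3 * (mult (F i) z : ℝ)) {MS : ℝ}
    (hMS : (2 / (l * R)) * ∫ u in (0 : ℝ)..(l * R), Rw γ (u / (l * R)) *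
      ∑ i ∈ s, ‖SS (Z i) (mult (F i)) (cz (y * R) T1 T2) u‖ ^ 2 ≤ MS) :
    ∑ i ∈ s, ∑ z ∈ (Z i).filter (fun z => T1 < z.im ∧ z.im ≤ T2), w i z ≤
      (1 + δ) * MS + s.card * (2 * (1 + 1 / δ) * Rw γ 0 * M₀ ^ 2) +
      4 * (440000 * A * (8 + 4 / y) * s.card) +
      3 * (s.card * ⌈H⌉₊ * (t * (440000 * A * (8 + 4 / y) * M₀ ^ (-(1 / 3) : ℝ)) + Cρ / t +
        A * Real.exp (-(g * ρ)))) := by
  have hl0 : 0 < l := by linarith
  have hΛ : 0 < l * R := by positivity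
  have hRc := Rw_cont γ h0 hπ
  have hRn := H385.Rw_nonneg γ h0 hπ
  obtain ⟨o1, o2⟩ := out_in hR hA hC hT hy hb h8g (fun i hi z hz => (hZ i hi z hz).1)
  have hgl' := mul_le_mul_of_nonneg_right hgl hR.le
  have hlR := mul_le_mul_of_nonneg_right hl hR.le
  rw [one_mul, add_mul] at hlR
  have hyR : 0 ≤ y * R := by positivity
  have hbad := bad_card hR hA hC hT hy hb hΛ hg3 (by linarith) (by linarith)
    (fun i hi z hz => (hZ i hi z hz).1) hM₀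
  obtain ⟨B, hB⟩ : ∃ B : Finset ι, B = s.filter fun i =>
    M₀ < T0s (y * R) T1 T2 (l * R) (Z i) (mult (F i)) := ⟨_, rfl⟩
  rw [← hB] at hbad
  have hBs : B ⊆ s := by rw [hB]; exact Finset.filter_subset _ _
  have hcnt := bad_count (H := H) hR (by linarith : (0 : ℝ) ≤ g) hA hC hH0 hH.le hM ht B hBs hbad
  -- the zeros of the exceptional members
  have hbw : ∑ i ∈ B, ∑ z ∈ (Z i).filter (fun z => T1 < z.im ∧ z.im ≤ T2), w i z ≤
      3 * (s.card * ⌈H⌉₊ * (t * (440000 * A * (8 + 4 / y) * M₀ ^ (-(1 / 3) : ℝ)) + Cρ / t +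
        A * Real.exp (-(g * ρ)))) := by
    refine le_trans ?_ (mul_le_mul_of_nonneg_left hcnt (by norm_num : (0 : ℝ) ≤ 3))
    rw [Finset.mul_sum]
    refine Finset.sum_le_sum fun i hi => ?_
    rw [Finset.mul_sum]
    refine Finset.sum_le_sum fun z hz => ?_
    exact (hw i (hBs hi) z (Finset.mem_filter.mp hz).1).2
  -- the others
  have hgood : ∀ i ∈ s, i ∉ B → ∑ z ∈ (Z i).filter (fun z => T1 < z.im ∧ z.im ≤ T2), w i z ≤
      (1 + δ) * ((2 / (l * R)) * ∫ u in (0 : ℝ)..(l * R), Rw γ (u / (l * R)) *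
        ‖SS (Z i) (mult (F i)) (cz (y * R) T1 T2) u‖ ^ 2) + 2 * (1 + 1 / δ) * Rw γ 0 * M₀ ^ 2 +
      4 * ∑ z ∈ (Z i).filter (fun z => T1 < z.im ∧ z.im ≤ T2),
        (mult (F i) z : ℝ) * ‖1 - cz (y * R) T1 T2 (zz z)‖ := by
    intro i hi hiB
    have hT0 : T0s (y * R) T1 T2 (l * R) (Z i) (mult (F i)) ≤ M₀ := by
      by_contra hcon
      push Not at hcon
      apply hiB
      rw [hB, Finset.mem_filter]
      exact ⟨hi, hcon⟩
    have h1 := trace_w' γ (l * R) h0 hπ hΛ (F i)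
      ((Z i).filter (fun z => T1 < z.im ∧ z.im ≤ T2)) (by
        intro z hz
        obtain ⟨z1, z2, z3⟩ := Finset.mem_filter.mp hz
        rw [Finset.mem_filter]
        have him : (1 - conj z).im = z.im := by simp
        rw [him]
        exact ⟨(hZ i hi z z1).2.1, z2, z3⟩) (fun z hz => (hZ i hi z (Finset.mem_filter.mp hz).1).2.2)
      (cz (y * R) T1 T2) (fun z => cz_conj _ _ _ z) (fun x => cz_real hb hT x) (w i)
      (fun z hz => (hw i hi z (Finset.mem_filter.mp hz).1).1)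
    refine h1.trans (add_le_add ?_ le_rfl)
    have hsplit : ∀ u : ℝ, ∑ z ∈ (Z i).filter (fun z => T1 < z.im ∧ z.im ≤ T2),
        (mult (F i) z : ℂ) * cz (y * R) T1 T2 (zz z) * cexp (I * u * zz z) =
        SS (Z i) (mult (F i)) (cz (y * R) T1 T2) u +
        -(∑ z ∈ (Z i).filter (fun z => ¬ (T1 < z.im ∧ z.im ≤ T2)),
        (mult (F i) z : ℂ) * cz (y * R) T1 T2 (zz z) * cexp (I * u * zz z)) := by
      intro u
      unfold SS
      rw [← Finset.sum_filter_add_sum_filter_not (Z i) (fun z => T1 < z.im ∧ z.im ≤ T2)]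
      ring
    have hout : ∀ u ∈ Icc 0 (l * R), ‖-(∑ z ∈ (Z i).filter (fun z => ¬ (T1 < z.im ∧ z.im ≤ T2)),
        (mult (F i) z : ℂ) * cz (y * R) T1 T2 (zz z) * cexp (I * u * zz z))‖ ≤ M₀ := by
      intro u hu
      rw [norm_neg]
      refine le_trans ?_ hT0
      unfold T0s
      refine norm_sum_le_of_le _ fun z _ => ?_
      rw [norm_mul, norm_mul, Complex.norm_natCast]
      refine mul_le_mul_of_nonneg_left ?_ (by positivity)
      rw [Complex.norm_exp]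
      refine Real.exp_le_exp.mpr ?_
      have e1 : (I * (u : ℂ) * zz z).re = -(u * (zz z).im) := by
        have : I * (u : ℂ) * zz z = (u : ℂ) * (I * zz z) := by ring
        rw [this, Complex.re_ofReal_mul]
        simp
      rw [e1]
      have e2 : -(u * (zz z).im) ≤ |u * (zz z).im| := neg_le_abs _
      rw [abs_mul, zz_im_abs, abs_of_nonneg hu.1] at e2
      exact e2.trans (mul_le_mul_of_nonneg_right hu.2 (dl_nonneg z))
    have cS := SS_cont (Z i) (mult (F i)) (cz (y * R) T1 T2)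
    have cR : Continuous fun u : ℝ => Rw γ (u / (l * R)) := hRc.comp (continuous_id.div_const _)
    have h2 : ∫ u in (0 : ℝ)..(l * R), Rw γ (u / (l * R)) *
        ‖∑ z ∈ (Z i).filter (fun z => T1 < z.im ∧ z.im ≤ T2),
          (mult (F i) z : ℂ) * cz (y * R) T1 T2 (zz z) * cexp (I * u * zz z)‖ ^ 2 ≤
        ∫ u in (0 : ℝ)..(l * R), ((1 + δ) * (Rw γ (u / (l * R)) *
          ‖SS (Z i) (mult (F i)) (cz (y * R) T1 T2) u‖ ^ 2) +
            Rw γ 0 * ((1 + 1 / δ) * M₀ ^ 2)) := by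
      refine intervalIntegral.integral_mono_on hΛ.le
        ((by fun_prop : Continuous fun u : ℝ => Rw γ (u / (l * R)) *
        ‖∑ z ∈ (Z i).filter (fun z => T1 < z.im ∧ z.im ≤ T2),
          (mult (F i) z : ℂ) * cz (y * R) T1 T2 (zz z) *
            cexp (I * u * zz z)‖ ^ 2).intervalIntegrable _ _)
        ((by fun_prop : Continuous fun u : ℝ => ((1 + δ) * (Rw γ (u / (l * R)) *
          ‖SS (Z i) (mult (F i)) (cz (y * R) T1 T2) u‖ ^ 2) +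
            Rw γ 0 * ((1 + 1 / δ) * M₀ ^ 2))).intervalIntegrable _ _) ?_
      intro u hu
      have hR1 := H385.Rw_le γ h0 hπ (u / (l * R)) (div_nonneg hu.1 hΛ.le)
      have h3 := nsq_add (SS (Z i) (mult (F i)) (cz (y * R) T1 T2) u)
        (-(∑ z ∈ (Z i).filter (fun z => ¬ (T1 < z.im ∧ z.im ≤ T2)),
          (mult (F i) z : ℂ) * cz (y * R) T1 T2 (zz z) * cexp (I * u * zz z))) hδ
      rw [← hsplit u] at h3
      have h4 := pow_le_pow_left₀ (norm_nonneg _) (hout u hu) 2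
      have h5 : (1 + 1 / δ) * ‖-(∑ z ∈ (Z i).filter (fun z => ¬ (T1 < z.im ∧ z.im ≤ T2)),
          (mult (F i) z : ℂ) * cz (y * R) T1 T2 (zz z) * cexp (I * u * zz z))‖ ^ 2 ≤
          (1 + 1 / δ) * M₀ ^ 2 := mul_le_mul_of_nonneg_left h4 (by positivity)
      have h6 := mul_le_mul_of_nonneg_left (h3.trans (add_le_add le_rfl h5)) (hRn (u / (l * R)))
      have h7 : Rw γ (u / (l * R)) * ((1 + 1 / δ) * M₀ ^ 2) ≤
          Rw γ 0 * ((1 + 1 / δ) * M₀ ^ 2) := mul_le_mul_of_nonneg_right hR1 (by positivity)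
      refine h6.trans ?_
      rw [mul_add]
      refine add_le_add (le_of_eq ?_) h7
      ring
    have h3 := mul_le_mul_of_nonneg_left h2 (by positivity : 0 ≤ 2 / (l * R))
    refine h3.trans (le_of_eq ?_)
    rw [intervalIntegral.integral_add, intervalIntegral.integral_const_mul,
      intervalIntegral.integral_const, smul_eq_mul]
    · field_simp
      ring
    · exact (by fun_prop : Continuous fun u : ℝ => ((1 + δ) * (Rw γ (u / (l * R)) *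
          ‖SS (Z i) (mult (F i)) (cz (y * R) T1 T2) u‖ ^ 2))).intervalIntegrable _ _
    · exact continuous_const.intervalIntegrable _ _
  have hsplit : ∑ i ∈ s, ∑ z ∈ (Z i).filter (fun z => T1 < z.im ∧ z.im ≤ T2), w i z =
      ∑ i ∈ B, ∑ z ∈ (Z i).filter (fun z => T1 < z.im ∧ z.im ≤ T2), w i z +
      ∑ i ∈ s \ B, ∑ z ∈ (Z i).filter (fun z => T1 < z.im ∧ z.im ≤ T2), w i z := by
    rw [← Finset.sum_sdiff hBs]
    ring
  rw [hsplit]
  have hI0 : ∀ i, 0 ≤ (1 + δ) * ((2 / (l * R)) * ∫ u in (0 : ℝ)..(l * R), Rw γ (u / (l * R)) *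
        ‖SS (Z i) (mult (F i)) (cz (y * R) T1 T2) u‖ ^ 2) + 2 * (1 + 1 / δ) * Rw γ 0 * M₀ ^ 2 +
      4 * ∑ z ∈ (Z i).filter (fun z => T1 < z.im ∧ z.im ≤ T2),
        (mult (F i) z : ℝ) * ‖1 - cz (y * R) T1 T2 (zz z)‖ := by
    intro i
    have h1 : 0 ≤ ∫ u in (0 : ℝ)..(l * R), Rw γ (u / (l * R)) *
        ‖SS (Z i) (mult (F i)) (cz (y * R) T1 T2) u‖ ^ 2 :=
      intervalIntegral.integral_nonneg hΛ.le fun u _ => mul_nonneg (hRn _) (sq_nonneg _)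
    have h2 := hRn 0
    positivity
  have hg1 : ∑ i ∈ s \ B, ∑ z ∈ (Z i).filter (fun z => T1 < z.im ∧ z.im ≤ T2), w i z ≤
      (1 + δ) * MS + s.card * (2 * (1 + 1 / δ) * Rw γ 0 * M₀ ^ 2) +
      4 * (440000 * A * (8 + 4 / y) * s.card) := by
    have h1 : ∑ i ∈ s \ B, ∑ z ∈ (Z i).filter (fun z => T1 < z.im ∧ z.im ≤ T2), w i z ≤
        ∑ i ∈ s, ((1 + δ) * ((2 / (l * R)) * ∫ u in (0 : ℝ)..(l * R), Rw γ (u / (l * R)) *
        ‖SS (Z i) (mult (F i)) (cz (y * R) T1 T2) u‖ ^ 2) + 2 * (1 + 1 / δ) * Rw γ 0 * M₀ ^ 2 +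
      4 * ∑ z ∈ (Z i).filter (fun z => T1 < z.im ∧ z.im ≤ T2),
        (mult (F i) z : ℝ) * ‖1 - cz (y * R) T1 T2 (zz z)‖) := by
      refine (Finset.sum_le_sum fun i hi => ?_).trans
        (Finset.sum_le_sum_of_subset_of_nonneg Finset.sdiff_subset fun i _ _ => hI0 i)
      rw [Finset.mem_sdiff] at hi
      exact hgood i hi.1 hi.2
    refine h1.trans ?_
    rw [Finset.sum_add_distrib, Finset.sum_add_distrib, Finset.sum_const, nsmul_eq_mul,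
      ← Finset.mul_sum, ← Finset.mul_sum, ← Finset.mul_sum]
    have h2 : ∑ i ∈ s, ∫ u in (0 : ℝ)..(l * R), Rw γ (u / (l * R)) *
        ‖SS (Z i) (mult (F i)) (cz (y * R) T1 T2) u‖ ^ 2 =
        ∫ u in (0 : ℝ)..(l * R), Rw γ (u / (l * R)) *
          ∑ i ∈ s, ‖SS (Z i) (mult (F i)) (cz (y * R) T1 T2) u‖ ^ 2 := by
      rw [← intervalIntegral.integral_finsetSum]
      · refine intervalIntegral.integral_congr fun u _ => ?_
        rw [Finset.mul_sum]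
      · intro i _
        have cS := SS_cont (Z i) (mult (F i)) (cz (y * R) T1 T2)
        have cR : Continuous fun u : ℝ => Rw γ (u / (l * R)) :=
          hRc.comp (continuous_id.div_const _)
        exact (by fun_prop : Continuous fun u : ℝ => Rw γ (u / (l * R)) *
          ‖SS (Z i) (mult (F i)) (cz (y * R) T1 T2) u‖ ^ 2).intervalIntegrable _ _
    rw [h2]
    have h3 := mul_le_mul_of_nonneg_left hMS (by positivity : 0 ≤ 1 + δ)
    have h4 := mul_le_mul_of_nonneg_left o2 (by norm_num : (0 : ℝ) ≤ 4)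
    exact add_le_add (add_le_add h3 le_rfl) h4
  linarith

end

end Pool.Agent.T9h27.Z
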