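import Pool.Agent.T9h27.Z.Pos
import Pool.Agent.T9h27.Z.GdK
import Pool.Agent.T9h27.K.DenS
import Pool.Agent.T9h27.K.Nv
import Pool.Agent.T9h27.K.Cor
import Pool.Agent.Y773.IQ.Asm
import Pool.Agent.H385R2.NTW

/-!
# Imaginary quadratic fields (helper27)
-/

set_option autoImplicit false
set_option linter.unusedSectionVars false

open NumberField Filter Topology MeasureTheory Module

namespace Pool.Agent.T9h27.Z

open Pool.Agent.Y773 (LI cc)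
open Pool.Agent.Y767 (cK)
open Pool.Agent.Y773.IQ (Fam cd cd_spec LL LL_eq absNorm_pos' exists_ge one_le_norm fam_cond fam_ls)
open Pool.Agent.T9h27.K (FF mem_FF LL_info FF_ncard dens_short_s nv_iq)
open H370 (zset NN Ns Nd mult)
open H385 (Rw)

/-- the constants -/
theorem consts2 : ∃ γ l D : ℝ, 0 < γ ∧ γ < Real.pi ∧ 1 / 2 ≤ l ∧ l < 1 ∧ 1 < D ∧
    Rw γ 0 / l + 2 * l * D * (∫ α in (0 : ℝ)..1, α * Rw γ α) < 1.3275 := by
  obtain ⟨γ, hγ⟩ : ∃ γ : ℝ, γ = 1.414 := ⟨_, rfl⟩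
  have h0 : 0 < γ := by rw [hγ]; norm_num
  have hπ : γ < Real.pi := by rw [hγ]; linarith [Real.pi_gt_three]
  have hconst := H385.Rw_const_d2
  rw [← hγ] at hconst
  obtain ⟨R, hR⟩ : ∃ R : ℝ, R = Rw γ 0 := ⟨_, rfl⟩
  obtain ⟨I1, hI1⟩ : ∃ I1 : ℝ, I1 = ∫ α in (0 : ℝ)..1, α * Rw γ α := ⟨_, rfl⟩
  rw [← hR, ← hI1] at hconst
  have hcont : ContinuousAt (fun t : ℝ => R / t + 2 * t * (2 - t) * I1) 1 := by
    have : (1 : ℝ) ≠ 0 := one_ne_zero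
    fun_prop (disch := assumption)
  have hlt : (fun t : ℝ => R / t + 2 * t * (2 - t) * I1) 1 < 1.3275 := by
    change R / 1 + 2 * 1 * (2 - 1) * I1 < 1.3275
    linarith
  have hev := hcont.eventually_lt_const hlt
  obtain ⟨r, hr, hball⟩ := Metric.eventually_nhds_iff.mp hev
  obtain ⟨t, ht⟩ : ∃ t : ℝ, t = 1 - min (r / 2) (1 / 2) := ⟨_, rfl⟩
  have hm1 : 0 < min (r / 2) (1 / 2) := lt_min (by positivity) (by norm_num)
  have hm2 : min (r / 2) (1 / 2) ≤ 1 / 2 := min_le_right _ _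
  have hm3 : min (r / 2) (1 / 2) ≤ r / 2 := min_le_left _ _
  have htr := hball (y := t) (by rw [Real.dist_eq, abs_lt]; constructor <;> linarith)
  change R / t + 2 * t * (2 - t) * I1 < 1.3275 at htr
  refine ⟨γ, t, 2 - t, h0, hπ, by linarith, by linarith, by linarith, ?_⟩
  rw [← hR, ← hI1]
  exact htr

/-- the prime powers not prime to the modulus -/
lemma ncs_le {ν B : ℝ} (hν : 0 < ν) (hB : 0 ≤ B) : ∃ X0 : ℝ, ∀ (q : ℕ) (a : ℕ → ℂ),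
    1 ≤ q → X0 ≤ (q : ℝ) → (∀ n : ℕ, ‖a n‖ ≤ B * ArithmeticFunction.vonMangoldt n) →
    ∀ M : ℕ, NCs M q a ≤ ν * Real.log q := by
  obtain ⟨C, hC, hbd⟩ := H385.ncc_tsum_bound (ν / (2 * (B + 1))) (by positivity)
  refine ⟨Real.exp (2 * B * C / ν), fun q a hq hX ha M => ?_⟩
  have h1 : NCs M q a ≤ B * ∑' n, H385.ncc q n := by
    have h2 : NCs M q a ≤ ∑ n ∈ Finset.Icc 1 M, B * H385.ncc q n := by
      unfold NCs
      refine Finset.sum_le_sum fun n _ => ?_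
      unfold H385.ncc
      split_ifs
      · simp
      · have h3 := mul_le_mul_of_nonneg_right (ha n) (inv_nonneg.mpr (Real.sqrt_nonneg (n : ℝ)))
        refine h3.trans (le_of_eq ?_)
        rw [div_eq_mul_inv]
        ring
    refine h2.trans ?_
    rw [← Finset.mul_sum]
    exact mul_le_mul_of_nonneg_left (Summable.sum_le_tsum _ (fun n _ => H385.ncc_nonneg q n)
      (H385.ncc_summable q hq)) hB
  have h4 := hbd q hq
  have hq0 : (0 : ℝ) < q := by exact_mod_cast hq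
  have h5 : 2 * B * C / ν ≤ Real.log q := by
    rw [Real.le_log_iff_exp_le hq0]
    exact hX
  rw [div_le_iff₀ hν] at h5
  have hlog : 0 ≤ Real.log (q : ℝ) := Real.log_natCast_nonneg q
  have h6 : B * (ν / (2 * (B + 1)) * Real.log q + C) ≤ ν * Real.log q := by
    have e1 : B * (ν / (2 * (B + 1)) * Real.log q) ≤ ν / 2 * Real.log q := by
      have e2 : B * (ν / (2 * (B + 1)) * Real.log q) = (B / (B + 1)) * (ν / 2 * Real.log q) := by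
        field_simp
      rw [e2]
      have e3 : B / (B + 1) ≤ 1 := by rw [div_le_one (by positivity)]; linarith
      exact mul_le_of_le_one_left (by positivity) e3
    rw [mul_add]
    linarith
  exact h1.trans ((mul_le_mul_of_nonneg_left h4 hB).trans h6)

section

variable (K : Type) [Field K] [NumberField K] [IsTotallyComplex K]

/-- the moduli -/
def JJ : Type := {𝔮 : Ideal (𝓞 K) // 𝔮 ≠ ⊥ ∧ 𝔮 ≠ ⊤}

open Classical in
theorem fd_iq (h2 : finrank ℚ K = 2) {l₂ D : ℝ} (hl2 : l₂ < 1) (hD : 1 < D) : ∃ A : ℝ,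
    FD (J := JJ K) (ι := fun _ => Ideal (𝓞 K) →*₀ ℂ) (fun j => FF j.1) (fun _ ψ => LL K ψ)
      (fun _ ψ m => cc ψ m * (ArithmeticFunction.vonMangoldt m : ℂ))
      (fun j ψ => (Ideal.absNorm (cd j.1 ψ) : ℝ) ^ (1 / 2 : ℝ)) (fun j => (Ideal.absNorm j.1 : ℝ))
      (fun j => Ideal.absNorm j.1) (cK K) 2 A l₂ D (1 / 50) := by
  obtain ⟨A, hA, hgood⟩ := goodW K
  have hfr : (finrank ℚ K : ℝ) = 2 := by rw [h2]; norm_num
  rw [hfr] at hgood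
  have hmem : ∀ j : JJ K, ∀ ψ, ψ ∈ FF j.1 ↔ ψ ∈ Fam j.1 := fun j ψ => mem_FF j.2.1 j.2.2
  refine ⟨A, ⟨by norm_num, hA, fun j => one_le_norm K j.2.1, ?_, ?_, ?_, ?_, by norm_num,
    by norm_num, ?_, ?_⟩⟩
  · intro j ψ hψ
    obtain ⟨h1, h3, h4⟩ := cd_spec ((hmem j ψ).mp hψ)
    have h5 := one_le_norm K h4.ne_bot
    obtain ⟨hLd, -⟩ := LL_info K ((hmem j ψ).mp hψ)
    refine ⟨Real.one_le_rpow h5 (by norm_num), ?_, hgood _ ψ h3 h4 (LL K ψ) hLd.1 hLd.2⟩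
    rw [Real.log_rpow (by linarith)]
    have h6 : Ideal.absNorm (cd j.1 ψ) ≤ Ideal.absNorm j.1 :=
        Nat.le_of_dvd (absNorm_pos' j.2.1)
          (Ideal.absNorm_dvd_absNorm_of_le (Ideal.dvd_iff_le.mp h1))
    have h7 : Real.log (Ideal.absNorm (cd j.1 ψ)) ≤ Real.log (Ideal.absNorm j.1) :=
      Real.log_le_log (by linarith) (by exact_mod_cast h6)
    linarith
  · intro δ hδ
    obtain ⟨N0, hN0, hcd⟩ := fam_cond K h2 hδ
    refine ⟨N0, fun j hj => ?_⟩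
    have h3 := hcd j.1 j.2.1 j.2.2 _ (hmem j) hj
    rw [Finset.sum_sub_distrib, Finset.sum_const, nsmul_eq_mul] at h3
    have h4 : ∑ ψ ∈ FF j.1, 2 * Real.log ((Ideal.absNorm (cd j.1 ψ) : ℝ) ^ (1 / 2 : ℝ)) =
        ∑ ψ ∈ FF j.1, Real.log (Ideal.absNorm (cd j.1 ψ)) := by
      refine Finset.sum_congr rfl fun ψ hψ => ?_
      have h5 := one_le_norm K (cd_spec ((hmem j ψ).mp hψ)).2.2.ne_bot
      rw [Real.log_rpow (by linarith)]
      ring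
    rw [h4]
    linarith
  · obtain ⟨N0, hN0, hls⟩ := fam_ls K h2 hD (ε0 := 1 - l₂) (by linarith)
    refine ⟨N0, fun j hj M hM b => ?_⟩
    rw [sub_sub_cancel] at hls
    exact hls j.1 j.2.1 j.2.2 _ (hmem j) hj M hM b
  · intro ν hν
    obtain ⟨X0, hX0⟩ := ncs_le hν (by norm_num : (0 : ℝ) ≤ 2)
    refine ⟨X0, fun j hj ψ hψ M => ?_⟩
    refine hX0 (Ideal.absNorm j.1) _ (absNorm_pos' j.2.1) hj (fun n => ?_) M
    obtain ⟨h1, h3, h4⟩ := cd_spec ((hmem j ψ).mp hψ)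
    have h8 := Pool.Agent.Y772.DK.norm_cc_le ψ (h4.norm_le_one Pool.Agent.Y772.G.t_sig) n
    rw [norm_mul, Complex.norm_real,
      Real.norm_of_nonneg ArithmeticFunction.vonMangoldt_nonneg]
    rw [hfr] at h8
    exact mul_le_mul_of_nonneg_right h8 ArithmeticFunction.vonMangoldt_nonneg
  · obtain ⟨κ, Q', X0, hκ, hQ', hX0, hden⟩ := dens_short_s K h2 (h := 25 / 26) (c := 9 / 10)
      (by norm_num) (by norm_num) (by norm_num)
    refine ⟨⌈κ⌉₊, Q' * 2, max X0 3, by positivity, fun j hj t ht k hk => ?_⟩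
    obtain ⟨-, hden⟩ := hden j.1 j.2.1 ((le_max_left _ _).trans hj)
    have hN3 : (3 : ℝ) ≤ (Ideal.absNorm j.1 : ℝ) := (le_max_right _ _).trans hj
    obtain ⟨N, hN⟩ : ∃ N : ℝ, N = (Ideal.absNorm j.1 : ℝ) := ⟨_, rfl⟩
    rw [← hN] at hden hN3 ht ⊢
    have hN0 : 0 < N := by linarith
    have hN1 : 1 ≤ N := by linarith
    obtain ⟨R, hR⟩ : ∃ R : ℝ, R = Real.log N := ⟨_, rfl⟩
    have hR1 : 1 ≤ R := by
      rw [hR, Real.le_log_iff_exp_le hN0]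
      exact (Real.exp_one_lt_d9.le.trans (by norm_num)).trans hN3
    have hR0 : 0 < R := by linarith
    rw [← hR]
    obtain ⟨T, hT⟩ : ∃ T : ℝ, T = N ^ (1 / 50 : ℝ) := ⟨_, rfl⟩
    have hT1 : 1 ≤ T := by rw [hT]; exact Real.one_le_rpow hN1 (by norm_num)
    rw [← hT] at ht
    have hC : N * T ^ finrank ℚ K = N ^ (26 / 25 : ℝ) := by
      rw [h2, hT, ← Real.rpow_natCast, ← Real.rpow_mul hN0.le]
      nth_rewrite 1 [← Real.rpow_one N]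
      rw [← Real.rpow_add hN0]
      norm_num
    have hlC : Real.log (N * T ^ finrank ℚ K) = 26 / 25 * R := by
      rw [hC, Real.log_rpow hN0, hR]
    have h3 := hden T (1 / R) hT1 (by
      rw [hlC]
      have : 1 / R * (26 / 25 * R) = 26 / 25 := by field_simp
      rw [this]
      norm_num) (by
      refine le_trans ?_ hT1
      rw [div_le_one hR0]
      exact hR1) (by
      rw [hC, ← Real.rpow_mul hN0.le]
      norm_num) (FF j.1) (fun ψ => LL K ψ) (fun ψ hψ => (hmem j ψ).mp hψ)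
      (fun ψ hψ => (LL_info K ((hmem j ψ).mp hψ)).1) t ht (k / R) (by
      rw [hlC, div_le_div_iff₀ (by positivity) hR0]
      have hκk : κ ≤ k := by
        have h4 : κ ≤ (⌈κ⌉₊ : ℝ) := Nat.le_ceil κ
        have h5 : ((⌈κ⌉₊ : ℕ) : ℝ) ≤ k := by exact_mod_cast hk
        linarith
      have hk0 : (0 : ℝ) ≤ k := Nat.cast_nonneg k
      have h6 := mul_le_mul_of_nonneg_right hκk hR0.le
      have h7 : 0 ≤ (k : ℝ) * R := by positivity
      linarith)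
    refine ⟨h3.1, h3.2.trans ?_⟩
    rw [hlC, hC, ← FF_ncard K j.2.1 j.2.2]
    have e1 : (N ^ (26 / 25 : ℝ)) ^ (-(9 / 10 * (k / R)) : ℝ) =
        Real.exp (-(26 / 25 * (9 / 10) * k)) := by
      rw [← Real.rpow_mul hN0.le, Real.rpow_def_of_pos hN0, ← hR]
      congr 1
      field_simp
    rw [e1]
    have e2 : Real.exp (-(26 / 25 * (9 / 10) * (k : ℝ))) ≤ Real.exp (-(9 / 10 * k)) := by
      refine Real.exp_le_exp.mpr ?_
      have : (0 : ℝ) ≤ k := Nat.cast_nonneg k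
      linarith
    have e3 : ((FF j.1).card : ℝ) * (1 / R) * (26 / 25 * R) = ((FF j.1).card : ℝ) * (26 / 25) := by
      field_simp
    rw [e3]
    have hc0 : (0 : ℝ) ≤ ((FF j.1).card : ℝ) := Nat.cast_nonneg _
    calc Q' * (((FF j.1).card : ℝ) * (26 / 25) * Real.exp (-(26 / 25 * (9 / 10) * (k : ℝ)))) ≤
        Q' * (((FF j.1).card : ℝ) * 2 * Real.exp (-(9 / 10 * k))) := by
          gcongr
          norm_num
      _ = _ := by ring
  · obtain ⟨b, C, c₂, c₃, X0, hb, hC, -, -, hX0, hnv⟩ := nv_iq K h2 (θ := 1 / 50) (by norm_num)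
      (by norm_num)
    refine ⟨b, C, X0, hb, hC.le, fun j hj t ht r hr0 hr1 => ?_⟩
    obtain ⟨-, hnv⟩ := hnv j.1 j.2.1 hj
    exact (hnv t ht).2 r hr0 hr1

/-- **imaginary quadratic fields: all heights, all windows** -/
theorem micro_iq (h2 : finrank ℚ K = 2) {δ : ℝ} (hδ : 0 < δ) :
    ∃ B η X₀ : ℝ, 0 < B ∧ 0 < η ∧ 1 ≤ X₀ ∧
    ∀ 𝔮 : Ideal (𝓞 K), 𝔮 ≠ ⊥ → X₀ ≤ (Ideal.absNorm 𝔮 : ℝ) →
    ∃ S : Finset (Ideal (𝓞 K) →*₀ ℂ), (∀ ψ, ψ ∈ S ↔ ψ ∈ Fam 𝔮) ∧ S.Nonempty ∧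
      ∀ t H : ℝ, |t| ≤ (Ideal.absNorm 𝔮 : ℝ) ^ η → B ≤ H * Real.log (Ideal.absNorm 𝔮) →
        H ≤ (Ideal.absNorm 𝔮 : ℝ) ^ η →
        (∀ ψ ∈ S, (zset (LL K ψ) t (t + H)).Finite) ∧
        ∑ ψ ∈ S, |(NN (LL K ψ) t (t + H) : ℝ) - H * Real.log (Ideal.absNorm 𝔮) / (2 * Real.pi)| ≤
          δ * (H * Real.log (Ideal.absNorm 𝔮) / (2 * Real.pi)) * S.card ∧
        0.6725 * ∑ ψ ∈ S, (NN (LL K ψ) t (t + H) : ℝ) ≤ ∑ ψ ∈ S, (Ns (LL K ψ) t (t + H) : ℝ) ∧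
        0.83625 * ∑ ψ ∈ S, (NN (LL K ψ) t (t + H) : ℝ) ≤ ∑ ψ ∈ S, (Nd (LL K ψ) t (t + H) : ℝ) := by
  obtain ⟨γ, l, D, h0, hπ, hl, hl1, hD, hconst⟩ := consts2
  obtain ⟨A, hfd⟩ := fd_iq K h2 (l₂ := (l + 1) / 2) (by linarith) hD
  obtain ⟨H1, η, X0, hH1, hη, hX0, hwin⟩ := win (Pool.Agent.Y772.HC.t_mer K) hfd hl (by linarith)
    (by linarith) (by linarith) h0 hπ hconst hδ
  obtain ⟨cb, Nb, hcb, hNb, hbig⟩ := Pool.Agent.Y773.IQ.fam_big' K h2 (ε := 1 / 2) (by norm_num)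
    (by norm_num)
  refine ⟨H1, η, max X0 (max Nb 3), by linarith, hη, le_max_of_le_left hX0, fun 𝔮 hbot hN => ?_⟩
  have hN1 : X0 ≤ (Ideal.absNorm 𝔮 : ℝ) := (le_max_left _ _).trans hN
  have hN2 : Nb ≤ (Ideal.absNorm 𝔮 : ℝ) := ((le_max_left _ _).trans (le_max_right _ _)).trans hN
  have hN3 : 3 ≤ (Ideal.absNorm 𝔮 : ℝ) := ((le_max_right _ _).trans (le_max_right _ _)).trans hN
  have htop : 𝔮 ≠ ⊤ := by
    intro h
    rw [h, Ideal.absNorm_top] at hN3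
    norm_num at hN3
  have hmem : ∀ ψ, ψ ∈ FF 𝔮 ↔ ψ ∈ Fam 𝔮 := fun ψ => mem_FF hbot htop
  refine ⟨FF 𝔮, hmem, ?_, fun t H ht hH hH2 => ?_⟩
  · have h1 := hbig 𝔮 hbot htop hN2
    rw [← FF_ncard K hbot htop] at h1
    have h3 : 0 < ((FF 𝔮).card : ℝ) := lt_of_lt_of_le
      (mul_pos hcb (Real.rpow_pos_of_pos (by linarith) _)) h1
    exact Finset.card_pos.mp (by exact_mod_cast h3)
  · have e1 : t + H - t = H := by ring
    obtain ⟨r1, r2, r3, r4⟩ := hwin (⟨𝔮, hbot, htop⟩ : JJ K) hN1 t (t + H) ht (by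
      rw [e1]
      exact hH) (by
      rw [e1]
      exact hH2)
    rw [e1] at r4
    refine ⟨r1, r4, ?_, ?_⟩
    · rw [Finset.sum_sub_distrib, ← Finset.mul_sum] at r2
      linarith
    · rw [Finset.sum_sub_distrib, ← Finset.mul_sum, ← Finset.mul_sum] at r3
      linarith

open Classical in
/-- **imaginary quadratic fields: the members with a simple critical zero near a given height** -/
theorem pos_iq (h2 : finrank ℚ K = 2) : ∃ B η X₀ : ℝ, 0 < B ∧ 0 < η ∧ 1 ≤ X₀ ∧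
    ∀ 𝔮 : Ideal (𝓞 K), 𝔮 ≠ ⊥ → X₀ ≤ (Ideal.absNorm 𝔮 : ℝ) →
    ∃ S : Finset (Ideal (𝓞 K) →*₀ ℂ), (∀ ψ, ψ ∈ S ↔ ψ ∈ Fam 𝔮) ∧
      ∀ t : ℝ, |t| ≤ (Ideal.absNorm 𝔮 : ℝ) ^ η → 0.6725 * (S.card : ℝ) ≤
        (S.filter fun ψ => 0 < Ns (LL K ψ) t (t + B / Real.log (Ideal.absNorm 𝔮))).card := by
  obtain ⟨γ, l, D, h0, hπ, hl, hl1, hD, hconst⟩ := consts2
  obtain ⟨A, hfd⟩ := fd_iq K h2 (l₂ := (l + 1) / 2) (by linarith) hD
  obtain ⟨B, η, X0, hB, hη, hX0, hpos⟩ := pos_prop (Pool.Agent.Y772.HC.t_mer K) hfd hl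
    (by linarith) (by linarith) (by linarith) h0 hπ (p := 0.6725) (by norm_num)
    (hconst.trans_le (by norm_num))
  refine ⟨B, η, max X0 3, hB, hη, le_max_of_le_left hX0, fun 𝔮 hbot hN => ?_⟩
  have hN1 : X0 ≤ (Ideal.absNorm 𝔮 : ℝ) := (le_max_left _ _).trans hN
  have hN3 : 3 ≤ (Ideal.absNorm 𝔮 : ℝ) := (le_max_right _ _).trans hN
  have htop : 𝔮 ≠ ⊤ := by
    intro h
    rw [h, Ideal.absNorm_top] at hN3
    norm_num at hN3
  have hmem : ∀ ψ, ψ ∈ FF 𝔮 ↔ ψ ∈ Fam 𝔮 := fun ψ => mem_FF hbot htop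
  exact ⟨FF 𝔮, hmem, fun t ht => hpos (⟨𝔮, hbot, htop⟩ : JJ K) hN1 t ht⟩

end

end Pool.Agent.T9h27.Z
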