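import Pool.Agent.T9h27.Z.Cut
import Pool.Agent.H385R2.Defs

/-!
# Sums over the zeros by cells (helper27)
-/

set_option autoImplicit false

open Complex Set

namespace Pool.Agent.T9h27.Z

/-- distance from the critical line -/
noncomputable def dl (z : ℂ) : ℝ := |z.re - 1 / 2|

lemma dl_nonneg (z : ℂ) : 0 ≤ dl z := abs_nonneg _

/-- the weight -/
noncomputable def ps (ε : ℝ) (j : ℕ) : ℝ := ((1 + ε * max ((j : ℝ) - 1) 0)⁻¹) ^ 2

lemma ps_nonneg (ε : ℝ) (j : ℕ) : 0 ≤ ps ε j := sq_nonneg _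

lemma ps_sum {ε : ℝ} (hε : 0 < ε) (J : ℕ) : ∑ j ∈ Finset.range J, ps ε j ≤ 2 + 1 / ε := by
  have key : ∀ J : ℕ, ∑ j ∈ Finset.range (J + 2), ps ε j ≤ 2 + 1 / ε - 1 / (ε * (1 + ε * J)) := by
    intro J
    induction J with
    | zero =>
      rw [Finset.sum_range_succ, Finset.sum_range_succ, Finset.sum_range_zero]
      unfold ps
      norm_num
    | succ J ih =>
      rw [show J + 1 + 2 = (J + 2) + 1 by ring, Finset.sum_range_succ]
      have hJ : (0 : ℝ) ≤ J := Nat.cast_nonneg _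
      have h1 : ps ε (J + 2) = ((1 + ε * (J + 1))⁻¹) ^ 2 := by
        unfold ps
        have : max (((J + 2 : ℕ) : ℝ) - 1) 0 = J + 1 := by
          push_cast
          rw [max_eq_left (by linarith)]
          ring
        rw [this]
      have h2 : ((1 + ε * (J + 1))⁻¹) ^ 2 ≤
          1 / (ε * (1 + ε * J)) - 1 / (ε * (1 + ε * ((J + 1 : ℕ) : ℝ))) := by
        push_cast
        have e1 : 1 / (ε * (1 + ε * J)) - 1 / (ε * (1 + ε * (J + 1))) =
            (1 + ε * J)⁻¹ * (1 + ε * (J + 1))⁻¹ := by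
          have a1 : (1 + ε * J) ≠ 0 := by positivity
          have a2 : (1 + ε * ((J : ℝ) + 1)) ≠ 0 := by positivity
          field_simp
          ring
        rw [e1, pow_two]
        refine mul_le_mul_of_nonneg_right ?_ (by positivity)
        refine inv_anti₀ (by positivity) ?_
        nlinarith
      rw [h1]
      linarith
  have h1 : ∑ j ∈ Finset.range J, ps ε j ≤ ∑ j ∈ Finset.range (J + 2), ps ε j :=
    Finset.sum_le_sum_of_subset_of_nonneg (Finset.range_mono (by omega))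
      fun j _ _ => ps_nonneg ε j
  have h2 := key J
  have h3 : 0 ≤ 1 / (ε * (1 + ε * J)) := by positivity
  linarith

lemma int_sum (Ks : Finset ℤ) (ψ : ℕ → ℝ) (hψ : ∀ j, 0 ≤ ψ j) {B : ℝ}
    (hB : ∀ J : ℕ, ∑ j ∈ Finset.range J, ψ j ≤ B) :
    ∑ k ∈ Ks, ψ k.natAbs ≤ 2 * B := by
  classical
  obtain ⟨J, hJ⟩ : ∃ J : ℕ, ∀ k ∈ Ks, k.natAbs < J :=
    ⟨(Ks.sup fun k => k.natAbs) + 1, fun k hk => Nat.lt_succ_of_le
      (Finset.le_sup (f := fun k : ℤ => k.natAbs) hk)⟩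
  have hmaps : ∀ k ∈ Ks, k.natAbs ∈ Finset.range J := fun k hk => Finset.mem_range.mpr (hJ k hk)
  rw [← Finset.sum_fiberwise_of_maps_to hmaps]
  have h1 : ∀ j ∈ Finset.range J, ∑ k ∈ Ks.filter (fun k => k.natAbs = j), ψ k.natAbs ≤ 2 * ψ j := by
    intro j _
    have h2 : ∀ k ∈ Ks.filter (fun k => k.natAbs = j), ψ k.natAbs = ψ j := by
      intro k hk
      rw [(Finset.mem_filter.mp hk).2]
    rw [Finset.sum_congr rfl h2, Finset.sum_const, nsmul_eq_mul]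
    refine mul_le_mul_of_nonneg_right ?_ (hψ j)
    have h3 : Ks.filter (fun k => k.natAbs = j) ⊆ {(j : ℤ), -(j : ℤ)} := by
      intro k hk
      have := (Finset.mem_filter.mp hk).2
      rw [Finset.mem_insert, Finset.mem_singleton]
      omega
    have h4 := (Finset.card_le_card h3).trans Finset.card_le_two
    exact_mod_cast h4
  refine (Finset.sum_le_sum h1).trans ?_
  rw [← Finset.mul_sum]
  linarith [hB J]

/-- index of the cell -/
noncomputable def ix (T0 R : ℝ) (z : ℂ) : ℤ := ⌈(z.im - T0) * R⌉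

lemma ix_cell {T0 R : ℝ} (hR : 0 < R) {z : ℂ} {k : ℤ} (h : ix T0 R z = k) :
    T0 + ((k : ℝ) - 1) / R < z.im ∧ z.im ≤ T0 + ((k : ℝ) - 1) / R + 1 / R := by
  unfold ix at h
  rw [Int.ceil_eq_iff] at h
  obtain ⟨h1, h2⟩ := h
  constructor
  · have : ((k : ℝ) - 1) / R < z.im - T0 := by
      rw [div_lt_iff₀ hR]
      exact h1
    linarith
  · have : z.im - T0 ≤ k / R := by
      rw [le_div_iff₀ hR]
      exact h2
    have e : ((k : ℝ) - 1) / R + 1 / R = k / R := by ring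
    linarith

lemma ix_dist {T0 R : ℝ} (hR : 0 < R) (z : ℂ) :
    max (((ix T0 R z).natAbs : ℝ) - 1) 0 ≤ R * |z.im - T0| := by
  refine max_le ?_ (by positivity)
  have h1 : |((ix T0 R z : ℤ) : ℝ) - (z.im - T0) * R| ≤ 1 := by
    unfold ix
    rw [abs_le]
    constructor
    · have := Int.le_ceil ((z.im - T0) * R)
      linarith
    · have := Int.ceil_lt_add_one ((z.im - T0) * R)
      linarith
  have h2 : (((ix T0 R z).natAbs : ℕ) : ℝ) = |((ix T0 R z : ℤ) : ℝ)| := by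
    rw [Nat.cast_natAbs]
    push_cast
    rfl
  rw [h2]
  have h3 := abs_sub_abs_le_abs_sub ((ix T0 R z : ℤ) : ℝ) ((z.im - T0) * R)
  rw [abs_mul, abs_of_pos hR] at h3
  linarith

section

variable {ι : Type} {s : Finset ι} {Z : ι → Finset ℂ} {m : ι → ℂ → ℕ} {R : ℝ}

/-- the cell hypothesis -/
def HC (s : Finset ι) (Z : ι → Finset ℂ) (m : ι → ℂ → ℕ) (R g A : ℝ) : Prop :=
  ∀ t : ℝ, ∑ i ∈ s, ∑ z ∈ (Z i).filter (fun z => t < z.im ∧ z.im ≤ t + 1 / R),
    (m i z : ℝ) * Real.exp (g * R * dl z) ≤ A * s.card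

/-- the second moment hypothesis -/
def HM (s : Finset ι) (Z : ι → Finset ℂ) (m : ι → ℂ → ℕ) (R ρ C : ℝ) : Prop :=
  ∀ t : ℝ, ∑ i ∈ s, (∑ z ∈ (Z i).filter (fun z => t < z.im ∧ z.im ≤ t + 1 / R ∧ dl z ≤ ρ / R),
    (m i z : ℝ)) ^ 2 ≤ C * s.card

lemma cell_sum (hR : 0 < R) {g A : ℝ} (hA : 0 ≤ A) (hC : HC s Z m R g A) (T0 : ℝ) {ε : ℝ}
    (hε : 0 < ε) :
    ∑ i ∈ s, ∑ z ∈ Z i, (m i z : ℝ) * Real.exp (g * R * dl z) *
      ((1 + ε * R * |z.im - T0|)⁻¹) ^ 2 ≤ A * s.card * (4 + 2 / ε) := by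
  classical
  obtain ⟨Ks, hKs⟩ : ∃ Ks : Finset ℤ, Ks = s.biUnion fun i => (Z i).image (ix T0 R) := ⟨_, rfl⟩
  have hmem : ∀ i ∈ s, ∀ z ∈ Z i, ix T0 R z ∈ Ks := by
    intro i hi z hz
    rw [hKs, Finset.mem_biUnion]
    exact ⟨i, hi, Finset.mem_image_of_mem _ hz⟩
  have h1 : ∀ i ∈ s, ∑ z ∈ Z i, (m i z : ℝ) * Real.exp (g * R * dl z) *
      ((1 + ε * R * |z.im - T0|)⁻¹) ^ 2 ≤
      ∑ k ∈ Ks, ps ε k.natAbs * ∑ z ∈ (Z i).filter (fun z => ix T0 R z = k),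
        (m i z : ℝ) * Real.exp (g * R * dl z) := by
    intro i hi
    rw [← Finset.sum_fiberwise_of_maps_to (hmem i hi)]
    refine Finset.sum_le_sum fun k _ => ?_
    rw [Finset.mul_sum]
    refine Finset.sum_le_sum fun z hz => ?_
    have hk := (Finset.mem_filter.mp hz).2
    rw [mul_comm (ps ε k.natAbs)]
    refine mul_le_mul_of_nonneg_left ?_ (by positivity)
    unfold ps
    have h2 := ix_dist (T0 := T0) hR z
    rw [hk] at h2
    refine pow_le_pow_left₀ (by positivity) (inv_anti₀ (by positivity) ?_) 2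
    have h3 := mul_le_mul_of_nonneg_left h2 hε.le
    linarith
  refine (Finset.sum_le_sum h1).trans ?_
  rw [Finset.sum_comm]
  have h2 : ∀ k ∈ Ks, ∑ i ∈ s, ps ε k.natAbs * ∑ z ∈ (Z i).filter (fun z => ix T0 R z = k),
        (m i z : ℝ) * Real.exp (g * R * dl z) ≤ (A * s.card) * ps ε k.natAbs := by
    intro k _
    rw [← Finset.mul_sum, mul_comm]
    refine mul_le_mul_of_nonneg_right ?_ (ps_nonneg _ _)
    refine le_trans ?_ (hC (T0 + ((k : ℝ) - 1) / R))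
    refine Finset.sum_le_sum fun i _ => ?_
    refine Finset.sum_le_sum_of_subset_of_nonneg ?_ fun z _ _ => by positivity
    intro z hz
    rw [Finset.mem_filter] at hz ⊢
    exact ⟨hz.1, ix_cell hR hz.2⟩
  refine (Finset.sum_le_sum h2).trans ?_
  rw [← Finset.mul_sum]
  refine mul_le_mul_of_nonneg_left ?_ (by positivity)
  have h3 := int_sum Ks (ps ε) (ps_nonneg ε) (ps_sum hε)
  refine h3.trans (le_of_eq ?_)
  ring

/-- the two-sided weight -/
noncomputable def om (b T1 T2 x : ℝ) (p : ℕ) : ℝ :=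
  ((1 + b * |x - T1|)⁻¹) ^ p + ((1 + b * |x - T2|)⁻¹) ^ p

lemma cell_om (hR : 0 < R) {g A : ℝ} (hA : 0 ≤ A) (hC : HC s Z m R g A) (T1 T2 : ℝ) {ε : ℝ}
    (hε : 0 < ε) :
    ∑ i ∈ s, ∑ z ∈ Z i, (m i z : ℝ) * Real.exp (g * R * dl z) * om (ε * R) T1 T2 z.im 2 ≤
      A * s.card * (8 + 4 / ε) := by
  have h1 := cell_sum hR hA hC T1 hε
  have h2 := cell_sum hR hA hC T2 hε
  have h3 : ∑ i ∈ s, ∑ z ∈ Z i, (m i z : ℝ) * Real.exp (g * R * dl z) *
      om (ε * R) T1 T2 z.im 2 = ∑ i ∈ s, ∑ z ∈ Z i, (m i z : ℝ) * Real.exp (g * R * dl z) *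
      ((1 + ε * R * |z.im - T1|)⁻¹) ^ 2 + ∑ i ∈ s, ∑ z ∈ Z i, (m i z : ℝ) *
      Real.exp (g * R * dl z) * ((1 + ε * R * |z.im - T2|)⁻¹) ^ 2 := by
    rw [← Finset.sum_add_distrib]
    refine Finset.sum_congr rfl fun i _ => ?_
    rw [← Finset.sum_add_distrib]
    refine Finset.sum_congr rfl fun z _ => ?_
    unfold om
    ring
  rw [h3]
  calc _ ≤ A * s.card * (4 + 2 / ε) + A * s.card * (4 + 2 / ε) := add_le_add h1 h2
    _ = _ := by ring

end

end Pool.Agent.T9h27.Z
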