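import Pool.Agent.T9h27.Z.EFW
import Pool.Agent.T9h27.Z.Sup
import Pool.Agent.T9h27.Z.Cell

/-!
# The explicit formula at every height, second form (helper27)
-/

set_option autoImplicit false

open Complex Filter Topology Set MeasureTheory
open scoped ComplexConjugate

namespace Pool.Agent.T9h27.Z

open H385 (A1 PP1 zz)
open H370 (zset mult)
open W388.LV (CoefE)

lemma zz_refl (z : ℂ) : zz (1 - conj z) = conj (zz z) := by
  unfold zz
  rw [map_mul, map_neg, Complex.conj_I, map_sub]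
  have : conj (1 / 2 : ℂ) = 1 / 2 := by
    rw [map_div₀, map_one]
    congr 1
    exact Complex.conj_ofNat 2
  rw [this]
  ring

lemma AA_neg {Z : Finset ℂ} {m : ℂ → ℕ} (hZ : ∀ z ∈ Z, 1 - conj z ∈ Z ∧ m (1 - conj z) = m z)
    (v τ : ℝ) : AA Z m (-v) τ = conj (AA Z m v τ) := by
  unfold AA
  rw [map_sum]
  refine Finset.sum_nbij' (fun z => 1 - conj z) (fun z => 1 - conj z) (fun z hz => (hZ z hz).1)
    (fun z hz => (hZ z hz).1) (fun z _ => by simp) (fun z _ => by simp) fun z hz => ?_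
  rw [(hZ z hz).2, zz_refl, map_mul, map_mul, ← Complex.exp_conj, ← Complex.exp_conj, map_natCast]
  congr 2
  · congr 1
    rw [map_mul, map_mul, Complex.conj_I, Complex.conj_ofReal, Complex.conj_conj]
    push_cast
    ring
  · congr 1
    rw [map_neg, map_pow, map_sub, Complex.conj_conj, Complex.conj_ofReal]

lemma DDa_neg (L : ℝ) (N : Finset ℕ) (a : ℕ → ℂ) (v τ : ℝ) :
    DDa L N a (-v) τ = conj (DDa L N a v τ) := by
  unfold DDa
  rw [map_mul, map_sub, map_sub, map_sum, map_sum, Complex.conj_ofReal, map_mul,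
    Complex.conj_ofReal, map_mul, Complex.conj_ofReal, ← Complex.exp_conj]
  have e0 : conj (I * (v : ℂ) * τ) = I * ((-v : ℝ) : ℂ) * τ := by
    rw [map_mul, map_mul, Complex.conj_I, Complex.conj_ofReal, Complex.conj_ofReal]
    push_cast
    ring
  rw [e0, neg_sq]
  have e1 : ∀ n : ℕ, conj ((conj (a n)) * (Real.sqrt n : ℂ)⁻¹ *
        (cexp (I * ((v + Real.log n : ℝ) : ℂ) * τ) *
        ((Real.exp (-(v + Real.log n) ^ 2 / 4) : ℝ) : ℂ))) =
      a n * (Real.sqrt n : ℂ)⁻¹ * (cexp (I * ((-v - Real.log n : ℝ) : ℂ) * τ) *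
        ((Real.exp (-(-v - Real.log n) ^ 2 / 4) : ℝ) : ℂ)) := by
    intro n
    rw [map_mul, map_mul, Complex.conj_conj, map_inv₀, Complex.conj_ofReal, map_mul,
      Complex.conj_ofReal, ← Complex.exp_conj, map_mul, map_mul, Complex.conj_I,
      Complex.conj_ofReal, Complex.conj_ofReal]
    have k1 : (-v - Real.log n) ^ 2 = (v + Real.log n) ^ 2 := by ring
    rw [k1]
    congr 3
    push_cast
    ring
  have e2 : ∀ n : ℕ, conj (a n * (Real.sqrt n : ℂ)⁻¹ *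
        (cexp (I * ((v - Real.log n : ℝ) : ℂ) * τ) *
        ((Real.exp (-(v - Real.log n) ^ 2 / 4) : ℝ) : ℂ))) =
      conj (a n) * (Real.sqrt n : ℂ)⁻¹ * (cexp (I * ((-v + Real.log n : ℝ) : ℂ) * τ) *
        ((Real.exp (-(-v + Real.log n) ^ 2 / 4) : ℝ) : ℂ)) := by
    intro n
    rw [map_mul, map_mul, map_inv₀, Complex.conj_ofReal, map_mul,
      Complex.conj_ofReal, ← Complex.exp_conj, map_mul, map_mul, Complex.conj_I,
      Complex.conj_ofReal, Complex.conj_ofReal]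
    have k1 : (-v + Real.log n) ^ 2 = (v - Real.log n) ^ 2 := by ring
    rw [k1]
    congr 3
    push_cast
    ring
  simp only [e1, e2]
  ring

/-- the square root in terms of the weight -/
lemma sqrt_eq {n : ℕ} (hn : 1 ≤ n) : (Real.sqrt n)⁻¹ =
    (n : ℝ) ^ (-(7 / 4) : ℝ) * Real.exp (5 / 4 * Real.log n) := by
  have h : (0 : ℝ) < n := by exact_mod_cast hn
  rw [Real.sqrt_eq_rpow, ← Real.rpow_neg h.le, Real.rpow_def_of_pos h, Real.rpow_def_of_pos h,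
    ← Real.exp_add]
  congr 1
  ring

lemma tail_bd {A : ℝ} {a : ℕ → ℂ} (ha : CoefE A a) {u μ R : ℝ} (hu1 : u ≤ R)
    (hμ : 10 ≤ μ * R) {M : ℕ} (hM : u + μ * R ≤ Real.log (M + 1)) (t : ℝ) :
    ‖PP1 a u t - ∑ n ∈ Finset.Icc 1 M, a n * (Real.sqrt n : ℂ)⁻¹ *
      (cexp (I * ((u - Real.log n : ℝ) : ℂ) * t) *
        ((Real.exp (-(u - Real.log n) ^ 2 / 4) : ℝ) : ℂ))‖ ≤
      A * Real.exp (5 / 4 * R - (μ * R) ^ 2 / 8) := by
  obtain ⟨f, hf⟩ : ∃ f : ℕ → ℂ, ∀ n, f n = a n * (Real.sqrt n : ℂ)⁻¹ *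
      cexp (I * t * (u - Real.log n)) * Real.exp (-(u - Real.log n) ^ 2 / 4) := ⟨_, fun _ => rfl⟩
  have hfn : ∀ n : ℕ, 1 ≤ n → ‖f n‖ = ‖a n‖ * (n : ℝ) ^ (-(7 / 4) : ℝ) *
      Real.exp (5 / 4 * Real.log n - (u - Real.log n) ^ 2 / 4) := by
    intro n hn
    rw [hf, norm_mul, norm_mul, norm_mul, Complex.norm_exp, norm_inv, Complex.norm_real,
      Real.norm_of_nonneg (Real.sqrt_nonneg _), Complex.norm_real,
      Real.norm_of_nonneg (Real.exp_pos _).le, sqrt_eq hn]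
    have e1 : (I * (t : ℂ) * ((u : ℂ) - (Real.log n : ℂ))).re = 0 := by
      have : I * (t : ℂ) * ((u : ℂ) - (Real.log n : ℂ)) = ((t * (u - Real.log n) : ℝ) : ℂ) * I := by
        push_cast
        ring
      rw [this, Complex.re_ofReal_mul, Complex.I_re, mul_zero]
    rw [e1, Real.exp_zero, mul_one]
    have e2 : Real.exp (5 / 4 * Real.log n - (u - Real.log n) ^ 2 / 4) =
        Real.exp (5 / 4 * Real.log n) * Real.exp (-(u - Real.log n) ^ 2 / 4) := by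
      rw [← Real.exp_add]
      congr 1
      ring
    rw [e2]
    ring
  have hf0 : f 0 = 0 := by rw [hf, ha.zero]; simp
  have hA0 : 0 ≤ A := (tsum_nonneg fun n => by positivity).trans ha.le
  -- exponents
  have hexp : ∀ ℓ : ℝ, 5 / 4 * ℓ - (u - ℓ) ^ 2 / 4 ≤ 5 / 4 * R + 25 / 16 := by
    intro ℓ
    have h1 : 0 ≤ (ℓ - u - 5 / 2) ^ 2 := sq_nonneg _
    have h2 : (ℓ - u - 5 / 2) ^ 2 = (u - ℓ) ^ 2 - 5 * ℓ + 5 * u + 25 / 4 := by ring
    linarith
  have hsm : Summable f := by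
    refine Summable.of_norm_bounded (ha.sm.mul_right (Real.exp (5 / 4 * R + 25 / 16))) fun n => ?_
    rcases Nat.eq_zero_or_pos n with h | h
    · rw [h, hf0]
      simp [ha.zero]
    · rw [hfn n h]
      exact mul_le_mul_of_nonneg_left (Real.exp_le_exp.mpr (hexp _)) (by positivity)
  have e1 : PP1 a u t = ∑' n, f n := by
    unfold PP1
    congr 1
    funext n
    rw [hf]
  have e2 : ∑ n ∈ Finset.Icc 1 M, a n * (Real.sqrt n : ℂ)⁻¹ *
      (cexp (I * ((u - Real.log n : ℝ) : ℂ) * t) *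
        ((Real.exp (-(u - Real.log n) ^ 2 / 4) : ℝ) : ℂ)) = ∑ n ∈ Finset.range (M + 1), f n := by
    rw [Finset.range_eq_Ico, Finset.sum_eq_sum_Ico_succ_bot (by omega), hf0, zero_add]
    refine Finset.sum_congr ?_ fun n _ => ?_
    · ext n
      simp only [Finset.mem_Icc, Finset.mem_Ico]
      omega
    · rw [hf]
      have : I * ((u - Real.log n : ℝ) : ℂ) * t = I * t * (u - Real.log n) := by
        push_cast
        ring
      rw [this]
      push_cast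
      ring
  rw [e1, e2, ← hsm.sum_add_tsum_nat_add (M + 1), add_sub_cancel_left]
  have hb : ∀ n : ℕ, ‖f (n + (M + 1))‖ ≤ ‖a (n + (M + 1))‖ *
      ((n + (M + 1) : ℕ) : ℝ) ^ (-(7 / 4) : ℝ) * Real.exp (5 / 4 * R - (μ * R) ^ 2 / 8) := by
    intro n
    rw [hfn _ (by omega)]
    refine mul_le_mul_of_nonneg_left (Real.exp_le_exp.mpr ?_) (by positivity)
    have h1 : Real.log (M + 1) ≤ Real.log ((n + (M + 1) : ℕ) : ℝ) := by
      refine Real.log_le_log (by positivity) ?_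
      push_cast
      linarith [Nat.cast_nonneg (α := ℝ) n]
    obtain ⟨ℓ, hℓ⟩ : ∃ ℓ : ℝ, ℓ = Real.log ((n + (M + 1) : ℕ) : ℝ) := ⟨_, rfl⟩
    rw [← hℓ] at h1 ⊢
    have h2 : μ * R ≤ ℓ - u := by linarith
    have h3 := pow_le_pow_left₀ (by linarith : 0 ≤ μ * R) h2 2
    have h4 : 0 ≤ (ℓ - u) * (ℓ - u - 10) := mul_nonneg (by linarith) (by linarith)
    have h5 : (u - ℓ) ^ 2 = (ℓ - u) ^ 2 := by ring
    have h6 : (ℓ - u) * (ℓ - u - 10) = (ℓ - u) ^ 2 - 10 * (ℓ - u) := by ring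
    rw [h5]
    linarith
  have hsm2 : Summable fun n : ℕ => ‖a (n + (M + 1))‖ *
      ((n + (M + 1) : ℕ) : ℝ) ^ (-(7 / 4) : ℝ) * Real.exp (5 / 4 * R - (μ * R) ^ 2 / 8) :=
    ((summable_nat_add_iff (M + 1)).mpr ha.sm).mul_right _
  refine (tsum_of_norm_bounded hsm2.hasSum hb).trans ?_
  rw [tsum_mul_right]
  refine mul_le_mul_of_nonneg_right ?_ (Real.exp_pos _).le
  refine le_trans ?_ ha.le
  rw [← ha.sm.sum_add_tsum_nat_add (M + 1)]
  have : 0 ≤ ∑ i ∈ Finset.range (M + 1), ‖a i‖ * (i : ℝ) ^ (-(7 / 4) : ℝ) :=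
    Finset.sum_nonneg fun i _ => by positivity
  linarith

lemma conj_bd {A : ℝ} {a : ℕ → ℂ} (ha : CoefE A a) {u : ℝ} (hu : 0 ≤ u) (M : ℕ) (t : ℝ) :
    ‖∑ n ∈ Finset.Icc 1 M, conj (a n) * (Real.sqrt n : ℂ)⁻¹ *
      (cexp (I * ((u + Real.log n : ℝ) : ℂ) * t) *
        ((Real.exp (-(u + Real.log n) ^ 2 / 4) : ℝ) : ℂ))‖ ≤
      A * Real.exp 2 * Real.exp (-u / 4) := by
  have h1 : ∀ n ∈ Finset.Icc 1 M, ‖conj (a n) * (Real.sqrt n : ℂ)⁻¹ *
      (cexp (I * ((u + Real.log n : ℝ) : ℂ) * t) *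
        ((Real.exp (-(u + Real.log n) ^ 2 / 4) : ℝ) : ℂ))‖ ≤
      ‖a n‖ * (n : ℝ) ^ (-(7 / 4) : ℝ) * (Real.exp 2 * Real.exp (-u / 4)) := by
    intro n hn
    have hn1 := (Finset.mem_Icc.mp hn).1
    have hl : 0 ≤ Real.log n := Real.log_nonneg (by exact_mod_cast hn1)
    rw [norm_mul, norm_mul, norm_mul, Complex.norm_exp, norm_inv, Complex.norm_real,
      Real.norm_of_nonneg (Real.sqrt_nonneg _), Complex.norm_real,
      Real.norm_of_nonneg (Real.exp_pos _).le, sqrt_eq hn1, RCLike.norm_conj]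
    have e1 : (I * ((u + Real.log n : ℝ) : ℂ) * (t : ℂ)).re = 0 := by
      have : I * ((u + Real.log n : ℝ) : ℂ) * (t : ℂ) = (((u + Real.log n) * t : ℝ) : ℂ) * I := by
        push_cast
        ring
      rw [this, Complex.re_ofReal_mul, Complex.I_re, mul_zero]
    rw [e1, Real.exp_zero, one_mul]
    have e2 : Real.exp (5 / 4 * Real.log n) * Real.exp (-(u + Real.log n) ^ 2 / 4) ≤
        Real.exp 2 * Real.exp (-u / 4) := by
      rw [← Real.exp_add, ← Real.exp_add]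
      refine Real.exp_le_exp.mpr ?_
      have k1 := sq_nonneg (u - 1 / 2)
      have k2 := sq_nonneg (Real.log n - 5 / 2)
      have k3 := mul_nonneg hu hl
      nlinarith
    calc ‖a n‖ * ((n : ℝ) ^ (-(7 / 4) : ℝ) * Real.exp (5 / 4 * Real.log n)) *
          Real.exp (-(u + Real.log n) ^ 2 / 4) =
        ‖a n‖ * (n : ℝ) ^ (-(7 / 4) : ℝ) * (Real.exp (5 / 4 * Real.log n) *
          Real.exp (-(u + Real.log n) ^ 2 / 4)) := by ring
      _ ≤ _ := mul_le_mul_of_nonneg_left e2 (by positivity)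
  refine (norm_sum_le_of_le _ h1).trans ?_
  rw [← Finset.sum_mul, mul_assoc A]
  have h2 : ∑ i ∈ Finset.Icc 1 M, ‖a i‖ * (i : ℝ) ^ (-(7 / 4) : ℝ) ≤ A :=
    (Summable.sum_le_tsum (Finset.Icc 1 M) (fun i _ => by positivity) ha.sm).trans ha.le
  exact mul_le_mul_of_nonneg_right h2 (by positivity)

lemma small_x {μ A : ℝ} (hμ : 0 < μ) (hA : 0 ≤ A) : ∃ R0 : ℝ, 1 ≤ R0 ∧ ∀ R : ℝ, R0 ≤ R →
    A * Real.exp (5 / 4 * R - (μ * R) ^ 2 / 8) ≤ 1 / R ∧
    (3 * R) ^ 2 * Real.exp (5 / 4 * R - R ^ 2 / 2) ≤ 1 / R ∧ 10 ≤ μ * R ∧ 3 ≤ R := by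
  have h1 : Tendsto (fun R : ℝ => A * (R ^ 1 * Real.exp (-R))) atTop (𝓝 (A * 0)) :=
    (Real.tendsto_pow_mul_exp_neg_atTop_nhds_zero 1).const_mul A
  have h2 : Tendsto (fun R : ℝ => 9 * (R ^ 3 * Real.exp (-R))) atTop (𝓝 (9 * 0)) :=
    (Real.tendsto_pow_mul_exp_neg_atTop_nhds_zero 3).const_mul 9
  rw [mul_zero] at h1 h2
  have h3 := (h1.eventually_lt_const zero_lt_one).and ((h2.eventually_lt_const zero_lt_one).and
    (eventually_ge_atTop (max 10 (max (18 / μ ^ 2) (10 / μ)))))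
  obtain ⟨R0, hR0⟩ := eventually_atTop.mp h3
  refine ⟨max R0 1, le_max_right _ _, fun R hR => ?_⟩
  obtain ⟨k1, k2, k3⟩ := hR0 R ((le_max_left _ _).trans hR)
  have q1 : 10 ≤ R := (le_max_left _ _).trans k3
  have q2 : 18 / μ ^ 2 ≤ R := ((le_max_left _ _).trans (le_max_right _ _)).trans k3
  have q3 : 10 / μ ≤ R := ((le_max_right _ _).trans (le_max_right _ _)).trans k3
  have hR0 : 0 < R := by linarith
  rw [div_le_iff₀ (by positivity)] at q2 q3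
  rw [pow_one] at k1
  refine ⟨?_, ?_, by linarith, by linarith⟩
  · rw [le_div_iff₀ hR0]
    have e1 : 5 / 4 * R - (μ * R) ^ 2 / 8 ≤ -R := by
      have : (μ * R) ^ 2 = (R * μ ^ 2) * R := by ring
      rw [this]
      nlinarith
    have e2 : A * Real.exp (5 / 4 * R - (μ * R) ^ 2 / 8) * R ≤ A * Real.exp (-R) * R := by
      gcongr
    have e3 : A * Real.exp (-R) * R = A * (R * Real.exp (-R)) := by ring
    linarith
  · rw [le_div_iff₀ hR0]
    have e1 : 5 / 4 * R - R ^ 2 / 2 ≤ -R := by nlinarith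
    have e2 : (3 * R) ^ 2 * Real.exp (5 / 4 * R - R ^ 2 / 2) * R ≤
        (3 * R) ^ 2 * Real.exp (-R) * R := by gcongr
    have e3 : (3 * R) ^ 2 * Real.exp (-R) * R = 9 * (R ^ 3 * Real.exp (-R)) := by ring
    linarith

/-- **the explicit formula at every height**, in the form used in the core theorem -/
theorem efx (d A : ℝ) (hd : 1 ≤ d) (hA : 1 ≤ A) {l₁ l₂ : ℝ} (hl : l₁ < l₂) (hl2 : l₂ ≤ 1) :
    ∃ E0 R0 : ℝ, 0 < E0 ∧ 3 ≤ R0 ∧ ∀ (Q : ℝ) (F : ℂ → ℂ) (a : ℕ → ℂ), 1 ≤ Q →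
      GoodW d A Q F a → ∀ (T R : ℝ) (M : ℕ), R0 ≤ R → 0 ≤ T → Real.log (Q * (T + R)) ≤ 3 * R →
      l₂ * R ≤ Real.log (M + 1) → ∃ (V1 V2 : ℝ) (Z : Finset ℂ), T + R ≤ V1 ∧ V1 ≤ T + R + 1 ∧
        T + R ≤ V2 ∧ V2 ≤ T + R + 1 ∧ (∀ z, z ∈ Z ↔ z ∈ zset F (-V1) V2) ∧
        (∀ z ∈ Z, dl z ≤ 1 / 2 ∧ 1 - conj z ∈ Z ∧ mult F (1 - conj z) = mult F z) ∧
        ∀ v t τ₀ : ℝ, |v| ≤ l₁ * R → |t| ≤ T → |t - τ₀| ≤ 1 →
          ‖AA Z (mult F) v t - DDa (d * Real.log (Q * (|τ₀| + 1))) (Finset.Icc 1 M) a v t‖ ≤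
            E0 * (Real.exp (-|v| / 4) + 1 / R) := by
  obtain ⟨C, hC, hef⟩ := efw d A hd hA
  have hμ : 0 < l₂ - l₁ := by linarith
  obtain ⟨R0, hR01, hR0⟩ := small_x hμ (by linarith : 0 ≤ A)
  refine ⟨C + A * Real.exp 2 + 1, max R0 3, by positivity, le_max_right _ _, ?_⟩
  intro Q F a hQ hF T R M hR hT hlog hM
  obtain ⟨s1, s2, s3, s4⟩ := hR0 R ((le_max_left _ _).trans hR)
  obtain ⟨V1, V2, v1, v2, v3, v4, hfin, hmain⟩ := hef Q F a hQ hF T R hT s4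
  have hZm : ∀ z, z ∈ hfin.toFinset ↔ z ∈ zset F (-V1) V2 := fun z => hfin.mem_toFinset
  have hsym : ∀ z ∈ hfin.toFinset, dl z ≤ 1 / 2 ∧ 1 - conj z ∈ hfin.toFinset ∧
      mult F (1 - conj z) = mult F z := by
    intro z hz
    rw [hZm] at hz
    obtain ⟨z1, z2, z3, z4, z5⟩ := hz
    have hord := hF.symm z z1 z2
    refine ⟨?_, ?_, ?_⟩
    · unfold dl
      rw [abs_le]
      constructor <;> linarith
    · rw [hZm]
      have e1 : (1 - conj z).re = 1 - z.re := by simp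
      have e2 : (1 - conj z).im = z.im := by simp
      refine ⟨by rw [e1]; linarith, by rw [e1]; linarith, by rw [e2]; exact z3,
        by rw [e2]; exact z4, ?_⟩
      by_contra hne
      have h1 := (hF.diff.analyticAt (1 - conj z)).analyticOrderAt_eq_zero.mpr hne
      rw [h1] at hord
      exact ((hF.diff.analyticAt z).analyticOrderAt_eq_zero.mp hord.symm) z5
    · unfold mult analyticOrderNatAt
      rw [hord]
  refine ⟨V1, V2, hfin.toFinset, v1, v2, v3, v4, hZm, hsym, ?_⟩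
  have key : ∀ v t τ₀ : ℝ, 0 ≤ v → v ≤ l₁ * R → |t| ≤ T → |t - τ₀| ≤ 1 →
      ‖AA hfin.toFinset (mult F) v t -
        DDa (d * Real.log (Q * (|τ₀| + 1))) (Finset.Icc 1 M) a v t‖ ≤
        (C + A * Real.exp 2 + 1) * (Real.exp (-v / 4) + 1 / R) := by
    intro v t τ₀ hv hvl ht htτ
    have h1 := hmain v t τ₀ hv ht htτ
    have hR' : 0 < R := by linarith
    have hvR : v ≤ R := hvl.trans (by nlinarith)
    have e1 : A1 F (-V1) V2 v t = AA hfin.toFinset (mult F) v t := by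
      unfold A1 AA
      rw [finsum_mem_eq_finite_toFinset_sum _ hfin]
    rw [e1] at h1
    have h2 := tail_bd hF.coef (u := v) (μ := l₂ - l₁) (R := R) hvR s3 (M := M)
      (by nlinarith) t
    have h3 := conj_bd hF.coef hv M t
    obtain ⟨P, hP⟩ : ∃ P : ℂ, P = PP1 a v t := ⟨_, rfl⟩
    obtain ⟨S1, hS1⟩ : ∃ S1 : ℂ, S1 = ∑ n ∈ Finset.Icc 1 M, a n * (Real.sqrt n : ℂ)⁻¹ *
      (cexp (I * ((v - Real.log n : ℝ) : ℂ) * t) *
        ((Real.exp (-(v - Real.log n) ^ 2 / 4) : ℝ) : ℂ)) := ⟨_, rfl⟩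
    obtain ⟨S2, hS2⟩ : ∃ S2 : ℂ, S2 = ∑ n ∈ Finset.Icc 1 M, conj (a n) * (Real.sqrt n : ℂ)⁻¹ *
      (cexp (I * ((v + Real.log n : ℝ) : ℂ) * t) *
        ((Real.exp (-(v + Real.log n) ^ 2 / 4) : ℝ) : ℂ)) := ⟨_, rfl⟩
    have hdd : DDa (d * Real.log (Q * (|τ₀| + 1))) (Finset.Icc 1 M) a v t =
        ((1 / (2 * Real.sqrt Real.pi) : ℝ) : ℂ) * (((d * Real.log (Q * (|τ₀| + 1)) : ℝ) : ℂ) *
          (cexp (I * (v : ℂ) * t) * ((Real.exp (-v ^ 2 / 4) : ℝ) : ℂ)) - S1 - S2) := by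
      rw [hS1, hS2]
      unfold DDa
      rfl
    rw [hdd]
    rw [← hP] at h1 h2
    rw [← hS1] at h2
    rw [← hS2] at h3
    have hk : ‖((1 / (2 * Real.sqrt Real.pi) : ℝ) : ℂ)‖ ≤ 1 := by
      rw [Complex.norm_real, Real.norm_of_nonneg (by positivity), div_le_one (by positivity)]
      have : 1 ≤ Real.sqrt Real.pi := Real.one_le_sqrt.mpr (by linarith [Real.pi_gt_three])
      linarith
    obtain ⟨k, hkd⟩ : ∃ k : ℂ, k = ((1 / (2 * Real.sqrt Real.pi) : ℝ) : ℂ) := ⟨_, rfl⟩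
    rw [← hkd] at h1 hk ⊢
    have e2 : AA hfin.toFinset (mult F) v t -
        k * (((d * Real.log (Q * (|τ₀| + 1)) : ℝ) : ℂ) *
          (cexp (I * (v : ℂ) * t) * ((Real.exp (-v ^ 2 / 4) : ℝ) : ℂ)) - S1 - S2) =
        (AA hfin.toFinset (mult F) v t -
        k * (((d * Real.log (Q * (|τ₀| + 1)) : ℝ) : ℂ) * cexp (I * t * v) *
          Real.exp (-v ^ 2 / 4) - P)) - k * (P - S1) + k * S2 := by
      have : I * (t : ℂ) * v = I * v * t := by ring
      rw [this]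
      ring
    rw [e2]
    refine (norm_add_le _ _).trans ((add_le_add (norm_sub_le _ _) le_rfl).trans ?_)
    rw [norm_mul, norm_mul]
    have h4 : ‖k‖ * ‖P - S1‖ ≤ 1 * (A * Real.exp (5 / 4 * R - ((l₂ - l₁) * R) ^ 2 / 8)) :=
      mul_le_mul hk h2 (norm_nonneg _) zero_le_one
    have h5 : ‖k‖ * ‖S2‖ ≤ 1 * (A * Real.exp 2 * Real.exp (-v / 4)) :=
      mul_le_mul hk h3 (norm_nonneg _) zero_le_one
    have h6 : Real.exp (-v / 2) ≤ Real.exp (-v / 4) := Real.exp_le_exp.mpr (by linarith)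
    have h7 : Real.log (Q * (T + R)) ^ 2 * Real.exp (5 / 4 * v - R ^ 2 / 2) ≤
        (3 * R) ^ 2 * Real.exp (5 / 4 * R - R ^ 2 / 2) := by
      have hl0 : 0 ≤ Real.log (Q * (T + R)) := Real.log_nonneg (by nlinarith)
      have : 5 / 4 * v - R ^ 2 / 2 ≤ 5 / 4 * R - R ^ 2 / 2 := by linarith
      gcongr
    have h8 := mul_le_mul_of_nonneg_left (add_le_add h6 (h7.trans s2)) hC.le
    have p1 : 0 ≤ A * Real.exp 2 := by positivity
    have p2 := Real.exp_pos (-v / 4)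
    have p3 : 0 < 1 / R := by positivity
    have e3 : (C + A * Real.exp 2 + 1) * (Real.exp (-v / 4) + 1 / R) =
        C * (Real.exp (-v / 4) + 1 / R) + A * Real.exp 2 * Real.exp (-v / 4) +
          A * Real.exp 2 * (1 / R) + Real.exp (-v / 4) + 1 / R := by ring
    rw [e3]
    have p4 : 0 ≤ A * Real.exp 2 * (1 / R) := by positivity
    linarith
  intro v t τ₀ hv ht htτ
  rcases le_total 0 v with h | h
  · rw [abs_of_nonneg h] at hv ⊢
    exact key v t τ₀ h hv ht htτ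
  · rw [abs_of_nonpos h] at hv ⊢
    have h1 := key (-v) t τ₀ (by linarith) hv ht htτ
    rw [AA_neg (fun z hz => (hsym z hz).2), DDa_neg, ← map_sub, RCLike.norm_conj] at h1
    exact h1

end Pool.Agent.T9h27.Z
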