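import Pool.Agent.T9h27.Z.Core
import Pool.Agent.T9h27.Z.EFX
import Pool.Agent.T9h27.Z.Hyp

/-!
# Assembling: families with a large sieve and a density theorem (helper27)
-/

set_option autoImplicit false

open MeasureTheory Complex Filter Topology Set
open scoped ComplexConjugate

namespace Pool.Agent.T9h27.Z

open H385 (Rw zz)
open H370 (mult zset NN Ns Nd)
open Pool.Agent.T9h27.D (farZ Nfar)
open Pool.Agent.T9h27.C (zd nd)

section

variable {F : ℂ → ℂ} {Z : Finset ℂ} {T1 T2 : ℝ}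

lemma zset_filter (hZ : ∀ z, (z ∈ Z ∧ T1 < z.im ∧ z.im ≤ T2) ↔ z ∈ zset F T1 T2) :
    zset F T1 T2 = ((Z.filter (fun z => T1 < z.im ∧ z.im ≤ T2) : Finset ℂ) : Set ℂ) := by
  ext z
  rw [Finset.mem_coe, Finset.mem_filter]
  exact (hZ z).symm

lemma NN_filter (hZ : ∀ z, (z ∈ Z ∧ T1 < z.im ∧ z.im ≤ T2) ↔ z ∈ zset F T1 T2) :
    (NN F T1 T2 : ℝ) = ∑ z ∈ Z.filter (fun z => T1 < z.im ∧ z.im ≤ T2), (mult F z : ℝ) := by
  unfold NN
  rw [zset_filter hZ, finsum_mem_coe_finset]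
  push_cast
  rfl

lemma Nd_filter (hZ : ∀ z, (z ∈ Z ∧ T1 < z.im ∧ z.im ≤ T2) ↔ z ∈ zset F T1 T2) :
    3 * (NN F T1 T2 : ℝ) - 2 * (Nd F T1 T2 : ℝ) =
      ∑ z ∈ Z.filter (fun z => T1 < z.im ∧ z.im ≤ T2), (3 * (mult F z : ℝ) - 2) := by
  rw [NN_filter hZ, Finset.sum_sub_distrib, ← Finset.mul_sum, Finset.sum_const, nsmul_eq_mul]
  unfold Nd
  rw [zset_filter hZ, Set.ncard_coe_finset]
  ring

open Classical in
lemma Ns_filter (hZ : ∀ z, (z ∈ Z ∧ T1 < z.im ∧ z.im ≤ T2) ↔ z ∈ zset F T1 T2) :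
    2 * (NN F T1 T2 : ℝ) - (Ns F T1 T2 : ℝ) =
      ∑ z ∈ Z.filter (fun z => T1 < z.im ∧ z.im ≤ T2), (2 * (mult F z : ℝ) -
        if (z.re = 1 / 2 ∧ mult F z = 1) then 1 else 0) := by
  rw [NN_filter hZ, Finset.sum_sub_distrib, ← Finset.mul_sum]
  congr 1
  unfold Ns
  have : {s : ℂ | s ∈ zset F T1 T2 ∧ s.re = 1 / 2 ∧ mult F s = 1} =
      (((Z.filter (fun z => T1 < z.im ∧ z.im ≤ T2)).filter
        (fun s => s.re = 1 / 2 ∧ mult F s = 1) : Finset ℂ) : Set ℂ) := by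
    ext s
    rw [Finset.mem_coe, Finset.mem_filter, Finset.mem_filter, Set.mem_ofPred_eq, ← hZ s]
  rw [this, Set.ncard_coe_finset, Finset.card_filter]
  push_cast
  rfl

end

lemma w1_ok {F : ℂ → ℂ} {s : ℂ} (hs : 1 ≤ mult F s) [Decidable (s.re = 1 / 2 ∧ mult F s = 1)] :
    (2 * (mult F s : ℝ) - if (s.re = 1 / 2 ∧ mult F s = 1) then 1 else 0) ≤
      4 * (mult F s : ℝ) - H385.PerChi.kk F s ∧
    (2 * (mult F s : ℝ) - if (s.re = 1 / 2 ∧ mult F s = 1) then 1 else 0) ≤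
      3 * (mult F s : ℝ) := by
  have hs' : (1 : ℝ) ≤ (mult F s : ℝ) := by exact_mod_cast hs
  constructor
  · unfold H385.PerChi.kk
    by_cases h2 : s.re = 1 / 2
    · by_cases h3 : mult F s = 1
      · simp only [if_pos h2, if_pos h3, if_pos (And.intro h2 h3)]; linarith
      · have h4 : 2 ≤ mult F s := by omega
        have h5 : (2 : ℝ) ≤ (mult F s : ℝ) := by exact_mod_cast h4
        have h6 : ¬ (s.re = 1 / 2 ∧ mult F s = 1) := fun h => h3 h.2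
        simp only [if_pos h2, if_neg h3, if_neg h6]; linarith
    · have h6 : ¬ (s.re = 1 / 2 ∧ mult F s = 1) := fun h => h2 h.1
      simp only [if_neg h2, if_neg h6]; linarith
  · by_cases h6 : (s.re = 1 / 2 ∧ mult F s = 1)
    · simp only [if_pos h6]; linarith
    · simp only [if_neg h6]; linarith

lemma w2_ok {F : ℂ → ℂ} {s : ℂ} (hs : 1 ≤ mult F s) :
    (3 * (mult F s : ℝ) - 2) ≤ 4 * (mult F s : ℝ) - H385.PerChi.kk F s ∧
    (3 * (mult F s : ℝ) - 2) ≤ 3 * (mult F s : ℝ) := by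
  have hs' : (1 : ℝ) ≤ (mult F s : ℝ) := by exact_mod_cast hs
  constructor
  · unfold H385.PerChi.kk
    by_cases h2 : s.re = 1 / 2
    · by_cases h3 : mult F s = 1
      · have h7 : (mult F s : ℝ) = 1 := by rw [h3]; norm_num
        simp only [if_pos h2, if_pos h3]; linarith
      · have h4 : 2 ≤ mult F s := by omega
        have h5 : (2 : ℝ) ≤ (mult F s : ℝ) := by exact_mod_cast h4
        simp only [if_pos h2, if_neg h3]; linarith
    · simp only [if_neg h2]; linarith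
  · linarith

/-- growth comparison -/
lemma grow {θ : ℝ} (hθ : 0 < θ) (c : ℝ) : ∃ X0 : ℝ, 1 ≤ X0 ∧ ∀ X : ℝ, X0 ≤ X →
    c ≤ Real.log X ∧ 3 * X ^ (θ / 2) + Real.log X + 3 ≤ X ^ θ := by
  have h1 : Tendsto (fun X : ℝ => X ^ (θ / 2)) atTop atTop :=
    tendsto_rpow_atTop (by positivity)
  have h2 : ∀ᶠ X : ℝ in atTop, Real.log X ≤ X ^ (θ / 2) := by
    have h5 := (isLittleO_log_rpow_atTop (by positivity : 0 < θ / 2)).bound
      (by norm_num : (0 : ℝ) < 1)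
    filter_upwards [h5, eventually_ge_atTop 1] with X hX h
    rw [one_mul, Real.norm_eq_abs, Real.norm_eq_abs, abs_of_nonneg (Real.log_nonneg h),
      abs_of_nonneg (Real.rpow_nonneg (by linarith) _)] at hX
    exact hX
  have h3 := h1.eventually_ge_atTop 7
  have h4 := Real.tendsto_log_atTop.eventually_ge_atTop c
  obtain ⟨X0, hX0⟩ := eventually_atTop.mp (h2.and (h3.and (h4.and (eventually_ge_atTop 1))))
  refine ⟨max X0 1, le_max_right _ _, fun X hX => ?_⟩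
  obtain ⟨k1, k2, k3, k4⟩ := hX0 X ((le_max_left _ _).trans hX)
  refine ⟨k3, ?_⟩
  have e1 : X ^ θ = X ^ (θ / 2) * X ^ (θ / 2) := by
    rw [← Real.rpow_add (by linarith)]
    congr 1
    ring
  rw [e1]
  nlinarith

/-- the data of a family over a set `J` of moduli -/
structure FD {J : Type} {ι : J → Type} (S : (j : J) → Finset (ι j)) (F : (j : J) → ι j → ℂ → ℂ)
    (a : (j : J) → ι j → ℕ → ℂ) (Q : (j : J) → ι j → ℝ) (X : J → ℝ) (q : J → ℕ) (c : ℕ → ℂ)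
    (d A l₂ D θ : ℝ) : Prop where
  hd : 1 ≤ d
  hA : 1 ≤ A
  hX : ∀ j, 1 ≤ X j
  hG : ∀ j, ∀ i ∈ S j, 1 ≤ Q j i ∧ d * Real.log (Q j i) ≤ Real.log (X j) ∧
    GoodW d A (Q j i) (F j i) (a j i)
  hav : ∀ δ : ℝ, 0 < δ → ∃ X0 : ℝ, ∀ j, X0 ≤ X j →
    (1 - δ) * Real.log (X j) * (S j).card ≤ ∑ i ∈ S j, d * Real.log (Q j i)
  hls : ∃ X0 : ℝ, ∀ j, X0 ≤ X j → ∀ M : ℕ, (M : ℝ) ≤ (X j) ^ l₂ → LSh (S j) (a j) c M (q j) D
  hnc : ∀ ν : ℝ, 0 < ν → ∃ X0 : ℝ, ∀ j, X0 ≤ X j → ∀ i ∈ S j, ∀ M : ℕ,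
    NCs M (q j) (a j i) ≤ ν * Real.log (X j)
  hθ : 0 < θ
  hθ1 : θ ≤ 1
  hfar : ∃ (k0 : ℕ) (Q' X0 : ℝ), 0 ≤ Q' ∧ ∀ j, X0 ≤ X j → ∀ t : ℝ, |t| ≤ (X j) ^ θ →
    ∀ k : ℕ, k0 ≤ k →
      (∀ i ∈ S j, (farZ (F j i) (k / Real.log (X j)) t (t + 1 / Real.log (X j))).Finite) ∧
      ∑ i ∈ S j, (Nfar (F j i) (k / Real.log (X j)) t (t + 1 / Real.log (X j)) : ℝ) ≤
        Q' * ((S j).card * Real.exp (-(9 / 10 * k)))
  hnear : ∃ b C X0 : ℝ, 0 < b ∧ 0 ≤ C ∧ ∀ j, X0 ≤ X j → ∀ t : ℝ, |t| ≤ (X j) ^ θ →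
    ∀ r : ℝ, 0 ≤ r → r ≤ 1 / 4 → (∀ i ∈ S j, (zd (F j i) t r).Finite) ∧
      ∑ i ∈ S j, Real.exp (b * (nd (F j i) t r : ℝ)) ≤
        (S j).card * C * Real.exp (C * (r * Real.log (X j)))

section

variable {J : Type} {ι : J → Type} {S : (j : J) → Finset (ι j)} {F : (j : J) → ι j → ℂ → ℂ}
  {a : (j : J) → ι j → ℕ → ℂ} {Q : (j : J) → ι j → ℝ} {X : J → ℝ} {q : J → ℕ} {c : ℕ → ℂ}
  {d A l₂ D θ : ℝ}

open Classical in
/-- windows of bounded length -/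
theorem small_win (hc : W388.SelE c) (h : FD S F a Q X q c d A l₂ D θ) {l : ℝ} (hl : 1 / 2 ≤ l)
    (hl2 : l < l₂) (hl21 : l₂ ≤ 1) (hD : 0 ≤ D) {γ : ℝ} (h0 : 0 < γ) (hπ : γ < Real.pi) {ε : ℝ}
    (hε : 0 < ε) : ∃ H1 η X0 : ℝ, 1 ≤ H1 ∧ 0 < η ∧ 1 ≤ X0 ∧ ∀ j, X0 ≤ X j →
    1 ≤ Real.log (X j) ∧
    ∃ Z : ι j → Finset ℂ, (∀ i ∈ S j, ∀ z, (z ∈ Z i → z ∈ zset (F j i) (-(X j) ^ θ) ((X j) ^ θ)) ∧
      (z ∈ zset (F j i) (-(3 * (X j) ^ η)) (3 * (X j) ^ η) → z ∈ Z i)) ∧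
    ∀ T1 T2 : ℝ, |T1| ≤ 3 * (X j) ^ η → |T2| ≤ 3 * (X j) ^ η →
      H1 ≤ (T2 - T1) * Real.log (X j) → (T2 - T1) * Real.log (X j) ≤ 2 * H1 →
      ∀ w : ι j → ℂ → ℝ, (∀ i ∈ S j, ∀ z ∈ Z i,
        w i z ≤ 4 * (mult (F j i) z : ℝ) - H385.PerChi.kk (F j i) z ∧
          w i z ≤ 3 * (mult (F j i) z : ℝ)) →
      ∑ i ∈ S j, ∑ z ∈ (Z i).filter (fun z => T1 < z.im ∧ z.im ≤ T2), w i z ≤
          (Rw γ 0 / l + 2 * l * D * (∫ α in (0 : ℝ)..1, α * Rw γ α) + ε) *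
            ∑ i ∈ S j, ∑ z ∈ (Z i).filter (fun z => T1 < z.im ∧ z.im ≤ T2),
              (mult (F j i) z : ℝ) ∧
      ∑ i ∈ S j, |∑ z ∈ (Z i).filter (fun z => T1 < z.im ∧ z.im ≤ T2), (mult (F j i) z : ℝ) -
          (T2 - T1) * Real.log (X j) / (2 * Real.pi)| ≤
        2 * ε * ((T2 - T1) * Real.log (X j) / (2 * Real.pi)) * (S j).card := by
  obtain ⟨hd, hA, hX, hG, hav, hls, hnc, hθ, hθ1, hfar, hnear⟩ := h
  obtain ⟨k0, Q', X1, hQ', hfar⟩ := hfar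
  obtain ⟨b, C, X2, hb, hC, hnear⟩ := hnear
  obtain ⟨X3, hls⟩ := hls
  have hinv : 0 < (1 - Real.exp (-(1 / 2) : ℝ))⁻¹ := by
    have h0 : Real.exp (-(1 / 2) : ℝ) < 1 := by rw [Real.exp_lt_one_iff]; norm_num
    exact inv_pos.mpr (by linarith)
  obtain ⟨B, hB⟩ : ∃ B : ℝ, B = Real.exp (2 / 5 * k0) * (C * Real.exp (C * (k0 + 1)) / b) +
        Q' * (Real.exp (2 / 5) * (1 - Real.exp (-(1 / 2)))⁻¹) := ⟨_, rfl⟩
  have hB0 : 0 ≤ B := by rw [hB]; positivity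
  obtain ⟨l₁, hl₁⟩ : ∃ l₁ : ℝ, l₁ = (l + l₂) / 2 := ⟨_, rfl⟩
  obtain ⟨E0, R0, hE0, hR0, hefx⟩ := efx d A hd hA (l₁ := l₁) (l₂ := l₂) (by linarith) hl21
  obtain ⟨ηc, ρ, H1, hηc, hρ, hH1, hcore⟩ := core c hc h0 hπ (l := l) (l₁ := l₁) (D := D)
    (A := B) (g := 2 / 5) (E0 := E0) (ε := ε) (by linarith) (by linarith) (by linarith) hD hB0
    (by norm_num) (by linarith) hE0.le
    (fun ρ => 2 / b ^ 2 * (C * Real.exp (C * (ρ + 1)))) hε
  obtain ⟨R1, ν, hR1, hν, hcore⟩ := hcore (2 * H1) (by linarith)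
  obtain ⟨X4, hav⟩ := hav ηc hηc
  obtain ⟨X5, hnc⟩ := hnc ν hν
  obtain ⟨η, hη⟩ : ∃ η : ℝ, η = min (θ / 2) (ηc / (2 * d)) := ⟨_, rfl⟩
  have hη0 : 0 < η := by rw [hη]; exact lt_min (by positivity) (by positivity)
  have hηθ : η ≤ θ / 2 := by rw [hη]; exact min_le_left _ _
  have hηc2 : 2 * d * η ≤ ηc := by
    have h1 : η ≤ ηc / (2 * d) := by rw [hη]; exact min_le_right _ _
    rw [le_div_iff₀ (by positivity)] at h1
    linarith
  -- how large the conductor must be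
  obtain ⟨X6, hX61, hX6⟩ := grow hθ (R0 + R1 + 4 * (k0 + 1) + 4 * (ρ + 1) + 2 * H1 + 4 +
    2 * d * Real.log 4 / ηc + Real.log 4 / η)
  refine ⟨H1, η, max X6 (max (max X1 X2) (max X3 (max X4 X5))), hH1, hη0,
    le_max_of_le_left hX61, fun j hj => ?_⟩
  have k6 : X6 ≤ X j := (le_max_left _ _).trans hj
  have kr : max (max X1 X2) (max X3 (max X4 X5)) ≤ X j := (le_max_right _ _).trans hj
  have k1 : X1 ≤ X j := ((le_max_left _ _).trans (le_max_left _ _)).trans kr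
  have k2 : X2 ≤ X j := ((le_max_right _ _).trans (le_max_left _ _)).trans kr
  have k3 : X3 ≤ X j := ((le_max_left _ _).trans (le_max_right _ _)).trans kr
  have k4 : X4 ≤ X j :=
    (((le_max_left _ _).trans (le_max_right _ _)).trans (le_max_right _ _)).trans kr
  have k5 : X5 ≤ X j :=
    (((le_max_right _ _).trans (le_max_right _ _)).trans (le_max_right _ _)).trans kr
  obtain ⟨hlog, hgrow⟩ := hX6 _ k6
  have hfar' := hfar j k1
  have hnear' := hnear j k2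
  have hls' := hls j k3
  have hav' := hav j k4
  have hnc' := hnc j k5
  obtain ⟨x, hx⟩ : ∃ x : ℝ, x = X j := ⟨_, rfl⟩
  obtain ⟨R, hR⟩ : ∃ R : ℝ, R = Real.log (X j) := ⟨_, rfl⟩
  have hX1 := hX j
  have hG' := hG j
  rw [← hR] at hlog hgrow hfar' hnear' hav' hnc' hG' ⊢
  have hRx : R = Real.log x := by rw [hR, hx]
  rw [← hx] at hgrow hls' hX1 ⊢
  have hx0 : 0 < x := by linarith
  have e1 : 0 ≤ 2 * d * Real.log 4 / ηc := by
    have : 0 ≤ Real.log 4 := Real.log_nonneg (by norm_num)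
    positivity
  have e2 : 0 ≤ Real.log 4 / η := by
    have : 0 ≤ Real.log 4 := Real.log_nonneg (by norm_num)
    positivity
  have hk0 : (0 : ℝ) ≤ k0 := Nat.cast_nonneg _
  have r0 : R0 ≤ R := by linarith
  have r1 : R1 ≤ R := by linarith
  have r2 : 4 * ((k0 : ℝ) + 1) ≤ R := by linarith
  have r3 : 4 * (ρ + 1) ≤ R := by linarith
  have r4 : 2 * H1 ≤ R := by linarith
  have r5 : 4 ≤ R := by linarith
  have r6 : 2 * d * Real.log 4 / ηc ≤ R := by linarith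
  have r7 : Real.log 4 / η ≤ R := by linarith
  have hRp : 0 < R := by linarith
  rw [div_le_iff₀ (by positivity)] at r6 r7
  have hxη : x ^ η ≤ x ^ (θ / 2) := Real.rpow_le_rpow_of_exponent_le hX1 hηθ
  have hxη1 : 1 ≤ x ^ η := Real.one_le_rpow hX1 hη0.le
  have hxθ : x ^ θ ≤ x := by
    calc x ^ θ ≤ x ^ (1 : ℝ) := Real.rpow_le_rpow_of_exponent_le hX1 hθ1
      _ = x := Real.rpow_one x
  have hT : 3 * x ^ η + R + 3 ≤ x ^ θ := by linarith
  -- the length of the prime sum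
  obtain ⟨M, hM⟩ : ∃ M : ℕ, M = ⌊x ^ l₂⌋₊ := ⟨_, rfl⟩
  have hxl : 0 < x ^ l₂ := Real.rpow_pos_of_pos hx0 _
  have hM1 : (M : ℝ) ≤ x ^ l₂ := by rw [hM]; exact Nat.floor_le hxl.le
  have hM2 : l₂ * R ≤ Real.log (M + 1) := by
    have h1 : x ^ l₂ < M + 1 := by rw [hM]; exact Nat.lt_floor_add_one _
    have h2 := Real.log_le_log hxl h1.le
    rwa [Real.log_rpow hx0, ← hRx] at h2
  have hMl : ∀ n ∈ Finset.Icc 1 M, Real.log n ≤ R := by
    intro n hn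
    obtain ⟨n1, n2⟩ := Finset.mem_Icc.mp hn
    have h1 : (n : ℝ) ≤ x := by
      have h2 : (n : ℝ) ≤ M := by exact_mod_cast n2
      have h3 : x ^ l₂ ≤ x := by
        calc x ^ l₂ ≤ x ^ (1 : ℝ) := Real.rpow_le_rpow_of_exponent_le hX1 hl21
          _ = x := Real.rpow_one x
      linarith
    rw [hRx]
    exact Real.log_le_log (by exact_mod_cast n1) h1
  -- the zeros
  obtain ⟨T, hTd⟩ : ∃ T : ℝ, T = 3 * x ^ η := ⟨_, rfl⟩
  rw [← hTd] at hT ⊢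
  have hT0 : 0 ≤ T := by rw [hTd]; positivity
  have hQx : ∀ i ∈ S j, Q j i ≤ x := by
    intro i hi
    obtain ⟨g1, g2, -⟩ := hG' i hi
    have h1 : Real.log (Q j i) ≤ R := by
      have h3 := Real.log_nonneg g1
      have h4 := le_mul_of_one_le_left h3 hd
      linarith only [h4, g2]
    rw [hRx] at h1
    exact (Real.log_le_log_iff (by linarith) hx0).mp h1
  have hZex : ∀ i : ι j, ∃ Z : Finset ℂ, i ∈ S j →
      (∀ z, (z ∈ Z → z ∈ zset (F j i) (-x ^ θ) (x ^ θ) ∧ |z.im| ≤ x ^ θ - 1) ∧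
        (z ∈ zset (F j i) (-T) T → z ∈ Z)) ∧
      (∀ z ∈ Z, dl z ≤ 1 / 2 ∧ 1 - conj z ∈ Z ∧ mult (F j i) (1 - conj z) = mult (F j i) z) ∧
      ∀ v t τ₀ : ℝ, |v| ≤ l₁ * R → |t| ≤ T → |t - τ₀| ≤ 1 →
          ‖AA Z (mult (F j i)) v t - DDa (d * Real.log (Q j i * (|τ₀| + 1))) (Finset.Icc 1 M)
            (a j i) v t‖ ≤ E0 * (Real.exp (-|v| / 4) + 1 / R) := by
    intro i
    by_cases hi : i ∈ S j
    swap
    · exact ⟨∅, fun h => absurd h hi⟩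
    obtain ⟨g1, g2, g3⟩ := hG' i hi
    have hlogQ : Real.log (Q j i * (T + R)) ≤ 3 * R := by
      have h1 : Q j i * (T + R) ≤ x * x := by
        refine mul_le_mul (hQx i hi) ?_ (by positivity) hx0.le
        linarith
      have h2 := Real.log_le_log (mul_pos (by linarith) (by linarith)) h1
      rw [Real.log_mul hx0.ne' hx0.ne', ← hRx] at h2
      linarith
    obtain ⟨V1, V2, Z, v1, v2, v3, v4, z1, z2, z3⟩ := hefx (Q j i) (F j i) (a j i) g1 g3 T R M r0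
      hT0 hlogQ hM2
    refine ⟨Z, fun _ => ⟨fun z => ⟨fun hz => ?_, fun hz => ?_⟩, z2, z3⟩⟩
    · obtain ⟨y1, y2, y3, y4, y5⟩ := (z1 z).mp hz
      refine ⟨⟨y1, y2, by linarith, by linarith, y5⟩, ?_⟩
      rw [abs_le]
      constructor <;> linarith
    · obtain ⟨y1, y2, y3, y4, y5⟩ := hz
      exact (z1 z).mpr ⟨y1, y2, by linarith, by linarith, y5⟩
  choose Z hZ using hZex
  refine ⟨by linarith, Z, fun i hi z => ⟨fun hz => (((hZ i hi).1 z).1 hz).1,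
    ((hZ i hi).1 z).2⟩, ?_⟩
  intro T1 T2 hT1 hT2 hH1' hH2' w hw
  have hwin : T1 ≤ T2 := by
    by_contra hcon
    push Not at hcon
    have h1 := mul_neg_of_neg_of_pos (by linarith only [hcon] : T2 - T1 < 0) hRp
    linarith only [h1, hH1', hH1]
  have hwin1 : T2 - T1 ≤ 1 := by
    by_contra hcon
    push Not at hcon
    have h1 := (lt_mul_iff_one_lt_left hRp).mpr hcon
    linarith only [h1, hH2', r4]
  have hV1 := abs_le.mp hT1
  have hV2 := abs_le.mp hT2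
  have hZ0 : ∀ i ∈ S j, ∀ z ∈ Z i, 0 < z.re ∧ z.re < 1 ∧ |z.im| ≤ x ^ θ - 1 ∧ F j i z = 0 := by
    intro i hi z hz
    obtain ⟨⟨y1, y2, -, -, y5⟩, y6⟩ := ((hZ i hi).1 z).1 hz
    exact ⟨y1, y2, y6, y5⟩
  have hHC := hc_of (S := S j) (F := F j) (Z := Z) (R := R) (V := x ^ θ) (k0 := k0)
    (by linarith) hb hC hQ' (by rw [div_le_iff₀ hRp]; linarith)
    (fun t ht => hfar' t (by rw [← hx]; exact ht))
    (fun t ht => hnear' t (by rw [← hx]; exact ht)) hZ0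
  have hHM := hm_of (S := S j) (F := F j) (Z := Z) (R := R) (V := x ^ θ) (ρ := ρ)
    (by linarith) hb hC hρ.le (by rw [div_le_iff₀ hRp]; linarith)
    (fun t ht => hnear' t (by rw [← hx]; exact ht)) hZ0
  rw [← hB] at hHC
  have hlT : Real.log (|T1| + 1) ≤ η * R + Real.log 4 := by
    have h1 : |T1| + 1 ≤ 4 * x ^ η := by linarith
    have h2 := Real.log_le_log (by positivity : 0 < |T1| + 1) h1
    rw [Real.log_mul (by norm_num) (by positivity), Real.log_rpow hx0, ← hRx] at h2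
    linarith
  have hlT0 : 0 ≤ Real.log (|T1| + 1) := Real.log_nonneg (by linarith [abs_nonneg T1])
  have hlQ : ∀ i ∈ S j, d * Real.log (Q j i * (|T1| + 1)) =
      d * Real.log (Q j i) + d * Real.log (|T1| + 1) := by
    intro i hi
    obtain ⟨g1, g2, g3⟩ := hG' i hi
    rw [Real.log_mul (by linarith) (by positivity)]
    ring
  have hdat : Dat (S j) (F j) Z (fun i => d * Real.log (Q j i * (|T1| + 1))) (a j) c M (q j) R l₁
      (2 / 5) D B E0 ηc ν T1 T2 := by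
    refine ⟨fun i hi z hz => (hZ i hi).2.1 z hz, fun i hi => ?_, ?_, hls' M hM1, hMl,
      fun i hi => hnc' i hi M, hHC, fun i hi v τ hv hτ => ?_⟩
    · obtain ⟨g1, g2, g3⟩ := hG' i hi
      have h3 := Real.log_nonneg g1
      rw [hlQ i hi]
      refine ⟨by positivity, ?_⟩
      have h4 : d * Real.log (|T1| + 1) ≤ ηc * R := by
        have h5 : d * Real.log (|T1| + 1) ≤ d * (η * R + Real.log 4) :=
          mul_le_mul_of_nonneg_left hlT (by linarith)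
        have h6 : d * (η * R + Real.log 4) = (2 * d * η) * R / 2 + (2 * d * Real.log 4) / 2 := by
          ring
        have h7 := mul_le_mul_of_nonneg_right hηc2 hRp.le
        linarith
      linarith
    · refine hav'.trans (Finset.sum_le_sum fun i hi => ?_)
      rw [hlQ i hi]
      have : 0 ≤ d * Real.log (|T1| + 1) := by positivity
      linarith
    · refine (hZ i hi).2.2 v τ T1 hv ?_ ?_
      · rw [abs_le]
        exact ⟨by linarith [hτ.1], by linarith [hτ.2]⟩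
      · rw [abs_of_nonneg (by linarith [hτ.1])]
        linarith [hτ.2]
  exact hcore (S j) (F j) Z _ (a j) M (q j) R T1 T2 w r1 hH1' hH2' hdat hHM hw

end

end Pool.Agent.T9h27.Z
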