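import Mathlib

/-!
# Choice of the parameters (helper27)
-/

set_option autoImplicit false

open Filter Topology Set

namespace Pool.Agent.T9h27.Z

/-- choice of the small parameters -/
lemma par1 {R0 l l₁ D I K Cg ε g : ℝ} (hR0 : 0 ≤ R0) (hl : 0 < l) (hl1 : l < l₁) (hD : 0 ≤ D)
    (hI : 0 ≤ I) (hg : 0 < g) (hε : 0 < ε) :
    ∃ x y : ℝ, 0 < x ∧ x ≤ 1 ∧ 0 < y ∧ y ≤ l ∧ 8 * y ≤ g ∧ l + 8 * y ≤ l₁ ∧
      (1 + x) * ((1 + x) ^ 2 * (1 + x) ^ 2 * R0 / l +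
        (1 + x) ^ 2 * (2 * D / l) * (l ^ 2 * (I + x) + (9 * K * y / l + R0 * y ^ 2) * Cg) +
        (1 + x) * (1 + 1 / x) * (2 / l) * R0 * D * (101 * Cg * y ^ 2) +
        (1 + 1 / x) * (4 / l) * R0 * D * (101 * Cg * y ^ 2)) ≤
        R0 / l + 2 * l * D * I + ε / 4 ∧
      R0 / l + 2 * l * D * I + 3 * ε / 4 ≤
        (R0 / l + 2 * l * D * I + ε) * (1 - x - 2 * (y + D * (101 * Cg * y ^ 2) / y)) ∧
      1 - ε / 2 ≤ 1 - x - 2 * (y + D * (101 * Cg * y ^ 2) / y) := by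
  obtain ⟨T, hT⟩ : ∃ T : ℝ, T = R0 / l + 2 * l * D * I := ⟨_, rfl⟩
  have hT0 : 0 ≤ T := by rw [hT]; positivity
  rw [← hT]
  -- the choice of x
  have e1 : ∀ᶠ x in 𝓝[>] (0 : ℝ), (1 + x) * ((1 + x) ^ 2 * (1 + x) ^ 2 * R0 / l +
        (1 + x) ^ 2 * (2 * D / l) * (l ^ 2 * (I + x))) < T + ε / 8 := by
    have hc : Continuous fun x : ℝ => (1 + x) * ((1 + x) ^ 2 * (1 + x) ^ 2 * R0 / l +
        (1 + x) ^ 2 * (2 * D / l) * (l ^ 2 * (I + x))) := by fun_prop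
    have h1 := (hc.tendsto 0).mono_left (nhdsWithin_le_nhds (s := Ioi 0))
    refine h1.eventually_lt_const ?_
    have : (1 + (0 : ℝ)) * ((1 + 0) ^ 2 * (1 + 0) ^ 2 * R0 / l +
        (1 + 0) ^ 2 * (2 * D / l) * (l ^ 2 * (I + 0))) = T := by
      rw [hT]
      field_simp
      ring
    rw [this]
    linarith
  have e2 : ∀ᶠ x in 𝓝[>] (0 : ℝ), (T + ε) * (2 * x) < ε / 4 := by
    have hc : Continuous fun x : ℝ => (T + ε) * (2 * x) := by fun_prop
    have h1 := (hc.tendsto 0).mono_left (nhdsWithin_le_nhds (s := Ioi 0))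
    refine h1.eventually_lt_const ?_
    norm_num
    linarith
  have e3 : ∀ᶠ x in 𝓝[>] (0 : ℝ), x < 1 :=
    (continuous_id.tendsto (0 : ℝ)).mono_left (nhdsWithin_le_nhds (s := Ioi 0))
      |>.eventually_lt_const (by norm_num)
  have e3' : ∀ᶠ x in 𝓝[>] (0 : ℝ), x < ε / 4 :=
    (continuous_id.tendsto (0 : ℝ)).mono_left (nhdsWithin_le_nhds (s := Ioi 0))
      |>.eventually_lt_const (by positivity)
  obtain ⟨x, hx1, hx2, hx3, hx4, hx0⟩ :=
    (e1.and (e2.and (e3.and (e3'.and self_mem_nhdsWithin)))).exists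
  have hx0' : 0 < x := hx0
  -- the choice of y
  have e4 : ∀ᶠ y in 𝓝[>] (0 : ℝ), (1 + x) * ((1 + x) ^ 2 * (2 * D / l) *
        ((9 * K * y / l + R0 * y ^ 2) * Cg) +
        (1 + x) * (1 + 1 / x) * (2 / l) * R0 * D * (101 * Cg * y ^ 2) +
        (1 + 1 / x) * (4 / l) * R0 * D * (101 * Cg * y ^ 2)) < ε / 8 := by
    have hc : Continuous fun y : ℝ => (1 + x) * ((1 + x) ^ 2 * (2 * D / l) *
        ((9 * K * y / l + R0 * y ^ 2) * Cg) +
        (1 + x) * (1 + 1 / x) * (2 / l) * R0 * D * (101 * Cg * y ^ 2) +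
        (1 + 1 / x) * (4 / l) * R0 * D * (101 * Cg * y ^ 2)) := by fun_prop
    have h1 := (hc.tendsto 0).mono_left (nhdsWithin_le_nhds (s := Ioi 0))
    refine h1.eventually_lt_const ?_
    norm_num
    linarith
  have e5 : ∀ᶠ y in 𝓝[>] (0 : ℝ), 2 * (y + D * (101 * Cg * y)) < x := by
    have hc : Continuous fun y : ℝ => 2 * (y + D * (101 * Cg * y)) := by fun_prop
    have h1 := (hc.tendsto 0).mono_left (nhdsWithin_le_nhds (s := Ioi 0))
    refine h1.eventually_lt_const ?_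
    norm_num
    linarith
  have e6 : ∀ a : ℝ, 0 < a → ∀ᶠ y in 𝓝[>] (0 : ℝ), 8 * y < a := by
    intro a ha
    have hc : Continuous fun y : ℝ => 8 * y := by fun_prop
    have h1 := (hc.tendsto 0).mono_left (nhdsWithin_le_nhds (s := Ioi 0))
    refine h1.eventually_lt_const ?_
    norm_num
    linarith
  obtain ⟨y, hy1, hy2, hy3, hy4, hy5, hy0⟩ :=
    (e4.and (e5.and ((e6 l hl).and ((e6 g hg).and ((e6 (l₁ - l) (by linarith)).and
      self_mem_nhdsWithin))))).exists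
  have hy0' : 0 < y := hy0
  refine ⟨x, y, hx0, hx3.le, hy0, by linarith, hy4.le, by linarith, ?_, ?_, ?_⟩
  · have h1 : (1 + x) * ((1 + x) ^ 2 * (1 + x) ^ 2 * R0 / l +
        (1 + x) ^ 2 * (2 * D / l) * (l ^ 2 * (I + x) + (9 * K * y / l + R0 * y ^ 2) * Cg) +
        (1 + x) * (1 + 1 / x) * (2 / l) * R0 * D * (101 * Cg * y ^ 2) +
        (1 + 1 / x) * (4 / l) * R0 * D * (101 * Cg * y ^ 2)) =
        (1 + x) * ((1 + x) ^ 2 * (1 + x) ^ 2 * R0 / l +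
        (1 + x) ^ 2 * (2 * D / l) * (l ^ 2 * (I + x))) +
        (1 + x) * ((1 + x) ^ 2 * (2 * D / l) *
        ((9 * K * y / l + R0 * y ^ 2) * Cg) +
        (1 + x) * (1 + 1 / x) * (2 / l) * R0 * D * (101 * Cg * y ^ 2) +
        (1 + 1 / x) * (4 / l) * R0 * D * (101 * Cg * y ^ 2)) := by ring
    rw [h1]
    linarith
  · have h1 : D * (101 * Cg * y ^ 2) / y = D * (101 * Cg * y) := by
      field_simp
    rw [h1]
    have h2 : (T + ε) * (1 - 2 * x) ≤ (T + ε) * (1 - x - 2 * (y + D * (101 * Cg * y))) :=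
      mul_le_mul_of_nonneg_left (by linarith) (by linarith)
    have h3 : (T + ε) * (1 - 2 * x) = T + ε - (T + ε) * (2 * x) := by ring
    linarith
  · have h1 : D * (101 * Cg * y ^ 2) / y = D * (101 * Cg * y) := by
      field_simp
    rw [h1]
    linarith

/-- choice of the large parameters -/
lemma par2 {A g ε : ℝ} (hg : 0 < g) (hε : 0 < ε) :
    ∃ ρ : ℝ, 0 < ρ ∧ A * Real.exp (-(g * ρ)) ≤ ε / 600 := by
  have h1 : Tendsto (fun ρ : ℝ => A * Real.exp (-(g * ρ))) atTop (𝓝 (A * 0)) := by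
    refine Tendsto.const_mul _ (Real.tendsto_exp_atBot.comp ?_)
    exact tendsto_neg_atTop_atBot.comp (tendsto_id.const_mul_atTop hg)
  rw [mul_zero] at h1
  obtain ⟨ρ, h2, h3⟩ := ((h1.eventually_lt_const (by positivity : (0 : ℝ) < ε / 600)).and
    (eventually_gt_atTop 0)).exists
  exact ⟨ρ, h3, h2.le⟩

lemma par3 {B ε : ℝ} (hε : 0 < ε) :
    ∃ M₀ : ℝ, 1 ≤ M₀ ∧ B * M₀ ^ (-(1 / 3) : ℝ) ≤ ε / 600 := by
  have h1 : Tendsto (fun M : ℝ => B * M ^ (-(1 / 3) : ℝ)) atTop (𝓝 (B * 0)) :=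
    Tendsto.const_mul _ (tendsto_rpow_neg_atTop (by norm_num))
  rw [mul_zero] at h1
  obtain ⟨ρ, h2, h3⟩ := ((h1.eventually_lt_const (by positivity : (0 : ℝ) < ε / 600)).and
    (eventually_ge_atTop 1)).exists
  exact ⟨ρ, h3, h2.le⟩

/-- the small factor -/
lemma xi_small {y : ℝ} (hy : 0 < y) : ∃ R0 : ℝ, ∀ R : ℝ, R0 ≤ R →
    (800 * (y * R) * Real.exp (-(y * R) ^ 2 / 4)) ^ 2 ≤ y ^ 2 := by
  have h1 : Tendsto (fun b : ℝ => b * Real.exp (-b ^ 2 / 4)) atTop (𝓝 0) := by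
    have h2 := Real.tendsto_pow_mul_exp_neg_atTop_nhds_zero 1
    refine squeeze_zero' (by filter_upwards [eventually_ge_atTop 0] with b hb; positivity) ?_ h2
    filter_upwards [eventually_ge_atTop 4] with b hb
    rw [pow_one]
    refine mul_le_mul_of_nonneg_left (Real.exp_le_exp.mpr ?_) (by linarith)
    nlinarith
  have h2 := (h1.comp (tendsto_id.const_mul_atTop hy)).const_mul 800
  rw [mul_zero] at h2
  have h3 := (h2.eventually_lt_const hy).and (eventually_ge_atTop 0)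
  obtain ⟨R0, h4⟩ := eventually_atTop.mp h3
  refine ⟨R0, fun R hR => ?_⟩
  obtain ⟨h5, h6⟩ := h4 R hR
  simp only [Function.comp, id] at h5
  refine pow_le_pow_left₀ (by positivity) ?_ 2
  rw [mul_assoc]
  exact h5.le

end Pool.Agent.T9h27.Z
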