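import Pool.Agent.T9h27.Z.Dev
import Pool.Agent.T9h27.Z.Par

/-!
# The core theorem for microscopic windows (helper27)
-/

set_option autoImplicit false

open MeasureTheory Complex Filter Topology Set
open scoped ComplexConjugate
open H385 (Rw zz)
open H370 (mult)

namespace Pool.Agent.T9h27.Z

/-- the data for one conductor -/
structure Dat {ι : Type} (s : Finset ι) (F : ι → ℂ → ℂ) (Z : ι → Finset ℂ) (Lc : ι → ℝ)
    (a : ι → ℕ → ℂ) (c : ℕ → ℂ) (M q : ℕ) (R l₁ g D A E0 η ν T1 T2 : ℝ) : Prop where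
  zer : ∀ i ∈ s, ∀ z ∈ Z i, dl z ≤ 1 / 2 ∧ 1 - conj z ∈ Z i ∧
      mult (F i) (1 - conj z) = mult (F i) z
  len : ∀ i ∈ s, 0 ≤ Lc i ∧ Lc i ≤ (1 + η) * R
  ave : (1 - η) * R * s.card ≤ ∑ i ∈ s, Lc i
  ls : LSh s a c M q D
  top : ∀ n ∈ Finset.Icc 1 M, Real.log n ≤ R
  ncs : ∀ i ∈ s, NCs M q (a i) ≤ ν * R
  den : HC s Z (fun i => mult (F i)) R g A
  exf : ∀ i ∈ s, ∀ v τ : ℝ, |v| ≤ l₁ * R → τ ∈ Icc T1 T2 →
      ‖AA (Z i) (mult (F i)) v τ - DDa (Lc i) (Finset.Icc 1 M) (a i) v τ‖ ≤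
        E0 * (Real.exp (-|v| / 4) + 1 / R)

section

variable {ι : Type} {s : Finset ι} {a : ι → ℕ → ℂ} {c : ℕ → ℂ} {M q : ℕ} {D : ℝ}

/-- the four mean squares -/
lemma all_ms {R y l x γ K Cg I : ℝ} (hR : 0 < R) (hy : 0 < y) (hb : 1 ≤ y * R) (hl : 0 < l)
    (h0 : 0 < γ) (hπ : γ < Real.pi) (hK0 : 0 < K)
    (hK : ∀ x y, |Rw γ x - Rw γ y| ≤ K * |x - y|)
    (hcr : ∀ x : ℝ, 1 ≤ x → ∀ S : Finset ℕ, (∀ n ∈ S, Real.log n ≤ x) →
      ∑ n ∈ S, gg c n ≤ Cg * x ^ 2)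
    (hmain : ∑ n ∈ Finset.Icc 1 M, gg c n * Rw γ (Real.log n / (l * R)) ≤
      (l * R) ^ 2 * (I + x)) (hxi : xi (y * R) ≤ y ^ 2)
    (hM : ∀ n ∈ Finset.Icc 1 M, Real.log n ≤ R) (hR1 : 1 ≤ R)
    (hLS : LSh s a c M q D) (hD : 0 ≤ D) {T1 T2 : ℝ} (hT : T1 ≤ T2) :
    (∫ u in (0 : ℝ)..(l * R), Rw γ (u / (l * R)) *
      ∑ i ∈ s, ‖Pc (y * R) T1 T2 M q (a i) u‖ ^ 2 ≤
        D * s.card * (2 * Real.pi * (T2 - T1)) *
          ((l ^ 2 * (I + x) + (9 * K * y / l + Rw γ 0 * y ^ 2) * Cg) * R ^ 2)) ∧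
    (∫ u in (0 : ℝ)..(y * R), ∑ i ∈ s, ‖Pc (y * R) T1 T2 M q (a i) u‖ ^ 2 ≤
        D * s.card * (2 * Real.pi * (T2 - T1)) * ((101 * Cg * y ^ 2) * R ^ 2)) ∧
    (∫ u in (0 : ℝ)..(l * R), ∑ i ∈ s, ‖Pm (y * R) T1 T2 M q (a i) u‖ ^ 2 ≤
        D * s.card * (2 * Real.pi * (T2 - T1)) * ((101 * Cg * y ^ 2) * R ^ 2)) ∧
    (∑ i ∈ s, ‖Pc (y * R) T1 T2 M q (a i) 0‖ ^ 2 ≤
      D * s.card * (T2 - T1) ^ 2 * ((101 * Cg * y ^ 2) * R ^ 2)) ∧
    (∑ i ∈ s, ‖Pm (y * R) T1 T2 M q (a i) 0‖ ^ 2 ≤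
      D * s.card * (T2 - T1) ^ 2 * ((101 * Cg * y ^ 2) * R ^ 2)) := by
  have hpi := Real.pi_pos
  have hRw0 := H385.Rw_nonneg γ h0 hπ 0
  have hT' : 0 ≤ T2 - T1 := by linarith
  have hc1 : 0 ≤ D * s.card * (2 * Real.pi * (T2 - T1)) := by positivity
  have hc2 : 0 ≤ D * s.card * (T2 - T1) ^ 2 := by positivity
  have hall : ∑ n ∈ Finset.Icc 1 M, gg c n ≤ Cg * R ^ 2 := hcr R hR1 _ hM
  have hxi0 := xi_nonneg (y * R)
  have hall0 : 0 ≤ ∑ n ∈ Finset.Icc 1 M, gg c n := Finset.sum_nonneg fun n _ => gg_nonneg c n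
  have hxa : xi (y * R) * ∑ n ∈ Finset.Icc 1 M, gg c n ≤ y ^ 2 * (Cg * R ^ 2) :=
    mul_le_mul hxi hall hall0 (by positivity)
  have hsm : ∀ B : ℝ, B ≤ 10 * (y * R) →
      ∑ n ∈ (Finset.Icc 1 M).filter (fun n : ℕ => Real.log n ≤ B), gg c n +
          xi (y * R) * ∑ n ∈ Finset.Icc 1 M, gg c n ≤ (101 * Cg * y ^ 2) * R ^ 2 := by
    intro B hB
    have h1 := hcr (10 * (y * R)) (by linarith) ((Finset.Icc 1 M).filter
      (fun n : ℕ => Real.log n ≤ B)) (fun n hn => ((Finset.mem_filter.mp hn).2).trans hB)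
    refine (add_le_add h1 hxa).trans (le_of_eq ?_)
    ring
  refine ⟨?_, ?_, ?_, ?_, ?_⟩
  · refine (int_main hb hT (by positivity) h0 hπ hK0.le hK hLS hD).trans
      (mul_le_mul_of_nonneg_left ?_ hc1)
    have e1 : 9 * K * (y * R) / (l * R) = 9 * K * y / l := by
      field_simp
    rw [e1]
    have h1 : (9 * K * y / l + Rw γ 0 * xi (y * R)) * ∑ n ∈ Finset.Icc 1 M, gg c n ≤
        (9 * K * y / l + Rw γ 0 * y ^ 2) * (Cg * R ^ 2) := by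
      gcongr
    refine (add_le_add hmain h1).trans (le_of_eq ?_)
    ring
  · refine (int_gen hb hT (by positivity) hLS hD).trans (mul_le_mul_of_nonneg_left ?_ hc1)
    exact hsm _ (by linarith)
  · refine (int_min hb hT (by positivity) hLS hD).trans (mul_le_mul_of_nonneg_left ?_ hc1)
    exact hsm _ (by linarith)
  · exact ((zero_gen hb hT hLS hD).1).trans (mul_le_mul_of_nonneg_left (hsm _ (by linarith)) hc2)
  · exact ((zero_gen hb hT hLS hD).2).trans (mul_le_mul_of_nonneg_left (hsm _ (by linarith)) hc2)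

end

/-- **the core theorem** -/
theorem core (c : ℕ → ℂ) (hc : W388.SelE c) {γ : ℝ} (h0 : 0 < γ) (hπ : γ < Real.pi)
    {l l₁ D A g E0 ε : ℝ} (hl : 0 < l) (hll : l < l₁) (hl1 : l₁ ≤ 1) (hD : 0 ≤ D) (hA : 0 ≤ A)
    (hg3 : 1 / 3 ≤ g) (hgl : g ≤ l) (hE0 : 0 ≤ E0) (Cm : ℝ → ℝ) (hε : 0 < ε) :
    ∃ η ρ H1 : ℝ, 0 < η ∧ 0 < ρ ∧ 1 ≤ H1 ∧ ∀ H2 : ℝ, H1 ≤ H2 → ∃ R0 ν : ℝ, 0 < R0 ∧ 0 < ν ∧
      ∀ {ι : Type} (s : Finset ι) (F : ι → ℂ → ℂ) (Z : ι → Finset ℂ) (Lc : ι → ℝ)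
        (a : ι → ℕ → ℂ) (M q : ℕ) (R T1 T2 : ℝ) (w : ι → ℂ → ℝ), R0 ≤ R → H1 ≤ (T2 - T1) * R →
        (T2 - T1) * R ≤ H2 → Dat s F Z Lc a c M q R l₁ g D A E0 η ν T1 T2 →
        HM s Z (fun i => mult (F i)) R ρ (Cm ρ) →
        (∀ i ∈ s, ∀ z ∈ Z i, w i z ≤ 4 * (mult (F i) z : ℝ) - H385.PerChi.kk (F i) z ∧
          w i z ≤ 3 * (mult (F i) z : ℝ)) →
        ∑ i ∈ s, ∑ z ∈ (Z i).filter (fun z => T1 < z.im ∧ z.im ≤ T2), w i z ≤
          (Rw γ 0 / l + 2 * l * D * (∫ α in (0 : ℝ)..1, α * Rw γ α) + ε) *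
            ∑ i ∈ s, ∑ z ∈ (Z i).filter (fun z => T1 < z.im ∧ z.im ≤ T2),
              (mult (F i) z : ℝ) ∧
        ∑ i ∈ s, |∑ z ∈ (Z i).filter (fun z => T1 < z.im ∧ z.im ≤ T2), (mult (F i) z : ℝ) -
            (T2 - T1) * R / (2 * Real.pi)| ≤
          2 * ε * ((T2 - T1) * R / (2 * Real.pi)) * s.card := by
  classical
  have hpi := Real.pi_pos
  have hpi3 := Real.pi_gt_three
  have hpi4 := Real.pi_le_four
  have hRw0 := H385.Rw_nonneg γ h0 hπ 0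
  obtain ⟨K, hK, hlip⟩ := H385.Rw_lip γ h0 hπ
  obtain ⟨Cg, hCg, hcr⟩ := crude_sum c hc
  obtain ⟨I, hI⟩ : ∃ I : ℝ, I = ∫ α in (0 : ℝ)..1, α * Rw γ α := ⟨_, rfl⟩
  have hI0 : 0 ≤ I := by
    rw [hI]
    exact intervalIntegral.integral_nonneg zero_le_one fun u hu =>
      mul_nonneg hu.1 (H385.Rw_nonneg γ h0 hπ u)
  obtain ⟨x, y, hx0, hx1, hy0, hyl, h8g, hl8, hU, hLo, hLo2⟩ := par1 (R0 := Rw γ 0) (l := l)
    (l₁ := l₁) (D := D) (I := I) (K := K) (Cg := Cg) (ε := ε) (g := g) hRw0 hl hll hD hI0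
    (by linarith) hε
  obtain ⟨L0, hL0, hmain⟩ := main_sum c hc γ h0 hπ hx0
  rw [← hI] at hmain ⊢
  obtain ⟨ρ, hρ, hρ'⟩ := par2 (A := A) (g := g) (by linarith) hε
  obtain ⟨t, ht⟩ : ∃ t : ℝ, t = 600 * |Cm ρ| / ε + 1 := ⟨_, rfl⟩
  have ht0 : 0 < t := by rw [ht]; positivity
  have htC : Cm ρ / t ≤ ε / 600 := by
    rw [div_le_div_iff₀ ht0 (by norm_num), ht]
    have h1 := le_abs_self (Cm ρ)
    have h2 : ε * (600 * |Cm ρ| / ε + 1) = 600 * |Cm ρ| + ε := by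
      field_simp
    rw [h2]
    linarith
  obtain ⟨M₀, hM₀, hM₀'⟩ := par3 (B := t * (440000 * A * (8 + 4 / y))) hε
  obtain ⟨C1, hC1⟩ : ∃ C1 : ℝ, C1 = (1 + x) * ((1 + x) * (1 + 1 / x) * (1 + x) ^ 2 * Rw γ 0 * 2 /
    (Real.pi ^ 2 * l * y) + 4 * (1 + 1 / x) * Rw γ 0) + 2 * (1 + 1 / x) * Rw γ 0 * M₀ ^ 2 +
    4 * (440000 * A * (8 + 4 / y)) := ⟨_, rfl⟩
  obtain ⟨T, hT⟩ : ∃ T : ℝ, T = Rw γ 0 / l + 2 * l * D * I := ⟨_, rfl⟩
  have hT0 : 0 ≤ T := by rw [hT]; positivity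
  rw [← hT] at hU hLo ⊢
  obtain ⟨C2, hC2⟩ : ∃ C2 : ℝ, C2 = (T + ε) * (1 + 2 * (440000 * A * (8 + 4 / y))) := ⟨_, rfl⟩
  obtain ⟨C3, hC3⟩ : ∃ C3 : ℝ, C3 = 1 + 2 * (440000 * A * (8 + 4 / y)) := ⟨_, rfl⟩
  have hC10 : 0 ≤ C1 := by rw [hC1]; positivity
  have hC20 : 0 ≤ C2 := by rw [hC2]; positivity
  have hC30 : 0 ≤ C3 := by rw [hC3]; positivity
  refine ⟨x, ρ, max 1 (8 * Real.pi * (C1 + C2) / ε) + 4 * Real.pi * C3 / ε, hx0, hρ, ?_,
    fun H2 hH2 => ?_⟩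
  · have h1 : 0 ≤ 4 * Real.pi * C3 / ε := by positivity
    linarith [le_max_left (1 : ℝ) (8 * Real.pi * (C1 + C2) / ε)]
  have hC3p : 0 ≤ 4 * Real.pi * C3 / ε := by positivity
  have hH20 : 1 ≤ H2 := by linarith [le_max_left (1 : ℝ) (8 * Real.pi * (C1 + C2) / ε)]
  obtain ⟨Rx, hRx⟩ := xi_small hy0
  obtain ⟨R0, hR0⟩ : ∃ R0 : ℝ, R0 = 1 + 1 / y + L0 / l + |Rx| + 4000 * H2 * E0 := ⟨_, rfl⟩
  refine ⟨R0, 1 / (2 * H2), ?_, by positivity, ?_⟩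
  · rw [hR0]
    positivity
  intro ι s F Z Lc a M q R T1 T2 w hR hHl hHu hdat hHM hw
  have p1 : 0 < 1 / y := by positivity
  have p2 : 0 < L0 / l := by positivity
  have p3 := abs_nonneg Rx
  have p4 : 0 ≤ 4000 * H2 * E0 := by positivity
  have hR1 : 1 ≤ R := by linarith
  have hR' : 0 < R := by linarith
  have hb : 1 ≤ y * R := by
    have h1 : 1 / y ≤ R := by linarith
    rw [div_le_iff₀ hy0] at h1
    linarith
  have hLR : L0 ≤ l * R := by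
    have h1 : L0 / l ≤ R := by linarith
    rw [div_le_iff₀ hl] at h1
    linarith
  have hxi : xi (y * R) ≤ y ^ 2 := hRx R (by linarith [le_abs_self Rx])
  obtain ⟨H, hHd⟩ : ∃ H : ℝ, H = (T2 - T1) * R := ⟨_, rfl⟩
  rw [← hHd] at hHl hHu
  have hH1 : 1 ≤ H := by linarith [le_max_left (1 : ℝ) (8 * Real.pi * (C1 + C2) / ε)]
  have hHC : 8 * Real.pi * (C1 + C2) / ε ≤ H := by
    linarith [le_max_right (1 : ℝ) (8 * Real.pi * (C1 + C2) / ε)]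
  have hHC3 : 4 * Real.pi * C3 / ε ≤ H := by
    linarith [le_max_left (1 : ℝ) (8 * Real.pi * (C1 + C2) / ε)]
  have hH : T2 - T1 = H / R := by rw [hHd]; field_simp
  have hT12 : T1 ≤ T2 := by
    have : 0 ≤ T2 - T1 := by rw [hH]; positivity
    linarith
  obtain ⟨J3, J4, J5, Z1, Z2⟩ := all_ms (I := I) (x := x) hR' hy0 hb hl h0 hπ hK hlip hcr
    (hmain (l * R) hLR M) hxi hdat.top hR1 hdat.ls hD hT12
  have hlR : l * R + 8 * (y * R) ≤ l₁ * R := by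
    have h1 := mul_le_mul_of_nonneg_right hl8 hR'.le
    have h2 : (l + 8 * y) * R = l * R + 8 * (y * R) := by ring
    linarith only [h1, h2]
  have hf0 := form (l₁ := l₁) (E0 := E0) (Λ := l * R) hy0 (by linarith) hb hE0 hT12 Lc
    hlR hdat.exf hdat.ncs
  have hE1 : (T2 - T1) * (2000 * E0 + 1 / (2 * H2) * R) ≤ 1 := by
    rw [hH]
    have h1 : H / R * (2000 * E0 + 1 / (2 * H2) * R) = 2000 * E0 * H / R + H / (2 * H2) := by
      field_simp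
    rw [h1]
    have h2 : 2000 * E0 * H / R ≤ 1 / 2 := by
      rw [div_le_iff₀ hR']
      have h3 : 2000 * E0 * H ≤ 2000 * E0 * H2 := mul_le_mul_of_nonneg_left hHu (by positivity)
      linarith
    have h3 : H / (2 * H2) ≤ 1 / 2 := by
      rw [div_le_div_iff₀ (by positivity) (by norm_num)]
      linarith
    linarith
  have hf : ∀ i ∈ s, ∀ u ∈ Icc 0 (l * R), ‖SS (Z i) (mult (F i)) (cz (y * R) T1 T2) u -
      ((1 / (2 * Real.pi) : ℝ) : ℂ) * ((Lc i : ℂ) * WW (y * R) T1 T2 u -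
        Pc (y * R) T1 T2 M q (a i) u - Pm (y * R) T1 T2 M q (a i) u)‖ ≤ 1 :=
    fun i hi u hu => (hf0 i hi u hu).trans hE1
  have hMS := ms_norm (s := s) (F := F) (Z := Z) (a := a) (M := M) (q := q) (δ := x) (η := x)
    hR' hy0 hyl hb hx0 hx0.le hT12 hH h0 hπ Lc hdat.len zero_le_one hf J3 J4 J5
  have hup := up_bound hR' hy0 hyl hb (by linarith) hg3 hgl h8g hx0 hA hdat.den hHM ht0 hM₀ hT12
    (by linarith) hH h0 hπ hdat.zer w hw hMS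
  have hlo := low_bound (κ := y) (H := H) hR' hy0 hb h8g hA hdat.den hT12 (by linarith) hH
    (fun i hi z hz => (hdat.zer i hi z hz).1) Lc hdat.ave hy0
    (fun i hi => hf i hi 0 ⟨le_rfl, by positivity⟩) Z1 Z2
  have hcard : (0 : ℝ) ≤ s.card := Nat.cast_nonneg _
  constructor
  swap
  · have hdv := dev_bound (κ := y) (H := H) hR' hy0 hb h8g hA hdat.den hT12 (by linarith) hH
      (fun i hi z hz => (hdat.zer i hi z hz).1) Lc hdat.len hdat.ave hy0 hx0.le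
      (fun i hi => hf i hi 0 ⟨le_rfl, by positivity⟩) Z1 Z2
    rw [← hHd]
    refine hdv.trans ?_
    rw [mul_comm _ (s.card : ℝ)]
    refine mul_le_mul_of_nonneg_left ?_ hcard
    rw [div_le_iff₀ hε] at hHC3
    have hHp : 0 ≤ H / (2 * Real.pi) := by positivity
    have hyp : 0 ≤ D * (101 * Cg * y ^ 2) / y := by positivity
    have v1 : H / (2 * Real.pi) * (3 * x + 2 * (y + D * (101 * Cg * y ^ 2) / y)) ≤
        H / (2 * Real.pi) * (3 * (ε / 2)) := mul_le_mul_of_nonneg_left (by linarith) hHp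
    have v2 : C3 ≤ H / (2 * Real.pi) * (ε / 2) := by
      have h5 : H / (2 * Real.pi) * (ε / 2) = H * ε / (4 * Real.pi) := by
        field_simp
        ring
      rw [h5, le_div_iff₀ (by positivity)]
      linarith
    have v4 : 2 * ε * (H / (2 * Real.pi)) = H / (2 * Real.pi) * (3 * (ε / 2)) +
      H / (2 * Real.pi) * (ε / 2) := by ring
    rw [hC3] at v2
    linarith
  refine hup.trans ?_
  have hTe : 0 ≤ T + ε := by linarith
  refine le_trans ?_ (mul_le_mul_of_nonneg_left hlo hTe)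
  -- the upper bound
  have u1 : (1 + x) * (s.card * (H / (2 * Real.pi) * ((1 + x) ^ 2 * (1 + x) ^ 2 * Rw γ 0 / l +
          (1 + x) ^ 2 * (2 * D / l) *
            (l ^ 2 * (I + x) + (9 * K * y / l + Rw γ 0 * y ^ 2) * Cg) +
          (1 + x) * (1 + 1 / x) * (2 / l) * Rw γ 0 * D * (101 * Cg * y ^ 2) +
          (1 + 1 / x) * (4 / l) * Rw γ 0 * D * (101 * Cg * y ^ 2)) +
        (1 + x) * (1 + 1 / x) * (1 + x) ^ 2 * Rw γ 0 * 2 / (Real.pi ^ 2 * l * y) +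
        4 * (1 + 1 / x) * Rw γ 0 * 1 ^ 2)) + s.card * (2 * (1 + 1 / x) * Rw γ 0 * M₀ ^ 2) +
      4 * (440000 * A * (8 + 4 / y) * s.card) =
      s.card * (H / (2 * Real.pi) * ((1 + x) * ((1 + x) ^ 2 * (1 + x) ^ 2 * Rw γ 0 / l +
          (1 + x) ^ 2 * (2 * D / l) *
            (l ^ 2 * (I + x) + (9 * K * y / l + Rw γ 0 * y ^ 2) * Cg) +
          (1 + x) * (1 + 1 / x) * (2 / l) * Rw γ 0 * D * (101 * Cg * y ^ 2) +
          (1 + 1 / x) * (4 / l) * Rw γ 0 * D * (101 * Cg * y ^ 2))) + C1) := by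
    rw [hC1]
    ring
  rw [u1]
  have hHpi : 0 ≤ H / (2 * Real.pi) := by positivity
  have u2 := mul_le_mul_of_nonneg_left hU hHpi
  have u3 : 3 * (s.card * ⌈H⌉₊ * (t * (440000 * A * (8 + 4 / y) * M₀ ^ (-(1 / 3) : ℝ)) +
        Cm ρ / t + A * Real.exp (-(g * ρ)))) ≤ s.card * (H / (2 * Real.pi) * (ε / 4)) := by
    have h1 : (⌈H⌉₊ : ℝ) ≤ 2 * H := by
      have := Nat.ceil_lt_add_one (by linarith : 0 ≤ H)
      linarith
    have h2 : t * (440000 * A * (8 + 4 / y) * M₀ ^ (-(1 / 3) : ℝ)) + Cm ρ / t +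
        A * Real.exp (-(g * ρ)) ≤ ε / 600 + ε / 600 + ε / 600 := by
      rw [← mul_assoc t]
      exact add_le_add (add_le_add hM₀' htC) hρ'
    have h3 : 3 * (s.card * ⌈H⌉₊ * (t * (440000 * A * (8 + 4 / y) * M₀ ^ (-(1 / 3) : ℝ)) +
        Cm ρ / t + A * Real.exp (-(g * ρ)))) ≤
        3 * (s.card * (2 * H) * (ε / 600 + ε / 600 + ε / 600)) := by
      refine mul_le_mul_of_nonneg_left ?_ (by norm_num)
      refine (mul_le_mul_of_nonneg_left h2 (mul_nonneg hcard (Nat.cast_nonneg _))).trans ?_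
      exact mul_le_mul_of_nonneg_right (mul_le_mul_of_nonneg_left h1 hcard) (by positivity)
    refine h3.trans ?_
    have h4 : 3 * (s.card * (2 * H) * (ε / 600 + ε / 600 + ε / 600)) =
        s.card * (H * ε * (3 / 100)) := by ring
    rw [h4]
    refine mul_le_mul_of_nonneg_left ?_ hcard
    have h5 : H / (2 * Real.pi) * (ε / 4) = H * ε * (1 / (8 * Real.pi)) := by
      field_simp
      ring
    rw [h5]
    refine mul_le_mul_of_nonneg_left ?_ (by positivity)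
    rw [div_le_div_iff₀ (by norm_num) (by positivity)]
    linarith
  have u4 : C1 + C2 ≤ H / (2 * Real.pi) * (ε / 4) := by
    have h5 : H / (2 * Real.pi) * (ε / 4) = H * ε / (8 * Real.pi) := by
      field_simp
      ring
    rw [h5, le_div_iff₀ (by positivity)]
    rw [div_le_iff₀ hε] at hHC
    linarith
  have u5 := mul_le_mul_of_nonneg_left hLo hHpi
  have u6 : (T + ε) * (s.card * (H / (2 * Real.pi) *
      (1 - x - 2 * (y + D * (101 * Cg * y ^ 2) / y)) - 1 -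
      2 * (440000 * A * (8 + 4 / y)))) = s.card * (H / (2 * Real.pi) *
        ((T + ε) * (1 - x - 2 * (y + D * (101 * Cg * y ^ 2) / y))) - C2) := by
    rw [hC2]
    ring
  rw [u6]
  have u7 : s.card * (H / (2 * Real.pi) * ((1 + x) * ((1 + x) ^ 2 * (1 + x) ^ 2 * Rw γ 0 / l +
          (1 + x) ^ 2 * (2 * D / l) *
            (l ^ 2 * (I + x) + (9 * K * y / l + Rw γ 0 * y ^ 2) * Cg) +
          (1 + x) * (1 + 1 / x) * (2 / l) * Rw γ 0 * D * (101 * Cg * y ^ 2) +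
          (1 + 1 / x) * (4 / l) * Rw γ 0 * D * (101 * Cg * y ^ 2))) + C1) ≤
      s.card * (H / (2 * Real.pi) * (T + ε / 4) + C1) :=
    mul_le_mul_of_nonneg_left (by linarith) hcard
  have u8 : s.card * (H / (2 * Real.pi) * (T + 3 * ε / 4) - C2) ≤ s.card * (H / (2 * Real.pi) *
        ((T + ε) * (1 - x - 2 * (y + D * (101 * Cg * y ^ 2) / y))) - C2) :=
    mul_le_mul_of_nonneg_left (by linarith) hcard
  refine (add_le_add u7 u3).trans (le_trans ?_ u8)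
  rw [← mul_add]
  refine mul_le_mul_of_nonneg_left ?_ hcard
  have e1 : H / (2 * Real.pi) * (T + ε / 4) = H / (2 * Real.pi) * T +
      H / (2 * Real.pi) * (ε / 4) := by ring
  have e2 : H / (2 * Real.pi) * (T + 3 * ε / 4) = H / (2 * Real.pi) * T +
      3 * (H / (2 * Real.pi) * (ε / 4)) := by ring
  rw [e1, e2]
  linarith

end Pool.Agent.T9h27.Z
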