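import Pool.Agent.T9h27.Z.Cw

/-!
# The cut-off function: bounds (helper27)
-/

set_option autoImplicit false

open MeasureTheory Complex Filter Topology Set

namespace Pool.Agent.T9h27.Z

lemma lor_int {b : ℝ} (hb : 0 < b) (x : ℝ) :
    Integrable (fun τ : ℝ => (1 + (b * (τ - x)) ^ 2)⁻¹) ∧
      ∫ τ : ℝ, (1 + (b * (τ - x)) ^ 2)⁻¹ = Real.pi / b := by
  have h1 : Integrable (fun τ : ℝ => (1 + (b * τ) ^ 2)⁻¹) :=
    integrable_inv_one_add_sq.comp_mul_left' hb.ne'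
  refine ⟨h1.comp_sub_right x, ?_⟩
  rw [integral_sub_right_eq_self (fun τ : ℝ => (1 + (b * τ) ^ 2)⁻¹) x]
  rw [Measure.integral_comp_mul_left (fun τ : ℝ => (1 + τ ^ 2)⁻¹) b, integral_univ_inv_one_add_sq,
    smul_eq_mul, abs_of_pos (inv_pos.mpr hb), inv_mul_eq_div]

lemma GG_tail {b : ℝ} (hb : 0 < b) (z : ℂ) {S : Set ℝ} (hS : MeasurableSet S) {a : ℝ} (ha : 0 ≤ a)
    (h : ∀ τ ∈ S, a ≤ |τ - z.re|) : ‖∫ τ in S, GG b τ z‖ ≤
      256 * Real.exp (8 * b * |z.im|) * Real.exp (z.im ^ 2) * (Real.pi / b) *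
        (1 + b * a)⁻¹ ^ 6 := by
  obtain ⟨i1, i2⟩ := lor_int hb z.re
  obtain ⟨B, hB⟩ : ∃ B : ℝ, B = 256 * Real.exp (8 * b * |z.im|) * Real.exp (z.im ^ 2) := ⟨_, rfl⟩
  have hB0 : 0 ≤ B := by rw [hB]; positivity
  rw [← hB]
  have h1 : ∀ τ ∈ S, ‖GG b τ z‖ ≤ B * (1 + b * a)⁻¹ ^ 6 * (1 + (b * (τ - z.re)) ^ 2)⁻¹ := by
    intro τ hτ
    refine (GG_norm hb.le τ z).trans ?_
    rw [← hB, mul_assoc, mul_assoc B]
    refine mul_le_mul_of_nonneg_left ?_ hB0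
    have h2 := h τ hτ
    have h3 : (1 + b * |τ - z.re|)⁻¹ ≤ (1 + b * a)⁻¹ := by
      refine inv_anti₀ (by positivity) ?_
      have := mul_le_mul_of_nonneg_left h2 hb.le
      linarith
    have h4 : (1 + b * |τ - z.re|)⁻¹ ^ 2 ≤ (1 + (b * (τ - z.re)) ^ 2)⁻¹ := by
      rw [inv_pow]
      refine inv_anti₀ (by positivity) ?_
      have : (b * (τ - z.re)) ^ 2 = (b * |τ - z.re|) ^ 2 := by rw [mul_pow, mul_pow, sq_abs]
      rw [this]
      have : 0 ≤ b * |τ - z.re| := by positivity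
      nlinarith
    have h5 := pow_le_pow_left₀ (by positivity) h3 6
    have h6 : Real.exp (-(τ - z.re) ^ 2) ≤ 1 := Real.exp_le_one_iff.mpr (by
      have := sq_nonneg (τ - z.re)
      linarith)
    calc (1 + b * |τ - z.re|)⁻¹ ^ 8 * Real.exp (-(τ - z.re) ^ 2) ≤
        (1 + b * |τ - z.re|)⁻¹ ^ 8 * 1 := mul_le_mul_of_nonneg_left h6 (by positivity)
      _ = (1 + b * |τ - z.re|)⁻¹ ^ 6 * (1 + b * |τ - z.re|)⁻¹ ^ 2 := by ring
      _ ≤ (1 + b * a)⁻¹ ^ 6 * (1 + (b * (τ - z.re)) ^ 2)⁻¹ :=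
          mul_le_mul h5 h4 (by positivity) (by positivity)
  have h2 : ‖∫ τ in S, GG b τ z‖ ≤
      ∫ τ in S, B * (1 + b * a)⁻¹ ^ 6 * (1 + (b * (τ - z.re)) ^ 2)⁻¹ := by
    refine norm_integral_le_of_norm_le (i1.const_mul _).integrableOn ?_
    filter_upwards [ae_restrict_mem hS] with τ hτ
    exact h1 τ hτ
  refine h2.trans ?_
  have h3 : ∫ τ in S, B * (1 + b * a)⁻¹ ^ 6 * (1 + (b * (τ - z.re)) ^ 2)⁻¹ ≤
      ∫ τ : ℝ, B * (1 + b * a)⁻¹ ^ 6 * (1 + (b * (τ - z.re)) ^ 2)⁻¹ :=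
    setIntegral_le_integral (i1.const_mul _) (Eventually.of_forall fun τ => by positivity)
  refine h3.trans (le_of_eq ?_)
  rw [integral_const_mul, i2]
  ring

/-- the cut-off function -/
noncomputable def cz (b T1 T2 : ℝ) (z : ℂ) : ℂ :=
  ((Real.sqrt Real.pi * Kq b 0 : ℝ) : ℂ)⁻¹ * ∫ τ in T1..T2, GG b τ z

lemma cz_conj (b T1 T2 : ℝ) (z : ℂ) :
    cz b T1 T2 ((starRingEnd ℂ) z) = (starRingEnd ℂ) (cz b T1 T2 z) := by
  unfold cz
  rw [map_mul, map_inv₀, Complex.conj_ofReal]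
  congr 1
  have h1 : (starRingEnd ℂ) (∫ τ in T1..T2, GG b τ z) =
      ∫ τ in T1..T2, (starRingEnd ℂ) (GG b τ z) := by
    rw [intervalIntegral, intervalIntegral, map_sub, integral_conj, integral_conj]
  rw [h1]
  refine intervalIntegral.integral_congr fun τ _ => ?_
  unfold GG
  rw [map_mul, map_pow, ← sc_conj, ← Complex.exp_conj]
  simp

lemma cz_real {b T1 T2 : ℝ} (hb : 1 ≤ b) (hT : T1 ≤ T2) (x : ℝ) :
    0 ≤ (cz b T1 T2 (x : ℂ)).re ∧ (cz b T1 T2 (x : ℂ)).re ≤ 1 := by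
  have hk := Kq_pos hb
  have h1 : cz b T1 T2 (x : ℂ) = (((Real.sqrt Real.pi * Kq b 0)⁻¹ *
      ∫ τ in T1..T2, (GG b τ (x : ℂ)).re : ℝ) : ℂ) := by
    unfold cz
    push_cast
    congr 1
    rw [← intervalIntegral.integral_ofReal]
    refine intervalIntegral.integral_congr fun τ _ => ?_
    rw [GG_real, Complex.ofReal_re]
  rw [h1, Complex.ofReal_re]
  have hint : Integrable fun τ : ℝ => (GG b τ (x : ℂ)).re := (GG_integrable (by linarith) _).re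
  rw [intervalIntegral.integral_of_le hT]
  constructor
  · refine mul_nonneg (inv_nonneg.mpr hk.le) ?_
    exact integral_nonneg fun τ => GG_real_nonneg b τ x
  · rw [inv_mul_le_iff₀ hk, mul_one, ← key0 b x]
    exact setIntegral_le_integral hint (Eventually.of_forall fun τ => GG_real_nonneg b τ x)

lemma cz_bd {b : ℝ} (hb : 1 ≤ b) {z : ℂ} (hz : |z.im| ≤ 1 / 2) {J a : ℝ} (hJ : J ≤
    256 * Real.exp (8 * b * |z.im|) * Real.exp (z.im ^ 2) * (Real.pi / b) * (1 + b * a)⁻¹ ^ 6)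
    (ha : 0 ≤ a) :
    (Real.sqrt Real.pi * Kq b 0)⁻¹ * J ≤
      440000 * Real.exp (8 * b * |z.im|) * (1 + b * a)⁻¹ ^ 6 := by
  have hk := Kq_pos hb
  have hb0 : 0 < b := by linarith
  have h1 : (Real.sqrt Real.pi * Kq b 0)⁻¹ ≤ 400 * b := by
    have := inv_anti₀ (by positivity) (Kq_low hb)
    rwa [one_div, inv_inv] at this
  have h2 : Real.exp (z.im ^ 2) ≤ 1.3 := by
    have h3 : z.im ^ 2 ≤ 1 / 4 := by
      rw [← sq_abs]
      nlinarith [abs_nonneg z.im]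
    refine (Real.exp_le_exp.mpr h3).trans ?_
    have h4 : Real.exp (1 / 4) ^ 4 = Real.exp 1 := by
      rw [← Real.exp_nat_mul]
      norm_num
    have h5 : Real.exp (1 / 4) ^ 4 ≤ (1.3 : ℝ) ^ 4 := by
      rw [h4]
      have := Real.exp_one_lt_d9
      norm_num at this ⊢
      linarith
    exact le_of_pow_le_pow_left₀ (by norm_num) (by norm_num) h5
  have hpi : Real.pi ≤ 3.15 := Real.pi_lt_d2.le
  have h6 : J ≤ 256 * Real.exp (8 * b * |z.im|) * 1.3 * (3.15 / b) * (1 + b * a)⁻¹ ^ 6 := by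
    refine hJ.trans ?_
    gcongr
  calc (Real.sqrt Real.pi * Kq b 0)⁻¹ * J ≤ (Real.sqrt Real.pi * Kq b 0)⁻¹ *
        (256 * Real.exp (8 * b * |z.im|) * 1.3 * (3.15 / b) * (1 + b * a)⁻¹ ^ 6) :=
        mul_le_mul_of_nonneg_left h6 (inv_nonneg.mpr hk.le)
    _ ≤ (400 * b) * (256 * Real.exp (8 * b * |z.im|) * 1.3 * (3.15 / b) *
        (1 + b * a)⁻¹ ^ 6) := mul_le_mul_of_nonneg_right h1 (by positivity)
    _ = (400 * 256 * 1.3 * 3.15) * Real.exp (8 * b * |z.im|) * (1 + b * a)⁻¹ ^ 6 := by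
        field_simp
    _ ≤ _ := by
        have : (400 * 256 * 1.3 * 3.15 : ℝ) ≤ 440000 := by norm_num
        gcongr

/-- outside the window -/
lemma cz_out {b T1 T2 : ℝ} (hb : 1 ≤ b) (hT : T1 ≤ T2) {z : ℂ} (hz : |z.im| ≤ 1 / 2) {a : ℝ}
    (ha : 0 ≤ a) (h : ∀ τ ∈ Ioc T1 T2, a ≤ |τ - z.re|) :
    ‖cz b T1 T2 z‖ ≤ 440000 * Real.exp (8 * b * |z.im|) * (1 + b * a)⁻¹ ^ 6 := by
  have hk := Kq_pos hb
  unfold cz
  rw [norm_mul, norm_inv, Complex.norm_real, Real.norm_of_nonneg hk.le,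
    intervalIntegral.integral_of_le hT]
  exact cz_bd hb hz (GG_tail (by linarith) z measurableSet_Ioc ha h) ha

/-- inside the window -/
lemma cz_in {b T1 T2 : ℝ} (hb : 1 ≤ b) (hT : T1 ≤ T2) {z : ℂ} (hz : |z.im| ≤ 1 / 2) {a : ℝ}
    (ha : 0 ≤ a) (h : ∀ τ : ℝ, τ ∉ Ioc T1 T2 → a ≤ |τ - z.re|) :
    ‖1 - cz b T1 T2 z‖ ≤ 440000 * Real.exp (8 * b * |z.im|) * (1 + b * a)⁻¹ ^ 6 := by
  have hk := Kq_pos hb
  have hk' : ((Real.sqrt Real.pi * Kq b 0 : ℝ) : ℂ) ≠ 0 := by exact_mod_cast hk.ne'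
  have h1 : ∫ τ : ℝ, GG b τ z = ((Real.sqrt Real.pi * Kq b 0 : ℝ) : ℂ) := by
    have h2 := key b 0 z
    simp only [Complex.ofReal_zero, mul_zero, zero_mul, Complex.exp_zero, mul_one] at h2
    rw [h2]
    push_cast
    rfl
  have h3 : 1 - cz b T1 T2 z = ((Real.sqrt Real.pi * Kq b 0 : ℝ) : ℂ)⁻¹ *
      ∫ τ in (Ioc T1 T2)ᶜ, GG b τ z := by
    unfold cz
    rw [intervalIntegral.integral_of_le hT]
    have h4 := integral_add_compl (measurableSet_Ioc (a := T1) (b := T2))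
      (GG_integrable (by linarith : (0 : ℝ) ≤ b) z)
    rw [h1] at h4
    have h5 : ((Real.sqrt Real.pi * Kq b 0 : ℝ) : ℂ)⁻¹ * (∫ τ in Ioc T1 T2, GG b τ z) +
        ((Real.sqrt Real.pi * Kq b 0 : ℝ) : ℂ)⁻¹ * (∫ τ in (Ioc T1 T2)ᶜ, GG b τ z) = 1 := by
      rw [← mul_add, h4]
      exact inv_mul_cancel₀ hk'
    linear_combination -h5
  rw [h3, norm_mul, norm_inv, Complex.norm_real, Real.norm_of_nonneg hk.le]
  exact cz_bd hb hz (GG_tail (by linarith) z measurableSet_Ioc.compl ha h) ha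

end Pool.Agent.T9h27.Z
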