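import Pool.Agent.T9h27.Z.Ker

/-!
# The cut-off function (helper27)
-/

set_option autoImplicit false

open MeasureTheory Complex Filter Topology Set

namespace Pool.Agent.T9h27.Z

/-- the kernel -/
noncomputable def GG (b τ : ℝ) (z : ℂ) : ℂ := sc (b * (z - τ)) ^ 8 * cexp (-(z - τ) ^ 2)

/-- the transform of the kernel -/
noncomputable def Kq (b v : ℝ) : ℝ := ∫ σ, Real.exp (-(v + b * σ) ^ 2 / 4) ∂mu 8

lemma GG_cont (b : ℝ) : Continuous fun p : ℂ × ℝ => GG b p.2 p.1 := by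
  unfold GG
  have := sc_cont
  fun_prop

lemma GG_cont' (b : ℝ) (z : ℂ) : Continuous fun τ : ℝ => GG b τ z := by
  unfold GG
  have := sc_cont
  fun_prop

lemma norm_cexp_sq (z : ℂ) (τ : ℝ) :
    ‖cexp (-(z - τ) ^ 2)‖ = Real.exp (z.im ^ 2) * Real.exp (-(τ - z.re) ^ 2) := by
  rw [Complex.norm_exp, ← Real.exp_add]
  congr 1
  simp [pow_two, Complex.mul_re]
  ring

lemma gauss_int (x : ℝ) : Integrable (fun τ : ℝ => Real.exp (-(τ - x) ^ 2)) := by
  have h := (integrable_exp_neg_mul_sq (b := 1) one_pos).comp_sub_right x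
  refine h.congr (Eventually.of_forall fun τ => ?_)
  simp

lemma GG_norm {b : ℝ} (hb : 0 ≤ b) (τ : ℝ) (z : ℂ) : ‖GG b τ z‖ ≤
    256 * Real.exp (8 * b * |z.im|) * Real.exp (z.im ^ 2) * (1 + b * |τ - z.re|)⁻¹ ^ 8 *
      Real.exp (-(τ - z.re) ^ 2) := by
  unfold GG
  rw [norm_mul, norm_pow, norm_cexp_sq]
  have h1 := sc_bound (b * (z - τ))
  have h2 : |(b * (z - τ) : ℂ).im| = b * |z.im| := by
    have : (b * (z - τ) : ℂ).im = b * z.im := by simp
    rw [this, abs_mul, abs_of_nonneg hb]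
  have h3 : b * |τ - z.re| ≤ ‖(b * (z - τ) : ℂ)‖ := by
    have h4 := Complex.abs_re_le_norm (b * (z - τ) : ℂ)
    have h5 : (b * (z - τ) : ℂ).re = b * (z.re - τ) := by simp
    rw [h5, abs_mul, abs_of_nonneg hb, abs_sub_comm] at h4
    exact h4
  rw [h2] at h1
  have h6 : 0 < 1 + b * |τ - z.re| := by positivity
  have h7 : ‖sc (b * (z - τ))‖ ≤ 2 * Real.exp (b * |z.im|) * (1 + b * |τ - z.re|)⁻¹ := by
    rw [← div_eq_mul_inv, le_div_iff₀ h6]
    refine le_trans ?_ h1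
    exact mul_le_mul_of_nonneg_left (by linarith) (norm_nonneg _)
  have h8 := pow_le_pow_left₀ (norm_nonneg _) h7 8
  have h9 : (2 * Real.exp (b * |z.im|) * (1 + b * |τ - z.re|)⁻¹) ^ 8 =
      256 * Real.exp (8 * b * |z.im|) * (1 + b * |τ - z.re|)⁻¹ ^ 8 := by
    rw [mul_pow, mul_pow, ← Real.exp_nat_mul]
    have e1 : ((8 : ℕ) : ℝ) * (b * |z.im|) = 8 * b * |z.im| := by push_cast; ring
    rw [e1]
    norm_num
  rw [h9] at h8
  calc ‖sc (b * (z - τ))‖ ^ 8 * (Real.exp (z.im ^ 2) * Real.exp (-(τ - z.re) ^ 2)) ≤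
      (256 * Real.exp (8 * b * |z.im|) * (1 + b * |τ - z.re|)⁻¹ ^ 8) *
        (Real.exp (z.im ^ 2) * Real.exp (-(τ - z.re) ^ 2)) :=
        mul_le_mul_of_nonneg_right h8 (by positivity)
    _ = _ := by ring

lemma GG_integrable {b : ℝ} (hb : 0 ≤ b) (z : ℂ) : Integrable fun τ : ℝ => GG b τ z := by
  refine Integrable.mono' ((gauss_int z.re).const_mul
    (256 * Real.exp (8 * b * |z.im|) * Real.exp (z.im ^ 2))) (GG_cont' b z).aestronglyMeasurable
    (Eventually.of_forall fun τ => ?_)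
  refine (GG_norm hb τ z).trans ?_
  refine mul_le_mul_of_nonneg_right ?_ (Real.exp_pos _).le
  have h1 : (1 + b * |τ - z.re|)⁻¹ ≤ 1 := inv_le_one_of_one_le₀ (by
    have : 0 ≤ b * |τ - z.re| := by positivity
    linarith)
  have h2 : (1 + b * |τ - z.re|)⁻¹ ^ 8 ≤ 1 := pow_le_one₀ (by positivity) h1
  calc _ ≤ 256 * Real.exp (8 * b * |z.im|) * Real.exp (z.im ^ 2) * 1 :=
        mul_le_mul_of_nonneg_left h2 (by positivity)
    _ = _ := mul_one _

/-- the kernel as a superposition -/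
lemma GG_sup (b τ : ℝ) (z : ℂ) : GG b τ z =
    ∫ σ : ℝ, cexp (I * (b * (z - τ)) * σ) * cexp (-(z - τ) ^ 2) ∂mu 8 := by
  rw [integral_mul_const, mu_exp]
  rfl

lemma quad_int (a : ℝ) (z : ℂ) :
    ∫ τ : ℝ, cexp (I * a * (z - τ)) * cexp (-(z - τ) ^ 2) =
      (Real.sqrt Real.pi : ℂ) * (Real.exp (-a ^ 2 / 4) : ℂ) := by
  have h1 : ∀ τ : ℝ, cexp (I * a * (z - τ)) * cexp (-(z - τ) ^ 2) =
      cexp ((-1 : ℂ) * τ ^ 2 + (2 * z - I * a) * τ + (I * a * z - z ^ 2)) := by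
    intro τ
    rw [← Complex.exp_add]
    congr 1
    ring
  simp_rw [h1]
  rw [integral_cexp_quadratic (by norm_num)]
  have h2 : ((Real.pi : ℂ) / -(-1)) ^ (1 / 2 : ℂ) = (Real.sqrt Real.pi : ℂ) := by
    rw [neg_neg, div_one, Real.sqrt_eq_rpow, Complex.ofReal_cpow Real.pi_pos.le]
    norm_num
  rw [h2, Complex.ofReal_exp]
  congr 2
  push_cast
  linear_combination (a : ℂ) ^ 2 / 4 * I_sq

/-- **the transform of the kernel** -/
theorem key (b v : ℝ) (z : ℂ) :
    ∫ τ : ℝ, GG b τ z * cexp (I * v * (z - τ)) = (Real.sqrt Real.pi : ℂ) * (Kq b v : ℂ) := by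
  have h1 : ∀ τ : ℝ, GG b τ z * cexp (I * v * (z - τ)) =
      ∫ σ : ℝ, cexp (I * ((v + b * σ : ℝ) : ℂ) * (z - τ)) * cexp (-(z - τ) ^ 2) ∂mu 8 := by
    intro τ
    rw [GG_sup, ← integral_mul_const]
    refine integral_congr_ae (Eventually.of_forall fun σ => ?_)
    simp only
    have e : cexp (I * ((v + b * σ : ℝ) : ℂ) * (z - τ)) =
        cexp (I * (b * (z - τ)) * σ) * cexp (I * v * (z - τ)) := by
      rw [← Complex.exp_add]
      congr 1
      push_cast
      ring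
    rw [e]
    ring
  simp_rw [h1]
  have hint : Integrable (Function.uncurry fun (τ σ : ℝ) =>
      cexp (I * ((v + b * σ : ℝ) : ℂ) * (z - τ)) * cexp (-(z - τ) ^ 2)) (volume.prod (mu 8)) := by
    have hg : Integrable (fun p : ℝ × ℝ => (Real.exp ((|v| + |b| * 8) * |z.im|) *
        (Real.exp (z.im ^ 2) * Real.exp (-(p.1 - z.re) ^ 2))) * 1) (volume.prod (mu 8)) :=
      (((gauss_int z.re).const_mul _).const_mul _).mul_prod (integrable_const (1 : ℝ))
    refine Integrable.mono' hg ?_ ?_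
    · exact (by fun_prop : Continuous (Function.uncurry fun (τ σ : ℝ) =>
        cexp (I * ((v + b * σ : ℝ) : ℂ) * (z - τ)) * cexp (-(z - τ) ^ 2))).aestronglyMeasurable
    · have h8 : ∀ᵐ p : ℝ × ℝ ∂volume.prod (mu 8), |p.2| ≤ 8 := by
        have := mu_supp 8
        push_cast at this
        exact Measure.quasiMeasurePreserving_snd.ae this
      filter_upwards [h8] with p hp
      simp only [Function.uncurry]
      rw [norm_mul, norm_cexp_sq, mul_one]
      refine mul_le_mul_of_nonneg_right ?_ (by positivity)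
      rw [Complex.norm_exp]
      refine Real.exp_le_exp.mpr ?_
      have e1 : (I * ((v + b * p.2 : ℝ) : ℂ) * (z - p.1)).re = -((v + b * p.2) * z.im) := by
        have : I * ((v + b * p.2 : ℝ) : ℂ) * (z - p.1) =
          ((v + b * p.2 : ℝ) : ℂ) * (I * (z - p.1)) := by ring
        rw [this, Complex.re_ofReal_mul]
        simp
      rw [e1]
      have e2 : -((v + b * p.2) * z.im) ≤ |(v + b * p.2) * z.im| := neg_le_abs _
      rw [abs_mul] at e2
      refine e2.trans (mul_le_mul_of_nonneg_right ?_ (abs_nonneg _))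
      refine (abs_add_le _ _).trans ?_
      rw [abs_mul]
      have := mul_le_mul_of_nonneg_left hp (abs_nonneg b)
      linarith
  rw [integral_integral_swap hint]
  simp_rw [quad_int]
  rw [integral_const_mul, integral_complex_ofReal]
  rfl

lemma Kq_nonneg (b v : ℝ) : 0 ≤ Kq b v := integral_nonneg fun _ => (Real.exp_pos _).le

/-- the kernel on the real line -/
lemma GG_real (b τ x : ℝ) : GG b τ (x : ℂ) =
    (((sc ((b * (x - τ) : ℝ) : ℂ)).re ^ 8 * Real.exp (-(x - τ) ^ 2) : ℝ) : ℂ) := by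
  unfold GG
  have e1 : (b * ((x : ℂ) - τ) : ℂ) = ((b * (x - τ) : ℝ) : ℂ) := by push_cast; ring
  rw [e1, sc_real]
  push_cast
  rfl

lemma GG_real_nonneg (b τ x : ℝ) : 0 ≤ (GG b τ (x : ℂ)).re := by
  rw [GG_real, Complex.ofReal_re]
  exact mul_nonneg (by positivity) (Real.exp_pos _).le

lemma key0 (b x : ℝ) : ∫ τ : ℝ, (GG b τ (x : ℂ)).re = Real.sqrt Real.pi * Kq b 0 := by
  have h := key b 0 x
  have h1 : ∀ τ : ℝ, GG b τ (x : ℂ) * cexp (I * (0 : ℝ) * (x - τ)) =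
      (((GG b τ (x : ℂ)).re : ℝ) : ℂ) := by
    intro τ
    rw [GG_real, Complex.ofReal_re]
    simp
  simp_rw [h1] at h
  rw [integral_complex_ofReal] at h
  exact_mod_cast h

lemma Kq_le (b v : ℝ) : Kq b v ≤ Kq b 0 := by
  have hs : 0 < Real.sqrt Real.pi := Real.sqrt_pos.mpr Real.pi_pos
  refine le_of_mul_le_mul_left ?_ hs
  rw [← key0 b 0]
  have h := key b v ((0 : ℝ) : ℂ)
  have h1 : ‖∫ τ : ℝ, GG b τ ((0 : ℝ) : ℂ) * cexp (I * v * (((0 : ℝ) : ℂ) - τ))‖ ≤
      ∫ τ : ℝ, ‖GG b τ ((0 : ℝ) : ℂ) * cexp (I * v * (((0 : ℝ) : ℂ) - τ))‖ :=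
    norm_integral_le_integral_norm _
  rw [h, norm_mul, Complex.norm_real, Complex.norm_real, Real.norm_of_nonneg hs.le,
    Real.norm_of_nonneg (Kq_nonneg b v)] at h1
  refine h1.trans (le_of_eq ?_)
  refine integral_congr_ae (Eventually.of_forall fun τ => ?_)
  simp only
  have e1 : ‖cexp (I * v * (((0 : ℝ) : ℂ) - τ))‖ = 1 := by
    rw [Complex.norm_exp]
    simp
  rw [norm_mul, e1, mul_one]
  conv_lhs => rw [GG_real]
  rw [Complex.norm_real, Real.norm_of_nonneg, GG_real, Complex.ofReal_re]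
  exact mul_nonneg (by positivity) (Real.exp_pos _).le

lemma Kq_low {b : ℝ} (hb : 1 ≤ b) : 1 / (400 * b) ≤ Real.sqrt Real.pi * Kq b 0 := by
  rw [← key0 b 0]
  have hb0 : 0 < b := by linarith
  have hint : Integrable fun τ : ℝ => (GG b τ ((0 : ℝ) : ℂ)).re :=
    (GG_integrable hb0.le _).re
  have h1 : ∫ τ in Icc (-(1 / b)) (1 / b), (GG b τ ((0 : ℝ) : ℂ)).re ≤
      ∫ τ : ℝ, (GG b τ ((0 : ℝ) : ℂ)).re :=
    setIntegral_le_integral hint (Eventually.of_forall fun τ => GG_real_nonneg b τ 0)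
  refine le_trans ?_ h1
  have h2 : ∫ _ in Icc (-(1 / b)) (1 / b), (1 / 800 : ℝ) ≤
      ∫ τ in Icc (-(1 / b)) (1 / b), (GG b τ ((0 : ℝ) : ℂ)).re := by
    refine setIntegral_mono_on (by simp) hint.integrableOn measurableSet_Icc ?_
    intro τ hτ
    rw [GG_real, Complex.ofReal_re]
    have h3 : |b * (0 - τ)| ≤ 1 := by
      rw [abs_mul, abs_of_pos hb0, zero_sub, abs_neg]
      have h4 : |τ| ≤ 1 / b := abs_le.mpr hτ
      calc b * |τ| ≤ b * (1 / b) := mul_le_mul_of_nonneg_left h4 hb0.le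
        _ = 1 := by field_simp
    have h4 := sc_low h3
    have h5 : (1 / 256 : ℝ) ≤ (sc ((b * (0 - τ) : ℝ) : ℂ)).re ^ 8 := by
      have := pow_le_pow_left₀ (by norm_num : (0 : ℝ) ≤ 1 / 2) h4 8
      norm_num at this ⊢
      exact this
    have h6 : Real.exp (-1) ≤ Real.exp (-(0 - τ) ^ 2) := by
      refine Real.exp_le_exp.mpr ?_
      have h7 : |τ| ≤ 1 := by
        refine (abs_le.mpr hτ).trans ?_
        rw [div_le_one hb0]
        exact hb
      have h8 : τ ^ 2 ≤ 1 := (sq_le_one_iff_abs_le_one τ).mpr h7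
      have : (0 - τ) ^ 2 = τ ^ 2 := by ring
      linarith
    have h7 : (0.36 : ℝ) ≤ Real.exp (-1) := by
      have := Real.exp_neg_one_gt_d9
      linarith
    calc (1 / 800 : ℝ) ≤ 1 / 256 * 0.36 := by norm_num
      _ ≤ _ := mul_le_mul h5 (h7.trans h6) (by norm_num) (by positivity)
  refine le_trans (le_of_eq ?_) h2
  rw [setIntegral_const, measureReal_def, Real.volume_Icc, smul_eq_mul, ENNReal.toReal_ofReal]
  · field_simp
    norm_num
  · have : 0 < 1 / b := by positivity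
    linarith

lemma Kq_pos {b : ℝ} (hb : 1 ≤ b) : 0 < Real.sqrt Real.pi * Kq b 0 :=
  lt_of_lt_of_le (by positivity) (Kq_low hb)

end Pool.Agent.T9h27.Z
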