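import Pool.Agent.T9h27.Z.Low

/-!
# The deviation of the number of zeros (helper27)
-/

set_option autoImplicit false

open MeasureTheory Complex Filter Topology Set
open scoped ComplexConjugate
open H385 (Rw zz)
open H370 (mult)

namespace Pool.Agent.T9h27.Z

section

variable {ι : Type} {s : Finset ι} {F : ι → ℂ → ℂ} {Z : ι → Finset ℂ} {a : ι → ℕ → ℂ} {M q : ℕ}

open Classical in
/-- **the number of zeros in the window**, on average over the family -/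
theorem dev_bound {R y η H g A : ℝ} (hR : 0 < R) (hy : 0 < y) (hb : 1 ≤ y * R)
    (h8g : 8 * y ≤ g) (hA : 0 ≤ A)
    (hC : HC s Z (fun i => mult (F i)) R g A)
    {T1 T2 : ℝ} (hT : T1 ≤ T2) (hH0 : 0 < H) (hH : T2 - T1 = H / R)
    (hZ : ∀ i ∈ s, ∀ z ∈ Z i, dl z ≤ 1 / 2) (Lc : ι → ℝ)
    (hlen : ∀ i ∈ s, 0 ≤ Lc i ∧ Lc i ≤ (1 + η) * R)
    (hL : (1 - η) * R * s.card ≤ ∑ i ∈ s, Lc i) {E1 X5 D κ : ℝ} (hκ : 0 < κ) (hη : 0 ≤ η)
    (hf : ∀ i ∈ s, ‖SS (Z i) (mult (F i)) (cz (y * R) T1 T2) 0 -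
      ((1 / (2 * Real.pi) : ℝ) : ℂ) * ((Lc i : ℂ) * WW (y * R) T1 T2 0 -
        Pc (y * R) T1 T2 M q (a i) 0 - Pm (y * R) T1 T2 M q (a i) 0)‖ ≤ E1)
    (hJ : ∑ i ∈ s, ‖Pc (y * R) T1 T2 M q (a i) 0‖ ^ 2 ≤
      D * s.card * (T2 - T1) ^ 2 * (X5 * R ^ 2))
    (hJ' : ∑ i ∈ s, ‖Pm (y * R) T1 T2 M q (a i) 0‖ ^ 2 ≤
      D * s.card * (T2 - T1) ^ 2 * (X5 * R ^ 2)) :
    ∑ i ∈ s, |∑ z ∈ (Z i).filter (fun z => T1 < z.im ∧ z.im ≤ T2), (mult (F i) z : ℝ) -
        H / (2 * Real.pi)| ≤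
      s.card * (H / (2 * Real.pi) * (3 * η + 2 * (κ + D * X5 / κ)) + E1 +
      2 * (440000 * A * (8 + 4 / y))) := by
  have hpi := Real.pi_pos
  obtain ⟨o1, o2⟩ := out_in hR hA hC hT hy hb h8g hZ
  -- one member
  have h1 : ∀ i ∈ s, |∑ z ∈ (Z i).filter (fun z => T1 < z.im ∧ z.im ≤ T2), (mult (F i) z : ℝ) -
        H / (2 * Real.pi)| ≤
      1 / (2 * Real.pi) * (((1 + η) * R - Lc i) * (T2 - T1) + η * H +
      ‖Pc (y * R) T1 T2 M q (a i) 0‖ + ‖Pm (y * R) T1 T2 M q (a i) 0‖) + E1 +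
      ∑ z ∈ (Z i).filter (fun z => T1 < z.im ∧ z.im ≤ T2),
        (mult (F i) z : ℝ) * ‖1 - cz (y * R) T1 T2 (zz z)‖ +
      ∑ z ∈ (Z i).filter (fun z => ¬ (T1 < z.im ∧ z.im ≤ T2)),
        (mult (F i) z : ℝ) * ‖cz (y * R) T1 T2 (zz z)‖ := by
    intro i hi
    have h2 := hf i hi
    obtain ⟨l1, l2⟩ := hlen i hi
    rw [WW_zero hb] at h2
    obtain ⟨X, hX⟩ : ∃ X : ℂ, X = (Lc i : ℂ) * ((T2 - T1 : ℝ) : ℂ) -
        Pc (y * R) T1 T2 M q (a i) 0 - Pm (y * R) T1 T2 M q (a i) 0 := ⟨_, rfl⟩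
    rw [← hX] at h2
    have h3 : |X.re - Lc i * (T2 - T1)| ≤ ‖Pc (y * R) T1 T2 M q (a i) 0‖ +
        ‖Pm (y * R) T1 T2 M q (a i) 0‖ := by
      rw [hX, Complex.sub_re, Complex.sub_re, ← Complex.ofReal_mul, Complex.ofReal_re]
      have k1 := abs_le.mp (Complex.abs_re_le_norm (Pc (y * R) T1 T2 M q (a i) 0))
      have k2 := abs_le.mp (Complex.abs_re_le_norm (Pm (y * R) T1 T2 M q (a i) 0))
      rw [abs_le]
      constructor <;> linarith [k1.1, k1.2, k2.1, k2.2]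
    have h4 : |(SS (Z i) (mult (F i)) (cz (y * R) T1 T2) 0).re - 1 / (2 * Real.pi) * X.re| ≤
        E1 := by
      have k1 := (Complex.abs_re_le_norm (SS (Z i) (mult (F i)) (cz (y * R) T1 T2) 0 -
        ((1 / (2 * Real.pi) : ℝ) : ℂ) * X)).trans h2
      rwa [Complex.sub_re, Complex.re_ofReal_mul] at k1
    have hz0 : ∀ z : ℂ, cexp (I * ((0 : ℝ) : ℂ) * z) = 1 := by
      intro z
      simp
    have k0 : ∀ z : ℂ, ((mult (F i) z : ℂ) * cz (y * R) T1 T2 (zz z)).re =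
        (mult (F i) z : ℝ) * (cz (y * R) T1 T2 (zz z)).re := by
      intro z
      rw [← Complex.ofReal_natCast, Complex.re_ofReal_mul]
    have e1 : (SS (Z i) (mult (F i)) (cz (y * R) T1 T2) 0).re =
        ∑ z ∈ (Z i).filter (fun z => T1 < z.im ∧ z.im ≤ T2),
          (mult (F i) z : ℝ) * (cz (y * R) T1 T2 (zz z)).re +
        ∑ z ∈ (Z i).filter (fun z => ¬ (T1 < z.im ∧ z.im ≤ T2)),
          (mult (F i) z : ℝ) * (cz (y * R) T1 T2 (zz z)).re := by
      unfold SS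
      rw [← Finset.sum_filter_add_sum_filter_not (Z i) (fun z => T1 < z.im ∧ z.im ≤ T2),
        Complex.add_re, Complex.re_sum, Complex.re_sum]
      congr 1
      · refine Finset.sum_congr rfl fun z _ => ?_
        rw [hz0, mul_one, k0]
      · refine Finset.sum_congr rfl fun z _ => ?_
        rw [hz0, mul_one, k0]
    have h5 : |∑ z ∈ (Z i).filter (fun z => T1 < z.im ∧ z.im ≤ T2), (mult (F i) z : ℝ) -
        (SS (Z i) (mult (F i)) (cz (y * R) T1 T2) 0).re| ≤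
      ∑ z ∈ (Z i).filter (fun z => T1 < z.im ∧ z.im ≤ T2),
        (mult (F i) z : ℝ) * ‖1 - cz (y * R) T1 T2 (zz z)‖ +
      ∑ z ∈ (Z i).filter (fun z => ¬ (T1 < z.im ∧ z.im ≤ T2)),
        (mult (F i) z : ℝ) * ‖cz (y * R) T1 T2 (zz z)‖ := by
      rw [e1, ← sub_sub, ← Finset.sum_sub_distrib]
      refine (abs_sub _ _).trans (add_le_add ?_ ?_)
      · refine (Finset.abs_sum_le_sum_abs _ _).trans (Finset.sum_le_sum fun z _ => ?_)
        have k3 := Complex.abs_re_le_norm (1 - cz (y * R) T1 T2 (zz z))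
        rw [Complex.sub_re, Complex.one_re] at k3
        have e2 : (mult (F i) z : ℝ) - (mult (F i) z : ℝ) * (cz (y * R) T1 T2 (zz z)).re =
          (mult (F i) z : ℝ) * (1 - (cz (y * R) T1 T2 (zz z)).re) := by ring
        rw [e2, abs_mul, Nat.abs_cast]
        exact mul_le_mul_of_nonneg_left k3 (Nat.cast_nonneg _)
      · refine (Finset.abs_sum_le_sum_abs _ _).trans (Finset.sum_le_sum fun z _ => ?_)
        rw [abs_mul, Nat.abs_cast]
        exact mul_le_mul_of_nonneg_left (Complex.abs_re_le_norm _) (Nat.cast_nonneg _)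
    have h6 : |1 / (2 * Real.pi) * X.re - H / (2 * Real.pi)| ≤
        1 / (2 * Real.pi) * (((1 + η) * R - Lc i) * (T2 - T1) + η * H +
      ‖Pc (y * R) T1 T2 M q (a i) 0‖ + ‖Pm (y * R) T1 T2 M q (a i) 0‖) := by
      have e2 : 1 / (2 * Real.pi) * X.re - H / (2 * Real.pi) =
        1 / (2 * Real.pi) * (X.re - H) := by ring
      rw [e2, abs_mul, abs_of_pos (by positivity : 0 < 1 / (2 * Real.pi))]
      refine mul_le_mul_of_nonneg_left ?_ (by positivity)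
      have e3 : (T2 - T1) * R = H := by rw [hH]; field_simp
      have e4 : ((1 + η) * R - Lc i) * (T2 - T1) = (1 + η) * H - Lc i * (T2 - T1) := by
        rw [← e3]; ring
      have e5 : 0 ≤ ((1 + η) * R - Lc i) * (T2 - T1) :=
        mul_nonneg (by linarith) (by linarith)
      have e6 := abs_le.mp h3
      have e7 : 0 ≤ η * H := by positivity
      rw [abs_le]
      constructor
      · linarith only [e6.1, e7, e4]
      · linarith only [e6.2, e7, e4, e5]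
    have t1 := abs_sub_le (∑ z ∈ (Z i).filter (fun z => T1 < z.im ∧ z.im ≤ T2),
      (mult (F i) z : ℝ)) ((SS (Z i) (mult (F i)) (cz (y * R) T1 T2) 0).re) (H / (2 * Real.pi))
    have t2 := abs_sub_le ((SS (Z i) (mult (F i)) (cz (y * R) T1 T2) 0).re)
      (1 / (2 * Real.pi) * X.re) (H / (2 * Real.pi))
    linarith
  have h2 := Finset.sum_le_sum h1
  rw [Finset.sum_add_distrib, Finset.sum_add_distrib, Finset.sum_add_distrib, ← Finset.mul_sum,
    Finset.sum_add_distrib, Finset.sum_add_distrib, Finset.sum_add_distrib, ← Finset.sum_mul,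
    Finset.sum_sub_distrib, Finset.sum_const, Finset.sum_const, Finset.sum_const, nsmul_eq_mul,
    nsmul_eq_mul, nsmul_eq_mul] at h2
  have hPP : ∀ f : ι → ℂ, ∑ i ∈ s, ‖f i‖ ^ 2 ≤ D * s.card * (T2 - T1) ^ 2 * (X5 * R ^ 2) →
      ∑ i ∈ s, ‖f i‖ ≤ s.card * (H * (κ + D * X5 / κ)) := by
    intro f hf2
    have k1 : ∀ i ∈ s, ‖f i‖ ≤ κ * H + ‖f i‖ ^ 2 / (κ * H) := by
      intro i _
      have hκH : 0 < κ * H := by positivity
      have e1 : κ * H + ‖f i‖ ^ 2 / (κ * H) - ‖f i‖ =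
          ((‖f i‖ - κ * H) ^ 2 + ‖f i‖ * (κ * H)) / (κ * H) := by
        field_simp
        ring
      have e2 : 0 ≤ ((‖f i‖ - κ * H) ^ 2 + ‖f i‖ * (κ * H)) / (κ * H) := by positivity
      linarith
    refine (Finset.sum_le_sum k1).trans ?_
    rw [Finset.sum_add_distrib, Finset.sum_const, nsmul_eq_mul, ← Finset.sum_div]
    have k2 := div_le_div_of_nonneg_right hf2 (by positivity : 0 ≤ κ * H)
    refine (add_le_add le_rfl k2).trans (le_of_eq ?_)
    rw [hH]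
    field_simp
  have p1 := hPP _ hJ
  have p2 := hPP _ hJ'
  have h3 : 1 / (2 * Real.pi) * ((s.card * ((1 + η) * R) - ∑ i ∈ s, Lc i) * (T2 - T1) +
      s.card * (η * H) + ∑ i ∈ s, ‖Pc (y * R) T1 T2 M q (a i) 0‖ +
      ∑ i ∈ s, ‖Pm (y * R) T1 T2 M q (a i) 0‖) ≤
      1 / (2 * Real.pi) * (s.card * (2 * η * H) + s.card * (η * H) +
      s.card * (H * (κ + D * X5 / κ)) + s.card * (H * (κ + D * X5 / κ))) := by
    refine mul_le_mul_of_nonneg_left ?_ (by positivity)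
    have h4 : (s.card * ((1 + η) * R) - ∑ i ∈ s, Lc i) * (T2 - T1) ≤ s.card * (2 * η * H) := by
      have h5 : s.card * ((1 + η) * R) - ∑ i ∈ s, Lc i ≤ s.card * (2 * η * R) := by linarith
      refine (mul_le_mul_of_nonneg_right h5 (by linarith)).trans (le_of_eq ?_)
      rw [hH]
      field_simp
    linarith
  have e3 : 1 / (2 * Real.pi) * (s.card * (2 * η * H) + s.card * (η * H) +
      s.card * (H * (κ + D * X5 / κ)) + s.card * (H * (κ + D * X5 / κ))) =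
      s.card * (H / (2 * Real.pi) * (3 * η + 2 * (κ + D * X5 / κ))) := by
    field_simp
    ring
  rw [e3] at h3
  linarith

end

end Pool.Agent.T9h27.Z
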