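import Pool.Agent.W388.LV.EFE

/-!
# The explicit formula at every height (helper27)
-/

set_option autoImplicit false
set_option maxHeartbeats 1000000

open Complex Filter Topology Set MeasureTheory

namespace Pool.Agent.T9h27.Z

open H385 (A1 PP1 zz)
open H370 (zset mult rect_residue mk_eq DD)
open H343 (hhb PPb norm_hhb hhb_diff hhb_cont_line gauss_lineb tail_boundb int_boundb)
open W388.LV (CoefE A1_eq_D PP1_eq_D)

/-- analytic data in the whole plane -/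
structure GoodW (d A Q : ℝ) (F : ℂ → ℂ) (a : ℕ → ℂ) : Prop where
  diff : Differentiable ℂ F
  nzr : ∀ s : ℂ, 1 ≤ s.re → F s ≠ 0
  nzl : ∀ s : ℂ, -3 / 4 ≤ s.re → s.re ≤ 0 → s ≠ 0 → F s ≠ 0
  z0 : (mult F 0 : ℝ) ≤ A
  symm : ∀ s : ℂ, 0 < s.re → s.re < 1 →
    analyticOrderAt F (1 - (starRingEnd ℂ) s) = analyticOrderAt F s
  coef : CoefE A a
  ld : ∀ s : ℂ, 1 < s.re → deriv F s / F s = - ∑' n : ℕ, a n * (n : ℂ) ^ (-s)
  left : ∀ y : ℝ, ‖deriv F (⟨-3 / 4, y⟩ : ℂ) / F (⟨-3 / 4, y⟩ : ℂ) +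
    ((d * Real.log (Q * (|y| + 1)) : ℝ) : ℂ)‖ ≤ A
  hup : ∀ T : ℝ, 3 ≤ T → ∃ U ∈ Set.Icc T (T + 1), ∀ σ ∈ Set.Icc (-3 / 4 : ℝ) (7 / 4),
        F (⟨σ, U⟩ : ℂ) ≠ 0 ∧
          ‖deriv F (⟨σ, U⟩ : ℂ) / F (⟨σ, U⟩ : ℂ)‖ ≤ A * (Real.log (Q * T)) ^ 2
  hdn : ∀ T : ℝ, 3 ≤ T → ∃ U ∈ Set.Icc T (T + 1), ∀ σ ∈ Set.Icc (-3 / 4 : ℝ) (7 / 4),
        F (⟨σ, -U⟩ : ℂ) ≠ 0 ∧
          ‖deriv F (⟨σ, -U⟩ : ℂ) / F (⟨σ, -U⟩ : ℂ)‖ ≤ A * (Real.log (Q * T)) ^ 2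

lemma log_lip {x y : ℝ} (hx : 0 ≤ x) (hy : 0 ≤ y) :
    |Real.log (x + 1) - Real.log (y + 1)| ≤ |x - y| := by
  have key : ∀ x y : ℝ, 0 ≤ x → 0 ≤ y → Real.log (x + 1) - Real.log (y + 1) ≤ |x - y| := by
    intro x y hx hy
    rw [← Real.log_div (by linarith) (by linarith)]
    refine (Real.log_le_sub_one_of_pos (by positivity)).trans ?_
    have h1 : (x + 1) / (y + 1) - 1 = (x - y) / (y + 1) := by
      field_simp
      ring
    rw [h1, div_le_iff₀ (by linarith)]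
    have h2 := le_abs_self (x - y)
    have h3 := abs_nonneg (x - y)
    nlinarith
  rw [abs_le]
  have h1 := key x y hx hy
  have h2 := key y x hy hx
  rw [abs_sub_comm] at h2
  constructor <;> linarith

lemma mult_zero_of_ne {F : ℂ → ℂ} (h : F 0 ≠ 0) (hF : AnalyticAt ℂ F 0) : mult F 0 = 0 := by
  unfold mult analyticOrderNatAt
  rw [hF.analyticOrderAt_eq_zero.mpr h]
  rfl

/-- **the explicit formula at every height** -/
theorem efw (d A : ℝ) (hd : 1 ≤ d) (hA : 1 ≤ A) : ∃ C : ℝ, 0 < C ∧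
    ∀ (Q : ℝ) (F : ℂ → ℂ) (a : ℕ → ℂ), 1 ≤ Q → GoodW d A Q F a → ∀ T κ : ℝ, 0 ≤ T → 3 ≤ κ →
    ∃ V1 V2 : ℝ, T + κ ≤ V1 ∧ V1 ≤ T + κ + 1 ∧ T + κ ≤ V2 ∧ V2 ≤ T + κ + 1 ∧
      (zset F (-V1) V2).Finite ∧ ∀ u t τ₀ : ℝ, 0 ≤ u → |t| ≤ T → |t - τ₀| ≤ 1 →
        ‖A1 F (-V1) V2 u t - (1 / (2 * Real.sqrt Real.pi) : ℝ) *
          (((d * Real.log (Q * (|τ₀| + 1)) : ℝ) : ℂ) * cexp (I * t * u) * Real.exp (-u ^ 2 / 4)
            - PP1 a u t)‖ ≤
        C * (Real.exp (-u / 2) + (Real.log (Q * (T + κ))) ^ 2 *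
          Real.exp (5 / 4 * u - κ ^ 2 / 2)) := by
  obtain ⟨EB, hEBdef⟩ : ∃ x, x = Real.exp (2 : ℝ) := ⟨_, rfl⟩
  obtain ⟨G, hGdef⟩ : ∃ x, x = Real.sqrt (Real.pi / ((2 : ℝ) / 4)) := ⟨_, rfl⟩
  obtain ⟨G1, hG1def⟩ : ∃ x, x = Real.sqrt (Real.pi / ((1 : ℝ) / 4)) := ⟨_, rfl⟩
  have hEB : 0 < EB := hEBdef ▸ Real.exp_pos _
  have hG0 : 0 ≤ G := hGdef ▸ Real.sqrt_nonneg _
  have hG10 : 0 ≤ G1 := hG1def ▸ Real.sqrt_nonneg _
  have hA0 : 0 < A := by linarith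
  have hd0 : 0 < d := by linarith
  refine ⟨5 * A * EB + A * EB * G + d * EB * G + (A + 2 * d) * EB * G1 + A * EB + 1,
    by positivity, ?_⟩
  intro Q F a hQ hF T κ hT hκ
  have ha := hF.coef
  have hnDD : ∀ v : ℝ, ‖DD a (⟨7 / 4, v⟩ : ℂ)‖ ≤ A := fun v => ha.norm_DD v
  have hld := hF.ld
  have hQT : 3 ≤ Q * (T + κ) := by nlinarith
  obtain ⟨L, hL⟩ : ∃ L : ℝ, L = Real.log (Q * (T + κ)) := ⟨_, rfl⟩
  rw [← hL]
  have hL1 : 1 ≤ L := by
    rw [hL, Real.le_log_iff_exp_le (by linarith)]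
    have := Real.exp_one_lt_d9
    linarith
  obtain ⟨V1, hV1, hg1⟩ := hF.hdn (T + κ) (by linarith)
  obtain ⟨U2, hU2, hg2⟩ := hF.hup (T + κ) (by linarith)
  rw [← hL] at hg1 hg2
  obtain ⟨U1, hU1⟩ : ∃ U1 : ℝ, U1 = -V1 := ⟨_, rfl⟩
  rw [← hU1] at hg1
  have hU12 : U1 < U2 := by linarith [hV1.1, hU2.1]
  have hanF : ∀ s, AnalyticAt ℂ F s := fun s => hF.diff.analyticAt s
  -- zeros in the rectangle
  have hK : ∀ s ∈ Set.Icc (-3 / 4 : ℝ) (7 / 4) ×ℂ Set.Icc U1 U2, U1 ≤ s.im ∧ s.im ≤ U2 ∧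
      -3 / 4 ≤ s.re ∧ s.re ≤ 7 / 4 := by
    intro s hs
    obtain ⟨h1, h2⟩ := hs
    rw [mem_preimage] at h1 h2
    exact ⟨h2.1, h2.2, h1.1, h1.2⟩
  have hzero : ∀ s ∈ Set.Icc (-3 / 4 : ℝ) (7 / 4) ×ℂ Set.Icc U1 U2, F s = 0 →
      (s = 0 ∨ 0 < s.re) ∧ s.re < 1 ∧ U1 < s.im ∧ s.im < U2 := by
    intro s hs h0
    obtain ⟨h2, h3, h4, h5⟩ := hK s hs
    refine ⟨?_, ?_, ?_, ?_⟩
    · by_contra hc
      push Not at hc
      exact hF.nzl s h4 hc.2 hc.1 h0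
    · by_contra hc
      exact hF.nzr s (not_lt.1 hc) h0
    · refine lt_of_le_of_ne h2 (fun he => ?_)
      have := (hg1 s.re ⟨h4, h5⟩).1
      rw [he] at this
      exact this h0
    · refine lt_of_le_of_ne h3 (fun he => ?_)
      have := (hg2 s.re ⟨h4, h5⟩).1
      rw [← he] at this
      exact this h0
  have hbd : ∀ s ∈ Set.Icc (-3 / 4 : ℝ) (7 / 4) ×ℂ Set.Icc U1 U2, F s = 0 →
      s ∈ Set.Ioo (-3 / 4 : ℝ) (7 / 4) ×ℂ Set.Ioo U1 U2 := by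
    intro s hs h0
    obtain ⟨h1, h2, h3, h4⟩ := hzero s hs h0
    have h5 : 0 ≤ s.re := by
      rcases h1 with h1 | h1
      · rw [h1]; simp
      · exact h1.le
    exact ⟨⟨by linarith, by linarith⟩, ⟨h3, h4⟩⟩
  have hUu : U1 < 0 ∧ 0 < U2 := by
    constructor
    · rw [hU1]; linarith [hV1.1]
    · linarith [hU2.1]
  have hsub : zset F U1 U2 ⊆ {s | s ∈ Set.Ioo (-3 / 4 : ℝ) (7 / 4) ×ℂ Set.Ioo U1 U2 ∧ F s = 0} := by
    rintro s ⟨h3, h4, h5, h6, h7⟩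
    exact ⟨hbd s ⟨⟨by linarith, by linarith⟩, ⟨h5.le, h6⟩⟩ h7, h7⟩
  have hfin : (zset F U1 U2).Finite := by
    have h1 := (rect_residue F (hhb 2 0 0) (-3 / 4) (7 / 4) U1 U2 (by norm_num) hU12
      (fun s _ => hanF s) (hhb_diff 2 0 0) hbd).1
    exact h1.subset hsub
  have h0n : (0 : ℂ) ∉ zset F U1 U2 := by
    rintro ⟨h, -⟩
    simp at h
  refine ⟨V1, U2, hV1.1, hV1.2, hU2.1, hU2.2, by rw [← hU1]; exact hfin, ?_⟩
  intro u t τ₀ hu ht htτ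
  rw [← hU1]
  have ht' := abs_le.mp ht
  have hW1 : U1 ≤ t - κ := by rw [hU1]; linarith [hV1.1]
  have hW2 : t + κ ≤ U2 := by linarith [hU2.1]
  have hW0 : 0 ≤ κ := by linarith
  -- residue theorem
  have hres := (rect_residue F (hhb 2 u t) (-3 / 4) (7 / 4) U1 U2 (by norm_num) hU12
    (fun s hs => hanF s) (hhb_diff 2 u t) hbd).2
  have hset : ∑ᶠ s ∈ {s | s ∈ Set.Ioo (-3 / 4 : ℝ) (7 / 4) ×ℂ Set.Ioo U1 U2 ∧ F s = 0},
      (mult F s : ℂ) * hhb 2 u t s = A1 F U1 U2 u t + (mult F 0 : ℂ) * hhb 2 u t 0 := by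
    rw [A1_eq_D]
    by_cases h0 : F 0 = 0
    · have e1 : {s | s ∈ Set.Ioo (-3 / 4 : ℝ) (7 / 4) ×ℂ Set.Ioo U1 U2 ∧ F s = 0} =
          insert 0 (zset F U1 U2) := by
        ext s
        constructor
        · rintro ⟨h1, h2⟩
          obtain ⟨h3, h4, h5, h6⟩ := hzero s ⟨Ioo_subset_Icc_self h1.1,
            Ioo_subset_Icc_self h1.2⟩ h2
          rcases h3 with h3 | h3
          · exact Or.inl h3
          · exact Or.inr ⟨h3, h4, h5, h6.le, h2⟩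
        · rintro (h1 | h1)
          · rw [h1]
            refine ⟨⟨?_, ?_⟩, h0⟩
            · rw [mem_preimage]
              exact ⟨by norm_num, by norm_num⟩
            · rw [mem_preimage]
              exact ⟨by simpa using hUu.1, by simpa using hUu.2⟩
          · exact hsub h1
      rw [e1, finsum_mem_insert _ h0n hfin, add_comm]
    · have e1 : {s | s ∈ Set.Ioo (-3 / 4 : ℝ) (7 / 4) ×ℂ Set.Ioo U1 U2 ∧ F s = 0} =
          zset F U1 U2 := by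
        ext s
        constructor
        · rintro ⟨h1, h2⟩
          obtain ⟨h3, h4, h5, h6⟩ := hzero s ⟨Ioo_subset_Icc_self h1.1,
            Ioo_subset_Icc_self h1.2⟩ h2
          rcases h3 with h3 | h3
          · rw [h3] at h2
            exact absurd h2 h0
          · exact ⟨h3, h4, h5, h6.le, h2⟩
        · exact fun h1 => hsub h1
      rw [e1, mult_zero_of_ne h0 (hanF 0)]
      simp
  rw [hset] at hres
  obtain ⟨Z0, hZ0d⟩ : ∃ Z0 : ℂ, Z0 = (mult F 0 : ℂ) * hhb 2 u t 0 := ⟨_, rfl⟩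
  rw [← hZ0d] at hres
  have hZ0b : ‖Z0‖ ≤ A * EB * Real.exp (-u / 2) := by
    rw [hZ0d, norm_mul, Complex.norm_natCast]
    have e0 : (0 : ℂ) = ⟨0, 0⟩ := rfl
    rw [e0, norm_hhb, ← e0]
    have e1 : Real.exp (u * (0 - 1 / 2)) = Real.exp (-u / 2) := by
      congr 1; ring
    have e2 : Real.exp (2 * ((0 - 1 / 2) ^ 2 - (0 - t) ^ 2) / 2) ≤ EB := by
      rw [hEBdef]
      refine Real.exp_le_exp.mpr ?_
      have := sq_nonneg (0 - t)
      linarith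
    rw [e1]
    calc (mult F 0 : ℝ) * (Real.exp (-u / 2) * Real.exp (2 * ((0 - 1 / 2) ^ 2 - (0 - t) ^ 2) / 2))
        ≤ A * (Real.exp (-u / 2) * EB) := by
          refine mul_le_mul hF.z0 ?_ (by positivity) hA0.le
          exact mul_le_mul_of_nonneg_left e2 (Real.exp_pos _).le
      _ = _ := by ring
  obtain ⟨HB, hHB⟩ : ∃ HB : ℂ, HB = ∫ x in (-3 / 4 : ℝ)..(7 / 4),
    deriv F (⟨x, U1⟩ : ℂ) / F ⟨x, U1⟩ * hhb 2 u t ⟨x, U1⟩ := ⟨_, rfl⟩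
  obtain ⟨HT, hHT⟩ : ∃ HT : ℂ, HT = ∫ x in (-3 / 4 : ℝ)..(7 / 4),
    deriv F (⟨x, U2⟩ : ℂ) / F ⟨x, U2⟩ * hhb 2 u t ⟨x, U2⟩ := ⟨_, rfl⟩
  obtain ⟨R, hR⟩ : ∃ R : ℂ, R = ∫ y in U1..U2,
    deriv F (⟨7 / 4, y⟩ : ℂ) / F ⟨7 / 4, y⟩ * hhb 2 u t ⟨7 / 4, y⟩ := ⟨_, rfl⟩
  obtain ⟨Lf, hLf⟩ : ∃ Lf : ℂ, Lf = ∫ y in U1..U2,
    deriv F (⟨-3 / 4, y⟩ : ℂ) / F ⟨-3 / 4, y⟩ * hhb 2 u t ⟨-3 / 4, y⟩ := ⟨_, rfl⟩
  rw [← hHB, ← hHT, ← hR, ← hLf] at hres
  -- error scale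
  obtain ⟨Z, hZ⟩ : ∃ Z, Z = L ^ 2 * Real.exp (5 / 4 * u - κ ^ 2 / 2) := ⟨_, rfl⟩
  have hZe : Real.exp (5 / 4 * u) * (L ^ 2 * Real.exp (-2 * κ ^ 2 / 4)) = Z := by
    rw [hZ]
    have : Real.exp (5 / 4 * u - κ ^ 2 / 2) =
        Real.exp (5 / 4 * u) * Real.exp (-2 * κ ^ 2 / 4) := by
      rw [← Real.exp_add]; congr 1; ring
    rw [this]; ring
  have hZ0 : 0 ≤ Z := by rw [hZ]; positivity
  have hL2 : 1 ≤ L ^ 2 := one_le_pow₀ hL1
  have hhor : ∀ (U : ℝ) (x : ℝ), κ ^ 2 ≤ (U - t) ^ 2 → x ∈ Set.Icc (-3 / 4 : ℝ) (7 / 4) →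
      ‖hhb 2 u t (⟨x, U⟩ : ℂ)‖ ≤ Real.exp (5 / 4 * u) * (EB * Real.exp (-2 * κ ^ 2 / 4)) := by
    intro U x hU hx
    rw [norm_hhb]
    have h1 : Real.exp (u * (x - 1 / 2)) ≤ Real.exp (5 / 4 * u) := by
      apply Real.exp_le_exp.2
      have k1 := mul_le_mul_of_nonneg_left hx.2 hu
      have k2 : u * (x - 1 / 2) = u * x - 1 / 2 * u := by ring
      rw [k2]
      linarith only [k1]
    have h2 : Real.exp (2 * ((x - 1 / 2) ^ 2 - (U - t) ^ 2) / 2) ≤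
        EB * Real.exp (-2 * κ ^ 2 / 4) := by
      rw [hEBdef, ← Real.exp_add]
      apply Real.exp_le_exp.2
      have h5 : (x - 1 / 2) ^ 2 ≤ 25 / 16 := by
        have h3 := hx.1
        have h4 := hx.2
        have h6 : 0 ≤ (x + 3 / 4) * (7 / 4 - x) :=
          mul_nonneg (by linarith only [h3]) (by linarith only [h4])
        have h7 : (x + 3 / 4) * (7 / 4 - x) = 25 / 16 - (x - 1 / 2) ^ 2 := by ring
        linarith only [h6, h7]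
      linarith only [h5, hU, sq_nonneg κ]
    exact mul_le_mul h1 h2 (Real.exp_pos _).le (Real.exp_pos _).le
  have hHor : ∀ (U : ℝ), κ ^ 2 ≤ (U - t) ^ 2 → (∀ σ ∈ Set.Icc (-3 / 4 : ℝ) (7 / 4),
      F (⟨σ, U⟩ : ℂ) ≠ 0 ∧ ‖deriv F (⟨σ, U⟩ : ℂ) / F (⟨σ, U⟩ : ℂ)‖ ≤ A * L ^ 2) →
      ‖∫ x in (-3 / 4 : ℝ)..(7 / 4), deriv F (⟨x, U⟩ : ℂ) / F ⟨x, U⟩ * hhb 2 u t ⟨x, U⟩‖ ≤
        5 / 2 * A * EB * Z := by
    intro U hU hg
    have : ‖∫ x in (-3 / 4 : ℝ)..(7 / 4), deriv F (⟨x, U⟩ : ℂ) / F ⟨x, U⟩ *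
        hhb 2 u t ⟨x, U⟩‖ ≤
        (A * L ^ 2 * (Real.exp (5 / 4 * u) * (EB * Real.exp (-2 * κ ^ 2 / 4)))) *
        |(7 / 4 : ℝ) - (-3 / 4)| := by
      apply intervalIntegral.norm_integral_le_of_norm_le_const
      intro x hx
      rw [uIoc_of_le (by norm_num)] at hx
      have hx' : x ∈ Set.Icc (-3 / 4 : ℝ) (7 / 4) := ⟨hx.1.le, hx.2⟩
      rw [norm_mul]
      exact mul_le_mul (hg x hx').2 (hhor U x hU hx') (norm_nonneg _) (by positivity)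
    rw [show |(7 / 4 : ℝ) - (-3 / 4)| = 5 / 2 by norm_num] at this
    refine this.trans (le_of_eq ?_)
    rw [← hZe]
    ring
  have hHBb : ‖HB‖ ≤ 5 / 2 * A * EB * Z := by
    rw [hHB]
    refine hHor U1 ?_ hg1
    have k1 : κ ≤ t - U1 := by linarith only [hW1]
    have k2 := pow_le_pow_left₀ hW0 k1 2
    have k3 : (t - U1) ^ 2 = (U1 - t) ^ 2 := by ring
    rwa [k3] at k2
  have hHTb : ‖HT‖ ≤ 5 / 2 * A * EB * Z := by
    rw [hHT]
    refine hHor U2 ?_ hg2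
    have k1 : κ ≤ U2 - t := by linarith only [hW2]
    exact pow_le_pow_left₀ hW0 k1 2
  -- right side
  have hRD : ∀ y ∈ Icc U1 U2, deriv F (⟨7 / 4, y⟩ : ℂ) / F ⟨7 / 4, y⟩ = - DD a (⟨7 / 4, y⟩ : ℂ) := by
    intro y hy
    exact hld _ (by norm_num)
  have hReq : R = - ∫ y in U1..U2, DD a (⟨7 / 4, y⟩ : ℂ) * hhb 2 u t ⟨7 / 4, y⟩ := by
    rw [hR, ← intervalIntegral.integral_neg]
    apply intervalIntegral.integral_congr
    intro y hy
    rw [uIcc_of_le hU12.le] at hy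
    simp only
    rw [hRD y hy]; ring
  have heR : ‖(∫ v : ℝ, DD a (⟨7 / 4, v⟩ : ℂ) * hhb 2 u t (⟨7 / 4, v⟩ : ℂ)) -
      ∫ y in U1..U2, DD a (⟨7 / 4, y⟩ : ℂ) * hhb 2 u t ⟨7 / 4, y⟩‖ ≤
        A * EB * G * Z := by
    have hbd : ∀ v : ℝ, ‖DD a (⟨7 / 4, v⟩ : ℂ) * hhb 2 u t (⟨7 / 4, v⟩ : ℂ)‖ ≤
        (A * (Real.exp (5 / 4 * u) * EB)) * Real.exp (-2 * (v - t) ^ 2 / 2) := by
      intro v
      rw [norm_mul, norm_hhb, mul_assoc]
      apply mul_le_mul (hnDD v) _ (by positivity) hA0.le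
      have e1 : u * (7 / 4 - 1 / 2 : ℝ) = 5 / 4 * u := by ring
      have e2 : 2 * ((7 / 4 - 1 / 2 : ℝ) ^ 2 - (v - t) ^ 2) / 2 ≤ 2 + -2 * (v - t) ^ 2 / 2 := by
        norm_num; linarith
      rw [e1, mul_assoc, hEBdef, ← Real.exp_add (2 : ℝ)]
      exact mul_le_mul_of_nonneg_left (Real.exp_le_exp.2 e2) (Real.exp_pos _).le
    have := tail_boundb (((ha.DD_cont).mul (hhb_cont_line 2 u t (7 / 4))).aestronglyMeasurable)
      (by norm_num : (0 : ℝ) < 2) (by positivity) hbd hW0 hW1 hW2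
    refine this.trans ?_
    rw [← hGdef]
    calc A * (Real.exp (5 / 4 * u) * EB) * (G * Real.exp (-2 * κ ^ 2 / 4))
        = A * EB * G * (Real.exp (5 / 4 * u) * (1 * Real.exp (-2 * κ ^ 2 / 4))) := by ring
      _ ≤ A * EB * G * (Real.exp (5 / 4 * u) * (L ^ 2 * Real.exp (-2 * κ ^ 2 / 4))) := by gcongr
      _ = A * EB * G * Z := by rw [hZe]
  rw [ha.PPb_integral 2 (by norm_num) u t] at heR
  -- left side
  have hnorml : ∀ v : ℝ, ‖hhb 2 u t (⟨-3 / 4, v⟩ : ℂ)‖ ≤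
      (Real.exp (-u) * EB) * Real.exp (-2 * (v - t) ^ 2 / 2) := by
    intro v
    rw [norm_hhb]
    have e1 : u * (-3 / 4 - 1 / 2 : ℝ) ≤ -u := by linarith
    have e2 : 2 * ((-3 / 4 - 1 / 2 : ℝ) ^ 2 - (v - t) ^ 2) / 2 ≤ 2 + -2 * (v - t) ^ 2 / 2 := by
      norm_num; linarith
    rw [mul_assoc, hEBdef, ← Real.exp_add (2 : ℝ)]
    exact mul_le_mul (Real.exp_le_exp.2 e1) (Real.exp_le_exp.2 e2) (Real.exp_pos _).le
      (Real.exp_pos _).le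
  have hGl : (∫ v : ℝ, hhb 2 u t (⟨-3 / 4, v⟩ : ℂ)) =
      Real.sqrt (2 * Real.pi / 2) * (cexp (I * u * t) * Real.exp (-u ^ 2 / (2 * 2))) := by
    have h := gauss_lineb 2 (-3 / 4) u t 0 (by norm_num)
    simp only [ofReal_zero, neg_zero, zero_mul, Complex.exp_zero, mul_one, zero_div, Real.exp_zero,
      sub_zero, ofReal_one] at h
    rw [h, mul_assoc]
    congr 3; ring
  have heG : ‖(∫ v : ℝ, hhb 2 u t (⟨-3 / 4, v⟩ : ℂ)) - ∫ y in U1..U2, hhb 2 u t (⟨-3 / 4, y⟩ : ℂ)‖ ≤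
      (Real.exp (-u) * EB) * (G * Real.exp (-2 * κ ^ 2 / 4)) := by
    rw [hGdef]
    exact tail_boundb (hhb_cont_line 2 u t (-3 / 4)).aestronglyMeasurable (by norm_num)
      (by positivity) hnorml hW0 hW1 hW2
  obtain ⟨Lc, hLc⟩ : ∃ Lc : ℝ, Lc = Real.log (Q * (|τ₀| + 1)) := ⟨_, rfl⟩
  rw [← hLc]
  have hτ₀ := abs_nonneg τ₀
  have hLc1 : 1 ≤ Q * (|τ₀| + 1) := one_le_mul_of_one_le_of_one_le hQ (by linarith only [hτ₀])
  have hLc0 : 0 ≤ Lc := by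
    rw [hLc]
    exact Real.log_nonneg hLc1
  have hLcL : Lc ≤ L := by
    rw [hLc, hL]
    refine Real.log_le_log (by linarith only [hLc1]) (mul_le_mul_of_nonneg_left ?_
      (by linarith only [hQ]))
    have h1 := abs_sub_abs_le_abs_sub τ₀ t
    rw [abs_sub_comm] at h1
    linarith
  have hLe : ‖((d * Lc : ℝ) : ℂ) * ((∫ v : ℝ, hhb 2 u t (⟨-3 / 4, v⟩ : ℂ)) -
      ∫ y in U1..U2, hhb 2 u t (⟨-3 / 4, y⟩ : ℂ))‖ ≤ d * EB * G * Z := by
    rw [norm_mul, Complex.norm_real, Real.norm_eq_abs,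
      abs_of_nonneg (by positivity : (0:ℝ) ≤ d * Lc)]
    have huu : Real.exp (-u) ≤ Real.exp (5 / 4 * u) := Real.exp_le_exp.2 (by linarith)
    have hLL : Lc ≤ L ^ 2 := hLcL.trans (by
      rw [pow_two]
      exact le_mul_of_one_le_left (by linarith only [hL1]) hL1)
    have hδ := Real.exp_pos (-2 * κ ^ 2 / 4)
    calc d * Lc * ‖_‖ ≤ d * Lc * ((Real.exp (-u) * EB) * (G * Real.exp (-2 * κ ^ 2 / 4))) :=
          mul_le_mul_of_nonneg_left heG (by positivity)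
      _ = d * EB * G * (Real.exp (-u) * (Lc * Real.exp (-2 * κ ^ 2 / 4))) := by ring
      _ ≤ d * EB * G * (Real.exp (5 / 4 * u) * (L ^ 2 * Real.exp (-2 * κ ^ 2 / 4))) := by
          apply mul_le_mul_of_nonneg_left _ (by positivity)
          apply mul_le_mul huu _ (by positivity) (by positivity)
          exact mul_le_mul_of_nonneg_right hLL hδ.le
      _ = d * EB * G * Z := by rw [hZe]
  have hFl : ∀ y : ℝ, F (⟨-3 / 4, y⟩ : ℂ) ≠ 0 := by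
    intro y
    refine hF.nzl _ (by norm_num) (by norm_num) ?_
    intro h
    have := congrArg Complex.re h
    norm_num at this
  have hcontl : Continuous (fun y : ℝ => deriv F (⟨-3 / 4, y⟩ : ℂ) / F ⟨-3 / 4, y⟩) := by
    rw [continuous_iff_continuousAt]
    intro y
    have han := hanF (⟨-3 / 4, y⟩ : ℂ)
    have h1 : ContinuousAt (fun z => deriv F z / F z) (⟨-3 / 4, y⟩ : ℂ) :=
      han.deriv.continuousAt.div han.continuousAt (hFl y)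
    have h2 : ContinuousAt (fun y : ℝ => (⟨-3 / 4, y⟩ : ℂ)) y := by
      have : (fun y : ℝ => (⟨-3 / 4, y⟩ : ℂ)) = fun y : ℝ => ((-3 / 4 : ℝ) : ℂ) + y * I := by
        funext v; exact mk_eq _ v
      rw [this]; fun_prop
    exact ContinuousAt.comp (f := fun y : ℝ => (⟨-3 / 4, y⟩ : ℂ)) (x := y) h1 h2
  obtain ⟨E, hE⟩ : ∃ E : ℝ → ℂ, E = fun y => deriv F (⟨-3 / 4, y⟩ : ℂ) / F ⟨-3 / 4, y⟩ +
    ((d * Lc : ℝ) : ℂ) := ⟨_, rfl⟩
  have hEb : ∀ y, ‖E y‖ ≤ A + d * (1 + |y - t|) := by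
    intro y
    have h1 := hF.left y
    have h4 : |Real.log (Q * (|y| + 1)) - Lc| ≤ 1 + |y - t| := by
      have hQ0 : Q ≠ 0 := by linarith
      have e1 : Real.log (Q * (|y| + 1)) - Lc = Real.log (|y| + 1) - Real.log (|τ₀| + 1) := by
        rw [hLc, Real.log_mul hQ0 (by positivity), Real.log_mul hQ0 (by positivity)]
        ring
      rw [e1]
      refine (log_lip (abs_nonneg y) hτ₀).trans ?_
      refine (abs_abs_sub_abs_le_abs_sub y τ₀).trans ?_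
      have h5 := abs_sub_le y t τ₀
      linarith
    have h5 : E y = (deriv F (⟨-3 / 4, y⟩ : ℂ) / F ⟨-3 / 4, y⟩ +
        ((d * Real.log (Q * (|y| + 1)) : ℝ) : ℂ)) -
          ((d * (Real.log (Q * (|y| + 1)) - Lc) : ℝ) : ℂ) := by
      rw [hE]
      push_cast
      ring
    rw [h5]
    refine (norm_sub_le _ _).trans (add_le_add h1 ?_)
    rw [Complex.norm_real, Real.norm_eq_abs, abs_mul, abs_of_pos hd0]
    exact mul_le_mul_of_nonneg_left h4 hd0.le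
  have hcl := hhb_cont_line 2 u t (-3 / 4)
  have hcE : Continuous E := by rw [hE]; exact hcontl.add continuous_const
  have hLsplit : Lf = (∫ y in U1..U2, E y * hhb 2 u t (⟨-3 / 4, y⟩ : ℂ)) -
      ((d * Lc : ℝ) : ℂ) * ∫ y in U1..U2, hhb 2 u t (⟨-3 / 4, y⟩ : ℂ) := by
    rw [hLf, ← intervalIntegral.integral_const_mul, ← intervalIntegral.integral_sub]
    · apply intervalIntegral.integral_congr
      intro y _
      simp only [hE]
      ring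
    · exact (hcE.mul hcl).intervalIntegrable _ _
    · exact (continuous_const.mul hcl).intervalIntegrable _ _
  have heE : ‖∫ y in U1..U2, E y * hhb 2 u t (⟨-3 / 4, y⟩ : ℂ)‖ ≤
      (A + 2 * d) * EB * G1 * Real.exp (-u) := by
    have := int_boundb (f := fun y => E y * hhb 2 u t (⟨-3 / 4, y⟩ : ℂ)) (b := 1)
      (K := (A + 2 * d) * (Real.exp (-u) * EB))
      (t := t) (by norm_num) hU12.le (by positivity) (by
        intro v hv
        rw [norm_mul]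
        have h1 := mul_le_mul (hEb v) (hnorml v) (norm_nonneg _) (by positivity)
        refine h1.trans ?_
        obtain ⟨x, hx⟩ : ∃ x : ℝ, x = |v - t| := ⟨_, rfl⟩
        have hx0 : 0 ≤ x := by rw [hx]; exact abs_nonneg _
        have hx2 : (v - t) ^ 2 = x ^ 2 := by rw [hx, sq_abs]
        rw [← hx, hx2]
        have e1 : Real.exp (-2 * x ^ 2 / 2) =
            Real.exp (-1 * x ^ 2 / 2) * Real.exp (-1 * x ^ 2 / 2) := by
          rw [← Real.exp_add]; congr 1; ring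
        have e2 : (A + d * (1 + x)) * Real.exp (-1 * x ^ 2 / 2) ≤ A + 2 * d := by
          have k1 : Real.exp (-1 * x ^ 2 / 2) ≤ 1 := by
            rw [Real.exp_le_one_iff]
            have := sq_nonneg x
            linarith only [this]
          have k2 : x * Real.exp (-1 * x ^ 2 / 2) ≤ 1 := by
            have e5 : -1 * x ^ 2 / 2 = -(x ^ 2 / 2) := by ring
            rw [e5, Real.exp_neg, ← div_eq_mul_inv, div_le_one (Real.exp_pos _)]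
            have k7 := Real.add_one_le_exp (x ^ 2 / 2)
            have k8 := sq_nonneg (x - 1)
            have k9 : (x - 1) ^ 2 = x ^ 2 - 2 * x + 1 := by ring
            linarith only [k7, k8, k9]
          have k3 : (A + d * (1 + x)) * Real.exp (-1 * x ^ 2 / 2) =
              (A + d) * Real.exp (-1 * x ^ 2 / 2) + d * (x * Real.exp (-1 * x ^ 2 / 2)) := by
            ring
          rw [k3]
          have k4 := mul_le_mul_of_nonneg_left k1 (by positivity : 0 ≤ A + d)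
          have k5 := mul_le_mul_of_nonneg_left k2 hd0.le
          linarith
        rw [e1]
        calc (A + d * (1 + x)) * (Real.exp (-u) * EB * (Real.exp (-1 * x ^ 2 / 2) *
              Real.exp (-1 * x ^ 2 / 2))) =
            ((A + d * (1 + x)) * Real.exp (-1 * x ^ 2 / 2)) * ((Real.exp (-u) * EB) *
              Real.exp (-1 * x ^ 2 / 2)) := by ring
          _ ≤ (A + 2 * d) * ((Real.exp (-u) * EB) * Real.exp (-1 * x ^ 2 / 2)) :=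
              mul_le_mul_of_nonneg_right e2 (by positivity)
          _ = _ := by ring)
    rw [← hG1def] at this
    refine this.trans (le_of_eq ?_)
    ring
  -- assembling
  obtain ⟨IR, hIR⟩ : ∃ IR : ℂ, IR = ∫ y in U1..U2, DD a (⟨7 / 4, y⟩ : ℂ) *
    hhb 2 u t ⟨7 / 4, y⟩ := ⟨_, rfl⟩
  obtain ⟨IG, hIG⟩ : ∃ IG : ℂ, IG = ∫ y in U1..U2, hhb 2 u t (⟨-3 / 4, y⟩ : ℂ) := ⟨_, rfl⟩
  obtain ⟨IE, hIE⟩ : ∃ IE : ℂ, IE = ∫ y in U1..U2, E y * hhb 2 u t (⟨-3 / 4, y⟩ : ℂ) := ⟨_, rfl⟩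
  obtain ⟨GG, hGG⟩ : ∃ GG : ℂ, GG = ∫ v : ℝ, hhb 2 u t (⟨-3 / 4, v⟩ : ℂ) := ⟨_, rfl⟩
  rw [← PP1_eq_D] at heR
  rw [← hIR] at heR hReq
  rw [← hIG, ← hGG] at hLe
  rw [← hIG, ← hIE] at hLsplit
  rw [← hIE] at heE
  rw [← hGG] at hGl
  obtain ⟨Az, hAz⟩ : ∃ Az : ℂ, Az = A1 F U1 U2 u t := ⟨_, rfl⟩
  obtain ⟨P, hP⟩ : ∃ P : ℂ, P = PP1 a u t := ⟨_, rfl⟩
  obtain ⟨w, hw⟩ : ∃ w : ℂ, w = (Real.sqrt (2 * Real.pi / 2) : ℂ) := ⟨_, rfl⟩
  rw [← hAz] at hres ⊢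
  rw [← hP] at heR ⊢
  rw [← hw] at heR hGl
  have hwr : Real.sqrt (2 * Real.pi / 2) = Real.sqrt Real.pi := by
    congr 1; ring
  have hw1 : (((1 / (2 * Real.sqrt Real.pi) : ℝ)) : ℂ) = w / (2 * Real.pi) := by
    rw [hw, hwr]
    have : (1 / (2 * Real.sqrt Real.pi) : ℝ) = Real.sqrt Real.pi / (2 * Real.pi) := by
      have h1 : Real.sqrt Real.pi * Real.sqrt Real.pi = Real.pi :=
        Real.mul_self_sqrt (by positivity)
      have h2 : Real.sqrt Real.pi ≠ 0 := by positivity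
      have hpi : Real.pi ≠ 0 := Real.pi_ne_zero
      field_simp
      linarith only [h1]
    rw [this]; push_cast; ring
  have hpi0 : (Real.pi : ℂ) ≠ 0 := by exact_mod_cast Real.pi_ne_zero
  have hGl' : GG = w * (cexp (I * t * u) * Real.exp (-u ^ 2 / 4)) := by
    rw [hGl]
    congr 2
    · congr 1; ring
    · norm_num
  have hmain : Az - (1 / (2 * Real.sqrt Real.pi) : ℝ) * (((d * Lc : ℝ) : ℂ) * cexp (I * t * u) *
              Real.exp (-u ^ 2 / 4) - P) =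
      (1 / (2 * Real.pi)) * ((-I) * (HB - HT) + (w * P - IR) -
        ((d * Lc : ℝ) : ℂ) * (GG - IG) - IE) - Z0 := by
    have h3 : Az = (1 / (2 * Real.pi)) * ((-I) * (HB - HT) + R - Lf) - Z0 := by
      have hI : I ≠ 0 := I_ne_zero
      have h4 : 2 * Real.pi * I * (Az + Z0) = HB - HT + I * R - I * Lf := hres.symm
      field_simp
      have h5 : I * (2 * Real.pi * (Az + Z0)) = I * (-(I * (HB - HT)) + R - Lf) := by
        linear_combination h4 + (HB - HT) * I_sq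
      have h6 := mul_left_cancel₀ hI h5
      linear_combination h6
    rw [hw1, h3, hReq, hLsplit, hGl']
    field_simp
    ring
  rw [hmain]
  have hn1 : ‖(1 / (2 * Real.pi) : ℂ)‖ ≤ 1 := by
    rw [norm_div, norm_mul]
    simp only [norm_one, Complex.norm_ofNat, Complex.norm_real, Real.norm_eq_abs, abs_of_pos Real.pi_pos]
    rw [div_le_one (by positivity)]
    have := Real.pi_gt_three
    linarith
  have hn2 : ‖(-I) * (HB - HT) + (w * P - IR) - ((d * Lc : ℝ) : ℂ) * (GG - IG) - IE‖ ≤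
      5 / 2 * A * EB * Z + 5 / 2 * A * EB * Z + A * EB * G * Z +
      d * EB * G * Z + (A + 2 * d) * EB * G1 * Real.exp (-u) := by
    have h1 : ‖(-I) * (HB - HT)‖ ≤ 5 / 2 * A * EB * Z + 5 / 2 * A * EB * Z := by
      rw [norm_mul, norm_neg, norm_I, one_mul]
      exact (norm_sub_le _ _).trans (add_le_add hHBb hHTb)
    calc ‖_‖ ≤ ‖(-I) * (HB - HT) + (w * P - IR) - ((d * Lc : ℝ) : ℂ) * (GG - IG)‖ + ‖IE‖ :=
          norm_sub_le _ _
      _ ≤ (‖(-I) * (HB - HT) + (w * P - IR)‖ + ‖((d * Lc : ℝ) : ℂ) * (GG - IG)‖) + ‖IE‖ := by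
          gcongr; exact norm_sub_le _ _
      _ ≤ ((‖(-I) * (HB - HT)‖ + ‖(w * P - IR)‖) + ‖((d * Lc : ℝ) : ℂ) * (GG - IG)‖) + ‖IE‖ := by
          gcongr; exact norm_add_le _ _
      _ ≤ _ := by gcongr
  rw [← hZ]
  refine (norm_sub_le _ _).trans ?_
  rw [norm_mul]
  have hee : Real.exp (-u) ≤ Real.exp (-u / 2) := Real.exp_le_exp.mpr (by linarith)
  have h1 := Real.exp_pos (-u / 2)
  have h7 : ‖(1 / (2 * Real.pi) : ℂ)‖ * ‖(-I) * (HB - HT) + (w * P - IR) -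
      ((d * Lc : ℝ) : ℂ) * (GG - IG) - IE‖ ≤ 1 * (5 / 2 * A * EB * Z + 5 / 2 * A * EB * Z +
        A * EB * G * Z + d * EB * G * Z + (A + 2 * d) * EB * G1 * Real.exp (-u)) :=
    mul_le_mul hn1 hn2 (norm_nonneg _) zero_le_one
  refine (add_le_add h7 hZ0b).trans ?_
  have h8 : (A + 2 * d) * EB * G1 * Real.exp (-u) ≤ (A + 2 * d) * EB * G1 * Real.exp (-u / 2) :=
    mul_le_mul_of_nonneg_left hee (by positivity)
  have p1 : 0 ≤ A * EB := by positivity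
  have p2 : 0 ≤ A * EB * G := by positivity
  have p3 : 0 ≤ d * EB * G := by positivity
  have p4 : 0 ≤ (A + 2 * d) * EB * G1 := by positivity
  have e : (5 * A * EB + A * EB * G + d * EB * G + (A + 2 * d) * EB * G1 + A * EB + 1) *
      (Real.exp (-u / 2) + Z) = (5 * A * EB * Z + A * EB * G * Z + d * EB * G * Z +
        (A + 2 * d) * EB * G1 * Real.exp (-u / 2) + A * EB * Real.exp (-u / 2)) +
      (5 * (A * EB) * Real.exp (-u / 2) + (A * EB * G) * Real.exp (-u / 2) +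
        (d * EB * G) * Real.exp (-u / 2) + ((A + 2 * d) * EB * G1) * Z + (A * EB) * Z +
        (Real.exp (-u / 2) + Z)) := by ring
  have h9 : 0 ≤ 5 * (A * EB) * Real.exp (-u / 2) + (A * EB * G) * Real.exp (-u / 2) +
        (d * EB * G) * Real.exp (-u / 2) + ((A + 2 * d) * EB * G1) * Z + (A * EB) * Z +
        (Real.exp (-u / 2) + Z) := by positivity
  rw [e]
  linarith

end Pool.Agent.T9h27.Z
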