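import Pool.Agent.Y772.HC.Gam
import Pool.Agent.T9h27.Z.EFW

/-!
# The functional equation near the real axis (helper27)
-/

set_option autoImplicit false

open Complex Filter Topology Set MeasureTheory
open scoped ComplexConjugate

namespace Pool.Agent.T9h27.Z

open Pool.Agent.Y773 (GG FEd)
open H370 (mult mk_eq)
open H370.DL (refl analyticAt_refl order_refl logDeriv_refl Gammaℝ_ne_zero_of_im
  logDeriv_Gammaℝ_bound continuous_osc)
open Pool.Agent.Y772.FE (cpow_R_ne an_R)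

lemma gam_ne {s : ℂ} (h1 : -3 / 4 ≤ s.re) (h2 : s ≠ 0) : Gammaℝ s ≠ 0 := by
  rw [Ne, Gammaℝ_eq_zero_iff]
  rintro ⟨n, hn⟩
  rcases Nat.eq_zero_or_pos n with h | h
  · apply h2
    rw [hn, h]
    simp
  · have h3 : s.re = -(2 * n) := by rw [hn]; simp
    have h4 : (1 : ℝ) ≤ n := by exact_mod_cast h
    linarith

lemma gam_an {s : ℂ} (hs : Gammaℝ s ≠ 0) : AnalyticAt ℂ Gammaℝ s := by
  have h1 : AnalyticAt ℂ (fun s : ℂ => (Gammaℝ s)⁻¹) s := differentiable_Gammaℝ_inv.analyticAt s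
  have h2 := h1.inv (inv_ne_zero hs)
  refine h2.congr (Eventually.of_forall fun z => ?_)
  simp

section

variable {ι : Type} [Fintype ι] {R : ℝ} {e : ι → ℕ}

omit [Fintype ι] in
lemma shift_ok (he : ∀ i, e i ≤ 1) {s : ℂ} (h1 : -3 / 4 ≤ s.re) (h2 : s ≠ 0) (i : ι) :
    -3 / 4 ≤ (s + e i).re ∧ s + e i ≠ 0 := by
  have hre : (s + e i).re = s.re + e i := by simp
  have h3 : (0 : ℝ) ≤ e i := Nat.cast_nonneg _
  refine ⟨by rw [hre]; linarith, ?_⟩
  intro h
  have h4 := he i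
  interval_cases h5 : e i
  · apply h2
    simpa using h
  · have h6 := congrArg Complex.re h
    rw [hre] at h6
    simp at h6
    linarith

lemma GG_ne (hR : 0 < R) (he : ∀ i, e i ≤ 1) {s : ℂ} (h1 : -3 / 4 ≤ s.re) (h2 : s ≠ 0) :
    GG R e s ≠ 0 := by
  unfold GG
  refine mul_ne_zero (cpow_R_ne hR _) (Finset.prod_ne_zero_iff.2 fun i _ => ?_)
  obtain ⟨k1, k2⟩ := shift_ok he h1 h2 i
  exact gam_ne k1 k2

lemma gsh_an (he : ∀ i, e i ≤ 1) {s : ℂ} (h1 : -3 / 4 ≤ s.re) (h2 : s ≠ 0) (i : ι) :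
    AnalyticAt ℂ (fun z : ℂ => Gammaℝ (z + e i)) s := by
  obtain ⟨k1, k2⟩ := shift_ok he h1 h2 i
  have h3 : AnalyticAt ℂ (fun z : ℂ => z + (e i : ℂ)) s := by fun_prop
  have h4 : AnalyticAt ℂ Gammaℝ ((fun z : ℂ => z + (e i : ℂ)) s) := gam_an (gam_ne k1 k2)
  exact AnalyticAt.fun_comp (g := Gammaℝ) (f := fun z : ℂ => z + (e i : ℂ)) h4 h3

lemma GG_an (hR : 0 < R) (he : ∀ i, e i ≤ 1) {s : ℂ} (h1 : -3 / 4 ≤ s.re) (h2 : s ≠ 0) :
    AnalyticAt ℂ (GG R e) s := by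
  have h3 : AnalyticAt ℂ (fun z : ℂ => ∏ i, Gammaℝ (z + e i)) s :=
    Finset.analyticAt_fun_prod _ fun i _ => gsh_an he h1 h2 i
  exact (an_R hR s).mul h3

lemma logDeriv_GG (hR : 0 < R) (he : ∀ i, e i ≤ 1) {s : ℂ} (h1 : -3 / 4 ≤ s.re) (h2 : s ≠ 0) :
    logDeriv (GG R e) s = (Real.log R : ℂ) / 2 + ∑ i, logDeriv Gammaℝ (s + e i) := by
  have hRc : (R : ℂ) ≠ 0 := ofReal_ne_zero.mpr hR.ne'
  have k1 : logDeriv (fun z : ℂ => (R : ℂ) ^ (z / 2)) s = (Real.log R : ℂ) / 2 := by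
    have h2 : HasDerivAt (fun z : ℂ => (R : ℂ) ^ (z / 2))
        ((R : ℂ) ^ (s / 2) * Complex.log (R : ℂ) * (1 / 2)) s :=
      ((hasDerivAt_id s).div_const 2).const_cpow (Or.inl hRc)
    rw [logDeriv_apply, h2.deriv, ← Complex.ofReal_log hR.le]
    have := cpow_R_ne hR (s / 2)
    field_simp
  have hne : ∀ i, Gammaℝ (s + e i) ≠ 0 := fun i => by
    obtain ⟨q1, q2⟩ := shift_ok he h1 h2 i
    exact gam_ne q1 q2
  have h3 : ∀ i, logDeriv (fun z : ℂ => Gammaℝ (z + e i)) s =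
      logDeriv Gammaℝ (s + e i) := by
    intro i
    have ha : DifferentiableAt ℂ Gammaℝ (s + e i) := (gam_an (hne i)).differentiableAt
    have hb : HasDerivAt (fun z : ℂ => z + (e i : ℂ)) 1 s := (hasDerivAt_id s).add_const _
    have hc : HasDerivAt (fun z : ℂ => Gammaℝ (z + e i)) (deriv Gammaℝ (s + e i)) s := by
      simpa [Function.comp_def] using HasDerivAt.comp s ha.hasDerivAt hb
    rw [logDeriv_apply, hc.deriv, logDeriv_apply]
  have h4 : logDeriv (fun z : ℂ => ∏ i, Gammaℝ (z + e i)) s =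
      ∑ i, logDeriv (fun z : ℂ => Gammaℝ (z + e i)) s :=
    logDeriv_prod (f := fun i (z : ℂ) => Gammaℝ (z + e i))
      (fun i _ => hne i) (fun i _ => (gsh_an he h1 h2 i).differentiableAt)
  have h5 : logDeriv (GG R e) s = logDeriv (fun z : ℂ => (R : ℂ) ^ (z / 2)) s +
      logDeriv (fun z : ℂ => ∏ i, Gammaℝ (z + e i)) s := by
    refine logDeriv_mul s (cpow_R_ne hR _) ?_ (an_R hR s).differentiableAt ?_
    · exact Finset.prod_ne_zero_iff.2 fun i _ => hne i
    · exact (Finset.analyticAt_fun_prod _ fun i _ => gsh_an he h1 h2 i).differentiableAt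
  rw [h5, k1, h4, Finset.sum_congr rfl fun i _ => h3 i]

/-- the completed function -/
noncomputable def Lam (R : ℝ) (e : ι → ℕ) (F : ℂ → ℂ) (s : ℂ) : ℂ := GG R e s * F s

lemma Lam_an {F : ℂ → ℂ} (hF : Differentiable ℂ F) (hR : 0 < R) (he : ∀ i, e i ≤ 1) {s : ℂ}
    (h1 : -3 / 4 ≤ s.re) (h2 : s ≠ 0) : AnalyticAt ℂ (Lam R e F) s :=
  (GG_an hR he h1 h2).mul (hF.analyticAt s)

lemma osc_re (s : ℂ) : (1 - conj s).re = 1 - s.re := by simp
lemma osc_im (s : ℂ) : (1 - conj s).im = s.im := by simp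

lemma osc_ne {s : ℂ} (h : s ≠ 1) : (1 : ℂ) - conj s ≠ 0 := by
  intro h0
  apply h
  have h1 := congrArg Complex.re h0
  have h2 := congrArg Complex.im h0
  rw [osc_re] at h1
  rw [osc_im] at h2
  apply Complex.ext
  · simp only [Complex.zero_re] at h1
    simp only [Complex.one_re]
    linarith
  · simpa using h2

/-- the functional equation, including the real axis -/
lemma fe_all {F : ℂ → ℂ} (hF : FEd R e F) (hR : 0 < R) : ∃ w : ℂ, w ≠ 0 ∧ ∀ s : ℂ,
    -3 / 4 ≤ s.re → s.re ≤ 7 / 4 → s ≠ 0 → s ≠ 1 → Lam R e F s = w * refl (Lam R e F) s := by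
  obtain ⟨w, hw, hfe⟩ := hF.fe
  have hw0 : w ≠ 0 := by
    intro h
    rw [h, norm_zero] at hw
    exact zero_ne_one hw
  refine ⟨w, hw0, fun s h1 h2 h3 h4 => ?_⟩
  have key : ∀ z : ℂ, z.im ≠ 0 → Lam R e F z = w * refl (Lam R e F) z := fun z hz => hfe z hz
  by_cases him : s.im ≠ 0
  · exact key s him
  push Not at him
  -- approach from above
  have hu : Tendsto (fun n : ℕ => s + (1 / ((n : ℂ) + 1)) * I) atTop (𝓝 s) := by
    have h5 : Tendsto (fun n : ℕ => (1 / ((n : ℂ) + 1))) atTop (𝓝 0) :=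
      tendsto_one_div_add_atTop_nhds_zero_nat
    have h6 := (h5.mul_const I).const_add s
    simpa using h6
  have c1 : ContinuousAt (Lam R e F) s := (Lam_an hF.diff hR hF.he h1 h3).continuousAt
  have c2 : ContinuousAt (fun z => w * refl (Lam R e F) z) s :=
    continuousAt_const.mul (analyticAt_refl (Lam_an hF.diff hR hF.he
      (by rw [osc_re]; linarith) (osc_ne h4))).continuousAt
  refine tendsto_nhds_unique (c1.tendsto.comp hu) ?_
  refine (c2.tendsto.comp hu).congr fun n => ?_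
  refine (key _ ?_).symm
  have h7 : (1 / ((n : ℂ) + 1)) * I = ((1 / ((n : ℝ) + 1) : ℝ) : ℂ) * I := by push_cast; rfl
  change (s + (1 / ((n : ℂ) + 1)) * I).im ≠ 0
  rw [h7, Complex.add_im, him, zero_add, Complex.im_ofReal_mul, Complex.I_im, mul_one]
  positivity

lemma strip_eventually {s : ℂ} (h1 : -3 / 4 < s.re) (h2 : s.re < 7 / 4) (h3 : s ≠ 0)
    (h4 : s ≠ 1) : ∀ᶠ z in 𝓝 s, -3 / 4 ≤ z.re ∧ z.re ≤ 7 / 4 ∧ z ≠ 0 ∧ z ≠ 1 := by
  have e1 : ∀ᶠ z in 𝓝 s, -3 / 4 < z.re :=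
    (continuous_re.continuousAt.tendsto).eventually_const_lt h1
  have e2 : ∀ᶠ z in 𝓝 s, z.re < 7 / 4 :=
    (continuous_re.continuousAt.tendsto).eventually_lt_const h2
  filter_upwards [e1, e2, isOpen_ne.mem_nhds h3, isOpen_ne.mem_nhds h4] with z z1 z2 z3 z4
  exact ⟨z1.le, z2.le, z3, z4⟩

/-- the order at a reflected point -/
lemma order_symm {F : ℂ → ℂ} (hF : FEd R e F) (hR : 0 < R) {s : ℂ} (h1 : 0 < s.re)
    (h2 : s.re < 1) : analyticOrderAt F (1 - conj s) = analyticOrderAt F s := by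
  obtain ⟨w, hw, hfe⟩ := fe_all hF hR
  have hs0 : s ≠ 0 := by
    rintro rfl
    simp at h1
  have hs1 : s ≠ 1 := by
    rintro rfl
    simp at h2
  have ho0 := osc_ne hs1
  have e1 : Lam R e F =ᶠ[𝓝 s] (fun _ => w) * refl (Lam R e F) := by
    filter_upwards [strip_eventually (by linarith) (by linarith) hs0 hs1] with z hz
    exact hfe z hz.1 hz.2.1 hz.2.2.1 hz.2.2.2
  have aL := Lam_an hF.diff hR hF.he (s := 1 - conj s) (by rw [osc_re]; linarith) ho0
  have key : ∀ z : ℂ, -3 / 4 ≤ z.re → z ≠ 0 →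
      analyticOrderAt (Lam R e F) z = analyticOrderAt F z := by
    intro z hz1 hz2
    have h5 := analyticOrderAt_mul (GG_an hR hF.he hz1 hz2) (hF.diff.analyticAt z)
    rw [(GG_an hR hF.he hz1 hz2).analyticOrderAt_eq_zero.mpr (GG_ne hR hF.he hz1 hz2),
      zero_add] at h5
    exact h5
  have h6 := analyticOrderAt_congr e1
  rw [analyticOrderAt_mul analyticAt_const (analyticAt_refl aL),
    (analyticAt_const (x := s) (v := w)).analyticOrderAt_eq_zero.mpr hw, zero_add,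
    order_refl aL] at h6
  rw [← key (1 - conj s) (by rw [osc_re]; linarith) ho0, ← key s (by linarith) hs0]
  exact h6.symm

/-- no zeros to the left, except at `0` -/
lemma left_ne {F : ℂ → ℂ} (hF : FEd R e F) (hR : 0 < R) (hnz : ∀ s : ℂ, 1 ≤ s.re → F s ≠ 0)
    {s : ℂ} (h1 : -3 / 4 ≤ s.re) (h2 : s.re ≤ 0) (h3 : s ≠ 0) : F s ≠ 0 := by
  obtain ⟨w, hw, hfe⟩ := fe_all hF hR
  have hs1 : s ≠ 1 := by
    rintro rfl
    norm_num at h2
  have h4 := hfe s h1 (by linarith) h3 hs1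
  intro h5
  unfold Lam at h4
  rw [h5, mul_zero] at h4
  have h6 : refl (Lam R e F) s ≠ 0 := by
    unfold H370.DL.refl
    rw [map_ne_zero]
    exact mul_ne_zero (GG_ne hR hF.he (by rw [osc_re]; linarith) (osc_ne hs1))
      (hnz _ (by rw [osc_re]; linarith))
  exact mul_ne_zero hw h6 h4.symm

/-- the order of `1 / Γ_ℝ` at `0` -/
lemma ord_inv_gam : analyticOrderAt (fun s : ℂ => (Gammaℝ s)⁻¹) 0 ≤ 1 := by
  by_contra hcon
  have han : AnalyticAt ℂ (fun s : ℂ => (Gammaℝ s)⁻¹) 0 := differentiable_Gammaℝ_inv.analyticAt 0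
  have h2 : ((2 : ℕ) : ℕ∞) ≤ analyticOrderAt (fun s : ℂ => (Gammaℝ s)⁻¹) 0 := by
    push Not at hcon
    have := Order.add_one_le_of_lt hcon
    exact_mod_cast this
  rw [natCast_le_analyticOrderAt han] at h2
  obtain ⟨h, hh, heq⟩ := h2
  have t1 : Tendsto (fun z : ℂ => z * h z * (z * Gammaℝ z)) (𝓝[≠] 0) (𝓝 (0 * h 0 * 2)) := by
    refine Tendsto.mul (Tendsto.mul ?_ ?_) Gammaℝ_residue_zero
    · exact (continuous_id.tendsto (0 : ℂ)).mono_left nhdsWithin_le_nhds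
    · exact hh.continuousAt.tendsto.mono_left nhdsWithin_le_nhds
  have hev : ∀ᶠ z in 𝓝[≠] (0 : ℂ), z * h z * (z * Gammaℝ z) = 1 := by
    have e1 := heq.filter_mono (nhdsWithin_le_nhds (s := {0}ᶜ))
    have e2 : ∀ᶠ z in 𝓝[≠] (0 : ℂ), z ≠ 0 := self_mem_nhdsWithin
    have e3 : ∀ᶠ z in 𝓝[≠] (0 : ℂ), -3 / 4 ≤ z.re := by
      have : ∀ᶠ z in 𝓝 (0 : ℂ), -3 / 4 < z.re :=
        (continuous_re.continuousAt.tendsto).eventually_const_lt (by norm_num)
      exact (this.mono fun z hz => hz.le).filter_mono nhdsWithin_le_nhds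
    filter_upwards [e1, e2, e3] with z z1 z2 z3
    have z4 := gam_ne z3 z2
    rw [sub_zero, smul_eq_mul] at z1
    have : z * h z * (z * Gammaℝ z) = (z ^ 2 * h z) * Gammaℝ z := by ring
    rw [this, ← z1, inv_mul_cancel₀ z4]
  have t2 := (tendsto_congr' hev).mp t1
  have := tendsto_nhds_unique t2 tendsto_const_nhds
  simp at this

/-- the order at `0` -/
lemma mult_zero_le {F : ℂ → ℂ} (hF : FEd R e F) (hR : 0 < R) (hnz : ∀ s : ℂ, 1 ≤ s.re → F s ≠ 0) :
    mult F 0 ≤ Fintype.card ι := by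
  obtain ⟨w, hw, hfe⟩ := fe_all hF hR
  have he := hF.he
  -- the reciprocal of the gamma factor
  obtain ⟨g, hg⟩ : ∃ g : ι → ℂ → ℂ, ∀ i z, g i z = (Gammaℝ (z + e i))⁻¹ := ⟨_, fun _ _ => rfl⟩
  have hgan : ∀ i, AnalyticAt ℂ (g i) 0 := by
    intro i
    have h1 : g i = fun z : ℂ => (Gammaℝ (z + e i))⁻¹ := funext fun z => hg i z
    rw [h1]
    have h2 : Differentiable ℂ fun z : ℂ => (Gammaℝ (z + e i))⁻¹ :=
      differentiable_Gammaℝ_inv.comp (differentiable_id.add_const _)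
    exact h2.analyticAt 0
  have hgo : ∀ i, analyticOrderAt (g i) 0 ≤ 1 := by
    intro i
    have h1 := he i
    have h0 : g i = fun z : ℂ => (Gammaℝ (z + e i))⁻¹ := funext fun z => hg i z
    interval_cases h5 : e i
    · rw [h0]
      simp only [Nat.cast_zero, add_zero]
      exact ord_inv_gam
    · have h6 : g i 0 ≠ 0 := by
        rw [hg, h5]
        exact inv_ne_zero (gam_ne (by simp; norm_num) (by simp))
      rw [(hgan i).analyticOrderAt_eq_zero.mpr h6]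
      exact zero_le_one
  have h1n : (1 : ℂ) - conj 0 = 1 := by simp
  have aL : AnalyticAt ℂ (Lam R e F) (1 - conj 0) := by
    rw [h1n]
    exact Lam_an hF.diff hR he (by norm_num) one_ne_zero
  have aR : AnalyticAt ℂ (fun z : ℂ => (R : ℂ) ^ (-(z / 2))) 0 := by
    have hRc : (R : ℂ) ≠ 0 := ofReal_ne_zero.mpr hR.ne'
    have : Differentiable ℂ fun z : ℂ => (R : ℂ) ^ (-(z / 2)) := fun z =>
      DifferentiableAt.const_cpow (by fun_prop) (Or.inl hRc)
    exact this.analyticAt 0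
  have hprod : AnalyticAt ℂ (fun z : ℂ => ∏ i, g i z) 0 :=
    Finset.analyticAt_fun_prod _ fun i _ => hgan i
  obtain ⟨X, hX⟩ : ∃ X : ℂ → ℂ, X = (fun z => (w * refl (Lam R e F) z) * (R : ℂ) ^ (-(z / 2))) :=
    ⟨_, rfl⟩
  have aX : AnalyticAt ℂ X 0 := by
    rw [hX]
    exact (analyticAt_const.mul (analyticAt_refl aL)).mul aR
  have hX0 : X 0 ≠ 0 := by
    rw [hX]
    refine mul_ne_zero (mul_ne_zero hw ?_) (by
      have hRc : (R : ℂ) ≠ 0 := ofReal_ne_zero.mpr hR.ne'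
      rw [Complex.cpow_def_of_ne_zero hRc]
      exact Complex.exp_ne_zero _)
    unfold H370.DL.refl
    rw [map_ne_zero, h1n]
    exact mul_ne_zero (GG_ne hR he (by norm_num) one_ne_zero) (hnz 1 (by simp))
  have hev : ∀ᶠ z in 𝓝[≠] (0 : ℂ), F z = X z * ∏ i, g i z := by
    have e1 : ∀ᶠ z in 𝓝[≠] (0 : ℂ), -3 / 4 ≤ z.re := by
      have : ∀ᶠ z in 𝓝 (0 : ℂ), -3 / 4 < z.re :=
        (continuous_re.continuousAt.tendsto).eventually_const_lt (by norm_num)
      exact (this.mono fun z hz => hz.le).filter_mono nhdsWithin_le_nhds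
    have e2 : ∀ᶠ z in 𝓝[≠] (0 : ℂ), z.re < 1 := by
      have : ∀ᶠ z in 𝓝 (0 : ℂ), z.re < 1 :=
        (continuous_re.continuousAt.tendsto).eventually_lt_const (by norm_num)
      exact this.filter_mono nhdsWithin_le_nhds
    have e3 : ∀ᶠ z in 𝓝[≠] (0 : ℂ), z ≠ 0 := self_mem_nhdsWithin
    filter_upwards [e1, e2, e3] with z z1 z2 z3
    have hz1 : z ≠ 1 := by
      rintro rfl
      simp at z2
    have h4 := hfe z z1 (by linarith) z3 hz1
    have hRc : (R : ℂ) ≠ 0 := ofReal_ne_zero.mpr hR.ne'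
    rw [hX]
    simp only
    rw [← h4]
    unfold Lam GG
    simp only [hg]
    rw [Finset.prod_inv_distrib, Complex.cpow_neg]
    have k1 := cpow_R_ne hR (z / 2)
    have k2 : (∏ i, Gammaℝ (z + e i)) ≠ 0 := Finset.prod_ne_zero_iff.2 fun i _ => by
      obtain ⟨q1, q2⟩ := shift_ok he z1 z3 i
      exact gam_ne q1 q2
    field_simp
  have hev2 : F =ᶠ[𝓝 0] fun z => X z * ∏ i, g i z := by
    exact ((hF.diff.analyticAt 0).frequently_eq_iff_eventually_eq (aX.mul hprod)).mp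
      hev.frequently
  have hord : analyticOrderAt F 0 ≤ Fintype.card ι := by
    have hev3 : F =ᶠ[𝓝 0] X * fun z => ∏ i, g i z := hev2
    rw [analyticOrderAt_congr hev3, analyticOrderAt_mul aX hprod,
      aX.analyticOrderAt_eq_zero.mpr hX0, zero_add]
    have h7 : ∀ t : Finset ι, analyticOrderAt (fun z : ℂ => ∏ i ∈ t, g i z) 0 ≤ t.card := by
      classical
      intro t
      induction t using Finset.induction_on with
      | empty =>
        simp only [Finset.prod_empty, Finset.card_empty, Nat.cast_zero]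
        rw [(analyticAt_const (x := (0 : ℂ)) (v := (1 : ℂ))).analyticOrderAt_eq_zero.mpr
          one_ne_zero]
      | insert i t hit ih =>
        have h8 : (fun z : ℂ => ∏ j ∈ insert i t, g j z) = (g i) * fun z => ∏ j ∈ t, g j z := by
          funext z
          rw [Finset.prod_insert hit]
          rfl
        rw [h8, analyticOrderAt_mul (hgan i) (Finset.analyticAt_fun_prod _ fun j _ => hgan j),
          Finset.card_insert_of_notMem hit, Nat.cast_add, Nat.cast_one, add_comm]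
        exact add_le_add ih (hgo i)
    exact (h7 Finset.univ).trans (by rw [Finset.card_univ])
  unfold mult analyticOrderNatAt
  exact ENat.toNat_le_of_le_natCast hord

/-- the logarithmic derivative of `Γ_ℝ` on vertical lines -/
lemma gam_line {σ : ℝ} (h1 : -3 / 4 ≤ σ) (h2 : σ ≤ 4) (h0 : σ ≠ 0) : ∃ C : ℝ, 0 ≤ C ∧ ∀ y : ℝ,
    ‖logDeriv Gammaℝ (⟨σ, y⟩ : ℂ) - ((1 / 2 * Real.log (|y| + 1) : ℝ) : ℂ)‖ ≤ C := by
  obtain ⟨C, hC0, hC⟩ := logDeriv_Gammaℝ_bound
  have hne : ∀ y : ℝ, (⟨σ, y⟩ : ℂ) ≠ 0 := fun y h => h0 (congrArg Complex.re h)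
  have hcont : Continuous fun y : ℝ => ‖logDeriv Gammaℝ (⟨σ, y⟩ : ℂ) -
      ((1 / 2 * Real.log (|y| + 1) : ℝ) : ℂ)‖ := by
    refine Continuous.norm (Continuous.sub ?_ ?_)
    · rw [continuous_iff_continuousAt]
      intro y
      have han := gam_an (gam_ne (s := (⟨σ, y⟩ : ℂ)) h1 (hne y))
      have k1 : ContinuousAt (fun z => deriv Gammaℝ z / Gammaℝ z) (⟨σ, y⟩ : ℂ) :=
        han.deriv.continuousAt.div han.continuousAt (gam_ne h1 (hne y))
      have k2 : ContinuousAt (fun y : ℝ => (⟨σ, y⟩ : ℂ)) y := by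
        have : (fun y : ℝ => (⟨σ, y⟩ : ℂ)) = fun y : ℝ => (σ : ℂ) + y * I := by
          funext v; exact mk_eq _ v
        rw [this]; fun_prop
      exact ContinuousAt.comp (f := fun y : ℝ => (⟨σ, y⟩ : ℂ)) (x := y) k1 k2
    · refine Complex.continuous_ofReal.comp (continuous_const.mul ?_)
      exact Continuous.log (by fun_prop) fun y => by positivity
  obtain ⟨C2, hC2⟩ := (isCompact_Icc (a := (-1 : ℝ)) (b := 1)).bddAbove_image hcont.continuousOn
  refine ⟨max (C + 2) C2, le_max_of_le_left (by linarith), fun y => ?_⟩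
  by_cases hy : |y| ≤ 1
  · refine le_trans ?_ (le_max_right _ _)
    exact hC2 (mem_image_of_mem _ (abs_le.mp hy))
  · refine le_trans ?_ (le_max_left _ _)
    push Not at hy
    have h3 := Pool.Agent.Y772.HC.logDeriv_left hC (z := (⟨σ, y⟩ : ℂ)) h1 h2 hy.le
    change ‖logDeriv Gammaℝ (⟨σ, y⟩ : ℂ) - 1 / 2 * Real.log |y|‖ ≤ C + 1 at h3
    have h4 : |Real.log |y| - Real.log (|y| + 1)| ≤ 1 := by
      have p1 : 0 < |y| := by linarith
      have q1 : Real.log |y| ≤ Real.log (|y| + 1) := Real.log_le_log p1 (by linarith)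
      have q2 : Real.log (|y| + 1) - Real.log |y| ≤ 1 := by
        rw [← Real.log_div (by positivity) p1.ne']
        refine (Real.log_le_sub_one_of_pos (by positivity)).trans ?_
        rw [sub_le_iff_le_add, div_le_iff₀ p1]
        linarith
      rw [abs_le]
      constructor <;> linarith
    have h5 : logDeriv Gammaℝ (⟨σ, y⟩ : ℂ) - ((1 / 2 * Real.log (|y| + 1) : ℝ) : ℂ) =
        (logDeriv Gammaℝ (⟨σ, y⟩ : ℂ) - 1 / 2 * Real.log |y|) +
          ((1 / 2 * (Real.log |y| - Real.log (|y| + 1)) : ℝ) : ℂ) := by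
      push_cast
      ring
    rw [h5]
    refine (norm_add_le _ _).trans ?_
    rw [Complex.norm_real, Real.norm_eq_abs, abs_mul]
    have h6 : |(1 / 2 : ℝ)| = 1 / 2 := by norm_num
    rw [h6]
    linarith

/-- the left line -/
lemma left_line : ∃ C : ℝ, 0 ≤ C ∧ ∀ (ι : Type) [Fintype ι] (N Q B : ℝ) (e : ι → ℕ) (F : ℂ → ℂ),
    1 ≤ N → 1 ≤ Q → FEd (N * Q ^ Fintype.card ι) e F → (∀ s : ℂ, 1 ≤ s.re → F s ≠ 0) →
    (∀ y : ℝ, ‖deriv F (⟨7 / 4, y⟩ : ℂ) / F (⟨7 / 4, y⟩ : ℂ)‖ ≤ B) → ∀ y : ℝ,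
    ‖deriv F (⟨-3 / 4, y⟩ : ℂ) / F (⟨-3 / 4, y⟩ : ℂ) +
      (((Fintype.card ι : ℝ) * Real.log (Q * (|y| + 1)) : ℝ) : ℂ)‖ ≤
      Real.log N + Fintype.card ι * C + B := by
  obtain ⟨C1, hC10, hC1⟩ := gam_line (σ := -3 / 4) (by norm_num) (by norm_num) (by norm_num)
  obtain ⟨C2, hC20, hC2⟩ := gam_line (σ := 1 / 4) (by norm_num) (by norm_num) (by norm_num)
  obtain ⟨C3, hC30, hC3⟩ := gam_line (σ := 7 / 4) (by norm_num) (by norm_num) (by norm_num)
  obtain ⟨C4, hC40, hC4⟩ := gam_line (σ := 11 / 4) (by norm_num) (by norm_num) (by norm_num)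
  refine ⟨C1 + C2 + C3 + C4, by positivity, ?_⟩
  intro ι _ N Q B e F hN hQ hF hnz hB y
  obtain ⟨d, hd⟩ : ∃ d : ℕ, d = Fintype.card ι := ⟨_, rfl⟩
  have hR : 0 < N * Q ^ Fintype.card ι := by positivity
  obtain ⟨R, hRd⟩ : ∃ R : ℝ, R = N * Q ^ Fintype.card ι := ⟨_, rfl⟩
  rw [← hRd] at hF hR
  obtain ⟨w, hw, hfe⟩ := fe_all hF hR
  have he := hF.he
  obtain ⟨s, hs⟩ : ∃ s : ℂ, s = (⟨-3 / 4, y⟩ : ℂ) := ⟨_, rfl⟩
  have hsre : s.re = -3 / 4 := by rw [hs]
  have hs0 : s ≠ 0 := by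
    intro h
    rw [h] at hsre
    norm_num at hsre
  have hs1 : s ≠ 1 := by
    intro h
    rw [h] at hsre
    norm_num at hsre
  have hsr : 1 - conj s = (⟨7 / 4, y⟩ : ℂ) := by
    rw [hs]
    apply Complex.ext
    · rw [osc_re]; norm_num
    · rw [osc_im]
  have hr0 : (⟨7 / 4, y⟩ : ℂ) ≠ 0 := by
    intro h
    have := congrArg Complex.re h
    norm_num at this
  -- the identity holds near the line, from the right and by the identity theorem
  have aF := hF.diff.analyticAt s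
  have aLs : AnalyticAt ℂ (Lam R e F) s := Lam_an hF.diff hR he (by rw [hsre]) hs0
  have aLr : AnalyticAt ℂ (Lam R e F) (1 - conj s) := by
    rw [hsr]
    exact Lam_an hF.diff hR he (by norm_num) hr0
  have hfre : ∃ᶠ z in 𝓝[≠] s, Lam R e F z = w * refl (Lam R e F) z := by
    have hu : Tendsto (fun n : ℕ => s + (1 / ((n : ℂ) + 1))) atTop (𝓝[≠] s) := by
      rw [tendsto_nhdsWithin_iff]
      refine ⟨?_, Eventually.of_forall fun n => ?_⟩
      · have h5 : Tendsto (fun n : ℕ => (1 / ((n : ℂ) + 1))) atTop (𝓝 0) :=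
          tendsto_one_div_add_atTop_nhds_zero_nat
        simpa using h5.const_add s
      · simp only [mem_compl_iff, mem_singleton_iff, add_eq_left]
        have : (n : ℂ) + 1 ≠ 0 := Nat.cast_add_one_ne_zero n
        exact one_div_ne_zero this
    refine hu.frequently ?_
    refine Eventually.frequently ?_
    filter_upwards [eventually_ge_atTop 2] with n hn
    have hre : (s + (1 / ((n : ℂ) + 1))).re = -3 / 4 + 1 / ((n : ℝ) + 1) := by
      have h7 : (1 / ((n : ℂ) + 1)) = ((1 / ((n : ℝ) + 1) : ℝ) : ℂ) := by push_cast; rfl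
      rw [h7, Complex.add_re, hsre, Complex.ofReal_re]
    have hn2 : (2 : ℝ) ≤ n := by exact_mod_cast hn
    have hpos : 0 < 1 / ((n : ℝ) + 1) := by positivity
    have hlt : 1 / ((n : ℝ) + 1) ≤ 1 / 3 := by
      rw [div_le_div_iff₀ (by positivity) (by norm_num)]
      linarith
    refine hfe _ (by rw [hre]; linarith) (by rw [hre]; linarith) ?_ ?_
    · intro h
      rw [h, Complex.zero_re] at hre
      linarith
    · intro h
      rw [h, Complex.one_re] at hre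
      linarith
  have hev : Lam R e F =ᶠ[𝓝 s] fun z => w * refl (Lam R e F) z :=
    (aLs.frequently_eq_iff_eventually_eq (analyticAt_const.mul (analyticAt_refl aLr))).mp hfre
  have hFs : F s ≠ 0 := left_ne hF hR hnz (by rw [hsre]) (by rw [hsre]; norm_num) hs0
  have hFr : F (⟨7 / 4, y⟩ : ℂ) ≠ 0 := hnz _ (by norm_num)
  have hGs := GG_ne hR he (s := s) (by rw [hsre]) hs0
  have hGr := GG_ne hR he (s := (⟨7 / 4, y⟩ : ℂ)) (by norm_num) hr0
  have hGas := GG_an hR he (s := s) (by rw [hsre]) hs0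
  have hGar := GG_an hR he (s := (⟨7 / 4, y⟩ : ℂ)) (by norm_num) hr0
  have l1 : logDeriv (Lam R e F) s = -conj (logDeriv (Lam R e F) (⟨7 / 4, y⟩ : ℂ)) := by
    have h1 : logDeriv (Lam R e F) s = logDeriv (fun z => w * refl (Lam R e F) z) s :=
      (logDeriv_congr_nhds hev).eq_of_nhds
    have h2 : logDeriv (fun z => w * refl (Lam R e F) z) s = logDeriv (refl (Lam R e F)) s :=
      logDeriv_const_mul s w hw
    rw [h1, h2, logDeriv_refl aLr.differentiableAt, hsr]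
  have l2 : logDeriv (Lam R e F) s = logDeriv (GG R e) s + logDeriv F s :=
    logDeriv_mul s hGs hFs hGas.differentiableAt (hF.diff s)
  have l3 : logDeriv (Lam R e F) (⟨7 / 4, y⟩ : ℂ) = logDeriv (GG R e) (⟨7 / 4, y⟩ : ℂ) +
      logDeriv F (⟨7 / 4, y⟩ : ℂ) :=
    logDeriv_mul _ hGr hFr hGar.differentiableAt (hF.diff _)
  have l4 := logDeriv_GG hR he (s := s) (by rw [hsre]) hs0
  have l5 := logDeriv_GG hR he (s := (⟨7 / 4, y⟩ : ℂ)) (by norm_num) hr0
  have hbd : ∀ z : ℂ, (z = (⟨-3 / 4, y⟩ : ℂ) ∨ z = (⟨7 / 4, y⟩ : ℂ)) → ∀ i,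
      ‖logDeriv Gammaℝ (z + e i) - ((1 / 2 * Real.log (|y| + 1) : ℝ) : ℂ)‖ ≤
        (if z = (⟨-3 / 4, y⟩ : ℂ) then C1 + C2 else C3 + C4) := by
    intro z hz i
    have hne : (⟨7 / 4, y⟩ : ℂ) ≠ (⟨-3 / 4, y⟩ : ℂ) := by
      intro h
      have := congrArg Complex.re h
      norm_num at this
    have hi := he i
    rcases hz with hz | hz
    · rw [if_pos hz]
      interval_cases h5 : e i
      · have : z + ((0 : ℕ) : ℂ) = (⟨-3 / 4, y⟩ : ℂ) := by rw [hz]; simp
        rw [this]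
        exact (hC1 y).trans (by linarith)
      · have : z + ((1 : ℕ) : ℂ) = (⟨1 / 4, y⟩ : ℂ) := by
          rw [hz]
          apply Complex.ext
          · simp; norm_num
          · simp
        rw [this]
        exact (hC2 y).trans (by linarith)
    · rw [if_neg (by rw [hz]; exact hne)]
      interval_cases h5 : e i
      · have : z + ((0 : ℕ) : ℂ) = (⟨7 / 4, y⟩ : ℂ) := by rw [hz]; simp
        rw [this]
        exact (hC3 y).trans (by linarith)
      · have : z + ((1 : ℕ) : ℂ) = (⟨11 / 4, y⟩ : ℂ) := by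
          rw [hz]
          apply Complex.ext
          · simp; norm_num
          · simp
        rw [this]
        exact (hC4 y).trans (by linarith)
  have hsum : ∀ z : ℂ, (z = (⟨-3 / 4, y⟩ : ℂ) ∨ z = (⟨7 / 4, y⟩ : ℂ)) →
      ‖∑ i, (logDeriv Gammaℝ (z + e i) - ((1 / 2 * Real.log (|y| + 1) : ℝ) : ℂ))‖ ≤
        d * (if z = (⟨-3 / 4, y⟩ : ℂ) then C1 + C2 else C3 + C4) := by
    intro z hz
    refine (norm_sum_le_of_le _ fun i _ => hbd z hz i).trans (le_of_eq ?_)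
    rw [Finset.sum_const, Finset.card_univ, nsmul_eq_mul, hd]
  have b1 := hsum (⟨-3 / 4, y⟩ : ℂ) (Or.inl rfl)
  have b2 := hsum (⟨7 / 4, y⟩ : ℂ) (Or.inr rfl)
  rw [if_pos rfl] at b1
  rw [if_neg (by
    intro h
    have := congrArg Complex.re h
    norm_num at this)] at b2
  have hlogR : Real.log R = Real.log N + d * Real.log Q := by
    rw [hRd, Real.log_mul (by linarith) (by positivity), Real.log_pow, ← hd]
  have hlogQ : Real.log (Q * (|y| + 1)) = Real.log Q + Real.log (|y| + 1) :=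
    Real.log_mul (by linarith) (by positivity)
  rw [← hs] at b1 ⊢
  rw [← hd]
  have e5 : deriv F s / F s + (((d : ℝ) * Real.log (Q * (|y| + 1)) : ℝ) : ℂ) =
      -((Real.log N : ℝ) : ℂ) -
      (∑ i, (logDeriv Gammaℝ (s + e i) - ((1 / 2 * Real.log (|y| + 1) : ℝ) : ℂ))) -
      conj (∑ i, (logDeriv Gammaℝ ((⟨7 / 4, y⟩ : ℂ) + e i) -
        ((1 / 2 * Real.log (|y| + 1) : ℝ) : ℂ))) -
      conj (deriv F (⟨7 / 4, y⟩ : ℂ) / F (⟨7 / 4, y⟩ : ℂ)) := by
    have f1 : logDeriv F s = -conj (logDeriv (Lam R e F) (⟨7 / 4, y⟩ : ℂ)) -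
        logDeriv (GG R e) s := by
      rw [← l1, l2]
      ring
    rw [l3, l4, l5] at f1
    rw [logDeriv_apply] at f1
    rw [f1, Finset.sum_sub_distrib, Finset.sum_sub_distrib, Finset.sum_const, Finset.card_univ,
      nsmul_eq_mul, ← hd, hlogR, hlogQ]
    rw [← logDeriv_apply]
    simp only [map_add, map_sub, map_mul, Complex.conj_ofReal, map_div₀, map_ofNat, map_natCast]
    push_cast
    ring
  rw [e5]
  refine (norm_sub_le _ _).trans ?_
  rw [RCLike.norm_conj]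
  refine (add_le_add (norm_sub_le _ _) (hB y)).trans ?_
  rw [RCLike.norm_conj]
  refine (add_le_add (add_le_add (norm_sub_le _ _) b2) le_rfl).trans ?_
  rw [norm_neg, Complex.norm_real, Real.norm_of_nonneg (Real.log_nonneg hN)]
  refine (add_le_add (add_le_add (add_le_add le_rfl b1) le_rfl) le_rfl).trans (le_of_eq ?_)
  ring

end

end Pool.Agent.T9h27.Z
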