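import Mathlib

/-!
# A band limited kernel (helper27)
-/

set_option autoImplicit false

open MeasureTheory Complex Filter Topology Set

namespace Pool.Agent.T9h27.Z

/-- the uniform distribution on `[-1, 1]` -/
noncomputable def uni : Measure ℝ := (2⁻¹ : ENNReal) • volume.restrict (Ioc (-1) 1)

instance uni_prob : IsProbabilityMeasure uni := ⟨by
  unfold uni
  rw [Measure.smul_apply, Measure.restrict_apply MeasurableSet.univ, Set.univ_inter, Real.volume_Ioc,
    smul_eq_mul]
  norm_num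
  rw [ENNReal.inv_mul_cancel] <;> norm_num⟩

lemma int_uni {E : Type*} [NormedAddCommGroup E] [NormedSpace ℝ E] (f : ℝ → E) :
    ∫ x, f x ∂uni = (2⁻¹ : ℝ) • ∫ x in (-1 : ℝ)..1, f x := by
  unfold uni
  rw [integral_smul_measure, intervalIntegral.integral_of_le (by norm_num)]
  congr 1
  norm_num

lemma uni_supp : ∀ᵐ σ ∂uni, |σ| ≤ 1 := by
  unfold uni
  refine Measure.ae_smul_measure ?_ _
  filter_upwards [ae_restrict_mem measurableSet_Ioc] with x hx
  exact abs_le.mpr ⟨hx.1.le, hx.2⟩

/-- `sin z / z` -/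
noncomputable def sc (z : ℂ) : ℂ := ∫ x : ℝ, cexp (I * z * x) ∂uni

lemma norm_cexp_iz (z : ℂ) (x : ℝ) : ‖cexp (I * z * x)‖ = Real.exp (-(z.im * x)) := by
  rw [Complex.norm_exp]
  congr 1
  simp [Complex.mul_re]

lemma norm_cexp_le (z : ℂ) {x B : ℝ} (h : |x| ≤ B) :
    ‖cexp (I * z * x)‖ ≤ Real.exp (B * |z.im|) := by
  rw [norm_cexp_iz]
  refine Real.exp_le_exp.mpr ?_
  have h1 : -(z.im * x) ≤ |z.im * x| := neg_le_abs _
  rw [abs_mul] at h1
  have h2 := mul_le_mul_of_nonneg_left h (abs_nonneg z.im)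
  linarith

lemma cexp_int {μ : Measure ℝ} [IsProbabilityMeasure μ] {B : ℝ} (h : ∀ᵐ σ ∂μ, |σ| ≤ B) (z : ℂ) :
    Integrable (fun x : ℝ => cexp (I * z * x)) μ := by
  refine Integrable.mono' (integrable_const (Real.exp (B * |z.im|))) ?_ ?_
  · exact (by fun_prop : Continuous fun x : ℝ => cexp (I * z * x)).aestronglyMeasurable
  · filter_upwards [h] with x hx
    exact norm_cexp_le z hx

/-- the distribution of the sum of `n` independent uniform variables -/
noncomputable def mu : ℕ → Measure ℝ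
  | 0 => Measure.dirac 0
  | n + 1 => Measure.map (fun p : ℝ × ℝ => p.1 + p.2) ((mu n).prod uni)

instance mu_prob (n : ℕ) : IsProbabilityMeasure (mu n) := by
  induction n with
  | zero => unfold mu; infer_instance
  | succ n ih =>
    unfold mu
    exact Measure.isProbabilityMeasure_map (by fun_prop)

lemma mu_supp (n : ℕ) : ∀ᵐ σ : ℝ ∂mu n, |σ| ≤ n := by
  induction n with
  | zero =>
    unfold mu
    rw [ae_dirac_iff (measurableSet_le (by fun_prop) (by fun_prop))]
    simp
  | succ n ih =>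
    unfold mu
    rw [ae_map_iff (by fun_prop) (measurableSet_le (by fun_prop) (by fun_prop))]
    have h1 : ∀ᵐ p : ℝ × ℝ ∂(mu n).prod uni, |p.1| ≤ (n : ℝ) := Measure.quasiMeasurePreserving_fst.ae ih
    have h2 : ∀ᵐ p : ℝ × ℝ ∂(mu n).prod uni, |p.2| ≤ 1 := Measure.quasiMeasurePreserving_snd.ae uni_supp
    filter_upwards [h1, h2] with p h3 h4
    push_cast
    exact (abs_add_le _ _).trans (add_le_add h3 h4)

lemma mu_exp (n : ℕ) (z : ℂ) : ∫ σ : ℝ, cexp (I * z * σ) ∂mu n = sc z ^ n := by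
  induction n with
  | zero =>
    unfold mu
    rw [integral_dirac]
    simp
  | succ n ih =>
    unfold mu
    rw [integral_map (by fun_prop)
      (by fun_prop : Continuous fun x : ℝ => cexp (I * z * x)).aestronglyMeasurable]
    have h1 : ∀ p : ℝ × ℝ, cexp (I * z * ((p.1 + p.2 : ℝ) : ℂ)) =
        cexp (I * z * p.1) * cexp (I * z * p.2) := by
      intro p
      rw [← Complex.exp_add]
      congr 1
      push_cast
      ring
    simp_rw [h1]
    rw [integral_prod_mul (fun x : ℝ => cexp (I * z * x)) (fun x : ℝ => cexp (I * z * x)), ih,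
      pow_succ]
    rfl

/-- bounded density -/
lemma mu_dens (n : ℕ) {b : ℝ} (hb : 0 < b) (u : ℝ) :
    ∫ σ, Real.exp (-|u + b * σ| / 4) ∂mu (n + 1) ≤ 4 / b := by
  unfold mu
  rw [integral_map (by fun_prop)
    (by fun_prop : Continuous fun σ : ℝ => Real.exp (-|u + b * σ| / 4)).aestronglyMeasurable]
  have hint : Integrable (fun p : ℝ × ℝ => Real.exp (-|u + b * (p.1 + p.2)| / 4))
      ((mu n).prod uni) := by
    refine Integrable.mono' (integrable_const (1 : ℝ)) ?_ (Eventually.of_forall fun p => ?_)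
    · exact (by fun_prop :
        Continuous fun p : ℝ × ℝ => Real.exp (-|u + b * (p.1 + p.2)| / 4)).aestronglyMeasurable
    · rw [Real.norm_eq_abs, abs_of_pos (Real.exp_pos _)]
      refine Real.exp_le_one_iff.mpr ?_
      have := abs_nonneg (u + b * (p.1 + p.2))
      linarith
  rw [integral_prod _ hint]
  have hexp : ∫ x : ℝ, Real.exp (-|x| / 4) = 8 := by
    have h1 := integral_comp_abs (f := fun x : ℝ => Real.exp (-x / 4))
    rw [h1]
    have h2 : ∫ x in Ioi (0 : ℝ), Real.exp (-x / 4) = 4 := by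
      have h3 := integral_exp_mul_Ioi (a := -1 / 4) (by norm_num) 0
      have h4 : (fun x : ℝ => Real.exp (-x / 4)) = fun x : ℝ => Real.exp (-1 / 4 * x) := by
        ext x
        congr 1
        ring
      rw [h4, h3]
      norm_num
    rw [h2]
    norm_num
  have hint2 : Integrable (fun x : ℝ => Real.exp (-|x| / 4)) := by
    by_contra h
    rw [integral_undef h] at hexp
    norm_num at hexp
  have hin : ∀ x : ℝ, ∫ y, Real.exp (-|u + b * (x + y)| / 4) ∂uni ≤ 4 / b := by
    intro x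
    rw [int_uni, smul_eq_mul, intervalIntegral.integral_of_le (by norm_num)]
    have h1 : ∫ y in Ioc (-1 : ℝ) 1, Real.exp (-|u + b * (x + y)| / 4) ≤
        ∫ y : ℝ, Real.exp (-|(u + b * x) + b * y| / 4) := by
      have e1 : (fun y : ℝ => Real.exp (-|u + b * (x + y)| / 4)) =
          fun y : ℝ => Real.exp (-|(u + b * x) + b * y| / 4) := by
        ext y
        congr 3
        ring_nf
      rw [e1]
      refine setIntegral_le_integral ?_ (Eventually.of_forall fun y => (Real.exp_pos _).le)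
      exact (hint2.comp_add_left (u + b * x)).comp_mul_left' hb.ne'
    have h2 : ∫ y : ℝ, Real.exp (-|(u + b * x) + b * y| / 4) = b⁻¹ * 8 := by
      rw [← hexp, ← integral_add_left_eq_self (fun y : ℝ => Real.exp (-|y| / 4)) (u + b * x)]
      have h3 := Measure.integral_comp_mul_left (fun y : ℝ => Real.exp (-|(u + b * x) + y| / 4)) b
      rw [h3, smul_eq_mul, abs_of_pos (inv_pos.mpr hb)]
    rw [h2] at h1
    calc (2⁻¹ : ℝ) * _ ≤ (2⁻¹ : ℝ) * (b⁻¹ * 8) := mul_le_mul_of_nonneg_left h1 (by norm_num)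
      _ = 4 / b := by field_simp; norm_num
  calc _ ≤ ∫ _ : ℝ, 4 / b ∂mu n := integral_mono hint.integral_prod_left (integrable_const _) hin
    _ = 4 / b := by simp

/-! ### bounds for `sc` -/

lemma sc_norm (z : ℂ) : ‖sc z‖ ≤ Real.exp |z.im| := by
  unfold sc
  have h1 : ‖∫ x : ℝ, cexp (I * z * x) ∂uni‖ ≤ ∫ _ : ℝ, Real.exp (1 * |z.im|) ∂uni := by
    refine norm_integral_le_of_norm_le (integrable_const _) ?_
    filter_upwards [uni_supp] with x hx
    exact norm_cexp_le z hx
  rw [one_mul] at h1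
  simpa using h1

lemma sc_mul (z : ℂ) : z * sc z = Complex.sin z := by
  unfold sc
  rw [int_uni]
  by_cases hz : z = 0
  · rw [hz]; simp
  · have hI : I * z ≠ 0 := mul_ne_zero I_ne_zero hz
    rw [integral_exp_mul_complex hI]
    rw [Complex.sin]
    have e1 : I * z * ((1 : ℝ) : ℂ) = z * I := by push_cast; ring
    have e2 : I * z * ((-1 : ℝ) : ℂ) = -z * I := by push_cast; ring
    rw [e1, e2, Complex.real_smul]
    field_simp
    have hII : I ^ 2 = -1 := I_sq
    push_cast
    linear_combination (cexp (z * I) - cexp (-(z * I))) * hII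

lemma sc_bound (z : ℂ) : ‖sc z‖ * (1 + ‖z‖) ≤ 2 * Real.exp |z.im| := by
  have h1 := sc_norm z
  have h2 : ‖z‖ * ‖sc z‖ ≤ Real.exp |z.im| := by
    rw [← norm_mul, sc_mul, Complex.sin, norm_div, norm_mul, norm_I, mul_one]
    have h3 : ‖cexp (-z * I)‖ ≤ Real.exp |z.im| := by
      rw [Complex.norm_exp]
      refine Real.exp_le_exp.mpr ?_
      have : (-z * I).re = z.im := by simp
      rw [this]
      exact le_abs_self _
    have h4 : ‖cexp (z * I)‖ ≤ Real.exp |z.im| := by
      rw [Complex.norm_exp]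
      refine Real.exp_le_exp.mpr ?_
      have : (z * I).re = -z.im := by simp
      rw [this]
      exact neg_le_abs _
    have h5 := norm_sub_le (cexp (-z * I)) (cexp (z * I))
    have h6 : ‖(2 : ℂ)‖ = 2 := by simp
    rw [h6, div_le_iff₀ (by norm_num)]
    linarith
  nlinarith

lemma sc_conj (z : ℂ) : sc ((starRingEnd ℂ) z) = (starRingEnd ℂ) (sc z) := by
  unfold sc
  rw [← integral_conj, int_uni, int_uni]
  congr 1
  have h := intervalIntegral.integral_comp_neg (a := (-1 : ℝ)) (b := 1)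
    (fun x : ℝ => cexp (I * (starRingEnd ℂ) z * x))
  rw [neg_neg] at h
  rw [← h]
  refine intervalIntegral.integral_congr fun x _ => ?_
  rw [← Complex.exp_conj]
  congr 1
  simp

lemma sc_real (x : ℝ) : sc (x : ℂ) = ((sc x).re : ℂ) := by
  have h := sc_conj (x : ℂ)
  rw [Complex.conj_ofReal] at h
  exact (Complex.conj_eq_iff_re.mp h.symm).symm

lemma sc_re (x : ℝ) : (sc (x : ℂ)).re = 2⁻¹ * ∫ y in (-1 : ℝ)..1, Real.cos (x * y) := by
  unfold sc
  rw [int_uni, Complex.real_smul, Complex.re_ofReal_mul]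
  congr 1
  have h1 : (∫ y in (-1 : ℝ)..1, cexp (I * x * y)).re = ∫ y in (-1 : ℝ)..1, (cexp (I * x * y)).re := by
    have h2 := Complex.reCLM.intervalIntegral_comp_comm (μ := volume) (a := -1) (b := 1)
      (f := fun y : ℝ => cexp (I * x * y)) (by
        exact (by fun_prop : Continuous fun y : ℝ => cexp (I * x * y)).intervalIntegrable _ _)
    simp only [Complex.reCLM_apply] at h2
    exact h2.symm
  rw [h1]
  refine intervalIntegral.integral_congr fun y _ => ?_
  have : I * (x : ℂ) * (y : ℂ) = ((x * y : ℝ) : ℂ) * I := by push_cast; ring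
  rw [this, Complex.exp_ofReal_mul_I_re]

lemma sc_low {x : ℝ} (h : |x| ≤ 1) : 1 / 2 ≤ (sc (x : ℂ)).re := by
  rw [sc_re]
  have h1 : ∫ _ in (-1 : ℝ)..1, (1 / 2 : ℝ) ≤ ∫ y in (-1 : ℝ)..1, Real.cos (x * y) := by
    refine intervalIntegral.integral_mono_on (by norm_num) (by simp)
      ((by fun_prop : Continuous fun y : ℝ => Real.cos (x * y)).intervalIntegrable _ _) ?_
    intro y hy
    have h2 : (x * y) ^ 2 ≤ 1 := by
      rw [mul_pow]
      have h3 : x ^ 2 ≤ 1 := (sq_le_one_iff_abs_le_one x).mpr h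
      have h4 : y ^ 2 ≤ 1 := (sq_le_one_iff_abs_le_one y).mpr (abs_le.mpr hy)
      nlinarith [sq_nonneg x, sq_nonneg y]
    have h5 := Real.one_sub_sq_div_two_le_cos (x := x * y)
    linarith
  rw [intervalIntegral.integral_const, smul_eq_mul] at h1
  linarith

lemma sc_cont : Continuous sc := by
  unfold sc
  have h1 : ∀ z : ℂ, ∫ x : ℝ, cexp (I * z * x) ∂uni =
      (2⁻¹ : ℝ) • ∫ x in (-1 : ℝ)..1, cexp (I * z * x) := fun z => int_uni _
  simp_rw [h1]
  have h2 : Continuous fun z : ℂ => ∫ x in (-1 : ℝ)..1, cexp (I * z * x) :=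
    intervalIntegral.continuous_parametric_intervalIntegral_of_continuous'
      (f := fun (z : ℂ) (x : ℝ) => cexp (I * z * x)) (by fun_prop) _ _
  exact h2.const_smul (2⁻¹ : ℝ)

end Pool.Agent.T9h27.Z
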