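import Pool.Agent.T9h27.Z.Up

/-!
# The lower bound (helper27)
-/

set_option autoImplicit false

open MeasureTheory Complex Filter Topology Set
open scoped ComplexConjugate
open H385 (Rw zz)
open H370 (mult)

namespace Pool.Agent.T9h27.Z

section

variable {ι : Type} {s : Finset ι} {F : ι → ℂ → ℂ} {Z : ι → Finset ℂ} {a : ι → ℕ → ℂ} {M q : ℕ}

open Classical in
/-- **the lower bound** for the number of zeros in the window -/
theorem low_bound {R y η H g A : ℝ} (hR : 0 < R) (hy : 0 < y) (hb : 1 ≤ y * R)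
    (h8g : 8 * y ≤ g) (hA : 0 ≤ A)
    (hC : HC s Z (fun i => mult (F i)) R g A)
    {T1 T2 : ℝ} (hT : T1 ≤ T2) (hH0 : 0 < H) (hH : T2 - T1 = H / R)
    (hZ : ∀ i ∈ s, ∀ z ∈ Z i, dl z ≤ 1 / 2) (Lc : ι → ℝ)
    (hL : (1 - η) * R * s.card ≤ ∑ i ∈ s, Lc i) {E1 X5 D κ : ℝ} (hκ : 0 < κ)
    (hf : ∀ i ∈ s, ‖SS (Z i) (mult (F i)) (cz (y * R) T1 T2) 0 -
      ((1 / (2 * Real.pi) : ℝ) : ℂ) * ((Lc i : ℂ) * WW (y * R) T1 T2 0 -
        Pc (y * R) T1 T2 M q (a i) 0 - Pm (y * R) T1 T2 M q (a i) 0)‖ ≤ E1)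
    (hJ : ∑ i ∈ s, ‖Pc (y * R) T1 T2 M q (a i) 0‖ ^ 2 ≤
      D * s.card * (T2 - T1) ^ 2 * (X5 * R ^ 2))
    (hJ' : ∑ i ∈ s, ‖Pm (y * R) T1 T2 M q (a i) 0‖ ^ 2 ≤
      D * s.card * (T2 - T1) ^ 2 * (X5 * R ^ 2)) :
    s.card * (H / (2 * Real.pi) * (1 - η - 2 * (κ + D * X5 / κ)) - E1 -
      2 * (440000 * A * (8 + 4 / y))) ≤
      ∑ i ∈ s, ∑ z ∈ (Z i).filter (fun z => T1 < z.im ∧ z.im ≤ T2), (mult (F i) z : ℝ) := by
  have hpi := Real.pi_pos
  obtain ⟨o1, o2⟩ := out_in hR hA hC hT hy hb h8g hZ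
  -- one member
  have h1 : ∀ i ∈ s, 1 / (2 * Real.pi) * (Lc i * (T2 - T1) -
      ‖Pc (y * R) T1 T2 M q (a i) 0‖ - ‖Pm (y * R) T1 T2 M q (a i) 0‖) - E1 ≤
      ∑ z ∈ (Z i).filter (fun z => T1 < z.im ∧ z.im ≤ T2), (mult (F i) z : ℝ) +
      ∑ z ∈ (Z i).filter (fun z => T1 < z.im ∧ z.im ≤ T2),
        (mult (F i) z : ℝ) * ‖1 - cz (y * R) T1 T2 (zz z)‖ +
      ∑ z ∈ (Z i).filter (fun z => ¬ (T1 < z.im ∧ z.im ≤ T2)),
        (mult (F i) z : ℝ) * ‖cz (y * R) T1 T2 (zz z)‖ := by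
    intro i hi
    have h2 := hf i hi
    rw [WW_zero hb] at h2
    obtain ⟨X, hX⟩ : ∃ X : ℂ, X = (Lc i : ℂ) * ((T2 - T1 : ℝ) : ℂ) -
        Pc (y * R) T1 T2 M q (a i) 0 - Pm (y * R) T1 T2 M q (a i) 0 := ⟨_, rfl⟩
    rw [← hX] at h2
    have h3 : Lc i * (T2 - T1) - ‖Pc (y * R) T1 T2 M q (a i) 0‖ -
        ‖Pm (y * R) T1 T2 M q (a i) 0‖ ≤ X.re := by
      rw [hX, Complex.sub_re, Complex.sub_re, ← Complex.ofReal_mul, Complex.ofReal_re]
      have k1 := Complex.re_le_norm (Pc (y * R) T1 T2 M q (a i) 0)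
      have k2 := Complex.re_le_norm (Pm (y * R) T1 T2 M q (a i) 0)
      linarith
    have h4 : 1 / (2 * Real.pi) * X.re - E1 ≤
        (SS (Z i) (mult (F i)) (cz (y * R) T1 T2) 0).re := by
      have k1 := (Complex.abs_re_le_norm (SS (Z i) (mult (F i)) (cz (y * R) T1 T2) 0 -
        ((1 / (2 * Real.pi) : ℝ) : ℂ) * X)).trans h2
      rw [Complex.sub_re, Complex.re_ofReal_mul] at k1
      have := (abs_le.mp k1).1
      linarith
    have h5 : (SS (Z i) (mult (F i)) (cz (y * R) T1 T2) 0).re ≤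
      ∑ z ∈ (Z i).filter (fun z => T1 < z.im ∧ z.im ≤ T2), (mult (F i) z : ℝ) +
      ∑ z ∈ (Z i).filter (fun z => T1 < z.im ∧ z.im ≤ T2),
        (mult (F i) z : ℝ) * ‖1 - cz (y * R) T1 T2 (zz z)‖ +
      ∑ z ∈ (Z i).filter (fun z => ¬ (T1 < z.im ∧ z.im ≤ T2)),
        (mult (F i) z : ℝ) * ‖cz (y * R) T1 T2 (zz z)‖ := by
      unfold SS
      rw [← Finset.sum_filter_add_sum_filter_not (Z i) (fun z => T1 < z.im ∧ z.im ≤ T2),
        Complex.add_re, Complex.re_sum, Complex.re_sum, ← Finset.sum_add_distrib]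
      have hz0 : ∀ z : ℂ, cexp (I * ((0 : ℝ) : ℂ) * z) = 1 := by
        intro z
        simp
      refine add_le_add (Finset.sum_le_sum fun z _ => ?_) (Finset.sum_le_sum fun z _ => ?_)
      · rw [hz0, mul_one]
        have k1 : ((mult (F i) z : ℂ) * cz (y * R) T1 T2 (zz z)).re =
            (mult (F i) z : ℝ) * (cz (y * R) T1 T2 (zz z)).re := by
          rw [← Complex.ofReal_natCast, Complex.re_ofReal_mul]
        rw [k1]
        have k2 : (cz (y * R) T1 T2 (zz z)).re ≤ 1 + ‖1 - cz (y * R) T1 T2 (zz z)‖ := by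
          have k3 := Complex.abs_re_le_norm (1 - cz (y * R) T1 T2 (zz z))
          rw [Complex.sub_re, Complex.one_re] at k3
          have := (abs_le.mp k3).1
          linarith
        have k4 := mul_le_mul_of_nonneg_left k2 (Nat.cast_nonneg (α := ℝ) (mult (F i) z))
        linarith
      · rw [hz0, mul_one]
        refine (Complex.re_le_norm _).trans (le_of_eq ?_)
        rw [norm_mul, Complex.norm_natCast]
    have h6 := mul_le_mul_of_nonneg_left h3 (by positivity : 0 ≤ 1 / (2 * Real.pi))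
    linarith
  have h2 := Finset.sum_le_sum h1
  rw [Finset.sum_add_distrib, Finset.sum_add_distrib, Finset.sum_sub_distrib, ← Finset.mul_sum,
    Finset.sum_sub_distrib, Finset.sum_sub_distrib, ← Finset.sum_mul, Finset.sum_const,
    nsmul_eq_mul] at h2
  have hPP : ∀ f : ι → ℂ, ∑ i ∈ s, ‖f i‖ ^ 2 ≤ D * s.card * (T2 - T1) ^ 2 * (X5 * R ^ 2) →
      ∑ i ∈ s, ‖f i‖ ≤ s.card * (H * (κ + D * X5 / κ)) := by
    intro f hf2
    have k1 : ∀ i ∈ s, ‖f i‖ ≤ κ * H + ‖f i‖ ^ 2 / (κ * H) := by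
      intro i _
      have hκH : 0 < κ * H := by positivity
      have e1 : κ * H + ‖f i‖ ^ 2 / (κ * H) - ‖f i‖ =
          ((‖f i‖ - κ * H) ^ 2 + ‖f i‖ * (κ * H)) / (κ * H) := by
        field_simp
        ring
      have e2 : 0 ≤ ((‖f i‖ - κ * H) ^ 2 + ‖f i‖ * (κ * H)) / (κ * H) := by positivity
      linarith
    refine (Finset.sum_le_sum k1).trans ?_
    rw [Finset.sum_add_distrib, Finset.sum_const, nsmul_eq_mul, ← Finset.sum_div]
    have k2 := div_le_div_of_nonneg_right hf2 (by positivity : 0 ≤ κ * H)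
    refine (add_le_add le_rfl k2).trans (le_of_eq ?_)
    rw [hH]
    field_simp
  have p1 := hPP _ hJ
  have p2 := hPP _ hJ'
  have h3 : 1 / (2 * Real.pi) * ((1 - η) * R * s.card * (T2 - T1) -
      s.card * (H * (κ + D * X5 / κ)) - s.card * (H * (κ + D * X5 / κ))) ≤
      1 / (2 * Real.pi) * ((∑ i ∈ s, Lc i) * (T2 - T1) -
        ∑ i ∈ s, ‖Pc (y * R) T1 T2 M q (a i) 0‖ - ∑ i ∈ s, ‖Pm (y * R) T1 T2 M q (a i) 0‖) := by
    refine mul_le_mul_of_nonneg_left ?_ (by positivity)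
    have := mul_le_mul_of_nonneg_right hL (by linarith : 0 ≤ T2 - T1)
    linarith
  have e3 : 1 / (2 * Real.pi) * ((1 - η) * R * s.card * (T2 - T1) -
      s.card * (H * (κ + D * X5 / κ)) - s.card * (H * (κ + D * X5 / κ))) =
      s.card * (H / (2 * Real.pi) * (1 - η - 2 * (κ + D * X5 / κ))) := by
    rw [hH]
    field_simp
    ring
  rw [e3] at h3
  linarith

end

end Pool.Agent.T9h27.Z
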