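import Pool.Agent.W261.TW.Smooth
import Pool.Agent.H385R2.FinB

/-!
# The diagonal sums (helper27)
-/

set_option autoImplicit false

open Filter Topology Set MeasureTheory
open H385 (Rw)

namespace Pool.Agent.T9h27.Z

open Pool.Agent.W261.TW (vv VV vv_nonneg VV_nonneg VV_lim VV_mono wt_of)

/-- `Λ(n)² |c(n)|² / n` -/
noncomputable def gg (c : ℕ → ℂ) (n : ℕ) : ℝ := ArithmeticFunction.vonMangoldt n ^ 2 * ‖c n‖ ^ 2 / n

lemma gg_nonneg (c : ℕ → ℂ) (n : ℕ) : 0 ≤ gg c n := by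
  unfold gg
  positivity

lemma gg_one (c : ℕ → ℂ) : gg c 1 = 0 := by
  unfold gg
  simp

lemma gg_le (c : ℕ → ℂ) {n : ℕ} {x : ℝ} (hx : Real.log n ≤ x) : gg c n ≤ x * vv c n := by
  unfold gg vv
  have h0 : 0 ≤ ArithmeticFunction.vonMangoldt n := ArithmeticFunction.vonMangoldt_nonneg
  have hl : ArithmeticFunction.vonMangoldt n ≤ x :=
    ArithmeticFunction.vonMangoldt_le_log.trans hx
  have h1 : 0 ≤ ArithmeticFunction.vonMangoldt n * ‖c n‖ ^ 2 / n := by positivity
  calc ArithmeticFunction.vonMangoldt n ^ 2 * ‖c n‖ ^ 2 / n =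
      ArithmeticFunction.vonMangoldt n * (ArithmeticFunction.vonMangoldt n * ‖c n‖ ^ 2 / n) := by ring
    _ ≤ _ := mul_le_mul_of_nonneg_right hl h1

lemma sum_sub (h : ℕ → ℝ) {lo hi : ℝ} (hlh : lo ≤ hi) :
    ∑ n ∈ (Finset.Icc 1 ⌊Real.exp hi⌋₊).filter (fun n : ℕ => lo < Real.log n), h n =
      ∑ n ∈ Finset.Icc 1 ⌊Real.exp hi⌋₊, h n - ∑ n ∈ Finset.Icc 1 ⌊Real.exp lo⌋₊, h n := by
  have h1 : ∑ n ∈ Finset.Icc 1 ⌊Real.exp lo⌋₊, h n =
      ∑ n ∈ (Finset.Icc 1 ⌊Real.exp hi⌋₊).filter (fun n : ℕ => ¬ lo < Real.log n), h n := by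
    apply Finset.sum_congr _ (fun _ _ => rfl)
    ext n
    rw [Finset.mem_filter, Finset.mem_Icc, Finset.mem_Icc]
    constructor
    · rintro ⟨h1, h2⟩
      have hn0 : (0 : ℝ) < n := by exact_mod_cast h1
      refine ⟨⟨h1, h2.trans (Nat.floor_le_floor (Real.exp_le_exp.2 hlh))⟩, ?_⟩
      rw [not_lt, Real.log_le_iff_le_exp hn0]
      exact (Nat.le_floor_iff (Real.exp_pos _).le).1 h2
    · rintro ⟨⟨h1, h2⟩, h3⟩
      have hn0 : (0 : ℝ) < n := by exact_mod_cast h1
      refine ⟨h1, Nat.le_floor ?_⟩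
      rwa [not_lt, Real.log_le_iff_le_exp hn0] at h3
  rw [h1]
  rw [← Finset.sum_filter_add_sum_filter_not (Finset.Icc 1 ⌊Real.exp hi⌋₊)
    (fun n : ℕ => lo < Real.log n)]
  ring

lemma VV_blk (c : ℕ → ℂ) (hc : W388.SelE c) {a b ε : ℝ} (ha : 0 ≤ a) (hab : a ≤ b) (hε : 0 < ε) :
    ∀ᶠ L : ℝ in atTop, VV c (Real.exp (b * L)) - VV c (Real.exp (a * L)) ≤ (b - a + ε) * L := by
  have key : ∀ x : ℝ, 0 ≤ x → ∀ᶠ L : ℝ in atTop, (x - ε / 2) * L ≤ VV c (Real.exp (x * L)) := by
    intro x hx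
    rcases hx.eq_or_lt with h | h
    · filter_upwards [eventually_gt_atTop 0] with L hL
      have := VV_nonneg c (Real.exp (x * L))
      have h2 : (x - ε / 2) * L ≤ 0 := mul_nonpos_of_nonpos_of_nonneg (by linarith) hL.le
      linarith
    · filter_upwards [(VV_lim c hc h).eventually (lt_mem_nhds (show x - ε / 2 < x by linarith)),
        eventually_gt_atTop 0] with L hL hL0
      rw [lt_div_iff₀ hL0] at hL
      exact hL.le
  have key2 : ∀ᶠ L : ℝ in atTop, VV c (Real.exp (b * L)) ≤ (b + ε / 2) * L := by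
    rcases (ha.trans hab).eq_or_lt with h | h
    · have h1 : ∀ᶠ L : ℝ in atTop, VV c 1 ≤ ε / 2 * L := by
        have := (tendsto_id.const_mul_atTop (show 0 < ε / 2 by positivity)).eventually_ge_atTop
          (VV c 1)
        exact this
      filter_upwards [h1] with L hL
      rw [← h, zero_mul, Real.exp_zero, zero_add]
      exact hL
    · filter_upwards [(VV_lim c hc h).eventually (gt_mem_nhds (show b < b + ε / 2 by linarith)),
        eventually_gt_atTop 0] with L hL hL0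
      rw [div_lt_iff₀ hL0] at hL
      exact hL.le
  filter_upwards [key a ha, key2] with L h1 h2
  linarith

lemma Rw_zero_of {γ α : ℝ} (h : 1 ≤ α) : Rw γ α = 0 := by
  unfold Rw
  split_ifs with h1
  · have h2 : |α| = 1 := le_antisymm h1 (h.trans (le_abs_self α))
    rw [h2]
    simp
  · rfl

/-- **the diagonal** -/
theorem main_sum (c : ℕ → ℂ) (hc : W388.SelE c) (γ : ℝ) (h0 : 0 < γ) (hπ : γ < Real.pi) {ε : ℝ}
    (hε : 0 < ε) : ∃ L0 : ℝ, 0 < L0 ∧ ∀ L : ℝ, L0 ≤ L → ∀ M : ℕ,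
    ∑ n ∈ Finset.Icc 1 M, gg c n * Rw γ (Real.log n / L) ≤
      L ^ 2 * ((∫ α in (0 : ℝ)..1, α * Rw γ α) + ε) := by
  obtain ⟨KR, hKR, hlip⟩ := H385.Rw_lip γ h0 hπ
  have hcR : Continuous (Rw γ) := by
    have : LipschitzWith (Real.toNNReal KR) (Rw γ) := by
      apply LipschitzWith.of_dist_le_mul
      intro x y
      rw [Real.dist_eq, Real.dist_eq, Real.coe_toNNReal _ hKR.le]
      exact hlip x y
    exact this.continuous
  have hRn := H385.Rw_nonneg γ h0 hπ
  have hanti := H385.Rw_antitone γ h0 hπ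
  set R0 := Rw γ 0 with hR0
  have hR00 : 0 ≤ R0 := hRn 0
  obtain ⟨m, hm⟩ := exists_nat_gt ((KR + R0) / (ε / 2) + 1)
  have hm0 : (0 : ℝ) < m := by
    have : 0 ≤ (KR + R0) / (ε / 2) := by positivity
    linarith
  have hm1 : (KR + R0) / m ≤ ε / 2 := by
    rw [div_le_iff₀ hm0]
    have h1 : (KR + R0) / (ε / 2) ≤ m := by linarith
    rw [div_le_iff₀ (by positivity)] at h1
    linarith
  set ε' := ε / (2 * m * (R0 + 1)) with hε'
  have hε'0 : 0 < ε' := by positivity
  have hev : ∀ᶠ L : ℝ in atTop, ∀ i ∈ Finset.range m,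
      VV c (Real.exp ((((i + 1 : ℕ) : ℝ) / m) * L)) - VV c (Real.exp (((i : ℝ) / m) * L)) ≤
      ((((i + 1 : ℕ) : ℝ) / m) - (i : ℝ) / m + ε') * L := by
    rw [Filter.eventually_all_finset]
    intro i hi
    refine VV_blk c hc (by positivity) ?_ hε'0
    refine div_le_div_of_nonneg_right ?_ hm0.le
    push_cast
    linarith
  obtain ⟨L0, hL0⟩ := (hev.and (eventually_gt_atTop 0)).exists_forall_of_atTop
  refine ⟨max L0 1, by positivity, ?_⟩
  intro L hL M
  obtain ⟨hbl, hLpos⟩ := hL0 L ((le_max_left _ _).trans hL)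
  have hcg : Continuous fun α : ℝ => α * Rw γ α := continuous_id.mul hcR
  obtain ⟨h, hh⟩ : ∃ h : ℕ → ℝ, ∀ n, h n = gg c n * Rw γ (Real.log n / L) := ⟨_, fun _ => rfl⟩
  have hh0 : ∀ n, 0 ≤ h n := fun n => by rw [hh]; exact mul_nonneg (gg_nonneg c n) (hRn _)
  simp_rw [← hh]
  -- restriction
  have hA : ∑ n ∈ Finset.Icc 1 M, h n ≤ ∑ n ∈ Finset.Icc 1 ⌊Real.exp L⌋₊, h n := by
    rw [← Finset.sum_filter_ne_zero]
    refine Finset.sum_le_sum_of_subset_of_nonneg (fun n hn' => ?_) (fun n _ _ => hh0 n)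
    obtain ⟨hn, hne⟩ := Finset.mem_filter.mp hn'
    rw [Finset.mem_Icc] at hn ⊢
    refine ⟨hn.1, Nat.le_floor ?_⟩
    have hn0 : (0 : ℝ) < n := by exact_mod_cast hn.1
    rw [← Real.log_le_iff_le_exp hn0]
    by_contra hcon
    push Not at hcon
    apply hne
    rw [hh, Rw_zero_of, mul_zero]
    rw [le_div_iff₀ hLpos]
    linarith
  refine hA.trans ?_
  have hB : ∑ n ∈ Finset.Icc 1 ⌊Real.exp L⌋₊, h n = ∑ i ∈ Finset.range m,
      ∑ n ∈ (Finset.Icc 1 ⌊Real.exp ((((i + 1 : ℕ) : ℝ) / m) * L)⌋₊).filter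
        (fun n : ℕ => ((i : ℝ) / m) * L < Real.log n), h n := by
    have e1 : ∀ i ∈ Finset.range m, ∑ n ∈ (Finset.Icc 1 ⌊Real.exp ((((i + 1 : ℕ) : ℝ) / m) *
        L)⌋₊).filter (fun n : ℕ => ((i : ℝ) / m) * L < Real.log n), h n =
        (fun i : ℕ => ∑ n ∈ Finset.Icc 1 ⌊Real.exp (((i : ℝ) / m) * L)⌋₊, h n) (i + 1) -
        (fun i : ℕ => ∑ n ∈ Finset.Icc 1 ⌊Real.exp (((i : ℝ) / m) * L)⌋₊, h n) i := by
      intro i _
      refine sum_sub h (mul_le_mul_of_nonneg_right ?_ hLpos.le)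
      refine div_le_div_of_nonneg_right ?_ hm0.le
      push_cast
      linarith
    rw [Finset.sum_congr rfl e1]
    rw [Finset.sum_range_sub (fun i : ℕ => ∑ n ∈ Finset.Icc 1 ⌊Real.exp (((i : ℝ) / m) * L)⌋₊, h n)]
    have e2 : (m : ℝ) / m * L = L := by rw [div_self hm0.ne', one_mul]
    have e3 : ((0 : ℕ) : ℝ) / m * L = 0 := by simp
    simp only [e2, e3, Real.exp_zero, Nat.floor_one, Finset.Icc_self, Finset.sum_singleton]
    rw [hh 1, gg_one, zero_mul, sub_zero]
  have hsplit2 : ∫ α in (0 : ℝ)..1, α * Rw γ α =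
      ∑ i ∈ Finset.range m, ∫ α in ((i : ℝ) / m)..(((i + 1 : ℕ) : ℝ) / m), α * Rw γ α := by
    have := intervalIntegral.sum_integral_adjacent_intervals (a := fun i : ℕ => (i : ℝ) / m)
      (n := m) (f := fun α : ℝ => α * Rw γ α) (μ := volume)
      (fun i _ => hcg.intervalIntegrable _ _)
    rw [this]
    congr 1
    · simp
    · rw [div_self hm0.ne']
  rw [hB, hsplit2]
  have hterm : ∀ i ∈ Finset.range m, ∑ n ∈ (Finset.Icc 1 ⌊Real.exp ((((i + 1 : ℕ) : ℝ) / m) *
        L)⌋₊).filter (fun n : ℕ => ((i : ℝ) / m) * L < Real.log n), h n ≤ L ^ 2 *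
        ((∫ α in ((i : ℝ) / m)..(((i + 1 : ℕ) : ℝ) / m), α * Rw γ α) + ε / m) := by
    intro i hi
    have hb := hbl i hi
    rw [Finset.mem_range] at hi
    set x := (i : ℝ) / m with hx
    set y := ((i + 1 : ℕ) : ℝ) / m with hy
    have hyx : y = x + 1 / m := by
      rw [hx, hy]
      push_cast
      ring
    have hx0 : 0 ≤ x := by positivity
    have h1m : 0 < 1 / (m : ℝ) := by positivity
    have hxy : x ≤ y := by linarith
    have hy0 : 0 ≤ y := hx0.trans hxy
    have hy1 : y ≤ 1 := by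
      rw [hy, div_le_one hm0]
      exact_mod_cast hi
    have hx1 : x ≤ 1 := hxy.trans hy1
    have hxyL : x * L ≤ y * L := mul_le_mul_of_nonneg_right hxy hLpos.le
    -- upper bound
    have hup : ∑ n ∈ (Finset.Icc 1 ⌊Real.exp (y * L)⌋₊).filter
        (fun n : ℕ => x * L < Real.log n), h n ≤
        Rw γ x * (y * L) * (VV c (Real.exp (y * L)) - VV c (Real.exp (x * L))) := by
      have e1 := sum_sub (vv c) hxyL
      unfold VV
      rw [← e1, Finset.mul_sum]
      refine Finset.sum_le_sum fun n hn => ?_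
      rw [Finset.mem_filter, Finset.mem_Icc] at hn
      obtain ⟨⟨n1, n2⟩, n3⟩ := hn
      have hn0 : (0 : ℝ) < n := by exact_mod_cast n1
      have n4 : Real.log n ≤ y * L := by
        rw [Real.log_le_iff_le_exp hn0]
        exact (Nat.le_floor_iff (Real.exp_pos _).le).1 n2
      have g1 := gg_le c n4
      have g2 : Rw γ (Real.log n / L) ≤ Rw γ x := by
        have h1 : x ≤ Real.log n / L := by
          rw [le_div_iff₀ hLpos]
          exact n3.le
        exact hanti (Set.mem_Ici.2 hx0) (Set.mem_Ici.2 (hx0.trans h1)) h1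
      rw [hh]
      have hv := vv_nonneg c n
      calc gg c n * Rw γ (Real.log n / L) ≤ (y * L * vv c n) * Rw γ x :=
            mul_le_mul g1 g2 (hRn _) (by positivity)
        _ = _ := by ring
    -- lower bound
    have hlow : 1 / m * (x * Rw γ y) ≤ ∫ α in x..y, α * Rw γ α := by
      calc 1 / m * (x * Rw γ y) = ∫ _α in x..y, x * Rw γ y := by
            rw [intervalIntegral.integral_const, smul_eq_mul]
            congr 1
            rw [hyx]
            ring
        _ ≤ _ := by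
            apply intervalIntegral.integral_mono_on hxy
              (continuous_const.intervalIntegrable _ _) (hcg.intervalIntegrable _ _)
            intro α hα
            apply mul_le_mul hα.1 _ (hRn y) (hx0.trans hα.1)
            exact hanti (Set.mem_Ici.2 (hx0.trans hα.1)) (Set.mem_Ici.2 (hx0.trans hxy)) hα.2
    have hRx : Rw γ x ≤ R0 := hanti (Set.mem_Ici.2 le_rfl) (Set.mem_Ici.2 hx0) hx0
    have hRxy : Rw γ x ≤ Rw γ y + KR * (1 / m) := by
      have h1 := hlip x y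
      have h2 : |x - y| = 1 / m := by
        rw [hyx]
        rw [show x - (x + 1 / m) = -(1 / (m : ℝ)) by ring, abs_neg, abs_of_pos h1m]
      rw [h2] at h1
      have h3 := le_abs_self (Rw γ x - Rw γ y)
      linarith
    have hRx0 := hRn x
    have hfinal : Rw γ x * (y * (y - x + ε')) ≤ 1 / m * (x * Rw γ y) + ε / m := by
      have e1 : y * (y - x) = 1 / m * x + 1 / m * (1 / m) := by
        rw [hyx]; ring
      have e2 : Rw γ x * (y * ε') ≤ (ε / 2) * (1 / m) := by
        calc Rw γ x * (y * ε') ≤ (R0 + 1) * (1 * ε') := by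
              refine mul_le_mul (by linarith) ?_ (by positivity) (by positivity)
              exact mul_le_mul_of_nonneg_right hy1 hε'0.le
          _ = (ε / 2) * (1 / m) := by
              rw [hε']
              field_simp
      have e3 : Rw γ x * (1 / m * x) ≤ (Rw γ y + KR * (1 / m)) * (1 / m * x) :=
        mul_le_mul_of_nonneg_right hRxy (by positivity)
      have e4 : KR * (1 / m) * (1 / m * x) ≤ KR * (1 / m) * (1 / m) := by
        have : 1 / (m : ℝ) * x ≤ 1 / m := by nlinarith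
        gcongr
      have e5 : Rw γ x * (1 / m * (1 / m)) ≤ R0 * (1 / m * (1 / m)) := by gcongr
      have e6 : (KR + R0) * (1 / m) * (1 / m) ≤ (ε / 2) * (1 / m) := by
        apply mul_le_mul_of_nonneg_right _ h1m.le
        rw [mul_one_div]
        exact hm1
      have e7 : ε / m = (ε / 2) * (1 / m) + (ε / 2) * (1 / m) := by ring
      have e8 : Rw γ x * (y * (y - x + ε')) = Rw γ x * (y * (y - x)) + Rw γ x * (y * ε') := by ring
      rw [e7, e8, e1, mul_add]
      nlinarith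
    have hL2 : 0 ≤ L ^ 2 := by positivity
    calc _ ≤ _ := hup
      _ ≤ Rw γ x * (y * L) * ((y - x + ε') * L) :=
          mul_le_mul_of_nonneg_left hb (by positivity)
      _ = L ^ 2 * (Rw γ x * (y * (y - x + ε'))) := by ring
      _ ≤ L ^ 2 * (1 / m * (x * Rw γ y) + ε / m) := mul_le_mul_of_nonneg_left hfinal hL2
      _ ≤ _ := by
          apply mul_le_mul_of_nonneg_left _ hL2
          linarith
  calc _ ≤ _ := Finset.sum_le_sum hterm
    _ = _ := by
        rw [← Finset.mul_sum, Finset.sum_add_distrib, Finset.sum_const, Finset.card_range,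
          nsmul_eq_mul]
        congr 2
        field_simp

/-- the crude bound -/
theorem crude_sum (c : ℕ → ℂ) (hc : W388.SelE c) : ∃ C : ℝ, 1 ≤ C ∧ ∀ x : ℝ, 1 ≤ x →
    ∀ S : Finset ℕ, (∀ n ∈ S, Real.log n ≤ x) → ∑ n ∈ S, gg c n ≤ C * x ^ 2 := by
  obtain ⟨C, hC⟩ := wt_of c hc
  have hC0 := hC.C_nonneg
  refine ⟨2 * C + 1, by linarith, fun x hx S hS => ?_⟩
  have h1 := hC.bd x (by linarith) S hS
  calc ∑ n ∈ S, gg c n ≤ ∑ n ∈ S, x * vv c n := Finset.sum_le_sum fun n hn => gg_le c (hS n hn)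
    _ = x * ∑ n ∈ S, vv c n := by rw [Finset.mul_sum]
    _ ≤ x * (C * (x + 1)) := mul_le_mul_of_nonneg_left h1 (by linarith)
    _ ≤ (2 * C + 1) * x ^ 2 := by
        have h2 : x * (C * (x + 1)) ≤ x * (C * (x + x)) := by gcongr
        nlinarith [sq_nonneg x]

end Pool.Agent.T9h27.Z
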