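import Pool.Agent.T9h27.Z.Ww
import Pool.Agent.T9h27.Z.Sel
import Pool.Agent.H385R2.PerChi

/-!
# The mean square of the arithmetic side (helper27)
-/

set_option autoImplicit false

open MeasureTheory Complex Filter Topology Set
open H385 (Rw)
open H385.PerChi (Rw_cont)

namespace Pool.Agent.T9h27.Z

/-- the large sieve inequality for the family -/
def LSh {ι : Type} (s : Finset ι) (a : ι → ℕ → ℂ) (c : ℕ → ℂ) (M q : ℕ) (D : ℝ) : Prop :=
  ∀ b : ℕ → ℂ, ∑ i ∈ s, ‖∑ m ∈ Finset.Icc 1 M, b m *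
      (if Nat.Coprime m q then a i m else 0)‖ ^ 2 ≤
    D * s.card * ∑ m ∈ Finset.Icc 1 M,
      ‖b m‖ ^ 2 * (ArithmeticFunction.vonMangoldt m * ‖c m‖) ^ 2

/-- the arithmetic side, first part -/
noncomputable def Pc (b T1 T2 : ℝ) (M q : ℕ) (a : ℕ → ℂ) (u : ℝ) : ℂ :=
  ∑ n ∈ Finset.Icc 1 M, (if Nat.Coprime n q then a n else 0) * (Real.sqrt n : ℂ)⁻¹ *
    WW b T1 T2 (u - Real.log n)

/-- the arithmetic side, second part -/
noncomputable def Pm (b T1 T2 : ℝ) (M q : ℕ) (a : ℕ → ℂ) (u : ℝ) : ℂ :=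
  ∑ n ∈ Finset.Icc 1 M, (starRingEnd ℂ) (if Nat.Coprime n q then a n else 0) *
    (Real.sqrt n : ℂ)⁻¹ * WW b T1 T2 (u + Real.log n)

lemma Pc_cont (b T1 T2 : ℝ) (M q : ℕ) (a : ℕ → ℂ) : Continuous (Pc b T1 T2 M q a) := by
  unfold Pc
  have := WW_cont (b := b) (T1 := T1) (T2 := T2)
  fun_prop

lemma Pm_cont (b T1 T2 : ℝ) (M q : ℕ) (a : ℕ → ℂ) : Continuous (Pm b T1 T2 M q a) := by
  unfold Pm
  have := WW_cont (b := b) (T1 := T1) (T2 := T2)
  fun_prop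

section

variable {ι : Type} {s : Finset ι} {a : ι → ℕ → ℂ} {c : ℕ → ℂ} {M q : ℕ} {D : ℝ}

lemma ls_term (n : ℕ) (w : ℂ) : ‖(Real.sqrt n : ℂ)⁻¹ * w‖ ^ 2 *
    (ArithmeticFunction.vonMangoldt n * ‖c n‖) ^ 2 = gg c n * ‖w‖ ^ 2 := by
  rw [norm_mul, norm_inv, Complex.norm_real, Real.norm_of_nonneg (Real.sqrt_nonneg _), mul_pow,
    inv_pow, Real.sq_sqrt (Nat.cast_nonneg _)]
  unfold gg
  ring

lemma Pc_sq (hLS : LSh s a c M q D) (b T1 T2 u : ℝ) :
    ∑ i ∈ s, ‖Pc b T1 T2 M q (a i) u‖ ^ 2 ≤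
      D * s.card * ∑ n ∈ Finset.Icc 1 M, gg c n * ‖WW b T1 T2 (u - Real.log n)‖ ^ 2 := by
  have h := hLS (fun n => (Real.sqrt n : ℂ)⁻¹ * WW b T1 T2 (u - Real.log n))
  simp only [ls_term] at h
  refine le_trans (le_of_eq ?_) h
  refine Finset.sum_congr rfl fun i _ => ?_
  unfold Pc
  congr 2
  refine Finset.sum_congr rfl fun n _ => ?_
  ring

lemma Pm_sq (hLS : LSh s a c M q D) (b T1 T2 u : ℝ) :
    ∑ i ∈ s, ‖Pm b T1 T2 M q (a i) u‖ ^ 2 ≤
      D * s.card * ∑ n ∈ Finset.Icc 1 M, gg c n * ‖WW b T1 T2 (u + Real.log n)‖ ^ 2 := by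
  have h := hLS (fun n => (Real.sqrt n : ℂ)⁻¹ * (starRingEnd ℂ) (WW b T1 T2 (u + Real.log n)))
  simp only [ls_term, RCLike.norm_conj] at h
  refine le_trans (le_of_eq ?_) h
  refine Finset.sum_congr rfl fun i _ => ?_
  have e1 : Pm b T1 T2 M q (a i) u = (starRingEnd ℂ) (∑ n ∈ Finset.Icc 1 M,
      (Real.sqrt n : ℂ)⁻¹ * (starRingEnd ℂ) (WW b T1 T2 (u + Real.log n)) *
        (if Nat.Coprime n q then a i n else 0)) := by
    unfold Pm
    rw [map_sum]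
    refine Finset.sum_congr rfl fun n _ => ?_
    rw [map_mul, map_mul, Complex.conj_conj, map_inv₀, Complex.conj_ofReal]
    ring
  rw [e1, RCLike.norm_conj]

/-- the small factor -/
noncomputable def xi (b : ℝ) : ℝ := (800 * b * Real.exp (-b ^ 2 / 4)) ^ 2

lemma xi_nonneg (b : ℝ) : 0 ≤ xi b := sq_nonneg _

lemma WW_sq_le {b : ℝ} (hb : 1 ≤ b) (T1 T2 v : ℝ) : ‖WW b T1 T2 v‖ ^ 2 ≤ ‖ww T1 T2 v‖ ^ 2 :=
  pow_le_pow_left₀ (norm_nonneg _) (WW_le_ww hb T1 T2 v) 2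

lemma WW_sq_tail {b : ℝ} (hb : 1 ≤ b) (T1 T2 : ℝ) {v : ℝ} (hv : 9 * b ≤ |v|) :
    ‖WW b T1 T2 v‖ ^ 2 ≤ ‖ww T1 T2 v‖ ^ 2 * xi b := by
  rw [WW_norm hb, mul_pow]
  refine mul_le_mul_of_nonneg_left ?_ (sq_nonneg _)
  unfold xi
  refine pow_le_pow_left₀ (qq_nonneg hb v) ((qq_tail hb (by linarith)).trans ?_) 2
  refine mul_le_mul_of_nonneg_left (Real.exp_le_exp.mpr ?_) (by linarith)
  have h1 : b ≤ |v| - 8 * b := by linarith
  have h2 := pow_le_pow_left₀ (by linarith : (0 : ℝ) ≤ b) h1 2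
  linarith

lemma WW_sq_ind {b : ℝ} (hb : 1 ≤ b) (T1 T2 v : ℝ) {P : Prop} [Decidable P]
    (hP : |v| ≤ 9 * b → P) :
    ‖WW b T1 T2 v‖ ^ 2 ≤ ‖ww T1 T2 v‖ ^ 2 * ((if P then 1 else 0) + xi b) := by
  have hx := xi_nonneg b
  have h0 : 0 ≤ ‖ww T1 T2 v‖ ^ 2 := sq_nonneg _
  by_cases h : |v| ≤ 9 * b
  · rw [if_pos (hP h)]
    refine (WW_sq_le hb T1 T2 v).trans ?_
    nlinarith
  · push Not at h
    refine (WW_sq_tail hb T1 T2 h.le).trans (mul_le_mul_of_nonneg_left ?_ h0)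
    split_ifs <;> linarith

lemma int_gen {b : ℝ} (hb : 1 ≤ b) {T1 T2 : ℝ} (hT : T1 ≤ T2) {U : ℝ} (hU : 0 ≤ U)
    (hLS : LSh s a c M q D) (hD : 0 ≤ D) :
    ∫ u in (0 : ℝ)..U, ∑ i ∈ s, ‖Pc b T1 T2 M q (a i) u‖ ^ 2 ≤
      D * s.card * (2 * Real.pi * (T2 - T1)) *
        (∑ n ∈ (Finset.Icc 1 M).filter (fun n : ℕ => Real.log n ≤ U + 9 * b), gg c n +
          xi b * ∑ n ∈ Finset.Icc 1 M, gg c n) := by
  have hc := WW_cont (b := b) (T1 := T1) (T2 := T2)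
  have hw := ww_cont T1 T2
  have hPc : ∀ i, Continuous (Pc b T1 T2 M q (a i)) := fun i => Pc_cont b T1 T2 M q (a i)
  have hD' : 0 ≤ D * s.card := by positivity
  have h1 : ∫ u in (0 : ℝ)..U, ∑ i ∈ s, ‖Pc b T1 T2 M q (a i) u‖ ^ 2 ≤
      ∫ u in (0 : ℝ)..U, D * s.card * ∑ n ∈ Finset.Icc 1 M, (gg c n *
        ((if Real.log n ≤ U + 9 * b then 1 else 0) + xi b)) * ‖ww T1 T2 (u - Real.log n)‖ ^ 2 := by
    refine intervalIntegral.integral_mono_on hU
      ((by fun_prop : Continuous fun u : ℝ =>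
        ∑ i ∈ s, ‖Pc b T1 T2 M q (a i) u‖ ^ 2).intervalIntegrable _ _)
      ((by fun_prop : Continuous fun u : ℝ => D * s.card * ∑ n ∈ Finset.Icc 1 M, (gg c n *
        ((if Real.log n ≤ U + 9 * b then 1 else 0) + xi b)) *
          ‖ww T1 T2 (u - Real.log n)‖ ^ 2).intervalIntegrable _ _) ?_
    intro u hu
    refine (Pc_sq hLS b T1 T2 u).trans (mul_le_mul_of_nonneg_left ?_ hD')
    refine Finset.sum_le_sum fun n hn => ?_
    have h2 := WW_sq_ind hb T1 T2 (u - Real.log n) (P := Real.log n ≤ U + 9 * b) (fun h => by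
      have := (abs_le.mp h).1
      have := hu.2
      linarith)
    calc gg c n * ‖WW b T1 T2 (u - Real.log n)‖ ^ 2 ≤
        gg c n * (‖ww T1 T2 (u - Real.log n)‖ ^ 2 *
          ((if Real.log n ≤ U + 9 * b then 1 else 0) + xi b)) :=
          mul_le_mul_of_nonneg_left h2 (gg_nonneg c n)
      _ = _ := by ring
  refine h1.trans ?_
  rw [intervalIntegral.integral_const_mul, intervalIntegral.integral_finsetSum (fun n _ =>
    (by fun_prop : Continuous fun u : ℝ => (gg c n *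
        ((if Real.log n ≤ U + 9 * b then 1 else 0) + xi b)) *
          ‖ww T1 T2 (u - Real.log n)‖ ^ 2).intervalIntegrable _ _), mul_assoc (D * s.card)]
  refine mul_le_mul_of_nonneg_left ?_ hD'
  rw [Finset.sum_filter, Finset.mul_sum, ← Finset.sum_add_distrib, Finset.mul_sum]
  refine Finset.sum_le_sum fun n _ => ?_
  rw [intervalIntegral.integral_const_mul]
  have h3 := ww_sq_shift hT hU (Real.log n)
  have hg := gg_nonneg c n
  have hx := xi_nonneg b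
  have h4 : 0 ≤ gg c n * ((if Real.log n ≤ U + 9 * b then 1 else 0) + xi b) := by
    refine mul_nonneg hg ?_
    split_ifs <;> linarith
  refine (mul_le_mul_of_nonneg_left h3 h4).trans (le_of_eq ?_)
  split_ifs <;> ring

lemma int_min {b : ℝ} (hb : 1 ≤ b) {T1 T2 : ℝ} (hT : T1 ≤ T2) {U : ℝ} (hU : 0 ≤ U)
    (hLS : LSh s a c M q D) (hD : 0 ≤ D) :
    ∫ u in (0 : ℝ)..U, ∑ i ∈ s, ‖Pm b T1 T2 M q (a i) u‖ ^ 2 ≤
      D * s.card * (2 * Real.pi * (T2 - T1)) *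
        (∑ n ∈ (Finset.Icc 1 M).filter (fun n : ℕ => Real.log n ≤ 9 * b), gg c n +
          xi b * ∑ n ∈ Finset.Icc 1 M, gg c n) := by
  have hc := WW_cont (b := b) (T1 := T1) (T2 := T2)
  have hw := ww_cont T1 T2
  have hPm : ∀ i, Continuous (Pm b T1 T2 M q (a i)) := fun i => Pm_cont b T1 T2 M q (a i)
  have hD' : 0 ≤ D * s.card := by positivity
  have h1 : ∫ u in (0 : ℝ)..U, ∑ i ∈ s, ‖Pm b T1 T2 M q (a i) u‖ ^ 2 ≤
      ∫ u in (0 : ℝ)..U, D * s.card * ∑ n ∈ Finset.Icc 1 M, (gg c n *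
        ((if Real.log n ≤ 9 * b then 1 else 0) + xi b)) * ‖ww T1 T2 (u + Real.log n)‖ ^ 2 := by
    refine intervalIntegral.integral_mono_on hU
      ((by fun_prop : Continuous fun u : ℝ =>
        ∑ i ∈ s, ‖Pm b T1 T2 M q (a i) u‖ ^ 2).intervalIntegrable _ _)
      ((by fun_prop : Continuous fun u : ℝ => D * s.card * ∑ n ∈ Finset.Icc 1 M, (gg c n *
        ((if Real.log n ≤ 9 * b then 1 else 0) + xi b)) *
          ‖ww T1 T2 (u + Real.log n)‖ ^ 2).intervalIntegrable _ _) ?_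
    intro u hu
    refine (Pm_sq hLS b T1 T2 u).trans (mul_le_mul_of_nonneg_left ?_ hD')
    refine Finset.sum_le_sum fun n hn => ?_
    have h2 := WW_sq_ind hb T1 T2 (u + Real.log n) (P := Real.log n ≤ 9 * b) (fun h => by
      have := (abs_le.mp h).2
      have := hu.1
      linarith)
    calc gg c n * ‖WW b T1 T2 (u + Real.log n)‖ ^ 2 ≤
        gg c n * (‖ww T1 T2 (u + Real.log n)‖ ^ 2 *
          ((if Real.log n ≤ 9 * b then 1 else 0) + xi b)) :=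
          mul_le_mul_of_nonneg_left h2 (gg_nonneg c n)
      _ = _ := by ring
  refine h1.trans ?_
  rw [intervalIntegral.integral_const_mul, intervalIntegral.integral_finsetSum (fun n _ =>
    (by fun_prop : Continuous fun u : ℝ => (gg c n *
        ((if Real.log n ≤ 9 * b then 1 else 0) + xi b)) *
          ‖ww T1 T2 (u + Real.log n)‖ ^ 2).intervalIntegrable _ _), mul_assoc (D * s.card)]
  refine mul_le_mul_of_nonneg_left ?_ hD'
  rw [Finset.sum_filter, Finset.mul_sum, ← Finset.sum_add_distrib, Finset.mul_sum]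
  refine Finset.sum_le_sum fun n _ => ?_
  rw [intervalIntegral.integral_const_mul]
  have h3 := ww_sq_shift hT hU (-Real.log n)
  simp only [sub_neg_eq_add] at h3
  have hg := gg_nonneg c n
  have hx := xi_nonneg b
  have h4 : 0 ≤ gg c n * ((if Real.log n ≤ 9 * b then 1 else 0) + xi b) := by
    refine mul_nonneg hg ?_
    split_ifs <;> linarith
  refine (mul_le_mul_of_nonneg_left h3 h4).trans (le_of_eq ?_)
  split_ifs <;> ring

/-- the weighted integral -/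
lemma int_main {b : ℝ} (hb : 1 ≤ b) {T1 T2 : ℝ} (hT : T1 ≤ T2) {Λ : ℝ} (hΛ : 0 < Λ)
    {γ K : ℝ} (h0 : 0 < γ) (hπ : γ < Real.pi) (hK0 : 0 ≤ K)
    (hK : ∀ x y, |Rw γ x - Rw γ y| ≤ K * |x - y|)
    (hLS : LSh s a c M q D) (hD : 0 ≤ D) :
    ∫ u in (0 : ℝ)..Λ, Rw γ (u / Λ) * ∑ i ∈ s, ‖Pc b T1 T2 M q (a i) u‖ ^ 2 ≤
      D * s.card * (2 * Real.pi * (T2 - T1)) *
        (∑ n ∈ Finset.Icc 1 M, gg c n * Rw γ (Real.log n / Λ) +
          (9 * K * b / Λ + Rw γ 0 * xi b) * ∑ n ∈ Finset.Icc 1 M, gg c n) := by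
  have hc := WW_cont (b := b) (T1 := T1) (T2 := T2)
  have hw := ww_cont T1 T2
  have hR := Rw_cont γ h0 hπ
  have hRn := H385.Rw_nonneg γ h0 hπ
  have hPc : ∀ i, Continuous (Pc b T1 T2 M q (a i)) := fun i => Pc_cont b T1 T2 M q (a i)
  have hD' : 0 ≤ D * s.card := by positivity
  have hx := xi_nonneg b
  have hb0 : 0 < b := by linarith
  have h1 : ∫ u in (0 : ℝ)..Λ, Rw γ (u / Λ) * ∑ i ∈ s, ‖Pc b T1 T2 M q (a i) u‖ ^ 2 ≤
      ∫ u in (0 : ℝ)..Λ, D * s.card * ∑ n ∈ Finset.Icc 1 M, (gg c n *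
        (Rw γ (Real.log n / Λ) + 9 * K * b / Λ + Rw γ 0 * xi b)) *
          ‖ww T1 T2 (u - Real.log n)‖ ^ 2 := by
    refine intervalIntegral.integral_mono_on hΛ.le
      ((by fun_prop : Continuous fun u : ℝ =>
        Rw γ (u / Λ) * ∑ i ∈ s, ‖Pc b T1 T2 M q (a i) u‖ ^ 2).intervalIntegrable _ _)
      ((by fun_prop : Continuous fun u : ℝ => D * s.card * ∑ n ∈ Finset.Icc 1 M, (gg c n *
        (Rw γ (Real.log n / Λ) + 9 * K * b / Λ + Rw γ 0 * xi b)) *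
          ‖ww T1 T2 (u - Real.log n)‖ ^ 2).intervalIntegrable _ _) ?_
    intro u hu
    have h2 := mul_le_mul_of_nonneg_left (Pc_sq hLS b T1 T2 u) (hRn (u / Λ))
    refine h2.trans ?_
    rw [mul_left_comm]
    refine mul_le_mul_of_nonneg_left ?_ hD'
    rw [Finset.mul_sum]
    refine Finset.sum_le_sum fun n hn => ?_
    have hg := gg_nonneg c n
    have hww : 0 ≤ ‖ww T1 T2 (u - Real.log n)‖ ^ 2 := sq_nonneg _
    have h3 : Rw γ (u / Λ) * ‖WW b T1 T2 (u - Real.log n)‖ ^ 2 ≤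
        (Rw γ (Real.log n / Λ) + 9 * K * b / Λ + Rw γ 0 * xi b) *
          ‖ww T1 T2 (u - Real.log n)‖ ^ 2 := by
      have hn0 := hRn (Real.log n / Λ)
      have hKb : 0 ≤ 9 * K * b / Λ := by positivity
      have hRx : 0 ≤ Rw γ 0 * xi b := mul_nonneg (hRn 0) hx
      by_cases h : |u - Real.log n| ≤ 9 * b
      · have h4 : Rw γ (u / Λ) ≤ Rw γ (Real.log n / Λ) + 9 * K * b / Λ := by
          have h5 := hK (u / Λ) (Real.log n / Λ)
          have h6 : |u / Λ - Real.log n / Λ| ≤ 9 * b / Λ := by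
            rw [← sub_div, abs_div, abs_of_pos hΛ]
            exact div_le_div_of_nonneg_right h hΛ.le
          have h7 := (le_abs_self _).trans (h5.trans (mul_le_mul_of_nonneg_left h6 hK0))
          have h8 : K * (9 * b / Λ) = 9 * K * b / Λ := by ring
          linarith
        refine (mul_le_mul_of_nonneg_left (WW_sq_le hb T1 T2 _) (hRn _)).trans ?_
        exact mul_le_mul_of_nonneg_right (by linarith) hww
      · push Not at h
        have h4 := WW_sq_tail hb T1 T2 h.le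
        have h5 := H385.Rw_le γ h0 hπ (u / Λ) (div_nonneg hu.1 hΛ.le)
        calc Rw γ (u / Λ) * ‖WW b T1 T2 (u - Real.log n)‖ ^ 2 ≤
            Rw γ 0 * (‖ww T1 T2 (u - Real.log n)‖ ^ 2 * xi b) :=
              mul_le_mul h5 h4 (sq_nonneg _) (hRn 0)
          _ = (Rw γ 0 * xi b) * ‖ww T1 T2 (u - Real.log n)‖ ^ 2 := by ring
          _ ≤ _ := mul_le_mul_of_nonneg_right (by linarith) hww
    calc Rw γ (u / Λ) * (gg c n * ‖WW b T1 T2 (u - Real.log n)‖ ^ 2) =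
        gg c n * (Rw γ (u / Λ) * ‖WW b T1 T2 (u - Real.log n)‖ ^ 2) := by ring
      _ ≤ gg c n * ((Rw γ (Real.log n / Λ) + 9 * K * b / Λ + Rw γ 0 * xi b) *
          ‖ww T1 T2 (u - Real.log n)‖ ^ 2) := mul_le_mul_of_nonneg_left h3 hg
      _ = _ := by ring
  refine h1.trans ?_
  rw [intervalIntegral.integral_const_mul, intervalIntegral.integral_finsetSum (fun n _ =>
    (by fun_prop : Continuous fun u : ℝ => (gg c n *
        (Rw γ (Real.log n / Λ) + 9 * K * b / Λ + Rw γ 0 * xi b)) *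
          ‖ww T1 T2 (u - Real.log n)‖ ^ 2).intervalIntegrable _ _), mul_assoc (D * s.card)]
  refine mul_le_mul_of_nonneg_left ?_ hD'
  rw [Finset.mul_sum, ← Finset.sum_add_distrib, Finset.mul_sum]
  refine Finset.sum_le_sum fun n _ => ?_
  rw [intervalIntegral.integral_const_mul]
  have h3 := ww_sq_shift hT hΛ.le (Real.log n)
  have hg := gg_nonneg c n
  have hn0 := hRn (Real.log n / Λ)
  have hKb : 0 ≤ 9 * K * b / Λ := by positivity
  have hRx : 0 ≤ Rw γ 0 * xi b := mul_nonneg (hRn 0) hx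
  have h4 : 0 ≤ gg c n * (Rw γ (Real.log n / Λ) + 9 * K * b / Λ + Rw γ 0 * xi b) :=
    mul_nonneg hg (by linarith)
  refine (mul_le_mul_of_nonneg_left h3 h4).trans (le_of_eq ?_)
  ring

/-- the value at `0` -/
lemma zero_gen {b : ℝ} (hb : 1 ≤ b) {T1 T2 : ℝ} (hT : T1 ≤ T2)
    (hLS : LSh s a c M q D) (hD : 0 ≤ D) :
    ∑ i ∈ s, ‖Pc b T1 T2 M q (a i) 0‖ ^ 2 ≤ D * s.card * (T2 - T1) ^ 2 *
        (∑ n ∈ (Finset.Icc 1 M).filter (fun n : ℕ => Real.log n ≤ 9 * b), gg c n +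
          xi b * ∑ n ∈ Finset.Icc 1 M, gg c n) ∧
    ∑ i ∈ s, ‖Pm b T1 T2 M q (a i) 0‖ ^ 2 ≤ D * s.card * (T2 - T1) ^ 2 *
        (∑ n ∈ (Finset.Icc 1 M).filter (fun n : ℕ => Real.log n ≤ 9 * b), gg c n +
          xi b * ∑ n ∈ Finset.Icc 1 M, gg c n) := by
  have hD' : 0 ≤ D * s.card := by positivity
  have hx := xi_nonneg b
  have key : ∀ n ∈ Finset.Icc 1 M, ∀ v : ℝ, |v| = Real.log n → gg c n * ‖WW b T1 T2 v‖ ^ 2 ≤
      (T2 - T1) ^ 2 * ((if Real.log n ≤ 9 * b then gg c n else 0) + xi b * gg c n) := by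
    intro n hn v hv
    have hg := gg_nonneg c n
    have h2 := WW_sq_ind hb T1 T2 v (P := Real.log n ≤ 9 * b) (fun h => by rwa [hv] at h)
    have h3 := pow_le_pow_left₀ (norm_nonneg _) (ww_le hT v) 2
    have h4 : 0 ≤ (if Real.log n ≤ 9 * b then (1 : ℝ) else 0) + xi b := by
      split_ifs <;> linarith
    calc gg c n * ‖WW b T1 T2 v‖ ^ 2 ≤ gg c n * ((T2 - T1) ^ 2 *
          ((if Real.log n ≤ 9 * b then 1 else 0) + xi b)) :=
          mul_le_mul_of_nonneg_left (h2.trans (mul_le_mul_of_nonneg_right h3 h4)) hg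
      _ = _ := by split_ifs <;> ring
  have hlog : ∀ n ∈ Finset.Icc 1 M, 0 ≤ Real.log (n : ℝ) := by
    intro n hn
    exact Real.log_nonneg (by exact_mod_cast (Finset.mem_Icc.mp hn).1)
  constructor
  · refine (Pc_sq hLS b T1 T2 0).trans ?_
    rw [mul_assoc (D * s.card)]
    refine mul_le_mul_of_nonneg_left ?_ hD'
    rw [Finset.sum_filter, Finset.mul_sum, ← Finset.sum_add_distrib, Finset.mul_sum]
    refine Finset.sum_le_sum fun n hn => key n hn _ ?_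
    rw [zero_sub, abs_neg, abs_of_nonneg (hlog n hn)]
  · refine (Pm_sq hLS b T1 T2 0).trans ?_
    rw [mul_assoc (D * s.card)]
    refine mul_le_mul_of_nonneg_left ?_ hD'
    rw [Finset.sum_filter, Finset.mul_sum, ← Finset.sum_add_distrib, Finset.mul_sum]
    refine Finset.sum_le_sum fun n hn => key n hn _ ?_
    rw [zero_add, abs_of_nonneg (hlog n hn)]

end

end Pool.Agent.T9h27.Z
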