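import Pool.Agent.T9h27.Z.Ms

/-!
# The mean square of the zero sum (helper27)
-/

set_option autoImplicit false

open MeasureTheory Complex Filter Topology Set
open H385 (Rw)
open H385.PerChi (Rw_cont)

namespace Pool.Agent.T9h27.Z

lemma nsq_add (x y : ℂ) {κ : ℝ} (hκ : 0 < κ) :
    ‖x + y‖ ^ 2 ≤ (1 + κ) * ‖x‖ ^ 2 + (1 + 1 / κ) * ‖y‖ ^ 2 := by
  have h1 := norm_add_le x y
  have h2 := pow_le_pow_left₀ (norm_nonneg _) h1 2
  have h3 : 2 * (‖x‖ * ‖y‖) ≤ κ * ‖x‖ ^ 2 + 1 / κ * ‖y‖ ^ 2 := by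
    have h4 : 0 ≤ (κ * ‖x‖ - ‖y‖) ^ 2 := sq_nonneg _
    have h5 : κ * ‖x‖ ^ 2 + 1 / κ * ‖y‖ ^ 2 - 2 * (‖x‖ * ‖y‖) = (κ * ‖x‖ - ‖y‖) ^ 2 / κ := by
      field_simp
      ring
    have h6 : 0 ≤ (κ * ‖x‖ - ‖y‖) ^ 2 / κ := div_nonneg h4 hκ.le
    linarith
  nlinarith

lemma ww_tail_int (T1 T2 : ℝ) {U Λ : ℝ} (hU : 0 < U) (hUΛ : U ≤ Λ) :
    ∫ u in U..Λ, ‖ww T1 T2 u‖ ^ 2 ≤ 4 / U := by
  have hw := ww_cont T1 T2
  have h1 : ∫ u in U..Λ, ‖ww T1 T2 u‖ ^ 2 ≤ ∫ u in U..Λ, 4 * u ^ (-2 : ℤ) := by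
    refine intervalIntegral.integral_mono_on hUΛ
      ((by fun_prop : Continuous fun u : ℝ => ‖ww T1 T2 u‖ ^ 2).intervalIntegrable _ _) ?_ ?_
    · refine ContinuousOn.intervalIntegrable ?_
      rw [uIcc_of_le hUΛ]
      intro u hu
      have hu0 : u ≠ 0 := by
        have := hu.1
        linarith
      exact (continuousAt_const.mul (continuousAt_zpow₀ u (-2) (Or.inl hu0))).continuousWithinAt
    · intro u hu
      have hu0 : 0 < u := by linarith [hu.1]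
      have h2 := ww_inv T1 T2 u
      rw [abs_of_pos hu0] at h2
      have h3 : (u * ‖ww T1 T2 u‖) ^ 2 ≤ 2 ^ 2 :=
        pow_le_pow_left₀ (by positivity) h2 2
      rw [zpow_neg, ← div_eq_mul_inv, le_div_iff₀ (by positivity)]
      have e1 : u ^ (2 : ℤ) = u ^ 2 := by norm_cast
      rw [e1]
      nlinarith
  refine h1.trans ?_
  rw [intervalIntegral.integral_const_mul, integral_zpow (Or.inr ⟨by norm_num, by
    rw [uIcc_of_le hUΛ]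
    intro h
    linarith [h.1]⟩)]
  have e2 : ((-2 : ℤ) : ℝ) + 1 = -1 := by norm_num
  have hΛ : 0 < Λ := by linarith
  have e3 : (-2 : ℤ) + 1 = -1 := by norm_num
  rw [e2, e3, zpow_neg_one, zpow_neg_one]
  have h4 : 0 < Λ⁻¹ := inv_pos.mpr hΛ
  have h5 : 4 * ((Λ⁻¹ - U⁻¹) / -1) = 4 * U⁻¹ - 4 * Λ⁻¹ := by ring
  rw [h5, div_eq_mul_inv]
  linarith

section

variable {ι : Type} {s : Finset ι} {a : ι → ℕ → ℂ} {M q : ℕ}

/-- **the mean square of the zero sums** -/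
theorem ms_all {b : ℝ} (hb : 1 ≤ b) {T1 T2 : ℝ} (hT : T1 ≤ T2) {U Λ : ℝ} (hU : 0 < U) (hUΛ : U ≤ Λ)
    {γ : ℝ} (h0 : 0 < γ) (hπ : γ < Real.pi) {δ : ℝ} (hδ : 0 < δ) (Lc : ι → ℝ) {E1 J3 J4 J5 : ℝ}
    (hE1 : 0 ≤ E1) (S : ι → ℝ → ℂ) (hS : ∀ i ∈ s, Continuous (S i))
    (hf : ∀ i ∈ s, ∀ u ∈ Icc 0 Λ, ‖S i u - ((1 / (2 * Real.pi) : ℝ) : ℂ) *
      ((Lc i : ℂ) * WW b T1 T2 u - Pc b T1 T2 M q (a i) u - Pm b T1 T2 M q (a i) u)‖ ≤ E1)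
    (hJ3 : ∫ u in (0 : ℝ)..Λ, Rw γ (u / Λ) * ∑ i ∈ s, ‖Pc b T1 T2 M q (a i) u‖ ^ 2 ≤ J3)
    (hJ4 : ∫ u in (0 : ℝ)..U, ∑ i ∈ s, ‖Pc b T1 T2 M q (a i) u‖ ^ 2 ≤ J4)
    (hJ5 : ∫ u in (0 : ℝ)..Λ, ∑ i ∈ s, ‖Pm b T1 T2 M q (a i) u‖ ^ 2 ≤ J5) :
    (2 / Λ) * ∫ u in (0 : ℝ)..Λ, Rw γ (u / Λ) * ∑ i ∈ s, ‖S i u‖ ^ 2 ≤
      (2 / Λ) * ((1 + δ) / (4 * Real.pi ^ 2) *
        ((1 + δ) * ((∑ i ∈ s, Lc i ^ 2) * (Rw γ 0 * (Real.pi * (T2 - T1)))) +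
          (1 + 1 / δ) * ((∑ i ∈ s, Lc i ^ 2) * (Rw γ 0 * (4 / U))) +
          (1 + 1 / δ) * (Rw γ 0 * J4) + (1 + δ) * J3) +
        (1 + 1 / δ) * (2 * E1 ^ 2 * s.card * (Rw γ 0 * Λ) +
          1 / (2 * Real.pi ^ 2) * (Rw γ 0 * J5))) := by
  have hpi := Real.pi_pos
  have hΛ : 0 < Λ := by linarith
  have hR := Rw_cont γ h0 hπ
  have hRn := H385.Rw_nonneg γ h0 hπ
  have hRle : ∀ u ∈ Icc 0 Λ, Rw γ (u / Λ) ≤ Rw γ 0 := fun u hu =>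
    H385.Rw_le γ h0 hπ (u / Λ) (div_nonneg hu.1 hΛ.le)
  have hw := ww_cont T1 T2
  have hPc : ∀ i, Continuous (Pc b T1 T2 M q (a i)) := fun i => Pc_cont b T1 T2 M q (a i)
  have hPm : ∀ i, Continuous (Pm b T1 T2 M q (a i)) := fun i => Pm_cont b T1 T2 M q (a i)
  obtain ⟨LL, hLL⟩ : ∃ x : ℝ, x = ∑ i ∈ s, Lc i ^ 2 := ⟨_, rfl⟩
  have hLL0 : 0 ≤ LL := by rw [hLL]; exact Finset.sum_nonneg fun _ _ => sq_nonneg _
  obtain ⟨w2, hw2⟩ : ∃ f : ℝ → ℝ, ∀ u, f u = ‖ww T1 T2 u‖ ^ 2 := ⟨_, fun _ => rfl⟩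
  obtain ⟨pc, hpc⟩ : ∃ f : ℝ → ℝ, ∀ u, f u = ∑ i ∈ s, ‖Pc b T1 T2 M q (a i) u‖ ^ 2 :=
    ⟨_, fun _ => rfl⟩
  obtain ⟨pm, hpm⟩ : ∃ f : ℝ → ℝ, ∀ u, f u = ∑ i ∈ s, ‖Pm b T1 T2 M q (a i) u‖ ^ 2 :=
    ⟨_, fun _ => rfl⟩
  obtain ⟨sm, hsm⟩ : ∃ f : ℝ → ℝ, ∀ u, f u = ∑ i ∈ s, ‖S i u‖ ^ 2 := ⟨_, fun _ => rfl⟩
  have cw2 : Continuous w2 := by
    have : w2 = fun u => ‖ww T1 T2 u‖ ^ 2 := funext hw2
    rw [this]; fun_prop
  have cpc : Continuous pc := by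
    have : pc = fun u => ∑ i ∈ s, ‖Pc b T1 T2 M q (a i) u‖ ^ 2 := funext hpc
    rw [this]; fun_prop
  have cpm : Continuous pm := by
    have : pm = fun u => ∑ i ∈ s, ‖Pm b T1 T2 M q (a i) u‖ ^ 2 := funext hpm
    rw [this]; fun_prop
  have csm : Continuous sm := by
    have : sm = fun u => ∑ i ∈ s, ‖S i u‖ ^ 2 := funext hsm
    rw [this]
    exact continuous_finsetSum _ fun i hi => ((hS i hi).norm.pow 2)
  have nw2 : ∀ u, 0 ≤ w2 u := fun u => by rw [hw2]; positivity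
  have npc : ∀ u, 0 ≤ pc u := fun u => by rw [hpc]; positivity
  have npm : ∀ u, 0 ≤ pm u := fun u => by rw [hpm]; positivity
  simp_rw [← hpc] at hJ3 hJ4
  simp_rw [← hpm] at hJ5
  simp_rw [← hsm]
  rw [← hLL]
  -- the pointwise bound
  have key : ∀ κ : ℝ, 0 < κ → ∀ u ∈ Icc 0 Λ, sm u ≤ (1 + δ) / (4 * Real.pi ^ 2) *
      ((1 + κ) * (LL * w2 u) + (1 + 1 / κ) * pc u) +
      (1 + 1 / δ) * (2 * E1 ^ 2 * s.card + 1 / (2 * Real.pi ^ 2) * pm u) := by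
    intro κ hκ u hu
    have h1 : ∀ i ∈ s, ‖S i u‖ ^ 2 ≤ (1 + δ) / (4 * Real.pi ^ 2) *
        ((1 + κ) * (Lc i ^ 2 * w2 u) + (1 + 1 / κ) * ‖Pc b T1 T2 M q (a i) u‖ ^ 2) +
        (1 + 1 / δ) * (2 * E1 ^ 2 + 1 / (2 * Real.pi ^ 2) * ‖Pm b T1 T2 M q (a i) u‖ ^ 2) := by
      intro i hi
      obtain ⟨X, hX⟩ : ∃ X : ℂ, X = (Lc i : ℂ) * WW b T1 T2 u - Pc b T1 T2 M q (a i) u := ⟨_, rfl⟩
      obtain ⟨k, hk⟩ : ∃ k : ℂ, k = ((1 / (2 * Real.pi) : ℝ) : ℂ) := ⟨_, rfl⟩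
      have hkn : ‖k‖ = 1 / (2 * Real.pi) := by
        rw [hk, Complex.norm_real, Real.norm_of_nonneg (by positivity)]
      have h2 := hf i hi u hu
      rw [← hX, ← hk] at h2
      have h3 := nsq_add (k * X) (S i u - k * X) hδ
      rw [add_sub_cancel] at h3
      have h4 : ‖S i u - k * X‖ ≤ E1 + 1 / (2 * Real.pi) * ‖Pm b T1 T2 M q (a i) u‖ := by
        have e1 : S i u - k * X = (S i u - k * (X - Pm b T1 T2 M q (a i) u)) -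
            k * Pm b T1 T2 M q (a i) u := by ring
        rw [e1]
        refine (norm_sub_le _ _).trans (add_le_add h2 ?_)
        rw [norm_mul, hkn]
      have h5 : ‖S i u - k * X‖ ^ 2 ≤
          2 * E1 ^ 2 + 1 / (2 * Real.pi ^ 2) * ‖Pm b T1 T2 M q (a i) u‖ ^ 2 := by
        refine (pow_le_pow_left₀ (norm_nonneg _) h4 2).trans ?_
        have e2 : 2 * E1 ^ 2 + 1 / (2 * Real.pi ^ 2) * ‖Pm b T1 T2 M q (a i) u‖ ^ 2 -
            (E1 + 1 / (2 * Real.pi) * ‖Pm b T1 T2 M q (a i) u‖) ^ 2 =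
            (E1 - 1 / (2 * Real.pi) * ‖Pm b T1 T2 M q (a i) u‖) ^ 2 := by
          field_simp
          ring
        have := sq_nonneg (E1 - 1 / (2 * Real.pi) * ‖Pm b T1 T2 M q (a i) u‖)
        linarith
      have h6 : ‖k * X‖ ^ 2 ≤ 1 / (4 * Real.pi ^ 2) *
          ((1 + κ) * (Lc i ^ 2 * w2 u) + (1 + 1 / κ) * ‖Pc b T1 T2 M q (a i) u‖ ^ 2) := by
        rw [norm_mul, mul_pow, hkn]
        have e3 : (1 / (2 * Real.pi)) ^ 2 = 1 / (4 * Real.pi ^ 2) := by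
          field_simp
          ring
        rw [e3]
        refine mul_le_mul_of_nonneg_left ?_ (by positivity)
        have h7 := nsq_add ((Lc i : ℂ) * WW b T1 T2 u) (-Pc b T1 T2 M q (a i) u) hκ
        rw [← sub_eq_add_neg, ← hX, norm_neg] at h7
        refine h7.trans (add_le_add (mul_le_mul_of_nonneg_left ?_ (by positivity)) le_rfl)
        rw [norm_mul, mul_pow, Complex.norm_real, Real.norm_eq_abs, sq_abs, hw2]
        exact mul_le_mul_of_nonneg_left (WW_sq_le hb T1 T2 u) (sq_nonneg _)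
      calc ‖S i u‖ ^ 2 ≤ (1 + δ) * ‖k * X‖ ^ 2 + (1 + 1 / δ) * ‖S i u - k * X‖ ^ 2 := h3
        _ ≤ (1 + δ) * (1 / (4 * Real.pi ^ 2) *
          ((1 + κ) * (Lc i ^ 2 * w2 u) + (1 + 1 / κ) * ‖Pc b T1 T2 M q (a i) u‖ ^ 2)) +
          (1 + 1 / δ) * (2 * E1 ^ 2 + 1 / (2 * Real.pi ^ 2) *
            ‖Pm b T1 T2 M q (a i) u‖ ^ 2) := by
            refine add_le_add (mul_le_mul_of_nonneg_left h6 (by positivity))
              (mul_le_mul_of_nonneg_left h5 (by positivity))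
        _ = _ := by ring
    rw [hsm]
    refine (Finset.sum_le_sum h1).trans (le_of_eq ?_)
    rw [Finset.sum_add_distrib, ← Finset.mul_sum, ← Finset.mul_sum, Finset.sum_add_distrib,
      Finset.sum_add_distrib, ← Finset.mul_sum, ← Finset.mul_sum, ← Finset.mul_sum,
      ← Finset.mul_sum, ← Finset.sum_mul, Finset.sum_const, nsmul_eq_mul, ← hpc, ← hpm, ← hLL]
    ring
  have cR : Continuous fun u : ℝ => Rw γ (u / Λ) := hR.comp (continuous_id.div_const _)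
  have ii : ∀ (f : ℝ → ℝ), Continuous f → ∀ x y : ℝ, IntervalIntegrable f volume x y :=
    fun f hf x y => hf.intervalIntegrable _ _
  -- the pieces
  obtain ⟨e, he⟩ : ∃ f : ℝ → ℝ, ∀ u, f u =
    (1 + 1 / δ) * (2 * E1 ^ 2 * s.card + 1 / (2 * Real.pi ^ 2) * pm u) := ⟨_, fun _ => rfl⟩
  have ce : Continuous e := by
    have : e = fun u => (1 + 1 / δ) * (2 * E1 ^ 2 * s.card + 1 / (2 * Real.pi ^ 2) * pm u) :=
      funext he
    rw [this]; fun_prop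
  have piece : ∀ κ : ℝ, 0 < κ → ∀ x y : ℝ, 0 ≤ x → x ≤ y → y ≤ Λ →
      ∫ u in x..y, Rw γ (u / Λ) * sm u ≤ (1 + δ) / (4 * Real.pi ^ 2) *
        ((1 + κ) * (LL * ∫ u in x..y, Rw γ (u / Λ) * w2 u) +
          (1 + 1 / κ) * ∫ u in x..y, Rw γ (u / Λ) * pc u) +
        ∫ u in x..y, Rw γ (u / Λ) * e u := by
    intro κ hκ x y hx hxy hy
    have h1 : ∫ u in x..y, Rw γ (u / Λ) * sm u ≤ ∫ u in x..y,
        ((1 + δ) / (4 * Real.pi ^ 2) * ((1 + κ) * (LL * (Rw γ (u / Λ) * w2 u)) +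
          (1 + 1 / κ) * (Rw γ (u / Λ) * pc u)) + Rw γ (u / Λ) * e u) := by
      refine intervalIntegral.integral_mono_on hxy (ii _ (by fun_prop) _ _)
        (ii _ (by fun_prop) _ _) ?_
      intro u hu
      have hu' : u ∈ Icc 0 Λ := ⟨hx.trans hu.1, hu.2.trans hy⟩
      have h2 := mul_le_mul_of_nonneg_left (key κ hκ u hu') (hRn (u / Λ))
      rw [← he] at h2
      refine h2.trans (le_of_eq ?_)
      ring
    refine h1.trans (le_of_eq ?_)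
    rw [intervalIntegral.integral_add (ii _ (by fun_prop) _ _) (ii _ (by fun_prop) _ _),
      intervalIntegral.integral_const_mul, intervalIntegral.integral_add (ii _ (by fun_prop) _ _)
        (ii _ (by fun_prop) _ _), intervalIntegral.integral_const_mul,
      intervalIntegral.integral_const_mul, intervalIntegral.integral_const_mul]
  have p1 := piece δ hδ 0 U le_rfl hU.le hUΛ
  have p2 := piece (1 / δ) (by positivity) U Λ hU.le hUΛ le_rfl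
  have hsplit : ∫ u in (0 : ℝ)..Λ, Rw γ (u / Λ) * sm u =
      (∫ u in (0 : ℝ)..U, Rw γ (u / Λ) * sm u) + ∫ u in U..Λ, Rw γ (u / Λ) * sm u :=
    (intervalIntegral.integral_add_adjacent_intervals (ii _ (by fun_prop) _ _)
      (ii _ (by fun_prop) _ _)).symm
  have hesplit : ∫ u in (0 : ℝ)..Λ, Rw γ (u / Λ) * e u =
      (∫ u in (0 : ℝ)..U, Rw γ (u / Λ) * e u) + ∫ u in U..Λ, Rw γ (u / Λ) * e u :=
    (intervalIntegral.integral_add_adjacent_intervals (ii _ (by fun_prop) _ _)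
      (ii _ (by fun_prop) _ _)).symm
  have bnd : ∀ (g : ℝ → ℝ), Continuous g → (∀ u, 0 ≤ g u) → ∀ x y : ℝ, 0 ≤ x → x ≤ y → y ≤ Λ →
      ∫ u in x..y, Rw γ (u / Λ) * g u ≤ Rw γ 0 * ∫ u in x..y, g u := by
    intro g hg hg0 x y hx hxy hy
    rw [← intervalIntegral.integral_const_mul]
    refine intervalIntegral.integral_mono_on hxy (ii _ (by fun_prop) _ _)
      (ii _ (by fun_prop) _ _) ?_
    intro u hu
    exact mul_le_mul_of_nonneg_right (hRle u ⟨hx.trans hu.1, hu.2.trans hy⟩) (hg0 u)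
  have hR0 := hRn 0
  have a1 : ∫ u in (0 : ℝ)..U, Rw γ (u / Λ) * w2 u ≤ Rw γ 0 * (Real.pi * (T2 - T1)) := by
    refine (bnd w2 cw2 nw2 0 U le_rfl hU.le hUΛ).trans (mul_le_mul_of_nonneg_left ?_ hR0)
    simp_rw [hw2]
    exact ww_sq_half hT hU.le
  have a2 : ∫ u in U..Λ, Rw γ (u / Λ) * w2 u ≤ Rw γ 0 * (4 / U) := by
    refine (bnd w2 cw2 nw2 U Λ hU.le hUΛ le_rfl).trans (mul_le_mul_of_nonneg_left ?_ hR0)
    simp_rw [hw2]
    exact ww_tail_int T1 T2 hU hUΛ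
  have a3 : ∫ u in (0 : ℝ)..U, Rw γ (u / Λ) * pc u ≤ Rw γ 0 * J4 :=
    (bnd pc cpc npc 0 U le_rfl hU.le hUΛ).trans (mul_le_mul_of_nonneg_left hJ4 hR0)
  have a4 : ∫ u in U..Λ, Rw γ (u / Λ) * pc u ≤ J3 := by
    refine le_trans ?_ hJ3
    refine intervalIntegral.integral_mono_interval hU.le hUΛ le_rfl ?_ (ii _ (by fun_prop) _ _)
    exact Eventually.of_forall fun u => mul_nonneg (hRn _) (npc u)
  obtain ⟨IP, hIP⟩ : ∃ x : ℝ, x = ∫ u in (0 : ℝ)..Λ, pm u := ⟨_, rfl⟩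
  rw [← hIP] at hJ5
  have a5 : ∫ u in (0 : ℝ)..Λ, Rw γ (u / Λ) * e u ≤ (1 + 1 / δ) *
      (2 * E1 ^ 2 * s.card * (Rw γ 0 * Λ) + 1 / (2 * Real.pi ^ 2) * (Rw γ 0 * J5)) := by
    have h1 : ∫ u in (0 : ℝ)..Λ, Rw γ (u / Λ) * e u ≤ Rw γ 0 * ∫ u in (0 : ℝ)..Λ, e u :=
      bnd e ce (fun u => by rw [he]; have := npm u; positivity) 0 Λ le_rfl hΛ.le le_rfl
    have h2 : ∫ u in (0 : ℝ)..Λ, e u = (1 + 1 / δ) * (2 * E1 ^ 2 * s.card * Λ +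
        1 / (2 * Real.pi ^ 2) * IP) := by
      simp_rw [he]
      rw [intervalIntegral.integral_const_mul, intervalIntegral.integral_add
        (ii _ (by fun_prop) _ _) (ii _ (by fun_prop) _ _), intervalIntegral.integral_const_mul,
        intervalIntegral.integral_const, smul_eq_mul, intervalIntegral.integral_const_mul, ← hIP,
        sub_zero]
      ring
    rw [h2] at h1
    refine h1.trans ?_
    have h3 : 1 / (2 * Real.pi ^ 2) * IP ≤ 1 / (2 * Real.pi ^ 2) * J5 :=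
      mul_le_mul_of_nonneg_left hJ5 (by positivity)
    calc Rw γ 0 * ((1 + 1 / δ) * (2 * E1 ^ 2 * s.card * Λ +
        1 / (2 * Real.pi ^ 2) * IP)) ≤
        Rw γ 0 * ((1 + 1 / δ) * (2 * E1 ^ 2 * s.card * Λ + 1 / (2 * Real.pi ^ 2) * J5)) := by
          refine mul_le_mul_of_nonneg_left (mul_le_mul_of_nonneg_left (by linarith)
            (by positivity)) hR0
      _ = _ := by ring
  refine mul_le_mul_of_nonneg_left ?_ (by positivity)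
  rw [hsplit]
  refine (add_le_add p1 p2).trans ?_
  rw [hesplit] at a5
  have e6 : 1 / (1 / δ) = δ := by rw [one_div_one_div]
  rw [e6]
  have b1 : (1 + δ) * (LL * ∫ u in (0 : ℝ)..U, Rw γ (u / Λ) * w2 u) ≤
      (1 + δ) * (LL * (Rw γ 0 * (Real.pi * (T2 - T1)))) := by gcongr
  have b2 : (1 + 1 / δ) * (LL * ∫ u in U..Λ, Rw γ (u / Λ) * w2 u) ≤
      (1 + 1 / δ) * (LL * (Rw γ 0 * (4 / U))) := by gcongr
  have b3 : (1 + 1 / δ) * ∫ u in (0 : ℝ)..U, Rw γ (u / Λ) * pc u ≤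
      (1 + 1 / δ) * (Rw γ 0 * J4) := by gcongr
  have b4 : (1 + δ) * ∫ u in U..Λ, Rw γ (u / Λ) * pc u ≤ (1 + δ) * J3 := by gcongr
  have hk0 : 0 ≤ (1 + δ) / (4 * Real.pi ^ 2) := by positivity
  have c1 := mul_le_mul_of_nonneg_left (add_le_add (add_le_add b1 b2) (add_le_add b3 b4)) hk0
  refine le_trans (le_of_eq ?_) (add_le_add (c1.trans (le_of_eq ?_)) a5)
  · ring
  · ring

end

end Pool.Agent.T9h27.Z
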