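import Pool.Agent.T9h27.Z.Asm

/-!
# All windows (helper27)
-/

set_option autoImplicit false

open MeasureTheory Complex Filter Topology Set
open scoped ComplexConjugate

namespace Pool.Agent.T9h27.Z

open H385 (Rw zz)
open H370 (mult zset NN Ns Nd)

section

variable {ι : Type}

lemma split_win (Z : Finset ℂ) (f : ℂ → ℝ) {a b c : ℝ} (hab : a ≤ b) (hbc : b ≤ c) :
    ∑ z ∈ Z.filter (fun z => a < z.im ∧ z.im ≤ c), f z =
      ∑ z ∈ Z.filter (fun z => a < z.im ∧ z.im ≤ b), f z +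
      ∑ z ∈ Z.filter (fun z => b < z.im ∧ z.im ≤ c), f z := by
  rw [Finset.sum_filter, Finset.sum_filter, Finset.sum_filter, ← Finset.sum_add_distrib]
  refine Finset.sum_congr rfl fun z _ => ?_
  by_cases h1 : a < z.im
  · by_cases h2 : z.im ≤ b
    · have h3 : z.im ≤ c := by linarith
      have h4 : ¬ b < z.im := by linarith
      simp [h1, h2, h3, h4]
    · push Not at h2
      have h3 : ¬ z.im ≤ b := by linarith
      simp [h1, h2, h3]
  · have h2 : ¬ b < z.im := by linarith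
    simp [h1, h2]

/-- from windows of bounded length to all windows -/
lemma all_win {G : ℝ → ℝ → ℝ} {R H1 T V : ℝ} (hR : 0 < R) (hH1 : 0 < H1)
    (hsub : ∀ a b c : ℝ, a ≤ b → b ≤ c → G a c ≤ G a b + G b c)
    (hsm : ∀ T1 T2 : ℝ, |T1| ≤ T → |T2| ≤ T → H1 ≤ (T2 - T1) * R → (T2 - T1) * R ≤ 2 * H1 →
      G T1 T2 ≤ V * (T2 - T1))
    {T1 T2 : ℝ} (h1 : |T1| ≤ T) (h2 : |T2| ≤ T) (h3 : H1 ≤ (T2 - T1) * R) :
    G T1 T2 ≤ V * (T2 - T1) := by
  obtain ⟨n, hn⟩ : ∃ n : ℕ, n = ⌊(T2 - T1) * R / H1⌋₊ := ⟨_, rfl⟩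
  have hq : 1 ≤ (T2 - T1) * R / H1 := by rw [le_div_iff₀ hH1]; linarith
  have hn1 : 1 ≤ n := by
    rw [hn]
    exact Nat.le_floor (by exact_mod_cast hq)
  have hn1' : (1 : ℝ) ≤ n := by exact_mod_cast hn1
  have hn0 : (0 : ℝ) < n := by linarith
  have hn2 : (n : ℝ) ≤ (T2 - T1) * R / H1 := by rw [hn]; exact Nat.floor_le (by linarith)
  have hn3 : (T2 - T1) * R / H1 < n + 1 := by rw [hn]; exact Nat.lt_floor_add_one _
  rw [le_div_iff₀ hH1] at hn2
  rw [div_lt_iff₀ hH1] at hn3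
  obtain ⟨h, hh⟩ : ∃ h : ℝ, h = (T2 - T1) / n := ⟨_, rfl⟩
  have hnh : (n : ℝ) * h = T2 - T1 := by rw [hh]; field_simp
  have hTT : 0 < T2 - T1 := by
    by_contra hcon
    push Not at hcon
    have := mul_nonpos_of_nonpos_of_nonneg hcon hR.le
    linarith
  have hh0 : 0 < h := by rw [hh]; positivity
  have hhR : h * R = (T2 - T1) * R / n := by rw [hh]; ring
  have hh1 : H1 ≤ h * R := by
    rw [hhR, le_div_iff₀ hn0]
    linarith
  have hh2 : h * R ≤ 2 * H1 := by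
    rw [hhR, div_le_iff₀ hn0]
    nlinarith
  have hA1 := abs_le.mp h1
  have hA2 := abs_le.mp h2
  have key : ∀ k : ℕ, 1 ≤ k → k ≤ n → G T1 (T1 + k * h) ≤ V * (k * h) := by
    intro k hk1
    induction k, hk1 using Nat.le_induction with
    | base =>
      intro _
      have e1 : T1 + ((1 : ℕ) : ℝ) * h = T1 + h := by push_cast; ring
      rw [e1]
      have hkn : h ≤ n * h := by
        have := mul_le_mul_of_nonneg_right hn1' hh0.le
        linarith
      have h5 := hsm T1 (T1 + h) h1 (by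
        rw [abs_le]
        constructor <;> linarith) (by
        have : (T1 + h - T1) = h := by ring
        rw [this]; exact hh1) (by
        have : (T1 + h - T1) = h := by ring
        rw [this]; exact hh2)
      have e2 : T1 + h - T1 = h := by ring
      rw [e2] at h5
      rw [Nat.cast_one, one_mul]
      exact h5
    | succ k hk1 ih =>
      intro hk
      have h4 := ih (by omega)
      have hk0 : (0 : ℝ) ≤ k := Nat.cast_nonneg k
      have hkh : 0 ≤ (k : ℝ) * h := by positivity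
      have hkn : ((k : ℝ) + 1) * h ≤ n * h := by
        have : ((k : ℝ) + 1) ≤ n := by exact_mod_cast hk
        exact mul_le_mul_of_nonneg_right this hh0.le
      have e1 : T1 + ((k + 1 : ℕ) : ℝ) * h = (T1 + k * h) + h := by push_cast; ring
      rw [e1]
      have h5 := hsm (T1 + k * h) ((T1 + k * h) + h) (by
        rw [abs_le]
        constructor <;> nlinarith) (by
        rw [abs_le]
        constructor <;> nlinarith) (by
        have : (T1 + k * h + h - (T1 + k * h)) = h := by ring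
        rw [this]; exact hh1) (by
        have : (T1 + k * h + h - (T1 + k * h)) = h := by ring
        rw [this]; exact hh2)
      have h6 := hsub T1 (T1 + k * h) (T1 + k * h + h) (by linarith) (by linarith)
      have e2 : T1 + k * h + h - (T1 + k * h) = h := by ring
      rw [e2] at h5
      have e3 : V * (((k + 1 : ℕ) : ℝ) * h) = V * (k * h) + V * h := by push_cast; ring
      rw [e3]
      exact h6.trans (add_le_add h4 h5)
  have h4 := key n hn1 le_rfl
  have e1 : T1 + n * h = T2 := by rw [hnh]; ring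
  rwa [e1, hnh] at h4

end

section

variable {J : Type} {ι : J → Type} {S : (j : J) → Finset (ι j)} {F : (j : J) → ι j → ℂ → ℂ}
  {a : (j : J) → ι j → ℕ → ℂ} {Q : (j : J) → ι j → ℝ} {X : J → ℝ} {q : J → ℕ} {c : ℕ → ℂ}
  {d A l₂ D θ : ℝ}

open Classical in
/-- **the theorem for families** -/
theorem win (hc : W388.SelE c) (h : FD S F a Q X q c d A l₂ D θ) {l : ℝ} (hl : 1 / 2 ≤ l)
    (hl2 : l < l₂) (hl21 : l₂ ≤ 1) (hD : 0 ≤ D) {γ : ℝ} (h0 : 0 < γ) (hπ : γ < Real.pi) {κ : ℝ}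
    (hκ : Rw γ 0 / l + 2 * l * D * (∫ α in (0 : ℝ)..1, α * Rw γ α) < κ) {δ : ℝ} (hδ : 0 < δ) :
    ∃ H1 η X0 : ℝ, 1 ≤ H1 ∧ 0 < η ∧ 1 ≤ X0 ∧ ∀ j, X0 ≤ X j → ∀ T1 T2 : ℝ, |T1| ≤ (X j) ^ η →
      H1 ≤ (T2 - T1) * Real.log (X j) → T2 - T1 ≤ (X j) ^ η →
      (∀ i ∈ S j, (zset (F j i) T1 T2).Finite) ∧
      ∑ i ∈ S j, (2 * (NN (F j i) T1 T2 : ℝ) - (Ns (F j i) T1 T2 : ℝ)) ≤
        κ * ∑ i ∈ S j, (NN (F j i) T1 T2 : ℝ) ∧
      ∑ i ∈ S j, (3 * (NN (F j i) T1 T2 : ℝ) - 2 * (Nd (F j i) T1 T2 : ℝ)) ≤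
        κ * ∑ i ∈ S j, (NN (F j i) T1 T2 : ℝ) ∧
      ∑ i ∈ S j, |(NN (F j i) T1 T2 : ℝ) - (T2 - T1) * Real.log (X j) / (2 * Real.pi)| ≤
        δ * ((T2 - T1) * Real.log (X j) / (2 * Real.pi)) * (S j).card := by
  obtain ⟨ε, hε⟩ : ∃ ε : ℝ, ε =
    min (δ / 2) (κ - (Rw γ 0 / l + 2 * l * D * (∫ α in (0 : ℝ)..1, α * Rw γ α))) := ⟨_, rfl⟩
  have hε0 : 0 < ε := by
    rw [hε]
    exact lt_min (by linarith) (by linarith)
  have hεδ : 2 * ε ≤ δ := by
    have h1 : ε ≤ δ / 2 := by rw [hε]; exact min_le_left _ _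
    linarith
  have hεκ : ε ≤ κ - (Rw γ 0 / l + 2 * l * D * (∫ α in (0 : ℝ)..1, α * Rw γ α)) := by
    rw [hε]; exact min_le_right _ _
  obtain ⟨H1, η, X0, hH1, hη, hX0, hsm⟩ := small_win hc h hl hl2 hl21 hD h0 hπ hε0
  refine ⟨H1, η, X0, hH1, hη, hX0, fun j hj => ?_⟩
  obtain ⟨hlog, Z, hZ, hsm⟩ := hsm j hj
  intro T1 T2 hT1 hH hT2
  obtain ⟨Y, hY⟩ : ∃ Y : ℝ, Y = (X j) ^ η := ⟨_, rfl⟩
  rw [← hY] at hZ hsm hT1 hT2
  have hY0 : 0 ≤ Y := (abs_nonneg _).trans hT1
  have hR : 0 < Real.log (X j) := by linarith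
  have hTT : T1 ≤ T2 := by
    by_contra hcon
    push Not at hcon
    have h1 := mul_neg_of_neg_of_pos (by linarith only [hcon] : T2 - T1 < 0) hR
    linarith only [h1, hH, hH1]
  have hA1 := abs_le.mp hT1
  have hT1' : |T1| ≤ 3 * Y := by linarith
  have hT2' : |T2| ≤ 3 * Y := by
    rw [abs_le]
    constructor <;> linarith
  have hiff : ∀ i ∈ S j, ∀ z, (z ∈ Z i ∧ T1 < z.im ∧ z.im ≤ T2) ↔ z ∈ zset (F j i) T1 T2 := by
    intro i hi z
    constructor
    · rintro ⟨z1, z2, z3⟩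
      obtain ⟨y1, y2, -, -, y5⟩ := (hZ i hi z).1 z1
      exact ⟨y1, y2, z2, z3, y5⟩
    · rintro ⟨y1, y2, y3, y4, y5⟩
      refine ⟨(hZ i hi z).2 ⟨y1, y2, by linarith, by linarith, y5⟩, y3, y4⟩
  have hm : ∀ i ∈ S j, ∀ z ∈ Z i, 1 ≤ mult (F j i) z := by
    intro i hi z hz
    obtain ⟨-, -, -, -, y5⟩ := (hZ i hi z).1 hz
    obtain ⟨g1, g2, g3⟩ := h.hG j i hi
    exact Pool.Agent.T9h27.D.ord_pos g3.diff (g3.nzr 2 (by norm_num)) y5
  have main : ∀ w : ι j → ℂ → ℝ, (∀ i ∈ S j, ∀ z ∈ Z i,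
        w i z ≤ 4 * (mult (F j i) z : ℝ) - H385.PerChi.kk (F j i) z ∧
          w i z ≤ 3 * (mult (F j i) z : ℝ)) →
      ∑ i ∈ S j, ∑ z ∈ (Z i).filter (fun z => T1 < z.im ∧ z.im ≤ T2), w i z ≤
        κ * ∑ i ∈ S j, (NN (F j i) T1 T2 : ℝ) := by
    intro w hw
    have h1 := all_win (G := fun a b => ∑ i ∈ S j, ∑ z ∈ (Z i).filter
        (fun z => a < z.im ∧ z.im ≤ b), (w i z - κ * (mult (F j i) z : ℝ)))
      (R := Real.log (X j)) (H1 := H1) (T := 3 * Y) (V := 0) hR (by linarith) (by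
      intro a b c hab hbc
      rw [← Finset.sum_add_distrib]
      exact le_of_eq (Finset.sum_congr rfl fun i _ => split_win (Z i) _ hab hbc)) (by
      intro a b ha hb h3 h4
      have h5 := (hsm a b ha hb h3 h4 w hw).1
      have h6 : 0 ≤ ∑ i ∈ S j, ∑ z ∈ (Z i).filter (fun z => a < z.im ∧ z.im ≤ b),
          (mult (F j i) z : ℝ) := Finset.sum_nonneg fun i _ => Finset.sum_nonneg fun z _ =>
            Nat.cast_nonneg _
      have h7 := mul_le_mul_of_nonneg_right hεκ h6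
      simp only [Finset.sum_sub_distrib, ← Finset.mul_sum]
      linarith) hT1' hT2' hH
    simp only [Finset.sum_sub_distrib, ← Finset.mul_sum] at h1
    have h2 : ∑ i ∈ S j, (NN (F j i) T1 T2 : ℝ) = ∑ i ∈ S j,
        ∑ z ∈ (Z i).filter (fun z => T1 < z.im ∧ z.im ≤ T2), (mult (F j i) z : ℝ) :=
      Finset.sum_congr rfl fun i hi => NN_filter (hiff i hi)
    rw [h2]
    linarith
  refine ⟨fun i hi => ?_, ?_, ?_, ?_⟩
  · rw [zset_filter (hiff i hi)]
    exact Finset.finite_toSet _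
  · refine le_trans (le_of_eq ?_) (main (fun i z => 2 * (mult (F j i) z : ℝ) -
        if (z.re = 1 / 2 ∧ mult (F j i) z = 1) then 1 else 0)
      (fun i hi z hz => w1_ok (hm i hi z hz)))
    exact Finset.sum_congr rfl fun i hi => Ns_filter (hiff i hi)
  · refine le_trans (le_of_eq ?_) (main (fun i z => 3 * (mult (F j i) z : ℝ) - 2)
      (fun i hi z hz => w2_ok (hm i hi z hz)))
    exact Finset.sum_congr rfl fun i hi => Nd_filter (hiff i hi)
  · have h1 := all_win (G := fun a b => ∑ i ∈ S j, |∑ z ∈ (Z i).filter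
        (fun z => a < z.im ∧ z.im ≤ b), (mult (F j i) z : ℝ) -
          (b - a) * Real.log (X j) / (2 * Real.pi)|)
      (R := Real.log (X j)) (H1 := H1) (T := 3 * Y)
      (V := δ * (Real.log (X j) / (2 * Real.pi)) * (S j).card) hR (by linarith) (by
      intro a b c hab hbc
      rw [← Finset.sum_add_distrib]
      refine Finset.sum_le_sum fun i _ => ?_
      rw [split_win (Z i) _ hab hbc]
      refine le_trans (le_of_eq ?_) (abs_add_le _ _)
      congr 1
      ring) (by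
      intro a b ha hb h3 h4
      have h5 := (hsm a b ha hb h3 h4 (fun i z => 3 * (mult (F j i) z : ℝ) - 2)
        (fun i hi z hz => w2_ok (hm i hi z hz))).2
      have h6 : 0 ≤ ((b - a) * Real.log (X j) / (2 * Real.pi)) * (S j).card := by
        have : 0 ≤ (b - a) * Real.log (X j) := by linarith
        positivity
      have h7 := mul_le_mul_of_nonneg_right hεδ h6
      have e1 : δ * (Real.log (X j) / (2 * Real.pi)) * (S j).card * (b - a) =
        δ * (((b - a) * Real.log (X j) / (2 * Real.pi)) * (S j).card) := by ring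
      rw [e1]
      linarith) hT1' hT2' hH
    have e2 : δ * (Real.log (X j) / (2 * Real.pi)) * (S j).card * (T2 - T1) =
      δ * ((T2 - T1) * Real.log (X j) / (2 * Real.pi)) * (S j).card := by ring
    rw [← e2]
    refine le_trans (le_of_eq (Finset.sum_congr rfl fun i hi => ?_)) h1
    rw [NN_filter (hiff i hi)]

end

end Pool.Agent.T9h27.Z
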